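import Mathlib
import Pool.Agent.Lib.MP_524521_nt.RA.Asym

/-!
# Tails of the zeta series: definitions

Words are lists of integers `≥ 2`; the head of the list is the innermost letter.
-/

open Polynomial

namespace Pool.Agent.Lib.MP_524521_nt.PT

/-- nested sums `y (s :: w) x = ∑ n, (x + n)^(-s) * y w (x + n)` -/
noncomputable def y : List ℕ → ℝ → ℝ
  | [], _ => 1
  | (s :: w), x => ∑' n : ℕ, 1 / (x + n) ^ s * y w (x + n)

/-- finite sets of words, closed under removing the first letter -/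
structure Closed (W : Finset (List ℕ)) : Prop where
  nil_mem : [] ∈ W
  tail_mem : ∀ (s : ℕ) (w : List ℕ), s :: w ∈ W → w ∈ W
  two_le : ∀ w ∈ W, ∀ s ∈ w, 2 ≤ s

/-- `M! / ((x - 1) x (x + 1) ⋯ (x + M - 1))` -/
noncomputable def rho (M : ℕ) (x : ℝ) : ℝ := M.factorial * RA.As.pj M x / (x - 1)

/-- the linear form in the nested sums with coefficients `Q` -/
noncomputable def form (W : Finset (List ℕ)) (Q : List ℕ → ℚ[X]) (x : ℝ) : ℝ :=
  ∑ w ∈ W, aeval x (Q w) * y w x

/-- the shifted form: `form W (nx k Q) x = x^k * form W Q (x + 1)` -/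
noncomputable def nx (k : ℕ) (Q : List ℕ → ℚ[X]) : List ℕ → ℚ[X] := fun v =>
  X ^ k * (Q v).comp (X + 1) - ∑ s ∈ Finset.Icc 2 k, X ^ (k - s) * (Q (s :: v)).comp (X + 1)

end Pool.Agent.Lib.MP_524521_nt.PT
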