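import Mathlib
import Pool.Agent.Lib.MP_524521_nt.PT.Defs

/-!
# Factorial series of the nested sums
-/

open Polynomial

namespace Pool.Agent.Lib.MP_524521_nt.PT

open RA.As

/-- `l! / (x (x + 1) ⋯ (x + l))` -/
noncomputable def be (l : ℕ) (x : ℝ) : ℝ := l.factorial * pj (l + 1) x

theorem be_pos {x : ℝ} (hx : 0 < x) (l : ℕ) : 0 < be l x :=
  mul_pos (by exact_mod_cast Nat.factorial_pos l) (pj_pos hx _)

theorem be_sub {x : ℝ} (hx : 0 < x) (l : ℕ) : be l x - be l (x + 1) = be (l + 1) x := by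
  have h := pj_sub hx (l + 1)
  unfold be
  rw [← mul_sub, h, Nat.factorial_succ]
  push_cast
  ring

theorem be_div {x : ℝ} (hx : 0 < x) (l : ℕ) :
    be l x / x = be (l + 1) x / x + be (l + 1) x / ((l : ℝ) + 1) := by
  have h := pj_eq hx (l + 1)
  unfold be
  rw [h, Nat.factorial_succ]
  have h1 : (0 : ℝ) < (l : ℝ) + 1 := by positivity
  push_cast
  field_simp
  ring

theorem rho_nonneg {x : ℝ} (hx : 1 < x) (R : ℕ) : 0 ≤ rho R x := by
  unfold rho
  have h1 := pj_pos (by linarith : (0:ℝ) < x) R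
  have h2 : 0 < x - 1 := by linarith
  positivity

theorem rho_zero (x : ℝ) : rho 0 x = 1 / (x - 1) := by
  simp [rho, pj]

theorem be_eq_rho {x : ℝ} (hx : 1 < x) (R : ℕ) : ((R : ℝ) + 1) * be R x = (x - 1) * rho (R + 1) x := by
  have h2 : x - 1 ≠ 0 := by intro h; linarith
  unfold be rho
  rw [Nat.factorial_succ]
  push_cast
  field_simp

/-- `C` are the first coefficients of the factorial series of `g` -/
def Exp (R : ℕ) (C : ℕ → ℚ) (g : ℝ → ℝ) : Prop :=
  ∀ x : ℝ, 1 < x → 0 ≤ g x - ∑ l ∈ Finset.range R, (C l : ℝ) * be l x ∧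
    g x - ∑ l ∈ Finset.range R, (C l : ℝ) * be l x ≤ rho R x

/-- division by `x` -/
def DD (C : ℕ → ℚ) : ℕ → ℚ := fun r => (∑ l ∈ Finset.range r, C l) / r

def d0 : ℕ → ℚ := fun l => if l = 0 then 1 else 0

theorem DD_zero (C : ℕ → ℚ) : DD C 0 = 0 := by simp [DD]

theorem DD_bound {C : ℕ → ℚ} (h : ∀ l, 0 ≤ C l ∧ C l ≤ 1) (r : ℕ) : 0 ≤ DD C r ∧ DD C r ≤ 1 := by
  unfold DD
  refine ⟨div_nonneg (Finset.sum_nonneg fun l _ => (h l).1) (Nat.cast_nonneg r), ?_⟩
  rcases Nat.eq_zero_or_pos r with rfl | hr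
  · simp
  · rw [div_le_one (by exact_mod_cast hr)]
    calc ∑ l ∈ Finset.range r, C l ≤ ∑ _l ∈ Finset.range r, (1 : ℚ) :=
          Finset.sum_le_sum fun l _ => (h l).2
      _ = r := by simp

theorem DDpow_bound {C : ℕ → ℚ} (h : ∀ l, 0 ≤ C l ∧ C l ≤ 1) (j : ℕ) :
    ∀ l, 0 ≤ (DD^[j] C) l ∧ (DD^[j] C) l ≤ 1 := by
  induction j with
  | zero => exact h
  | succ j ih =>
    rw [Function.iterate_succ_apply']
    exact DD_bound ih

theorem d0_bound (l : ℕ) : 0 ≤ d0 l ∧ d0 l ≤ 1 := by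
  unfold d0; split_ifs <;> norm_num

theorem sum_div_x (C : ℕ → ℚ) {x : ℝ} (hx : 0 < x) (R : ℕ) :
    (∑ l ∈ Finset.range (R + 1), (C l : ℝ) * be l x) / x =
      ∑ r ∈ Finset.range (R + 1), (DD C r : ℝ) * be r x +
        (∑ l ∈ Finset.range (R + 1), (C l : ℝ)) * (be R x / x) := by
  induction R with
  | zero => simp [DD_zero, mul_div_assoc]
  | succ R ih =>
    rw [Finset.sum_range_succ, add_div, ih, Finset.sum_range_succ _ (R + 1),
      Finset.sum_range_succ (fun l => (C l : ℝ)) (R + 1), be_div hx R]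
    have h1 : (DD C (R + 1) : ℝ) = (∑ l ∈ Finset.range (R + 1), (C l : ℝ)) / ((R : ℝ) + 1) := by
      unfold DD
      push_cast
      rfl
    rw [h1]
    ring

theorem Exp.div {R : ℕ} {C : ℕ → ℚ} {g : ℝ → ℝ} (hC : ∀ l, 0 ≤ C l ∧ C l ≤ 1) (h : Exp R C g) :
    Exp R (DD C) (fun x => 1 / x * g x) := by
  intro x hx
  have hx0 : 0 < x := by linarith
  have hx1 : 0 < x - 1 := by linarith
  obtain ⟨h1, h2⟩ := h x hx
  have hrho := rho_nonneg hx R
  rcases R with _ | R
  · simp only [Finset.range_zero, Finset.sum_empty, sub_zero] at h1 h2 ⊢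
    refine ⟨by positivity, ?_⟩
    have h3 : 1 / x ≤ 1 := by rw [div_le_one hx0]; linarith
    calc 1 / x * g x ≤ 1 * g x := by gcongr
      _ ≤ rho 0 x := by rw [one_mul]; exact h2
  · set S := ∑ l ∈ Finset.range (R + 1), (C l : ℝ) * be l x with hS
    set A := ∑ l ∈ Finset.range (R + 1), (C l : ℝ) with hA
    have h3 := sum_div_x C hx0 R
    rw [← hS, ← hA] at h3
    have hA0 : 0 ≤ A := Finset.sum_nonneg fun l _ => by exact_mod_cast (hC l).1
    have hA1 : A ≤ (R : ℝ) + 1 := by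
      calc A ≤ ∑ _l ∈ Finset.range (R + 1), (1 : ℝ) :=
            Finset.sum_le_sum fun l _ => by exact_mod_cast (hC l).2
        _ = (R : ℝ) + 1 := by simp
    have hb := be_pos hx0 R
    have e1 : 1 / x * g x - ∑ r ∈ Finset.range (R + 1), (DD C r : ℝ) * be r x =
        A * (be R x / x) + (g x - S) / x := by
      have : ∑ r ∈ Finset.range (R + 1), (DD C r : ℝ) * be r x = S / x - A * (be R x / x) := by
        rw [h3]; ring
      rw [this]; ring
    simp only
    rw [e1]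
    refine ⟨by positivity, ?_⟩
    have h4 := be_eq_rho hx R
    have h5 : A * (be R x / x) ≤ (x - 1) * rho (R + 1) x / x := by
      rw [← h4, ← mul_div_assoc]
      gcongr
    have h6 : (g x - S) / x ≤ rho (R + 1) x / x := by gcongr
    have h7 : (x - 1) * rho (R + 1) x / x + rho (R + 1) x / x = rho (R + 1) x := by
      field_simp; ring
    linarith

theorem Exp_inv (R : ℕ) : Exp R d0 (fun x => 1 / x) := by
  intro x hx
  have hx0 : 0 < x := by linarith
  have hx1 : 0 < x - 1 := by linarith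
  rcases R with _ | R
  · simp only [Finset.range_zero, Finset.sum_empty, sub_zero]
    rw [rho_zero]
    exact ⟨by positivity, by gcongr; linarith⟩
  · have h1 : ∑ l ∈ Finset.range (R + 1), (d0 l : ℝ) * be l x = 1 / x := by
      rw [Finset.sum_eq_single 0]
      · simp [d0, be, pj_one]
      · intro l _ hl
        simp [d0, hl]
      · simp
    rw [h1, sub_self]
    exact ⟨le_rfl, rho_nonneg hx _⟩

theorem Exp.div_pow {C : ℕ → ℚ} {g : ℝ → ℝ} (hC : ∀ l, 0 ≤ C l ∧ C l ≤ 1)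
    (h : ∀ R, Exp R C g) (j : ℕ) : ∀ R, Exp R (DD^[j] C) (fun x => 1 / x ^ j * g x) := by
  induction j with
  | zero =>
    intro R x hx
    simpa using h R x hx
  | succ j ih =>
    intro R
    rw [Function.iterate_succ_apply']
    have h1 := (ih R).div (DDpow_bound hC j)
    intro x hx
    have h2 := h1 x hx
    have h3 : 1 / x ^ (j + 1) * g x = 1 / x * (1 / x ^ j * g x) := by
      rw [pow_succ]
      field_simp
    simp only at h2 ⊢
    rw [h3]
    exact h2

theorem pj_tendsto' {x : ℝ} (hx : 0 < x) {j : ℕ} (hj : 1 ≤ j) :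
    Filter.Tendsto (fun n : ℕ => pj j (x + n)) Filter.atTop (nhds 0) := by
  have h1 := pj_tendsto (x := x + 1) (by linarith) hj
  have h2 : (fun n : ℕ => pj j (x + 1 + n)) = fun n : ℕ => (fun n : ℕ => pj j (x + n)) (n + 1) := by
    funext n
    simp only
    congr 1
    push_cast; ring
  rw [h2] at h1
  exact (Filter.tendsto_add_atTop_iff_nat (f := fun n : ℕ => pj j (x + n)) 1).1 h1

theorem pj_hasSum' {x : ℝ} (hx : 0 < x) {j : ℕ} (hj : 1 ≤ j) :
    HasSum (fun n : ℕ => pj (j + 1) (x + n)) (pj j x / j) := by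
  have hj0 : (0:ℝ) < j := by exact_mod_cast hj
  rw [hasSum_iff_tendsto_nat_of_nonneg (fun n => (pj_pos (by positivity) _).le)]
  have h1 : ∀ N : ℕ, ∑ n ∈ Finset.range N, pj (j + 1) (x + n) =
      (pj j x - pj j (x + N)) / j := by
    intro N
    induction N with
    | zero => simp
    | succ N ih =>
      have h2 := pj_sub (x := x + N) (by positivity) j
      rw [Finset.sum_range_succ, ih]
      push_cast
      rw [← add_assoc, eq_div_iff hj0.ne', add_mul, div_mul_cancel₀ _ hj0.ne']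
      linarith
  simp only [h1]
  have h3 := ((pj_tendsto' hx hj).const_sub (pj j x)).div_const (j : ℝ)
  simpa using h3

theorem be_hasSum {x : ℝ} (hx : 0 < x) (l : ℕ) : HasSum (fun n : ℕ => be (l + 1) (x + n)) (be l x) := by
  have h := (pj_hasSum' hx (j := l + 1) (by omega)).mul_left ((l + 1).factorial : ℝ)
  have h1 : ((l + 1).factorial : ℝ) * (pj (l + 1) x / ((l + 1 : ℕ) : ℝ)) = be l x := by
    unfold be
    rw [Nat.factorial_succ]
    push_cast
    field_simp
  rw [h1] at h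
  exact h

theorem rho_eq_pj {x : ℝ} (hx : 1 < x) (R : ℕ) : rho R x = R.factorial * pj (R + 1) (x - 1) := by
  have h := pj_shift (x := x - 1) (by linarith) R
  rw [sub_add_cancel] at h
  unfold rho
  rw [h]
  have h2 : x - 1 ≠ 0 := by intro h; linarith
  field_simp

theorem rho_hasSum {x : ℝ} (hx : 1 < x) (R : ℕ) : HasSum (fun n : ℕ => rho (R + 1) (x + n)) (rho R x) := by
  have h := be_hasSum (x := x - 1) (by linarith) R
  have h1 : be R (x - 1) = rho R x := by rw [rho_eq_pj hx]; rfl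
  rw [h1] at h
  have h2 : (fun n : ℕ => rho (R + 1) (x + n)) = fun n : ℕ => be (R + 1) (x - 1 + n) := by
    funext n
    rw [rho_eq_pj (by have : (0:ℝ) ≤ n := Nat.cast_nonneg n; linarith)]
    unfold be
    congr 2
    ring
  rw [h2]
  exact h

theorem Exp.hasSum {R : ℕ} {C : ℕ → ℚ} {g : ℝ → ℝ} (hC : C 0 = 0) (h : Exp (R + 1) C g) {x : ℝ}
    (hx : 1 < x) : Summable (fun n : ℕ => g (x + n)) ∧
      0 ≤ (∑' n : ℕ, g (x + n)) - ∑ l ∈ Finset.range R, (C (l + 1) : ℝ) * be l x ∧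
      (∑' n : ℕ, g (x + n)) - ∑ l ∈ Finset.range R, (C (l + 1) : ℝ) * be l x ≤ rho R x := by
  have hx0 : 0 < x := by linarith
  have hn : ∀ n : ℕ, 1 < x + n := fun n => by
    have : (0:ℝ) ≤ n := Nat.cast_nonneg n
    linarith
  set r : ℕ → ℝ := fun n => g (x + n) - ∑ l ∈ Finset.range (R + 1), (C l : ℝ) * be l (x + n) with hr
  have hr0 : ∀ n, 0 ≤ r n := fun n => (h _ (hn n)).1
  have hr1 : ∀ n, r n ≤ rho (R + 1) (x + n) := fun n => (h _ (hn n)).2
  have hsum := rho_hasSum hx R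
  have hrs : Summable r := Summable.of_nonneg_of_le hr0 hr1 hsum.summable
  have hmain : HasSum (fun n : ℕ => ∑ l ∈ Finset.range R, (C (l + 1) : ℝ) * be (l + 1) (x + n))
      (∑ l ∈ Finset.range R, (C (l + 1) : ℝ) * be l x) :=
    hasSum_sum fun l _ => (be_hasSum hx0 l).mul_left _
  have hg : (fun n : ℕ => g (x + n)) = fun n : ℕ =>
      ∑ l ∈ Finset.range R, (C (l + 1) : ℝ) * be (l + 1) (x + n) + r n := by
    funext n
    rw [hr]
    simp only
    rw [Finset.sum_range_succ', hC]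
    push_cast
    ring
  have hall := hmain.add hrs.hasSum
  rw [← hg] at hall
  refine ⟨hall.summable, ?_, ?_⟩
  · rw [hall.tsum_eq, add_sub_cancel_left]
    exact tsum_nonneg hr0
  · rw [hall.tsum_eq, add_sub_cancel_left, ← hsum.tsum_eq]
    exact hrs.tsum_le_tsum hr1 hsum.summable

/-- the coefficients of the factorial series of `y w` -/
def Cw : List ℕ → ℕ → ℚ
  | [] => fun _ => 0
  | [s] => fun l => (DD^[s - 1] d0) (l + 1)
  | (s :: t :: w) => fun l => (DD^[s] (Cw (t :: w))) (l + 1)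

theorem Cw_bound : ∀ (w : List ℕ) (l : ℕ), 0 ≤ Cw w l ∧ Cw w l ≤ 1
  | [], l => by simp [Cw]
  | [s], l => by
    rw [Cw]; exact DDpow_bound d0_bound _ _
  | (s :: t :: w), l => by
    rw [Cw]; exact DDpow_bound (Cw_bound (t :: w)) _ _

/-- the expansion, together with summability -/
theorem expn : ∀ (w : List ℕ), w ≠ [] → (∀ s ∈ w, 2 ≤ s) → ∀ R, Exp R (Cw w) (y w)
  | [], h, _ => absurd rfl h
  | [s], _, hs => by
    intro R x hx
    have hs2 : 2 ≤ s := hs s (by simp)
    have h1 := Exp.div_pow d0_bound Exp_inv (s - 1) (R + 1)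
    have h0 : (DD^[s - 1] d0) 0 = 0 := by
      obtain ⟨j, hj⟩ : ∃ j, s - 1 = j + 1 := ⟨s - 2, by omega⟩
      rw [hj, Function.iterate_succ_apply']
      exact DD_zero _
    obtain ⟨h2, h3, h4⟩ := h1.hasSum h0 hx
    have hy : y [s] x = ∑' n : ℕ, (fun x : ℝ => 1 / x ^ (s - 1) * (1 / x)) (x + n) := by
      rw [y]
      apply tsum_congr
      intro n
      have hxn : x + n ≠ 0 := by have : (0:ℝ) ≤ n := Nat.cast_nonneg n; intro h; linarith
      have e : s = (s - 1) + 1 := by omega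
      conv_lhs => rw [e, pow_succ]
      simp only [y, mul_one]
      field_simp
    rw [hy]
    exact ⟨h3, h4⟩
  | (s :: t :: w), _, hs => by
    intro R x hx
    have hs2 : 2 ≤ s := hs s (by simp)
    have ih := expn (t :: w) (by simp) (fun u hu => hs u (List.mem_cons_of_mem _ hu))
    have h1 := Exp.div_pow (Cw_bound (t :: w)) ih s (R + 1)
    have h0 : (DD^[s] (Cw (t :: w))) 0 = 0 := by
      obtain ⟨j, hj⟩ : ∃ j, s = j + 1 := ⟨s - 1, by omega⟩
      rw [hj, Function.iterate_succ_apply']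
      exact DD_zero _
    obtain ⟨h2, h3, h4⟩ := h1.hasSum h0 hx
    exact ⟨h3, h4⟩

theorem y_summable_aux {s : ℕ} {w : List ℕ} (hs : 2 ≤ s) (hw : ∀ t ∈ w, 2 ≤ t) {x : ℝ} (hx : 1 < x) :
    Summable fun n : ℕ => 1 / (x + n) ^ s * y w (x + n) := by
  rcases w with _ | ⟨t, w⟩
  · have h1 := Exp.div_pow d0_bound Exp_inv (s - 1) 1
    have h0 : (DD^[s - 1] d0) 0 = 0 := by
      obtain ⟨j, hj⟩ : ∃ j, s - 1 = j + 1 := ⟨s - 2, by omega⟩
      rw [hj, Function.iterate_succ_apply']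
      exact DD_zero _
    obtain ⟨h2, -, -⟩ := h1.hasSum h0 hx
    refine h2.congr fun n => ?_
    have hxn : x + n ≠ 0 := by have : (0:ℝ) ≤ n := Nat.cast_nonneg n; intro h; linarith
    have e : s = (s - 1) + 1 := by omega
    have e2 : (x + n) ^ s = (x + n) ^ (s - 1) * (x + n) := by
      conv_lhs => rw [e, pow_succ]
    rw [e2]
    simp only [y, mul_one]
    field_simp
  · have h1 := Exp.div_pow (Cw_bound (t :: w)) (expn (t :: w) (by simp) hw) s 1
    have h0 : (DD^[s] (Cw (t :: w))) 0 = 0 := by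
      obtain ⟨j, hj⟩ : ∃ j, s = j + 1 := ⟨s - 1, by omega⟩
      rw [hj, Function.iterate_succ_apply']
      exact DD_zero _
    exact (h1.hasSum h0 hx).1

/-- summability of the nested sums -/
theorem y_summable {s : ℕ} {w : List ℕ} (hs : 2 ≤ s) (hw : ∀ t ∈ w, 2 ≤ t) {x : ℝ} (hx : 0 < x) :
    Summable fun n : ℕ => 1 / (x + n) ^ s * y w (x + n) := by
  have h := y_summable_aux hs hw (x := x + 1) (by linarith)
  have h2 : (fun n : ℕ => 1 / (x + 1 + n) ^ s * y w (x + 1 + n)) =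
      fun n : ℕ => (fun n : ℕ => 1 / (x + n) ^ s * y w (x + n)) (n + 1) := by
    funext n
    have : x + 1 + n = x + ((n + 1 : ℕ) : ℝ) := by push_cast; ring
    simp only
    rw [this]
  rw [h2] at h
  exact (summable_nat_add_iff (f := fun n : ℕ => 1 / (x + n) ^ s * y w (x + n)) 1).1 h

/-- the difference equation -/
theorem y_succ {s : ℕ} {w : List ℕ} (hs : 2 ≤ s) (hw : ∀ t ∈ w, 2 ≤ t) {x : ℝ} (hx : 0 < x) :
    y (s :: w) x = 1 / x ^ s * y w x + y (s :: w) (x + 1) := by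
  have h := (y_summable hs hw hx).tsum_eq_zero_add
  rw [y, h]
  congr 1
  · simp
  · rw [y]
    apply tsum_congr
    intro n
    have : x + 1 + n = x + ((n + 1 : ℕ) : ℝ) := by push_cast; ring
    rw [this]

theorem y_nonneg : ∀ (w : List ℕ) {x : ℝ}, 0 < x → 0 ≤ y w x
  | [], x, _ => by simp [y]
  | (s :: w), x, hx => by
    rw [y]
    refine tsum_nonneg fun n => ?_
    have h1 : 0 < x + n := by positivity
    have := y_nonneg w h1
    positivity

theorem y_le {w : List ℕ} (h0 : w ≠ []) (hw : ∀ t ∈ w, 2 ≤ t) {x : ℝ} (hx : 1 < x) :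
    y w x ≤ 1 / (x - 1) := by
  have h := (expn w h0 hw 0 x hx).2
  simpa [rho_zero] using h

theorem y_le_one {w : List ℕ} (hw : ∀ t ∈ w, 2 ≤ t) {x : ℝ} (hx : 2 ≤ x) : y w x ≤ 1 := by
  rcases eq_or_ne w [] with rfl | h0
  · simp [y]
  · refine (y_le h0 hw (by linarith)).trans ?_
    rw [div_le_one (by linarith)]
    linarith

theorem y_tendsto {w : List ℕ} (h0 : w ≠ []) (hw : ∀ t ∈ w, 2 ≤ t) {x : ℝ} (hx : 0 < x) :
    Filter.Tendsto (fun n : ℕ => y w (x + n)) Filter.atTop (nhds 0) := by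
  have h1 : Filter.Tendsto (fun n : ℕ => 1 / ((n : ℝ) + 1)) Filter.atTop (nhds 0) :=
    tendsto_one_div_add_atTop_nhds_zero_nat
  have h2 : Filter.Tendsto (fun n : ℕ => y w (x + ((n + 2 : ℕ) : ℝ))) Filter.atTop (nhds 0) := by
    refine squeeze_zero (fun n => y_nonneg w (by positivity)) (fun n => ?_) h1
    have h3 : (0:ℝ) ≤ n := Nat.cast_nonneg n
    refine (y_le h0 hw (by push_cast; linarith)).trans ?_
    apply one_div_le_one_div_of_le (by positivity)
    push_cast
    linarith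
  exact (Filter.tendsto_add_atTop_iff_nat (f := fun n : ℕ => y w (x + n)) 2).1 h2

end Pool.Agent.Lib.MP_524521_nt.PT
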