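import Mathlib
import Pool.Agent.Lib.MP_524521_nt.PT.Expn

/-!
# Multiplication of factorial series by binomial polynomials
-/

open Polynomial

namespace Pool.Agent.Lib.MP_524521_nt.PT

open RA.As

/-- `x (x + 1) ⋯ (x + a - 1) / a!` -/
noncomputable def bn (a : ℕ) (x : ℝ) : ℝ := (∏ i ∈ Finset.range a, (x + i)) / a.factorial

/-- the polynomial `X (X + 1) ⋯ (X + a - 1) / a!` -/
noncomputable def bP (a : ℕ) : ℚ[X] := C ((a.factorial : ℚ)⁻¹) * ascPochhammer ℚ a

theorem choose_fac (a j : ℕ) :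
    ((a + j).choose a : ℝ) * (a.factorial * j.factorial) = (a + j).factorial := by
  have := Nat.add_choose_mul_factorial_mul_factorial a j
  rw [← this, Nat.choose_symm_add]
  push_cast
  ring

theorem bn_pos {x : ℝ} (hx : 0 < x) (a : ℕ) : 0 < bn a x :=
  div_pos (prod_pos hx a) (by exact_mod_cast Nat.factorial_pos a)

theorem aeval_asc (a : ℕ) (x : ℝ) : aeval x (ascPochhammer ℚ a) = ∏ i ∈ Finset.range a, (x + i) := by
  induction a with
  | zero => simp
  | succ a ih =>
    rw [ascPochhammer_succ_right, map_mul, ih, Finset.prod_range_succ]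
    simp

theorem aeval_bP (a : ℕ) (x : ℝ) : aeval x (bP a) = bn a x := by
  rw [bP, map_mul, aeval_asc, aeval_C, bn]
  simp [div_eq_inv_mul]

theorem natDegree_bP (a : ℕ) : (bP a).natDegree = a := by
  rw [bP, natDegree_C_mul (by positivity), ascPochhammer_natDegree]

theorem prod_pj {x : ℝ} (hx : 0 < x) (a j : ℕ) :
    (∏ i ∈ Finset.range a, (x + i)) * pj (a + j) x = pj j (x + a) := by
  unfold pj
  rw [Finset.prod_range_add, mul_inv]
  have h1 := (prod_pos hx a).ne'
  rw [← mul_assoc, mul_inv_cancel₀ h1, one_mul]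
  congr 1
  apply Finset.prod_congr rfl
  intro i _
  push_cast
  ring

theorem prod_pj' {x : ℝ} (hx : 0 < x) (a j : ℕ) :
    (∏ i ∈ Finset.range (a + j), (x + i)) * pj a x = ∏ i ∈ Finset.range j, (x + a + i) := by
  unfold pj
  rw [Finset.prod_range_add]
  have h1 := (prod_pos hx a).ne'
  field_simp
  apply Finset.prod_congr rfl
  intro i _
  push_cast
  ring

/-- the case `a ≤ l` -/
theorem bn_mul_be {x : ℝ} (hx : 0 < x) (a j : ℕ) :
    bn a x * be (a + j) x = ((a + j).choose a : ℝ) * be j (x + a) := by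
  have h := prod_pj hx a (j + 1)
  unfold bn be
  rw [← h]
  have h2 := choose_fac a j
  have h3 : (0:ℝ) < a.factorial := by exact_mod_cast Nat.factorial_pos a
  rw [show a + j + 1 = a + (j + 1) by ring, ← h2]
  field_simp

/-- the case `l < a` -/
theorem bn_mul_be' {x : ℝ} (hx : 0 < x) (l j : ℕ) :
    bn (l + 1 + j) x * be l x =
      bn j (x + (l + 1 : ℕ)) / (((l + 1) * (l + 1 + j).choose (l + 1) : ℕ) : ℝ) := by
  have h := prod_pj' hx (l + 1) j
  unfold bn be
  rw [← h]
  have h2 := choose_fac (l + 1) j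
  have h3 : (0:ℝ) < (l + 1).factorial := by exact_mod_cast Nat.factorial_pos (l + 1)
  have h4 : (0:ℝ) < l.factorial := by exact_mod_cast Nat.factorial_pos l
  have h5 : (0:ℝ) < j.factorial := by exact_mod_cast Nat.factorial_pos j
  have h6 : (0:ℝ) < (l + 1 + j).choose (l + 1) := by
    exact_mod_cast Nat.choose_pos (by omega)
  have h7 : ((l + 1).factorial : ℝ) = (l + 1) * l.factorial := by
    rw [Nat.factorial_succ]; push_cast; ring
  rw [← h2, h7]
  push_cast
  field_simp

theorem be_shift {x : ℝ} (hx : 0 < x) (a : ℕ) : ∀ l : ℕ,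
    be l (x + a) = ∑ i ∈ Finset.range (a + 1), (-1) ^ i * (a.choose i : ℝ) * be (l + i) x := by
  induction a generalizing x with
  | zero => intro l; simp
  | succ a ih =>
    intro l
    have h1 := ih (x := x + 1) (by linarith) l
    have h2 : x + ((a + 1 : ℕ) : ℝ) = x + 1 + a := by push_cast; ring
    rw [h2, h1]
    have h3 : ∀ i, be (l + i) (x + 1) = be (l + i) x - be (l + (i + 1)) x := by
      intro i
      have := be_sub hx (l + i)
      rw [show l + (i + 1) = l + i + 1 by ring]
      linarith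
    simp only [h3, mul_sub, Finset.sum_sub_distrib]
    rw [Finset.sum_range_succ' _ (a + 1)]
    have h4 : ∀ i ∈ Finset.range (a + 1), (-1 : ℝ) ^ (i + 1) * ((a + 1).choose (i + 1) : ℝ) * be (l + (i + 1)) x =
        (-1) ^ (i + 1) * (a.choose (i + 1) : ℝ) * be (l + (i + 1)) x -
          (-1) ^ i * (a.choose i : ℝ) * be (l + (i + 1)) x := by
      intro i _
      rw [Nat.choose_succ_succ]
      push_cast
      ring
    rw [Finset.sum_congr rfl h4, Finset.sum_sub_distrib]
    have h5 : ∑ i ∈ Finset.range (a + 1), (-1 : ℝ) ^ i * (a.choose i : ℝ) * be (l + i) x =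
        ∑ i ∈ Finset.range (a + 1), (-1 : ℝ) ^ (i + 1) * (a.choose (i + 1) : ℝ) * be (l + (i + 1)) x +
          be l x := by
      have h6 := Finset.sum_range_succ' (fun i => (-1 : ℝ) ^ i * (a.choose i : ℝ) * be (l + i) x) (a + 1)
      have h7 := Finset.sum_range_succ (fun i => (-1 : ℝ) ^ i * (a.choose i : ℝ) * be (l + i) x) (a + 1)
      rw [h7] at h6
      simpa using h6
    rw [h5]
    simp
    ring

/-- the coefficient of `be r` in `bn a * be l`, `l ≥ a` -/
theorem bn_mul_be_sum {x : ℝ} (hx : 0 < x) (a j : ℕ) :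
    bn a x * be (a + j) x = ∑ i ∈ Finset.range (a + 1),
      ((a + j).choose a : ℝ) * ((-1) ^ i * (a.choose i : ℝ)) * be (i + j) x := by
  rw [bn_mul_be hx, be_shift hx, Finset.mul_sum]
  apply Finset.sum_congr rfl
  intro i _
  rw [add_comm j i]
  ring

theorem rho_succ_le {x : ℝ} (hx : 1 < x) (R : ℕ) : rho (R + 1) x ≤ rho R x := by
  have hx0 : 0 < x := by linarith
  have h1 := pj_eq hx0 R
  have h2 := pj_pos hx0 (R + 1)
  have h3 : 0 < x - 1 := by linarith
  unfold rho
  rw [h1, Nat.factorial_succ]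
  push_cast
  apply div_le_div_of_nonneg_right _ h3.le
  have h4 : (0:ℝ) < R.factorial := by exact_mod_cast Nat.factorial_pos R
  have h5 : ((R:ℝ) + 1) ≤ x + R := by linarith
  calc ((R:ℝ) + 1) * R.factorial * pj (R + 1) x ≤ (x + R) * R.factorial * pj (R + 1) x := by gcongr
    _ = R.factorial * ((x + R) * pj (R + 1) x) := by ring

theorem rho_anti {x : ℝ} (hx : 1 < x) {M R : ℕ} (h : M ≤ R) : rho R x ≤ rho M x :=
  antitone_nat_of_succ_le (f := fun R => rho R x) (fun R => rho_succ_le hx R) h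

theorem be_le_rho {x : ℝ} (hx : 1 < x) (R : ℕ) : be R x ≤ rho R x := by
  have hx0 : 0 < x := by linarith
  have h1 := pj_eq hx0 R
  have h2 := pj_pos hx0 (R + 1)
  have h3 : 0 < x - 1 := by linarith
  have h4 : (0:ℝ) < R.factorial := by exact_mod_cast Nat.factorial_pos R
  unfold rho be
  rw [h1, le_div_iff₀ h3]
  have h5 : x - 1 ≤ x + R := by have : (0:ℝ) ≤ R := Nat.cast_nonneg R; linarith
  calc R.factorial * pj (R + 1) x * (x - 1) ≤ R.factorial * pj (R + 1) x * (x + R) := by gcongr
    _ = R.factorial * ((x + R) * pj (R + 1) x) := by ring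

theorem pj_anti {x x' : ℝ} (hx : 0 < x) (h : x ≤ x') (j : ℕ) : pj j x' ≤ pj j x := by
  unfold pj
  apply inv_anti₀ (prod_pos hx j)
  apply Finset.prod_le_prod
  · intro i _; positivity
  · intro i _; linarith

theorem bn_mul_rho {x : ℝ} (hx : 1 < x) (a j : ℕ) :
    bn a x * rho (a + j) x ≤ ((a + j).choose a : ℝ) * rho j x := by
  have hx0 : 0 < x := by linarith
  have h := prod_pj hx0 a j
  have h1 := pj_anti hx0 (by have : (0:ℝ) ≤ a := Nat.cast_nonneg a; linarith : x ≤ x + a) j
  have h3 : 0 < x - 1 := by linarith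
  have h4 : (0:ℝ) < a.factorial := by exact_mod_cast Nat.factorial_pos a
  have h2 := choose_fac a j
  unfold bn rho
  have e1 : (∏ i ∈ Finset.range a, (x + i)) / a.factorial * ((a + j).factorial * pj (a + j) x / (x - 1)) =
      ((a + j).choose a : ℝ) * (j.factorial * pj j (x + a) / (x - 1)) := by
    rw [← h, ← h2]
    field_simp
  rw [e1]
  gcongr

theorem eval_bP_nat (a n : ℕ) (hn : 1 ≤ n) : (bP a).eval (n : ℚ) = ((n + a - 1).choose a : ℕ) := by
  rw [bP, eval_mul, eval_C]
  have h1 : (ascPochhammer ℚ a).eval (n : ℚ) = (n.ascFactorial a : ℕ) := by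
    rw [← ascPochhammer_nat_eq_ascFactorial]
    exact (ascPochhammer_eval_cast (S := ℚ) a n).symm
  rw [h1, Nat.ascFactorial_eq_factorial_mul_choose' n a]
  have h3 : (a.factorial : ℚ) ≠ 0 := by exact_mod_cast (Nat.factorial_pos a).ne'
  push_cast
  field_simp

end Pool.Agent.Lib.MP_524521_nt.PT
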