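import Mathlib
import Pool.Agent.Lib.MP_524521_nt.PT.Mul

/-!
# Denominators of the coefficients of the factorial series
-/

open Polynomial

namespace Pool.Agent.Lib.MP_524521_nt.PT

/-- being an integer -/
def II (q : ℚ) : Prop := ∃ z : ℤ, q = z

theorem II.add {a b : ℚ} (ha : II a) (hb : II b) : II (a + b) := by
  obtain ⟨z, rfl⟩ := ha
  obtain ⟨w, rfl⟩ := hb
  exact ⟨z + w, by push_cast; rfl⟩

theorem II.mul {a b : ℚ} (ha : II a) (hb : II b) : II (a * b) := by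
  obtain ⟨z, rfl⟩ := ha
  obtain ⟨w, rfl⟩ := hb
  exact ⟨z * w, by push_cast; rfl⟩

theorem II.neg {a : ℚ} (ha : II a) : II (-a) := by
  obtain ⟨z, rfl⟩ := ha
  exact ⟨-z, by push_cast; rfl⟩

theorem II.nat (n : ℕ) : II n := ⟨n, by simp⟩

theorem II.int (n : ℤ) : II n := ⟨n, rfl⟩

theorem II.sum {ι : Type*} (s : Finset ι) {f : ι → ℚ} (h : ∀ i ∈ s, II (f i)) : II (∑ i ∈ s, f i) := by
  classical
  induction s using Finset.induction_on with
  | empty => exact ⟨0, by simp⟩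
  | insert a s ha ih =>
    rw [Finset.sum_insert ha]
    exact (h a (Finset.mem_insert_self a s)).add (ih fun i hi => h i (Finset.mem_insert_of_mem hi))

theorem II.pow {a : ℚ} (ha : II a) (n : ℕ) : II (a ^ n) := by
  obtain ⟨z, rfl⟩ := ha
  exact ⟨z ^ n, by push_cast; rfl⟩

theorem II.div {d r : ℕ} (h : r ∣ d) : II ((d : ℚ) / r) := by
  obtain ⟨c, rfl⟩ := h
  rcases Nat.eq_zero_or_pos r with rfl | hr
  · exact ⟨0, by simp⟩
  · refine ⟨c, ?_⟩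
    have : (r : ℚ) ≠ 0 := by exact_mod_cast hr.ne'
    push_cast
    field_simp

theorem DD_II {D R e : ℕ} (hD : ∀ r, 1 ≤ r → r ≤ R → r ∣ D) {C : ℕ → ℚ}
    (h : ∀ l, l + 1 ≤ R → II ((D : ℚ) ^ e * C l)) :
    ∀ r, r ≤ R → II ((D : ℚ) ^ (e + 1) * DD C r) := by
  intro r hr
  rcases Nat.eq_zero_or_pos r with rfl | hr0
  · rw [DD_zero, mul_zero]
    exact ⟨0, by simp⟩
  · have h1 : (D : ℚ) ^ (e + 1) * DD C r = ((D : ℚ) / r) * ∑ l ∈ Finset.range r, (D : ℚ) ^ e * C l := by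
      unfold DD
      rw [← Finset.mul_sum]
      ring
    rw [h1]
    exact (II.div (hD r hr0 hr)).mul (II.sum _ fun l hl => h l (by
      rw [Finset.mem_range] at hl; omega))

theorem DDpow_II {D R e : ℕ} (hD : ∀ r, 1 ≤ r → r ≤ R → r ∣ D) {C : ℕ → ℚ}
    (h : ∀ l, l + 1 ≤ R → II ((D : ℚ) ^ e * C l)) (j : ℕ) :
    ∀ r, r ≤ R → II ((D : ℚ) ^ (e + (j + 1)) * (DD^[j + 1] C) r) := by
  induction j with
  | zero => exact DD_II hD h
  | succ j ih =>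
    rw [Function.iterate_succ_apply']
    exact DD_II hD (fun l hl => ih l (by omega))

theorem Cw_II {D R : ℕ} (hD : ∀ r, 1 ≤ r → r ≤ R → r ∣ D) :
    ∀ (w : List ℕ), (∀ s ∈ w, 2 ≤ s) → ∀ l, l + 1 ≤ R → II ((D : ℚ) ^ w.sum * Cw w l)
  | [], _, l, _ => ⟨0, by simp [Cw]⟩
  | [s], hs, l, hl => by
    have hs2 : 2 ≤ s := hs s (by simp)
    obtain ⟨j, hj⟩ : ∃ j, s - 1 = j + 1 := ⟨s - 2, by omega⟩
    have h0 : ∀ l, l + 1 ≤ R → II ((D : ℚ) ^ 0 * d0 l) := by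
      intro l _
      rw [pow_zero, one_mul, d0]
      split_ifs
      · exact ⟨1, by simp⟩
      · exact ⟨0, by simp⟩
    have h1 := DDpow_II hD h0 j (l + 1) hl
    have h2 : (D : ℚ) ^ [s].sum * Cw [s] l = (D : ℚ) * ((D : ℚ) ^ (0 + (j + 1)) * (DD^[j + 1] d0) (l + 1)) := by
      rw [Cw, hj, List.sum_singleton]
      have : s = (0 + (j + 1)) + 1 := by omega
      conv_lhs => rw [this, pow_succ]
      ring
    rw [h2]
    exact (II.nat D).mul h1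
  | (s :: t :: w), hs, l, hl => by
    have hs2 : 2 ≤ s := hs s (by simp)
    obtain ⟨j, hj⟩ : ∃ j, s = j + 1 := ⟨s - 1, by omega⟩
    have ih := Cw_II hD (t :: w) (fun u hu => hs u (List.mem_cons_of_mem _ hu))
    have h1 := DDpow_II hD ih j (l + 1) hl
    have h2 : (D : ℚ) ^ (s :: t :: w).sum * Cw (s :: t :: w) l =
        (D : ℚ) ^ ((t :: w).sum + (j + 1)) * (DD^[j + 1] (Cw (t :: w))) (l + 1) := by
      rw [Cw, hj, List.sum_cons, add_comm (j + 1)]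
    rw [h2]
    exact h1

theorem Cw_II' {D R k : ℕ} (hD : ∀ r, 1 ≤ r → r ≤ R → r ∣ D) {w : List ℕ} (hw : ∀ s ∈ w, 2 ≤ s)
    (hk : w.sum ≤ k) {l : ℕ} (hl : l + 1 ≤ R) : II ((D : ℚ) ^ k * Cw w l) := by
  obtain ⟨j, rfl⟩ := Nat.exists_eq_add_of_le hk
  rw [pow_add, mul_assoc, mul_comm ((D : ℚ) ^ j), ← mul_assoc]
  exact (Cw_II hD w hw l hl).mul ((II.nat D).pow j)

end Pool.Agent.Lib.MP_524521_nt.PT
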