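import Mathlib
import Pool.Agent.Lib.MP_524521_nt.PT.Expn
import Pool.Agent.Lib.MP_524521_nt.RA.Cramer
import Pool.Agent.Lib.MP_524521_nt.RA.ShiftInv

/-!
# The shifted forms and the non-vanishing determinant
-/

open Polynomial

namespace Pool.Agent.Lib.MP_524521_nt.PT

open RA

theorem nx_supp {W : Finset (List ℕ)} (hW : Closed W) (k : ℕ) {Q : List ℕ → ℚ[X]}
    (hQ : ∀ w, w ∉ W → Q w = 0) : ∀ w, w ∉ W → nx k Q w = 0 := by
  intro w hw
  unfold nx
  rw [hQ w hw, zero_comp, mul_zero, zero_sub, neg_eq_zero]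
  refine Finset.sum_eq_zero fun s _ => ?_
  rw [hQ (s :: w) (fun h => hw (hW.tail_mem s w h)), zero_comp, mul_zero]

theorem nx_deg {k : ℕ} {Q : List ℕ → ℚ[X]} {N : ℕ} (hN : ∀ w, (Q w).natDegree ≤ N)
    (w : List ℕ) : (nx k Q w).natDegree ≤ N + k := by
  unfold nx
  have h1 : (X + 1 : ℚ[X]).natDegree = 1 := by simpa using natDegree_X_add_C (1 : ℚ)
  have hc : ∀ v, ((Q v).comp (X + 1)).natDegree ≤ N := by
    intro v
    refine natDegree_comp_le.trans ?_
    rw [h1, mul_one]
    exact hN v
  refine (natDegree_sub_le _ _).trans (max_le ?_ ?_)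
  · refine natDegree_mul_le.trans ?_
    rw [natDegree_X_pow]
    have := hc w
    omega
  · refine natDegree_sum_le_of_forall_le _ _ fun s _ => ?_
    refine natDegree_mul_le.trans ?_
    rw [natDegree_X_pow]
    have := hc (s :: w)
    omega

/-- the summand of `form_nx` -/
noncomputable def sF (k : ℕ) (Q : List ℕ → ℚ[X]) (x : ℝ) : List ℕ → ℝ
  | [] => 0
  | (s :: v) => x ^ (k - s) * aeval (x + 1) (Q (s :: v)) * y v x

theorem form_nx (W : Finset (List ℕ)) (hW : Closed W) (k : ℕ) (hk : ∀ w ∈ W, w.sum ≤ k)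
    (Q : List ℕ → ℚ[X]) (hQ : ∀ w, w ∉ W → Q w = 0) (x : ℝ) (hx : 0 < x) :
    form W (nx k Q) x = x ^ k * form W Q (x + 1) := by
  classical
  have hx0 : x ≠ 0 := hx.ne'
  have h1 : form W (nx k Q) x = ∑ v ∈ W, x ^ k * aeval (x + 1) (Q v) * y v x -
      ∑ v ∈ W, ∑ s ∈ Finset.Icc 2 k, sF k Q x (s :: v) := by
    unfold form nx
    rw [← Finset.sum_sub_distrib]
    refine Finset.sum_congr rfl fun v _ => ?_
    rw [map_sub, map_mul, map_pow, aeval_X, aeval_comp, map_add, aeval_X, map_one, map_sum,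
      sub_mul, Finset.sum_mul]
    congr 1
    refine Finset.sum_congr rfl fun s _ => ?_
    rw [map_mul, map_pow, aeval_X, aeval_comp, map_add, aeval_X, map_one]
    rfl
  have h2 : ∑ v ∈ W, ∑ s ∈ Finset.Icc 2 k, sF k Q x (s :: v) = ∑ w ∈ W, sF k Q x w := by
    rw [← Finset.sum_product' W (Finset.Icc 2 k) (fun v s => sF k Q x (s :: v))]
    refine Finset.sum_bij_ne_zero (fun p _ _ => p.2 :: p.1) ?_ ?_ ?_ ?_
    · intro p _ hne
      by_contra hc
      apply hne
      simp [sF, hQ _ hc]
    · intro p _ _ q _ _ h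
      have h' := List.cons_eq_cons.mp h
      exact Prod.ext h'.2 h'.1
    · intro w hw hne
      rcases w with _ | ⟨s, v⟩
      · exact absurd rfl hne
      · refine ⟨(v, s), ?_, hne, rfl⟩
        rw [Finset.mem_product, Finset.mem_Icc]
        refine ⟨hW.tail_mem s v hw, hW.two_le _ hw s (by simp), ?_⟩
        have := hk _ hw
        rw [List.sum_cons] at this
        show s ≤ k
        omega
    · intro p _ _
      rfl
  rw [h1, h2]
  unfold form
  rw [Finset.mul_sum, ← Finset.sum_sub_distrib]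
  refine Finset.sum_congr rfl fun v hv => ?_
  rcases v with _ | ⟨s, v⟩
  · simp [sF, y]
  · have hs : 2 ≤ s := hW.two_le _ hv s (by simp)
    have hv' : ∀ t ∈ v, 2 ≤ t := fun t ht => hW.two_le _ hv t (List.mem_cons_of_mem _ ht)
    have hsk : s ≤ k := by
      have := hk _ hv
      rw [List.sum_cons] at this
      omega
    have h4 := y_succ hs hv' hx
    have h5 : x ^ k = x ^ (k - s) * x ^ s := by
      rw [← pow_add]
      congr 1
      omega
    have h6 : x ^ s * (1 / x ^ s) = 1 := by
      field_simp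
    rw [h4, sF, h5]
    linear_combination (x ^ (k - s) * aeval (x + 1) (Q (s :: v)) * y v x) * h6

theorem nxi_supp {W : Finset (List ℕ)} (hW : Closed W) (k : ℕ) {P : List ℕ → ℚ[X]}
    (hP : ∀ w, w ∉ W → P w = 0) (i : ℕ) : ∀ w, w ∉ W → ((nx k)^[i] P) w = 0 := by
  induction i with
  | zero => exact hP
  | succ i ih =>
    rw [Function.iterate_succ_apply']
    exact nx_supp hW k ih

theorem nxi_deg {k : ℕ} {P : List ℕ → ℚ[X]} {N : ℕ} (hN : ∀ w, (P w).natDegree ≤ N) (i : ℕ) :
    ∀ w, (((nx k)^[i] P) w).natDegree ≤ N + i * k := by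
  induction i with
  | zero => simpa using hN
  | succ i ih =>
    intro w
    rw [Function.iterate_succ_apply']
    refine (nx_deg ih w).trans (le_of_eq ?_)
    ring

theorem nxi_form {W : Finset (List ℕ)} (hW : Closed W) {k : ℕ} (hk : ∀ w ∈ W, w.sum ≤ k)
    {P : List ℕ → ℚ[X]} (hP : ∀ w, w ∉ W → P w = 0) {K : ℝ} {M : ℕ}
    (hF : ∀ x : ℝ, 2 ≤ x → |form W P x| ≤ K / x ^ M) (i : ℕ) :
    ∃ K' : ℝ, 0 ≤ K' ∧ ∀ x : ℝ, 2 ≤ x →
      |form W ((nx k)^[i] P) x| ≤ K' * x ^ (i * k) / x ^ M := by
  induction i with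
  | zero =>
    refine ⟨|K|, abs_nonneg K, fun x hx => (hF x hx).trans ?_⟩
    have hx0 : 0 < x := by linarith
    rw [zero_mul, pow_zero, mul_one]
    gcongr
    exact le_abs_self K
  | succ i ih =>
    obtain ⟨K', hK', h⟩ := ih
    refine ⟨K' * 2 ^ (i * k), by positivity, fun x hx => ?_⟩
    have hx0 : 0 < x := by linarith
    rw [Function.iterate_succ_apply', form_nx W hW k hk _ (nxi_supp hW k hP i) x hx0, abs_mul,
      abs_of_pos (pow_pos hx0 k)]
    have h1 := h (x + 1) (by linarith)
    calc x ^ k * |form W ((nx k)^[i] P) (x + 1)|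
        ≤ x ^ k * (K' * (x + 1) ^ (i * k) / (x + 1) ^ M) := by gcongr
      _ ≤ x ^ k * (K' * (2 * x) ^ (i * k) / x ^ M) := by
          gcongr
          · linarith
          · linarith
      _ = K' * 2 ^ (i * k) * x ^ ((i + 1) * k) / x ^ M := by
          rw [mul_pow, add_mul, one_mul, pow_add]
          ring

/-- the difference operator on functions with values in `ℚ(X)` -/
noncomputable def tau (k : ℕ) (Q : List ℕ → RatFunc ℚ) : List ℕ → RatFunc ℚ := fun v =>
  sh (Q v) - ∑ s ∈ Finset.Icc 2 k, (RatFunc.X⁻¹) ^ s * sh (Q (s :: v))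

theorem tau_add (k : ℕ) (Q R : List ℕ → RatFunc ℚ) : tau k (Q + R) = tau k Q + tau k R := by
  funext v
  simp only [tau, Pi.add_apply, map_add, mul_add, Finset.sum_add_distrib]
  ring

theorem tau_smul (k : ℕ) (c : RatFunc ℚ) (Q : List ℕ → RatFunc ℚ) :
    tau k (c • Q) = sh c • tau k Q := by
  funext v
  simp only [tau, Pi.smul_apply, smul_eq_mul, map_mul, mul_sub, Finset.mul_sum]
  congr 1
  refine Finset.sum_congr rfl fun s _ => ?_
  ring

theorem tau_zero (k : ℕ) : tau k 0 = 0 := by
  funext v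
  simp [tau]

theorem nx_tau (k : ℕ) (Q : List ℕ → ℚ[X]) :
    (fun w => algebraMap ℚ[X] (RatFunc ℚ) (nx k Q w)) =
      (RatFunc.X : RatFunc ℚ) ^ k • tau k (fun w => algebraMap ℚ[X] (RatFunc ℚ) (Q w)) := by
  funext v
  have hX : (RatFunc.X : RatFunc ℚ) ≠ 0 := RatFunc.X_ne_zero
  simp only [nx, tau, Pi.smul_apply, smul_eq_mul, map_sub, map_mul, map_pow, map_sum,
    RatFunc.algebraMap_X, mul_sub, Finset.mul_sum, sh_algebraMap]
  congr 1
  refine Finset.sum_congr rfl fun s hs => ?_
  have hs' : s ≤ k := (Finset.mem_Icc.mp hs).2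
  have h5 : (RatFunc.X : RatFunc ℚ) ^ k = RatFunc.X ^ (k - s) * RatFunc.X ^ s := by
    rw [← pow_add]
    congr 1
    omega
  have h6 : (RatFunc.X : RatFunc ℚ) ^ s * (RatFunc.X⁻¹) ^ s = 1 := by
    rw [← mul_pow, mul_inv_cancel₀ hX, one_pow]
  rw [h5]
  linear_combination (-(RatFunc.X ^ (k - s) *
    (algebraMap ℚ[X] (RatFunc ℚ)) ((Q (s :: v)).comp (X + 1)))) * h6

open Classical in
/-- every stable subspace contains the first unit vector -/
theorem e_mem {W : Finset (List ℕ)} (hW : Closed W) {k : ℕ} (hk : ∀ w ∈ W, w.sum ≤ k)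
    (V : Submodule (RatFunc ℚ) (List ℕ → RatFunc ℚ))
    (hV : ∀ Q ∈ V, ∀ w, w ∉ W → Q w = 0) (hτ : ∀ Q ∈ V, tau k Q ∈ V) :
    ∀ (l c : ℕ) (Q : List ℕ → RatFunc ℚ), Q ∈ V → Q ≠ 0 →
      (∀ v : List ℕ, l < v.length → Q v = 0) →
      (W.filter fun v : List ℕ => v.length = l ∧ Q v ≠ 0).card ≤ c →
      (fun v : List ℕ => if v = [] then (1 : RatFunc ℚ) else 0) ∈ V := by
  intro l
  induction l with
  | zero =>
    intro c Q hQ hne hlen _
    have h1 : ∀ v : List ℕ, v ≠ [] → Q v = 0 := fun v hv =>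
      hlen v (List.length_pos_iff.mpr hv)
    have h2 : Q [] ≠ 0 := by
      intro h0
      apply hne
      funext v
      by_cases hv : v = []
      · subst hv
        exact h0
      · exact h1 v hv
    have h3 : (fun v : List ℕ => if v = [] then (1 : RatFunc ℚ) else 0) = (Q [])⁻¹ • Q := by
      funext v
      by_cases hv : v = []
      · subst hv
        simp [h2]
      · simp [hv, h1 v hv]
    rw [h3]
    exact V.smul_mem _ hQ
  | succ l ihl =>
    intro c
    induction c with
    | zero =>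
      intro Q hQ hne hlen hc
      refine ihl W.card Q hQ hne ?_ (Finset.card_filter_le _ _)
      intro v hv
      rcases Nat.lt_or_ge (l + 1) v.length with h | h
      · exact hlen v h
      · by_contra h0
        have hvW : v ∈ W := by
          by_contra hc'
          exact h0 (hV Q hQ v hc')
        have h1 : v ∈ W.filter fun v : List ℕ => v.length = l + 1 ∧ Q v ≠ 0 :=
          Finset.mem_filter.mpr ⟨hvW, by omega, h0⟩
        have h2 := Finset.card_pos.mpr ⟨v, h1⟩
        omega
    | succ c ihc =>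
      intro Q hQ hne hlen hc
      by_cases hex : ∃ v0 : List ℕ, v0.length = l + 1 ∧ Q v0 ≠ 0
      swap
      · push Not at hex
        refine ihl W.card Q hQ hne ?_ (Finset.card_filter_le _ _)
        intro v hv
        rcases Nat.lt_or_ge (l + 1) v.length with h | h
        · exact hlen v h
        · exact hex v (by omega)
      obtain ⟨v0, hv0, hQv0⟩ := hex
      have hv0W : v0 ∈ W := by
        by_contra hc'
        exact hQv0 (hV Q hQ v0 hc')
      set R := (Q v0)⁻¹ • Q with hR
      have hRV : R ∈ V := V.smul_mem _ hQ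
      have hRv0 : R v0 = 1 := by simp [hR, hQv0]
      have hRlen : ∀ v : List ℕ, l + 1 < v.length → R v = 0 := fun v hv => by
        simp [hR, hlen v hv]
      set D := tau k R - R with hD
      have hDV : D ∈ V := V.sub_mem (hτ R hRV) hRV
      have htau : ∀ v : List ℕ, l + 1 ≤ v.length → tau k R v = sh (R v) := by
        intro v hv
        unfold tau
        rw [Finset.sum_eq_zero, sub_zero]
        intro s _
        rw [hRlen (s :: v) (by rw [List.length_cons]; omega), map_zero, mul_zero]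
      by_cases hD0 : D = 0
      · exfalso
        have hfix : ∀ v, tau k R v = R v := fun v => by
          have := congrFun hD0 v
          rw [hD, Pi.sub_apply, Pi.zero_apply] at this
          exact sub_eq_zero.mp this
        rcases v0 with _ | ⟨s0, v⟩
        · simp at hv0
        have hvl : v.length = l := by simpa using hv0
        have hq : ∀ s : ℕ, ∃ q : ℚ, R (s :: v) = (q : RatFunc ℚ) := fun s => by
          apply sh_fix
          rw [← htau (s :: v) (by rw [List.length_cons]; omega)]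
          exact hfix _
        choose q hq using hq
        have h1 := hfix v
        unfold tau at h1
        have h2 : sh (R v) - R v = ∑ j : Fin (k - 1),
            ((fun j : Fin (k - 1) => q ((j : ℕ) + 2)) j : RatFunc ℚ) *
              (RatFunc.X⁻¹) ^ ((j : ℕ) + 2) := by
          have h3 : ∑ s ∈ Finset.Icc 2 k, (RatFunc.X⁻¹) ^ s * sh (R (s :: v)) =
              ∑ j : Fin (k - 1), ((q ((j : ℕ) + 2) : ℚ) : RatFunc ℚ) *
                (RatFunc.X⁻¹) ^ ((j : ℕ) + 2) := by
            have e0 : Finset.Icc 2 k = Finset.Ico 2 (k + 1) := by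
              ext s
              simp only [Finset.mem_Icc, Finset.mem_Ico]
              omega
            rw [e0, Finset.sum_Ico_eq_sum_range, show k + 1 - 2 = k - 1 by omega, Finset.sum_range]
            refine Finset.sum_congr rfl fun j _ => ?_
            rw [add_comm 2 (j : ℕ), hq, map_ratCast, mul_comm]
          linear_combination h1 + h3
        have h3 := sh_pole _ _ h2
        have hs0 : 2 ≤ s0 := hW.two_le _ hv0W s0 (by simp)
        have hs0k : s0 ≤ k := by
          have := hk _ hv0W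
          rw [List.sum_cons] at this
          omega
        have h4 := congrFun h3 ⟨s0 - 2, by omega⟩
        have h5 : q s0 = 0 := by
          have h6 : q (s0 - 2 + 2) = 0 := h4
          rwa [Nat.sub_add_cancel hs0] at h6
        rw [hq s0, h5] at hRv0
        simp at hRv0
      · refine ihc D hDV hD0 ?_ ?_
        · intro v hv
          rw [hD, Pi.sub_apply, htau v (by omega), hRlen v hv, map_zero, sub_zero]
        · have hsub : (W.filter fun v : List ℕ => v.length = l + 1 ∧ D v ≠ 0) ⊆
              (W.filter fun v : List ℕ => v.length = l + 1 ∧ Q v ≠ 0).erase v0 := by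
            intro v hv
            simp only [Finset.mem_filter, Finset.mem_erase] at hv ⊢
            obtain ⟨hvW, hvl, hDv⟩ := hv
            have e1 : D v = sh (R v) - R v := by rw [hD, Pi.sub_apply, htau v (by omega)]
            refine ⟨?_, hvW, hvl, ?_⟩
            · rintro rfl
              apply hDv
              rw [e1, hRv0, map_one, sub_self]
            · intro h0
              apply hDv
              have h7 : R v = 0 := by simp [hR, h0]
              rw [e1, h7, map_zero, sub_zero]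
          have hmem : v0 ∈ W.filter fun v : List ℕ => v.length = l + 1 ∧ Q v ≠ 0 :=
            Finset.mem_filter.mpr ⟨hv0W, hv0, hQv0⟩
          have h8 := Finset.card_le_card hsub
          rw [Finset.card_erase_of_mem hmem] at h8
          omega

/-- independence until the first dependent vector -/
theorem exists_first {V : Type} [AddCommGroup V] [Module (RatFunc ℚ) V] (r : ℕ → V) (L : ℕ)
    (h : ¬ LinearIndependent (RatFunc ℚ) (fun i : Fin (L + 1) => r i)) :
    ∃ ρ, ρ ≤ L ∧ LinearIndependent (RatFunc ℚ) (fun i : Fin ρ => r i) ∧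
      r ρ ∈ Submodule.span (RatFunc ℚ) (Set.range fun i : Fin ρ => r i) := by
  induction L with
  | zero =>
    refine ⟨0, le_rfl, linearIndependent_empty_type, ?_⟩
    by_contra hc
    apply h
    rw [linearIndependent_finSucc']
    exact ⟨linearIndependent_empty_type, by simpa [Fin.init] using hc⟩
  | succ L ih =>
    by_cases h1 : LinearIndependent (RatFunc ℚ) (fun i : Fin (L + 1) => r i)
    · refine ⟨L + 1, le_rfl, h1, ?_⟩
      by_contra hc
      apply h
      rw [linearIndependent_finSucc']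
      refine ⟨h1, ?_⟩
      intro h2
      apply hc
      exact h2
    · obtain ⟨ρ, h2, h3⟩ := ih h1
      exact ⟨ρ, by omega, h3⟩

theorem abs_aeval_le (p : ℚ[X]) {d : ℕ} (hd : p.natDegree ≤ d) :
    ∃ C : ℝ, 0 ≤ C ∧ ∀ x : ℝ, 1 ≤ x → |aeval x p| ≤ C * x ^ d := by
  refine ⟨∑ i ∈ Finset.range (d + 1), |(p.coeff i : ℝ)|,
    Finset.sum_nonneg fun _ _ => abs_nonneg _, fun x hx => ?_⟩
  rw [aeval_eq_sum_range' (show p.natDegree < d + 1 by omega), Finset.sum_mul]
  refine (Finset.abs_sum_le_sum_abs _ _).trans (Finset.sum_le_sum fun i hi => ?_)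
  have hi' : i ≤ d := by
    have := Finset.mem_range.mp hi
    omega
  rw [Algebra.smul_def, abs_mul]
  refine mul_le_mul (le_of_eq rfl) ?_ (abs_nonneg _) (abs_nonneg _)
  rw [abs_of_nonneg (by positivity)]
  exact pow_le_pow_right₀ hx hi'

theorem natDegree_le_of_abs_le {p : ℚ[X]} (hp : p ≠ 0) {E M : ℕ} {C : ℝ}
    (h : ∀ x : ℝ, 2 ≤ x → |aeval x p| ≤ C * x ^ E / x ^ M) : p.natDegree + M ≤ E := by
  by_contra hlt
  push Not at hlt
  set q : ℝ[X] := p.map (algebraMap ℚ ℝ) with hq
  have hq0 : q ≠ 0 := (Polynomial.map_ne_zero_iff (algebraMap ℚ ℝ).injective).mpr hp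
  have hqd : q.natDegree = p.natDegree := natDegree_map _
  have hC : 0 ≤ C := by
    have h2 := (abs_nonneg _).trans (h 2 le_rfl)
    by_contra hc
    have : C * (2:ℝ) ^ E / 2 ^ M < 0 := by
      apply div_neg_of_neg_of_pos _ (by positivity)
      exact mul_neg_of_neg_of_pos (not_le.mp hc) (by positivity)
    linarith
  have hlim : Filter.Tendsto (fun x : ℝ => eval x q / eval x (X ^ q.natDegree : ℝ[X])) Filter.atTop
      (nhds (q.leadingCoeff / (X ^ q.natDegree : ℝ[X]).leadingCoeff)) := by
    apply div_tendsto_atTop_leadingCoeff_div_of_degree_eq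
    rw [degree_X_pow, degree_eq_natDegree hq0]
  have hlim0 : Filter.Tendsto (fun x : ℝ => eval x q / eval x (X ^ q.natDegree : ℝ[X])) Filter.atTop
      (nhds 0) := by
    have h1 : Filter.Tendsto (fun x : ℝ => C * x⁻¹) Filter.atTop (nhds 0) := by
      simpa using (tendsto_inv_atTop_zero (𝕜 := ℝ)).const_mul C
    refine squeeze_zero_norm' ?_ h1
    filter_upwards [Filter.eventually_ge_atTop (2 : ℝ)] with x hx
    have hx0 : 0 < x := by linarith
    have hx1 : 1 ≤ x := by linarith
    have h2 := h x hx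
    have h3 : eval x q = aeval x p := by
      rw [hq, eval_map, aeval_def]
    rw [h3, eval_pow, eval_X, hqd, norm_div, Real.norm_eq_abs, Real.norm_eq_abs,
      abs_of_pos (pow_pos hx0 _), div_le_iff₀ (pow_pos hx0 _)]
    refine h2.trans ?_
    rw [div_le_iff₀ (pow_pos hx0 _)]
    have h4 : x ^ E * x ≤ x ^ p.natDegree * x ^ M := by
      rw [← pow_succ, ← pow_add]
      exact pow_le_pow_right₀ hx1 (by omega)
    calc C * x ^ E = C * x⁻¹ * (x ^ E * x) := by field_simp
      _ ≤ C * x⁻¹ * (x ^ p.natDegree * x ^ M) := by gcongr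
      _ = C * x⁻¹ * x ^ p.natDegree * x ^ M := by ring
  have h5 := tendsto_nhds_unique hlim hlim0
  rw [leadingCoeff_X_pow, div_one] at h5
  exact hq0 (leadingCoeff_eq_zero.mp h5)

theorem natDegree_det_updateRow_le {ρ : ℕ} (M : Matrix (Fin ρ) (Fin ρ) ℚ[X]) (A : ℕ)
    (hM : ∀ i j, (M i j).natDegree ≤ A) (i0 : Fin ρ) (b : Fin ρ → ℚ[X])
    (hb : ∀ j, (b j).natDegree = 0) :
    ((M.updateRow i0 b).det).natDegree ≤ (ρ - 1) * A := by
  classical
  rw [Matrix.det_apply]
  refine natDegree_sum_le_of_forall_le _ _ fun σ _ => ?_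
  refine (natDegree_smul_le _ _).trans ?_
  refine (natDegree_prod_le _ _).trans ?_
  have h1 : ∀ i : Fin ρ, ((M.updateRow i0 b) (σ i) i).natDegree ≤
      (fun j : Fin ρ => if j = i0 then 0 else A) (σ i) := by
    intro i
    simp only
    split_ifs with h
    · rw [h, Matrix.updateRow_self, hb]
    · rw [Matrix.updateRow_ne h]
      exact hM _ _
  refine (Finset.sum_le_sum fun i _ => h1 i).trans ?_
  rw [Equiv.sum_comp σ (fun j : Fin ρ => if j = i0 then 0 else A), Finset.sum_ite,
    Finset.sum_const_zero, zero_add, Finset.sum_const, smul_eq_mul]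
  refine Nat.mul_le_mul_right A (le_of_eq ?_)
  rw [Finset.filter_ne', Finset.card_erase_of_mem (Finset.mem_univ _), Finset.card_univ,
    Fintype.card_fin]

/-- degree of a minor of rows which span the first unit vector -/
theorem det_bound {W : Finset (List ℕ)} (hW : Closed W) (ρ A B M : ℕ)
    (r : Fin ρ → List ℕ → ℚ[X]) (g : Fin ρ → W)
    (hdet : (Matrix.of fun i j => r i (g j)).det ≠ 0)
    (b : ℚ[X]) (hb : b ≠ 0) (a : Fin ρ → ℚ[X])
    (hab : ∀ w : W, b * (if (w : List ℕ) = [] then 1 else 0) + ∑ i, a i * r i w = 0)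
    (hA : ∀ i w, (r i w).natDegree ≤ A)
    (hF : ∀ i, ∃ K' : ℝ, 0 ≤ K' ∧ ∀ x : ℝ, 2 ≤ x → |form W (r i) x| ≤ K' * x ^ B / x ^ M) :
    (Matrix.of fun i j => r i (g j)).det.natDegree + M ≤ (ρ - 1) * A + B := by
  classical
  set e : W → ℚ[X] := fun w => if (w : List ℕ) = [] then 1 else 0 with he
  set v : Fin ρ → W → ℚ[X] := fun i w => r i w with hv
  have hc := cramer_rel v e g hdet a b hb (by
    funext w
    simpa [he, hv, Finset.sum_apply] using hab w)
  set Δ := (Matrix.of fun i j => v i (g j)).det with hΔ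
  set D : Fin ρ → ℚ[X] := fun i =>
    ((Matrix.of fun i j => v i (g j)).updateRow i fun j => e (g j)).det with hD
  have hDd : ∀ i, (D i).natDegree ≤ (ρ - 1) * A := fun i => by
    refine natDegree_det_updateRow_le _ A (fun i j => hA i _) i _ fun j => ?_
    simp only [he]
    split_ifs <;> simp
  have hcw : ∀ w : W, Δ * e w = ∑ i, D i * r i w := fun w => by
    have := congrFun hc w
    simpa [Finset.sum_apply] using this
  have hev : ∀ x : ℝ, aeval x Δ = ∑ i, aeval x (D i) * form W (r i) x := by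
    intro x
    have h2 : ∑ w : W, aeval x (Δ * e w) * y w x = aeval x Δ := by
      rw [Finset.sum_eq_single (⟨[], hW.nil_mem⟩ : W)]
      · simp [he, y]
      · intro w _ hw
        have : (w : List ℕ) ≠ [] := fun h => hw (Subtype.ext h)
        simp [he, this]
      · intro h
        exact absurd (Finset.mem_univ _) h
    rw [← h2]
    simp_rw [hcw, map_sum, map_mul, Finset.sum_mul]
    rw [Finset.sum_comm]
    refine Finset.sum_congr rfl fun i _ => ?_
    unfold form
    rw [Finset.mul_sum, ← Finset.sum_coe_sort W]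
    refine Finset.sum_congr rfl fun w _ => ?_
    ring
  choose KD hKD0 hKD using fun i => abs_aeval_le (D i) (hDd i)
  choose KF hKF0 hKF using hF
  refine natDegree_le_of_abs_le (C := ∑ i, KD i * KF i) hdet fun x hx => ?_
  have hx0 : 0 < x := by linarith
  have e1 : aeval x (Matrix.of fun i j => r i (g j)).det = ∑ i, aeval x (D i) * form W (r i) x :=
    hev x
  rw [e1]
  refine (Finset.abs_sum_le_sum_abs _ _).trans ?_
  rw [Finset.sum_mul, Finset.sum_div]
  refine Finset.sum_le_sum fun i _ => ?_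
  rw [abs_mul]
  calc |aeval x (D i)| * |form W (r i) x|
      ≤ (KD i * x ^ ((ρ - 1) * A)) * (KF i * x ^ B / x ^ M) :=
        mul_le_mul (hKD i x (by linarith)) (hKF i x hx) (abs_nonneg _)
          (mul_nonneg (hKD0 i) (by positivity))
    _ = KD i * KF i * x ^ ((ρ - 1) * A + B) / x ^ M := by
        rw [pow_add]
        ring

/-- the determinant is a nonzero polynomial of small degree -/
theorem rank_core (W : Finset (List ℕ)) (hW : Closed W) (hL : 2 ≤ W.card) (k : ℕ)
    (hk : ∀ w ∈ W, w.sum ≤ k) (N M : ℕ) (P : List ℕ → ℚ[X]) (hP : ∀ w, w ∉ W → P w = 0)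
    (hne : ∃ w, P w ≠ 0) (hdeg : ∀ w, (P w).natDegree ≤ N) (K : ℝ)
    (hF : ∀ x : ℝ, 2 ≤ x → |form W P x| ≤ K / x ^ M)
    (hM : (W.card - 2) * (N + W.card * k) + W.card * k < M) :
    (Matrix.of fun (i j : Fin W.card) => ((nx k)^[i] P) (W.equivFin.symm j)).det ≠ 0 ∧
      (Matrix.of fun (i j : Fin W.card) =>
        ((nx k)^[i] P) (W.equivFin.symm j)).det.natDegree ≤
          (W.card - 1) * (N + W.card * k) + W.card * k - M := by
  classical
  set r : ℕ → List ℕ → RatFunc ℚ :=
    fun i w => algebraMap ℚ[X] (RatFunc ℚ) (((nx k)^[i] P) w) with hr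
  have hrs : ∀ i w, w ∉ W → r i w = 0 := fun i w hw => by
    simp only [hr, nxi_supp hW k hP i w hw, map_zero]
  have hr0 : r 0 ≠ 0 := by
    obtain ⟨w, hw⟩ := hne
    intro h0
    have h1 := congrFun h0 w
    simp only [hr, Function.iterate_zero, id_eq, Pi.zero_apply] at h1
    exact hw ((map_eq_zero_iff _ (RatFunc.algebraMap_injective ℚ)).mp h1)
  have hX : (RatFunc.X : RatFunc ℚ) ≠ 0 := RatFunc.X_ne_zero
  have hstep : ∀ i, tau k (r i) = ((RatFunc.X : RatFunc ℚ) ^ k)⁻¹ • r (i + 1) := fun i => by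
    have h1 := nx_tau k ((nx k)^[i] P)
    have h2 : r (i + 1) = (RatFunc.X : RatFunc ℚ) ^ k • tau k (r i) := by
      rw [← h1]
      funext w
      simp only [hr, Function.iterate_succ_apply']
    rw [h2, smul_smul, inv_mul_cancel₀ (pow_ne_zero k hX), one_smul]
  have hdep : ¬ LinearIndependent (RatFunc ℚ) (fun i : Fin (W.card + 1) => r i) := by
    intro h
    have h2 : LinearIndependent (RatFunc ℚ)
        (fun (i : Fin (W.card + 1)) (w : W) => r i w) := by
      rw [Fintype.linearIndependent_iff] at h ⊢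
      intro a ha
      apply h a
      funext w
      by_cases hw : w ∈ W
      · have := congrFun ha ⟨w, hw⟩
        simpa [Finset.sum_apply] using this
      · simp [Finset.sum_apply, hrs _ w hw]
    have h3 := h2.fintype_card_le_finrank
    rw [Fintype.card_fin, Module.finrank_fintype_fun_eq_card, Fintype.card_coe] at h3
    omega
  obtain ⟨ρ, hρ, hli, hmem⟩ := exists_first r W.card hdep
  set V := Submodule.span (RatFunc ℚ) (Set.range fun i : Fin ρ => r i) with hVdef
  have hρ0 : 0 < ρ := by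
    by_contra hc
    have h0 : ρ = 0 := by omega
    subst h0
    simp only [Set.range_eq_empty, Submodule.span_empty] at hVdef hmem
    rw [hVdef] at hmem
    exact hr0 (by simpa using hmem)
  have hVs : ∀ Q ∈ V, ∀ w, w ∉ W → Q w = 0 := by
    intro Q hQ w hw
    refine Submodule.span_induction (p := fun Q _ => Q w = 0) ?_ ?_ ?_ ?_ hQ
    · rintro _ ⟨i, rfl⟩
      exact hrs _ w hw
    · rfl
    · intro x y _ _ hx hy
      rw [Pi.add_apply, hx, hy, add_zero]
    · intro c x _ hx
      rw [Pi.smul_apply, hx, smul_zero]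
  have hVτ : ∀ Q ∈ V, tau k Q ∈ V := by
    intro Q hQ
    refine Submodule.span_induction (p := fun Q _ => tau k Q ∈ V) ?_ ?_ ?_ ?_ hQ
    · rintro _ ⟨i, rfl⟩
      simp only
      rw [hstep]
      apply V.smul_mem
      rcases Nat.lt_or_ge ((i : ℕ) + 1) ρ with h | h
      · exact Submodule.subset_span ⟨⟨(i : ℕ) + 1, h⟩, rfl⟩
      · have h1 : (i : ℕ) + 1 = ρ := by
          have := i.2
          omega
        rw [h1]
        exact hmem
    · rw [tau_zero]
      exact V.zero_mem
    · intro x y _ _ hx hy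
      rw [tau_add]
      exact V.add_mem hx hy
    · intro c x _ hx
      rw [tau_smul]
      exact V.smul_mem _ hx
  have he := e_mem hW hk V hVs hVτ (W.sup List.length) W.card (r 0)
    (Submodule.subset_span ⟨⟨0, hρ0⟩, rfl⟩) hr0
    (fun v hv => by
      apply hrs
      intro hvW
      have := Finset.le_sup (f := List.length) hvW
      omega) (Finset.card_filter_le _ _)
  obtain ⟨c, hc⟩ := (Submodule.mem_span_range_iff_exists_fun (RatFunc ℚ)).mp he
  obtain ⟨b, hb⟩ := IsLocalization.exist_integer_multiples (nonZeroDivisors ℚ[X])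
    (Finset.univ : Finset (Fin ρ)) c
  choose a ha using fun i => hb i (Finset.mem_univ i)
  have hb0 : (b : ℚ[X]) ≠ 0 := nonZeroDivisors.coe_ne_zero b
  have hab : ∀ w : W, (b : ℚ[X]) * (if (w : List ℕ) = [] then 1 else 0) +
      ∑ i : Fin ρ, (-a i) * ((nx k)^[i] P) w = 0 := by
    intro w
    apply RatFunc.algebraMap_injective ℚ
    have h1 := congrFun hc w
    simp only [Finset.sum_apply, Pi.smul_apply, smul_eq_mul] at h1
    have h2 : ∀ i, algebraMap ℚ[X] (RatFunc ℚ) (a i) = algebraMap ℚ[X] (RatFunc ℚ) b * c i :=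
      fun i => by
        rw [ha i, Algebra.smul_def]
    rw [map_add, map_mul, map_sum, map_zero]
    have h3 : algebraMap ℚ[X] (RatFunc ℚ) (if (w : List ℕ) = [] then 1 else 0) =
        if (w : List ℕ) = [] then (1 : RatFunc ℚ) else 0 := by
      split_ifs <;> simp
    rw [h3]
    have h4 : (if (w : List ℕ) = [] then (1 : RatFunc ℚ) else 0) = ∑ i : Fin ρ, c i * r i w := by
      rw [h1]
    rw [h4, Finset.mul_sum, ← Finset.sum_add_distrib]
    refine Finset.sum_eq_zero fun i _ => ?_
    rw [map_mul, map_neg, h2 i]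
    simp only [hr]
    ring
  have hliP : LinearIndependent ℚ[X] (fun (i : Fin ρ) (w : W) => ((nx k)^[i] P) w) := by
    rw [Fintype.linearIndependent_iff] at hli ⊢
    intro a' ha' i
    have h1 := hli (fun i => algebraMap ℚ[X] (RatFunc ℚ) (a' i)) (by
      funext w
      by_cases hw : w ∈ W
      · have h2 := congrArg (algebraMap ℚ[X] (RatFunc ℚ)) (congrFun ha' ⟨w, hw⟩)
        simp only [Finset.sum_apply, Pi.smul_apply, smul_eq_mul, Pi.zero_apply, map_zero, map_sum,
          map_mul] at h2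
        simp only [Finset.sum_apply, Pi.smul_apply, smul_eq_mul, Pi.zero_apply, hr]
        exact h2
      · simp [Finset.sum_apply, hrs _ w hw]) i
    exact (map_eq_zero_iff _ (RatFunc.algebraMap_injective ℚ)).mp h1
  obtain ⟨g, hg, hdet⟩ := exists_minor _ hliP
  have hA : ∀ (i : Fin ρ) w, (((nx k)^[i] P) w).natDegree ≤ N + W.card * k := fun i w => by
    refine (nxi_deg hdeg i w).trans ?_
    have h1 : (i : ℕ) ≤ W.card := by
      have := i.2
      omega
    gcongr
  have hFi : ∀ i : Fin ρ, ∃ K' : ℝ, 0 ≤ K' ∧ ∀ x : ℝ, 2 ≤ x →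
      |form W ((nx k)^[i] P) x| ≤ K' * x ^ (W.card * k) / x ^ M := fun i => by
    obtain ⟨K', hK', h⟩ := nxi_form hW hk hP hF i
    refine ⟨K', hK', fun x hx => (h x hx).trans ?_⟩
    have hx0 : 0 < x := by linarith
    have h1 : (i : ℕ) ≤ W.card := by
      have := i.2
      omega
    have h2 : x ^ ((i : ℕ) * k) ≤ x ^ (W.card * k) :=
      pow_le_pow_right₀ (by linarith) (Nat.mul_le_mul_right k h1)
    gcongr
  have hbd := det_bound hW ρ (N + W.card * k) (W.card * k) M (fun i => (nx k)^[i] P) g hdet b hb0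
    (fun i => -a i) hab hA hFi
  have hρL : ρ = W.card := by
    by_contra hc'
    have h1 : (ρ - 1) * (N + W.card * k) ≤ (W.card - 2) * (N + W.card * k) :=
      Nat.mul_le_mul_right _ (by omega)
    omega
  subst hρL
  -- the square matrix
  have hcard : Function.Bijective g :=
    (Fintype.bijective_iff_injective_and_card g).mpr ⟨hg, by simp⟩
  set σ : Equiv.Perm (Fin W.card) := (Equiv.ofBijective g hcard).trans W.equivFin with hσ
  have hgσ : ∀ j, g j = W.equivFin.symm (σ j) := fun j => by simp [hσ]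
  have hdet2 : (Matrix.of fun (i j : Fin W.card) =>
      ((nx k)^[i] P) (W.equivFin.symm j)).det ≠ 0 := by
    intro h0
    apply hdet
    have h1 : (Matrix.of fun (i j : Fin W.card) => ((nx k)^[i] P) (g j)) =
        (Matrix.of fun (i j : Fin W.card) =>
          ((nx k)^[i] P) (W.equivFin.symm j)).submatrix id σ := by
      ext i j : 2
      simp only [Matrix.of_apply, Matrix.submatrix_apply, id_eq, hgσ]
    have h2 := Matrix.det_permute' σ (Matrix.of fun (i j : Fin W.card) =>
          ((nx k)^[i] P) (W.equivFin.symm j))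
    rw [h0, mul_zero] at h2
    exact (congrArg Matrix.det h1).trans h2
  have hbd2 := det_bound hW W.card (N + W.card * k) (W.card * k) M (fun i => (nx k)^[i] P)
    W.equivFin.symm hdet2 b hb0 (fun i => -a i) hab hA hFi
  exact ⟨hdet2, by omega⟩

theorem rank (W : Finset (List ℕ)) (hW : Closed W) (hL : 2 ≤ W.card) (k : ℕ)
    (hk : ∀ w ∈ W, w.sum ≤ k) (N M : ℕ) (P : List ℕ → ℚ[X]) (hP : ∀ w, w ∉ W → P w = 0)
    (hne : ∃ w, P w ≠ 0) (hdeg : ∀ w, (P w).natDegree ≤ N) (K : ℝ)
    (hF : ∀ x : ℝ, 2 ≤ x → |form W P x| ≤ K / x ^ M)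
    (hM : (W.card - 2) * (N + W.card * k) + W.card * k < M) :
    ∀ n : ℕ, 1 ≤ n → ∃ n' : ℕ, n ≤ n' ∧
      n' ≤ n + ((W.card - 1) * (N + W.card * k) + W.card * k - M) ∧
      (Matrix.of fun (i j : Fin W.card) =>
        (((nx k)^[i] P) (W.equivFin.symm j)).eval (n' : ℚ)).det ≠ 0 := by
  classical
  intro n _
  obtain ⟨hdet2, hΔd⟩ := rank_core W hW hL k hk N M P hP hne hdeg K hF hM
  set Δ := (Matrix.of fun (i j : Fin W.card) => ((nx k)^[i] P) (W.equivFin.symm j)).det with hΔ
  set T := (W.card - 1) * (N + W.card * k) + W.card * k - M with hT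
  by_contra hc'
  push Not at hc'
  apply hdet2
  have hinj : Function.Injective (fun m : ℕ => (m : ℚ)) := Nat.cast_injective
  refine Polynomial.eq_zero_of_natDegree_lt_card_of_eval_eq_zero' Δ
    ((Finset.Icc n (n + T)).image fun m : ℕ => (m : ℚ)) ?_ ?_
  · intro q hq
    obtain ⟨m, hm, rfl⟩ := Finset.mem_image.mp hq
    obtain ⟨hm1, hm2⟩ := Finset.mem_Icc.mp hm
    have h1 := hc' m hm1 hm2
    rw [← h1, hΔ, ← Polynomial.coe_evalRingHom, RingHom.map_det]
    congr 1
  · rw [Finset.card_image_of_injective _ hinj, Nat.card_Icc]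
    omega

/-- the same at rational points -/
theorem rankR (W : Finset (List ℕ)) (hW : Closed W) (hL : 2 ≤ W.card) (k : ℕ)
    (hk : ∀ w ∈ W, w.sum ≤ k) (N M : ℕ) (P : List ℕ → ℚ[X]) (hP : ∀ w, w ∉ W → P w = 0)
    (hne : ∃ w, P w ≠ 0) (hdeg : ∀ w, (P w).natDegree ≤ N) (K : ℝ)
    (hF : ∀ x : ℝ, 2 ≤ x → |form W P x| ≤ K / x ^ M)
    (hM : (W.card - 2) * (N + W.card * k) + W.card * k < M) :
    ∀ x : ℚ, 0 < x → ∃ j : ℕ, j ≤ (W.card - 1) * (N + W.card * k) + W.card * k - M ∧
      (Matrix.of fun (i i' : Fin W.card) =>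
        (((nx k)^[i] P) (W.equivFin.symm i')).eval (x + j)).det ≠ 0 := by
  classical
  intro x _
  obtain ⟨hdet2, hΔd⟩ := rank_core W hW hL k hk N M P hP hne hdeg K hF hM
  set Δ := (Matrix.of fun (i j : Fin W.card) => ((nx k)^[i] P) (W.equivFin.symm j)).det with hΔ
  set T := (W.card - 1) * (N + W.card * k) + W.card * k - M with hT
  by_contra hc'
  push Not at hc'
  apply hdet2
  have hinj : Function.Injective (fun m : ℕ => x + (m : ℚ)) :=
    fun a b hab => Nat.cast_injective (add_left_cancel hab)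
  refine Polynomial.eq_zero_of_natDegree_lt_card_of_eval_eq_zero' Δ
    ((Finset.range (T + 1)).image fun m : ℕ => x + (m : ℚ)) ?_ ?_
  · intro q hq
    obtain ⟨m, hm, rfl⟩ := Finset.mem_image.mp hq
    have h1 := hc' m (by have := Finset.mem_range.mp hm; omega)
    rw [← h1, hΔ, ← Polynomial.coe_evalRingHom, RingHom.map_det]
    congr 1
  · rw [Finset.card_image_of_injective _ hinj, Finset.card_range]
    omega

end Pool.Agent.Lib.MP_524521_nt.PT
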