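import Pool.Agent.Lib.MP_524521_nt.PT.Expn

/-!
# Polynomials in the tails are integer combinations of nested sums

`h_k * y_w` is an integer combination of nested sums (stuffle product), as both sides have the same
difference and tend to zero.
-/

open Finset

namespace Pool.Agent.Lib.MP_524521_nt.PT

namespace Stuf

/-- all letters are at least two -/
def Good (w : List ℕ) : Prop := ∀ s ∈ w, 2 ≤ s

theorem good_nil : Good [] := fun _ h => by simp at h

theorem good_cons {s : ℕ} {w : List ℕ} : Good (s :: w) ↔ 2 ≤ s ∧ Good w := by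
  simp [Good]

theorem fin_good (n : ℕ) : {w : List ℕ | Good w ∧ w.sum ≤ n}.Finite := by
  induction n using Nat.strong_induction_on with
  | _ n ih =>
    have h : {w : List ℕ | Good w ∧ w.sum ≤ n} ⊆
        {[]} ∪ ⋃ s ∈ Finset.Icc 2 n, (fun w => s :: w) '' {w : List ℕ | Good w ∧ w.sum ≤ n - s} := by
      rintro w ⟨hw, hn⟩
      rcases w with _ | ⟨s, w⟩
      · exact Or.inl rfl
      · right
        rw [good_cons] at hw
        simp only [List.sum_cons] at hn
        simp only [Set.mem_iUnion, exists_prop]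
        exact ⟨s, Finset.mem_Icc.2 ⟨hw.1, by omega⟩, w, ⟨hw.2, by omega⟩, rfl⟩
    refine Set.Finite.subset ?_ h
    refine (Set.finite_singleton _).union ?_
    refine Set.Finite.biUnion (Finset.finite_toSet _) fun s hs => ?_
    have hs' := Finset.mem_Icc.1 (Finset.mem_coe.1 hs)
    exact (ih (n - s) (by omega)).image _

/-- words of weight at most `n` -/
noncomputable def Wd (n : ℕ) : Finset (List ℕ) := (fin_good n).toFinset

theorem mem_Wd {n : ℕ} {w : List ℕ} : w ∈ Wd n ↔ Good w ∧ w.sum ≤ n := by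
  simp [Wd]

theorem Wd_mono {n m : ℕ} (h : n ≤ m) : Wd n ⊆ Wd m := fun w hw => by
  rw [mem_Wd] at hw ⊢
  exact ⟨hw.1, hw.2.trans h⟩

theorem closed_Wd (n : ℕ) : Closed (Wd n) := by
  refine ⟨mem_Wd.2 ⟨good_nil, by simp⟩, fun s w h => ?_, fun w h => (mem_Wd.1 h).1⟩
  rw [mem_Wd, good_cons, List.sum_cons] at h
  exact mem_Wd.2 ⟨h.1.2, by omega⟩

/-- integer combinations of nested sums of weight at most `n` -/
def Comb (n : ℕ) (f : ℝ → ℝ) : Prop :=
  ∃ c : List ℕ → ℤ, ∀ x : ℝ, 1 ≤ x → f x = ∑ w ∈ Wd n, (c w : ℝ) * y w x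

theorem Comb.mono {n m : ℕ} {f : ℝ → ℝ} (h : Comb n f) (hnm : n ≤ m) : Comb m f := by
  obtain ⟨c, hc⟩ := h
  refine ⟨fun w => if w ∈ Wd n then c w else 0, fun x hx => ?_⟩
  rw [hc x hx, ← sum_subset (Wd_mono hnm)]
  · refine sum_congr rfl fun w hw => ?_
    beta_reduce
    rw [if_pos hw]
  · intro w _ hw
    beta_reduce
    rw [if_neg hw]
    simp

theorem Comb.congr {n : ℕ} {f g : ℝ → ℝ} (h : Comb n f) (hfg : ∀ x, 1 ≤ x → g x = f x) :
    Comb n g := by
  obtain ⟨c, hc⟩ := h
  exact ⟨c, fun x hx => (hfg x hx).trans (hc x hx)⟩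

theorem Comb.add {n : ℕ} {f g : ℝ → ℝ} (hf : Comb n f) (hg : Comb n g) :
    Comb n fun x => f x + g x := by
  obtain ⟨c, hc⟩ := hf
  obtain ⟨d, hd⟩ := hg
  refine ⟨fun w => c w + d w, fun x hx => ?_⟩
  beta_reduce
  rw [hc x hx, hd x hx, ← sum_add_distrib]
  refine sum_congr rfl fun w _ => ?_
  push_cast
  ring

theorem Comb.smul {n : ℕ} {f : ℝ → ℝ} (z : ℤ) (hf : Comb n f) :
    Comb n fun x => (z : ℝ) * f x := by
  obtain ⟨c, hc⟩ := hf
  refine ⟨fun w => z * c w, fun x hx => ?_⟩
  beta_reduce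
  rw [hc x hx, mul_sum]
  refine sum_congr rfl fun w _ => ?_
  push_cast
  ring

theorem Comb.zero (n : ℕ) : Comb n fun _ => 0 := ⟨fun _ => 0, fun x _ => by simp⟩

theorem Comb.sum {ι : Type*} {n : ℕ} (s : Finset ι) (f : ι → ℝ → ℝ)
    (h : ∀ i ∈ s, Comb n (f i)) : Comb n fun x => ∑ i ∈ s, f i x := by
  classical
  induction s using Finset.induction_on with
  | empty => simpa using Comb.zero n
  | insert i s hi ih =>
    have h1 := (h i (mem_insert_self i s)).add (ih fun j hj => h j (mem_insert_of_mem hj))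
    exact h1.congr fun x _ => by rw [sum_insert hi]

theorem Comb.word {n : ℕ} {w : List ℕ} (hw : Good w) (hn : w.sum ≤ n) : Comb n (y w) := by
  refine ⟨fun v => if v = w then 1 else 0, fun x _ => ?_⟩
  rw [sum_eq_single w]
  · simp
  · intro v _ hv
    beta_reduce
    rw [if_neg hv]
    simp
  · intro h
    exact absurd (mem_Wd.2 ⟨hw, hn⟩) h

/-- a function with vanishing difference which tends to zero vanishes -/
theorem eq_zero_of_diff {f : ℝ → ℝ} (h1 : ∀ x, 1 ≤ x → f x = f (x + 1))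
    (h2 : ∀ x, 1 ≤ x → Filter.Tendsto (fun n : ℕ => f (x + n)) Filter.atTop (nhds 0))
    {x : ℝ} (hx : 1 ≤ x) : f x = 0 := by
  have h3 : ∀ n : ℕ, f (x + n) = f x := by
    intro n
    induction n with
    | zero => simp
    | succ n ih =>
      rw [← ih, h1 (x + n) (by have : (0:ℝ) ≤ n := Nat.cast_nonneg n; linarith)]
      push_cast
      rw [add_assoc]
  have h4 := h2 x hx
  simp only [h3] at h4
  exact tendsto_nhds_unique tendsto_const_nhds h4

theorem stuffle {k : ℕ} (hk : 2 ≤ k) : ∀ w : List ℕ, Good w →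
    Comb (k + w.sum) fun x => y [k] x * y w x
  | [], _ => by
    refine (Comb.word (w := [k]) (by simpa [Good] using hk) (by simp)).congr fun x _ => ?_
    simp [y]
  | (s :: w), hw => by
    rw [good_cons] at hw
    obtain ⟨hs, hw⟩ := hw
    obtain ⟨c, hc⟩ := stuffle hk w hw
    replace hc : ∀ x : ℝ, 1 ≤ x → y [k] x * y w x =
      ∑ w ∈ Wd (k + w.sum), (c w : ℝ) * y w x := hc
    have gk : Good [k] := by simpa [Good] using hk
    have g1 : Good (k :: s :: w) := good_cons.2 ⟨hk, good_cons.2 ⟨hs, hw⟩⟩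
    have g2 : Good ((k + s) :: w) := good_cons.2 ⟨by omega, hw⟩
    have g3 : ∀ v ∈ Wd (k + w.sum), Good (s :: v) := fun v hv =>
      good_cons.2 ⟨hs, (mem_Wd.1 hv).1⟩
    have main : ∀ x : ℝ, 1 ≤ x → y [k] x * y (s :: w) x =
        y (k :: s :: w) x + ∑ v ∈ Wd (k + w.sum), (c v : ℝ) * y (s :: v) x +
          ((-1 : ℤ) : ℝ) * y ((k + s) :: w) x := by
      intro x hx
      have key := eq_zero_of_diff (f := fun x => y [k] x * y (s :: w) x -
        (y (k :: s :: w) x + ∑ v ∈ Wd (k + w.sum), (c v : ℝ) * y (s :: v) x +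
          ((-1 : ℤ) : ℝ) * y ((k + s) :: w) x)) ?_ ?_ hx
      · exact sub_eq_zero.1 key
      · intro x hx
        have hx0 : 0 < x := by linarith
        have e1 := y_succ (s := k) (w := []) hk good_nil hx0
        have e2 := y_succ (s := s) (w := w) hs hw hx0
        have e3 := y_succ (s := k) (w := s :: w) hk (good_cons.2 ⟨hs, hw⟩) hx0
        have e4 := y_succ (s := k + s) (w := w) (by omega) hw hx0
        have e5 : ∑ v ∈ Wd (k + w.sum), (c v : ℝ) * y (s :: v) x =
            1 / x ^ s * (y [k] x * y w x) +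
              ∑ v ∈ Wd (k + w.sum), (c v : ℝ) * y (s :: v) (x + 1) := by
          rw [hc x hx, mul_sum, ← sum_add_distrib]
          refine sum_congr rfl fun v hv => ?_
          rw [y_succ (s := s) (w := v) hs (mem_Wd.1 hv).1 hx0]
          ring
        have e0 : y [] x = 1 := by simp [y]
        rw [e0] at e1
        rw [e5, e3, e4]
        have f1 : y [k] (x + 1) = y [k] x - 1 / x ^ k * 1 := by linarith
        have f2 : y (s :: w) (x + 1) = y (s :: w) x - 1 / x ^ s * y w x := by linarith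
        rw [f1, f2]
        push_cast
        rw [pow_add]
        field_simp
        ring
      · intro x hx
        have hx0 : 0 < x := by linarith
        have t1 := (y_tendsto (w := [k]) (by simp) gk hx0).mul
          (y_tendsto (w := s :: w) (by simp) (good_cons.2 ⟨hs, hw⟩) hx0)
        have t2 := y_tendsto (w := k :: s :: w) (by simp) g1 hx0
        have t3 := (y_tendsto (w := (k + s) :: w) (by simp) g2 hx0).const_mul ((-1 : ℤ) : ℝ)
        have t4 := tendsto_finsetSum (Wd (k + w.sum))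
          (fun v hv => (y_tendsto (w := s :: v) (by simp) (g3 v hv) hx0).const_mul ((c v : ℤ) : ℝ))
        have := t1.sub ((t2.add t4).add t3)
        simpa using this
    have h1 : Comb (k + (s :: w).sum) (y (k :: s :: w)) :=
      Comb.word g1 (by simp)
    have h2 : Comb (k + (s :: w).sum) fun x => ∑ v ∈ Wd (k + w.sum), (c v : ℝ) * y (s :: v) x :=
      Comb.sum _ (fun v x => (c v : ℝ) * y (s :: v) x) fun v hv =>
        (Comb.word (g3 v hv) (by
          have := (mem_Wd.1 hv).2
          simp only [List.sum_cons]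
          omega)).smul (c v)
    have h3 : Comb (k + (s :: w).sum) fun x => ((-1 : ℤ) : ℝ) * y ((k + s) :: w) x :=
      (Comb.word g2 (by simp only [List.sum_cons]; omega)).smul (-1)
    exact ((h1.add h2).add h3).congr main

theorem Comb.mul_h {n k : ℕ} (hk : 2 ≤ k) {f : ℝ → ℝ} (hf : Comb n f) :
    Comb (k + n) fun x => y [k] x * f x := by
  obtain ⟨c, hc⟩ := hf
  have h : Comb (k + n) fun x => ∑ w ∈ Wd n, (c w : ℝ) * (y [k] x * y w x) :=
    Comb.sum _ (fun w x => (c w : ℝ) * (y [k] x * y w x)) fun w hw =>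
      ((stuffle hk w (mem_Wd.1 hw).1).mono (by have := (mem_Wd.1 hw).2; omega)).smul (c w)
  refine h.congr fun x hx => ?_
  rw [hc x hx, mul_sum]
  refine sum_congr rfl fun w _ => ?_
  ring

theorem Comb.pow_h {n k : ℕ} (hk : 2 ≤ k) {f : ℝ → ℝ} (hf : Comb n f) (t : ℕ) :
    Comb (t * k + n) fun x => y [k] x ^ t * f x := by
  induction t with
  | zero => simpa using hf
  | succ t ih =>
    refine ((ih.mul_h hk).mono (by ring_nf; omega)).congr fun x _ => ?_
    ring

theorem Comb.one (n : ℕ) : Comb n fun _ => 1 :=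
  (Comb.word (w := []) good_nil (by simp)).congr fun x _ => by simp [y]

theorem Comb.prod {m : ℕ} (s : Finset (Fin m)) (e : Fin m → ℕ) :
    Comb ((∑ j ∈ s, e j) * (m + 1)) fun x => ∏ j ∈ s, y [(j : ℕ) + 2] x ^ e j := by
  classical
  induction s using Finset.induction_on with
  | empty => simpa using Comb.one 0
  | insert j s hj ih =>
    have h := ih.pow_h (k := (j : ℕ) + 2) (by omega) (e j)
    refine (h.mono ?_).congr fun x _ => by rw [prod_insert hj]
    rw [sum_insert hj, add_mul]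
    have : e j * ((j : ℕ) + 2) ≤ e j * (m + 1) := Nat.mul_le_mul_left _ (by have := j.2; omega)
    omega

end Stuf

open Stuf

theorem poly_words (m D : ℕ) : ∃ W : Finset (List ℕ), Closed W ∧ 2 ≤ #W ∧
    (∃ k, ∀ w ∈ W, w.sum ≤ k) ∧ ∃ A : ℕ, ∀ H : ℕ, ∀ P : MvPolynomial (Fin m) ℤ,
      P.totalDegree ≤ D → (∀ e, |P.coeff e| ≤ H) → ∃ c : List ℕ → ℤ, (∀ w, w ∉ W → c w = 0) ∧
        (∀ w, |c w| ≤ A * H) ∧ ∀ x : ℝ, 1 ≤ x →
          MvPolynomial.aeval (fun j : Fin m => ∑' n : ℕ, 1 / (x + n) ^ ((j : ℕ) + 2)) P =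
            ∑ w ∈ W, (c w : ℝ) * y w x := by
  classical
  obtain ⟨k, hk⟩ : ∃ k, k = D * (m + 1) + 2 := ⟨_, rfl⟩
  have hC : ∀ e : Fin m →₀ ℕ, e.degree ≤ D → Comb k fun x => ∏ j : Fin m, y [(j : ℕ) + 2] x ^ e j := by
    intro e he
    refine (Comb.prod univ e).mono ?_
    have h1 : ∑ j, e j = e.degree := (Finsupp.degree_eq_sum e).symm
    rw [h1, hk]
    have := Nat.mul_le_mul_right (m + 1) he
    omega
  choose! c hc using hC
  let S : Finset (Fin m →₀ ℕ) := (Finsupp.finite_of_degree_le D).toFinset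
  have hS : ∀ e, e ∈ S ↔ e.degree ≤ D := fun e => by simp [S]
  refine ⟨Wd k, closed_Wd k, ?_, ⟨k, fun w hw => (mem_Wd.1 hw).2⟩,
    ∑ e ∈ S, ∑ w ∈ Wd k, (c e w).natAbs, fun H P hP hH => ?_⟩
  · have h1 : ({[], [2]} : Finset (List ℕ)) ⊆ Wd k := by
      intro w hw
      rw [mem_insert, mem_singleton] at hw
      rcases hw with rfl | rfl
      · exact mem_Wd.2 ⟨good_nil, by simp⟩
      · exact mem_Wd.2 ⟨by simp [Good], by simp [hk]⟩
    have h2 := card_le_card h1
    rwa [card_pair (by simp)] at h2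
  · have hsupp : P.support ⊆ S := by
      intro e he
      rw [hS]
      refine le_trans (le_of_eq ?_) ((MvPolynomial.le_totalDegree he).trans hP)
      rfl
    refine ⟨fun w => if w ∈ Wd k then ∑ e ∈ S, P.coeff e * c e w else 0, fun w hw => if_neg hw,
      fun w => ?_, fun x hx => ?_⟩
    · beta_reduce
      split_ifs with hw
      · calc |∑ e ∈ S, P.coeff e * c e w| ≤ ∑ e ∈ S, |P.coeff e * c e w| := abs_sum_le_sum_abs _ _
          _ ≤ ∑ e ∈ S, (∑ w ∈ Wd k, ((c e w).natAbs : ℤ)) * H := by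
            refine sum_le_sum fun e _ => ?_
            rw [abs_mul, mul_comm]
            refine mul_le_mul ?_ (hH e) (abs_nonneg _) (sum_nonneg fun w _ => by positivity)
            rw [← Int.natCast_natAbs]
            exact single_le_sum (f := fun w => ((c e w).natAbs : ℤ)) (fun w _ => by positivity) hw
          _ = ((∑ e ∈ S, ∑ w ∈ Wd k, (c e w).natAbs : ℕ) : ℤ) * H := by
            rw [← sum_mul]
            push_cast
            rfl
      · rw [abs_zero]
        positivity
    · have hy : ∀ j : Fin m, ∑' n : ℕ, 1 / (x + n) ^ ((j : ℕ) + 2) = y [(j : ℕ) + 2] x := by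
        intro j
        simp [y]
      rw [MvPolynomial.aeval_def, MvPolynomial.eval₂_eq']
      simp only [hy, eq_intCast]
      rw [sum_subset hsupp (fun e _ he => by
        rw [MvPolynomial.notMem_support_iff.1 he]; simp)]
      have h1 : ∀ w ∈ Wd k, (((if w ∈ Wd k then ∑ e ∈ S, P.coeff e * c e w else 0 : ℤ)) : ℝ) *
          y w x = ∑ e ∈ S, ((P.coeff e : ℤ) : ℝ) * ((c e w : ℝ) * y w x) := by
        intro w hw
        rw [if_pos hw, Int.cast_sum, sum_mul]
        refine sum_congr rfl fun e _ => ?_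
        push_cast
        ring
      rw [sum_congr rfl h1, sum_comm]
      refine sum_congr rfl fun e he => ?_
      rw [← mul_sum, ← hc e ((hS e).1 he) x hx]

end Pool.Agent.Lib.MP_524521_nt.PT
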