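import Mathlib
import Pool.Agent.Lib.MP_524521_nt.PT.Expn

/-!
# Sizes: iterated shifts, binomial coefficients, the numerical inequality
-/

open Polynomial

namespace Pool.Agent.Lib.MP_524521_nt.PT

theorem nx_int {k : ℕ} {Q : List ℕ → ℚ[X]} {R : ℕ} {B : ℤ} (hB : 0 ≤ B)
    (h : ∀ w, ∀ n : ℕ, 1 ≤ n → n ≤ R → ∃ z : ℤ, (Q w).eval (n : ℚ) = z ∧ |z| ≤ B) (v : List ℕ)
    {n : ℕ} (hn : 1 ≤ n) (hR : n + 1 ≤ R) :
    ∃ z : ℤ, (nx k Q v).eval (n : ℚ) = z ∧ |z| ≤ ((k + 1) * R ^ k) * B := by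
  have hR1 : (1 : ℤ) ≤ R := by exact_mod_cast (by omega : 1 ≤ R)
  have hnR : (n : ℤ) ≤ R := by exact_mod_cast (by omega : n ≤ R)
  have hn0 : (0 : ℤ) ≤ n := by positivity
  choose z hz using fun w => h w (n + 1) (by omega) hR
  refine ⟨n ^ k * z v - ∑ s ∈ Finset.Icc 2 k, n ^ (k - s) * z (s :: v), ?_, ?_⟩
  · unfold nx
    simp only [eval_sub, eval_mul, eval_pow, eval_X, eval_comp, eval_add, eval_one, eval_finsetSum]
    have h1 : ∀ w, (Q w).eval ((n : ℚ) + 1) = z w := by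
      intro w
      have := (hz w).1
      push_cast at this
      exact this
    simp only [h1]
    push_cast
    rfl
  · have hp : ∀ s, (n : ℤ) ^ (k - s) ≤ R ^ k := fun s =>
      calc (n : ℤ) ^ (k - s) ≤ R ^ (k - s) := pow_le_pow_left₀ hn0 hnR _
        _ ≤ R ^ k := pow_le_pow_right₀ hR1 (Nat.sub_le _ _)
    have hRk : (0 : ℤ) ≤ (R : ℤ) ^ k := by positivity
    calc |(n : ℤ) ^ k * z v - ∑ s ∈ Finset.Icc 2 k, (n : ℤ) ^ (k - s) * z (s :: v)|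
        ≤ |(n : ℤ) ^ k * z v| + |∑ s ∈ Finset.Icc 2 k, (n : ℤ) ^ (k - s) * z (s :: v)| := abs_sub _ _
      _ ≤ R ^ k * B + ∑ s ∈ Finset.Icc 2 k, R ^ k * B := by
          refine add_le_add ?_ ((Finset.abs_sum_le_sum_abs _ _).trans (Finset.sum_le_sum ?_))
          · rw [abs_mul, abs_of_nonneg (by positivity : (0 : ℤ) ≤ (n : ℤ) ^ k)]
            exact mul_le_mul (by simpa using hp 0) (hz v).2 (abs_nonneg _) hRk
          · intro s _
            rw [abs_mul, abs_of_nonneg (by positivity : (0 : ℤ) ≤ (n : ℤ) ^ (k - s))]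
            exact mul_le_mul (hp s) (hz _).2 (abs_nonneg _) hRk
      _ ≤ ((k + 1) * R ^ k) * B := by
          rw [Finset.sum_const, Nat.card_Icc, nsmul_eq_mul]
          have h3 : ((k + 1 - 2 : ℕ) : ℤ) ≤ k := by omega
          have h4 : 0 ≤ (R : ℤ) ^ k * B := mul_nonneg hRk hB
          nlinarith [mul_le_mul_of_nonneg_right h3 h4]

theorem nx_iter {k : ℕ} {P : List ℕ → ℚ[X]} {R : ℕ} {B : ℤ} (hB : 0 ≤ B)
    (h : ∀ w, ∀ n : ℕ, 1 ≤ n → n ≤ R → ∃ z : ℤ, (P w).eval (n : ℚ) = z ∧ |z| ≤ B) :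
    ∀ (i : ℕ) (w : List ℕ) (n : ℕ), 1 ≤ n → n + i ≤ R →
      ∃ z : ℤ, (((nx k)^[i] P) w).eval (n : ℚ) = z ∧ |z| ≤ ((k + 1) * R ^ k) ^ i * B := by
  intro i
  induction i generalizing R with
  | zero =>
    intro w n hn hR
    obtain ⟨z, hz, hz'⟩ := h w n hn hR
    exact ⟨z, hz, by simpa using hz'⟩
  | succ i ih =>
    intro w n hn hR
    rw [Function.iterate_succ_apply']
    have h1 : ∀ w, ∀ m : ℕ, 1 ≤ m → m ≤ n + 1 → ∃ z : ℤ, (((nx k)^[i] P) w).eval (m : ℚ) = z ∧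
        |z| ≤ ((k + 1) * R ^ k) ^ i * B := fun w m hm hm' => ih h w m hm (by omega)
    have hB' : (0 : ℤ) ≤ ((k + 1) * R ^ k) ^ i * B := by positivity
    obtain ⟨z, hz, hz'⟩ := nx_int (k := k) hB' h1 w hn le_rfl
    refine ⟨z, hz, hz'.trans ?_⟩
    have h2 : ((n + 1 : ℕ) : ℤ) ≤ R := by exact_mod_cast (by omega : n + 1 ≤ R)
    have h3 : ((n + 1 : ℕ) : ℤ) ^ k ≤ (R : ℤ) ^ k := pow_le_pow_left₀ (by positivity) h2 k
    have h4 : ((k : ℤ) + 1) * ((n + 1 : ℕ) : ℤ) ^ k ≤ (k + 1) * R ^ k :=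
      mul_le_mul_of_nonneg_left h3 (by positivity)
    calc ((k : ℤ) + 1) * ((n + 1 : ℕ) : ℤ) ^ k * (((k + 1) * R ^ k) ^ i * B)
        ≤ ((k + 1) * R ^ k) * (((k + 1) * R ^ k) ^ i * B) := mul_le_mul_of_nonneg_right h4 hB'
      _ = _ := by ring

theorem nx_supp {W : Finset (List ℕ)} (hW : Closed W) {k : ℕ} {Q : List ℕ → ℚ[X]}
    (hQ : ∀ w, w ∉ W → Q w = 0) : ∀ w, w ∉ W → nx k Q w = 0 := by
  intro w hw
  unfold nx
  rw [hQ w hw, zero_comp, mul_zero, zero_sub, neg_eq_zero]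
  refine Finset.sum_eq_zero fun s _ => ?_
  rw [hQ (s :: w) fun h => hw (hW.tail_mem s w h), zero_comp, mul_zero]

theorem nx_iter_supp {W : Finset (List ℕ)} (hW : Closed W) {k : ℕ} {Q : List ℕ → ℚ[X]}
    (hQ : ∀ w, w ∉ W → Q w = 0) : ∀ i w, w ∉ W → ((nx k)^[i] Q) w = 0 := by
  intro i
  induction i with
  | zero => exact hQ
  | succ i ih =>
    rw [Function.iterate_succ_apply']
    exact nx_supp hW ih

theorem rho_le {x : ℝ} (hx : 2 ≤ x) (M : ℕ) : rho M x ≤ M.factorial / x ^ M := by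
  unfold rho RA.As.pj
  have h0 : (0 : ℝ) < x := by linarith
  have h1 : x ^ M ≤ ∏ i ∈ Finset.range M, (x + i) := by
    calc x ^ M = ∏ _i ∈ Finset.range M, x := by simp
      _ ≤ _ := Finset.prod_le_prod (fun _ _ => h0.le) fun i _ => by
        have : (0 : ℝ) ≤ i := Nat.cast_nonneg i
        linarith
  have h2 : (∏ i ∈ Finset.range M, (x + i))⁻¹ ≤ (x ^ M)⁻¹ := inv_anti₀ (by positivity) h1
  have h3 : (0 : ℝ) ≤ (M.factorial : ℝ) * (∏ i ∈ Finset.range M, (x + i))⁻¹ := by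
    have : (0 : ℝ) < ∏ i ∈ Finset.range M, (x + i) := lt_of_lt_of_le (by positivity) h1
    positivity
  calc (M.factorial : ℝ) * (∏ i ∈ Finset.range M, (x + i))⁻¹ / (x - 1)
      ≤ (M.factorial : ℝ) * (∏ i ∈ Finset.range M, (x + i))⁻¹ := div_le_self h3 (by linarith)
    _ ≤ (M.factorial : ℝ) * (x ^ M)⁻¹ := mul_le_mul_of_nonneg_left h2 (by positivity)
    _ = _ := by rw [div_eq_mul_inv]

theorem choose_bd {a b : ℕ} (hb : 1 ≤ b) : ((a.choose b : ℕ) : ℝ) ≤ (3 * (a : ℝ) / b) ^ b := by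
  have hb0 : (0 : ℝ) < b := by exact_mod_cast hb
  have h1 : ((a.choose b : ℕ) : ℝ) ≤ (a : ℝ) ^ b / b.factorial := Nat.choose_le_pow_div b a
  have h2 : (b : ℝ) ^ b / b.factorial ≤ Real.exp b := Real.pow_div_factorial_le_exp b hb0.le b
  have h3 : Real.exp b ≤ 3 ^ b := by
    have : Real.exp (b : ℝ) = (Real.exp 1) ^ b := by rw [← Real.exp_nat_mul, mul_one]
    rw [this]
    exact pow_le_pow_left₀ (Real.exp_pos 1).le (by linarith [Real.exp_one_lt_d9]) b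
  have hf : (0 : ℝ) < b.factorial := by exact_mod_cast Nat.factorial_pos b
  calc ((a.choose b : ℕ) : ℝ) ≤ (a : ℝ) ^ b / b.factorial := h1
    _ = ((a : ℝ) / b) ^ b * ((b : ℝ) ^ b / b.factorial) := by
        rw [div_pow]
        field_simp
    _ ≤ ((a : ℝ) / b) ^ b * 3 ^ b := mul_le_mul_of_nonneg_left (h2.trans h3) (by positivity)
    _ = _ := by rw [← mul_pow]; congr 1; ring

end Pool.Agent.Lib.MP_524521_nt.PT
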