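import Mathlib
import Pool.Agent.Lib.MP_524521_nt.PT.Mul

/-!
# Siegel's lemma and products with factorial series
-/

open Polynomial

namespace Pool.Agent.Lib.MP_524521_nt.PT

section
attribute [local instance] Matrix.seminormedAddCommGroup

theorem siegel {α β : Type} [Fintype α] [Fintype β] (A : Matrix α β ℤ)
    (hn : Fintype.card α < Fintype.card β) (hm : 0 < Fintype.card α) {B : ℝ} (hB : 1 ≤ B)
    (hA : ∀ i j, |(A i j : ℝ)| ≤ B) (e : ℕ)
    (he : (Fintype.card α : ℝ) / (Fintype.card β - Fintype.card α) ≤ e) :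
    ∃ t : β → ℤ, t ≠ 0 ∧ A.mulVec t = 0 ∧ ∀ j, |(t j : ℝ)| ≤ (Fintype.card β * B) ^ e := by
  obtain ⟨t, ht0, ht1, ht2⟩ := Int.Matrix.exists_ne_zero_int_vec_norm_le A hn hm
  refine ⟨t, ht0, ht1, fun j => ?_⟩
  have h1 : |(t j : ℝ)| ≤ ‖t‖ := by
    have := norm_le_pi_norm t j
    rwa [Int.norm_eq_abs] at this
  have h2 : ‖A‖ ≤ B := by
    rw [Matrix.norm_le_iff (by linarith)]
    intro i j
    rw [Int.norm_eq_abs]
    exact hA i j
  have hc : (1:ℝ) ≤ Fintype.card β := by exact_mod_cast (by omega : 1 ≤ Fintype.card β)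
  have h3 : max 1 ‖A‖ ≤ B := max_le hB h2
  have h4 : (0:ℝ) ≤ (Fintype.card α : ℝ) / (Fintype.card β - Fintype.card α) := by
    have : (Fintype.card α : ℝ) ≤ Fintype.card β := by exact_mod_cast hn.le
    apply div_nonneg (Nat.cast_nonneg _)
    linarith
  calc |(t j : ℝ)| ≤ ‖t‖ := h1
    _ ≤ _ := ht2
    _ ≤ (Fintype.card β * B) ^ ((Fintype.card α : ℝ) / (Fintype.card β - Fintype.card α)) := by
        apply Real.rpow_le_rpow _ _ h4
        · have : (0:ℝ) ≤ max 1 ‖A‖ := le_trans zero_le_one (le_max_left _ _)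
          positivity
        · gcongr
    _ ≤ (Fintype.card β * B) ^ (e : ℝ) := by
        apply Real.rpow_le_rpow_of_exponent_le _ he
        nlinarith
    _ = _ := Real.rpow_natCast _ _

end

/-- coefficients of the product of `bn a` and a factorial series with `a + K` terms -/
def cf (c : ℕ → ℚ) (a K r : ℕ) : ℚ := ∑ i ∈ Finset.range (a + 1),
  if i ≤ r ∧ r < i + K then c (r + a - i) * (r + a - i).choose a * ((-1) ^ i * a.choose i) else 0

theorem sum_reindex (f : ℕ → ℝ) {i a K : ℕ} (hi : i ≤ a) :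
    ∑ j ∈ Finset.range K, f (i + j) =
      ∑ r ∈ Finset.range (a + K), if i ≤ r ∧ r < i + K then f r else 0 := by
  rw [← Finset.sum_filter]
  have h1 : (Finset.range (a + K)).filter (fun r => i ≤ r ∧ r < i + K) = Finset.Ico i (i + K) := by
    ext r
    simp only [Finset.mem_filter, Finset.mem_range, Finset.mem_Ico]
    omega
  rw [h1, Finset.sum_Ico_eq_sum_range]
  simp

theorem mul_series (c : ℕ → ℚ) (a K : ℕ) {x : ℝ} (hx : 0 < x) :
    bn a x * ∑ l ∈ Finset.range (a + K), (c l : ℝ) * be l x =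
      ∑ l ∈ Finset.range a, (c l : ℝ) * (bn a x * be l x) +
        ∑ r ∈ Finset.range (a + K), (cf c a K r : ℝ) * be r x := by
  rw [Finset.sum_range_add, mul_add]
  congr 1
  · rw [Finset.mul_sum]
    apply Finset.sum_congr rfl
    intro l _
    ring
  · have h1 : bn a x * ∑ j ∈ Finset.range K, (c (a + j) : ℝ) * be (a + j) x =
        ∑ i ∈ Finset.range (a + 1), ∑ j ∈ Finset.range K,
          (fun r : ℕ => (c (r + a - i) : ℝ) * (r + a - i).choose a * ((-1) ^ i * a.choose i) * be r x)
            (i + j) := by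
      rw [Finset.sum_comm, Finset.mul_sum]
      apply Finset.sum_congr rfl
      intro j _
      rw [mul_left_comm, bn_mul_be_sum hx, Finset.mul_sum]
      apply Finset.sum_congr rfl
      intro i _
      have : i + j + a - i = a + j := by omega
      simp only [this]
      ring
    have h3 : ∑ r ∈ Finset.range (a + K), (cf c a K r : ℝ) * be r x =
        ∑ r ∈ Finset.range (a + K), ∑ i ∈ Finset.range (a + 1),
          if i ≤ r ∧ r < i + K then
            (c (r + a - i) : ℝ) * (r + a - i).choose a * ((-1) ^ i * a.choose i) * be r x else 0 := by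
      apply Finset.sum_congr rfl
      intro r _
      unfold cf
      rw [Rat.cast_sum, Finset.sum_mul]
      apply Finset.sum_congr rfl
      intro i _
      split_ifs
      · push_cast; ring
      · simp
    rw [h1, h3]
    conv_rhs => rw [Finset.sum_comm]
    apply Finset.sum_congr rfl
    intro i hi
    rw [Finset.mem_range] at hi
    have hia : i ≤ a := by omega
    exact sum_reindex (fun r : ℕ =>
      (c (r + a - i) : ℝ) * (r + a - i).choose a * ((-1) ^ i * a.choose i) * be r x) hia

theorem cf_abs {c : ℕ → ℚ} (hc : ∀ l, 0 ≤ c l ∧ c l ≤ 1) (a K r : ℕ) :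
    |(cf c a K r : ℝ)| ≤ (a + 1) * (2 ^ (r + a) * 2 ^ a) := by
  unfold cf
  rw [Rat.cast_sum]
  refine (Finset.abs_sum_le_sum_abs _ _).trans ?_
  have h1 : ∀ i ∈ Finset.range (a + 1), |(((if i ≤ r ∧ r < i + K then
      c (r + a - i) * (r + a - i).choose a * ((-1) ^ i * a.choose i) else 0 : ℚ)) : ℝ)| ≤
      2 ^ (r + a) * 2 ^ a := by
    intro i _
    split_ifs
    · push_cast
      rw [abs_mul, abs_mul, abs_mul, abs_pow, abs_neg, abs_one, one_pow, one_mul]
      have e1 : |(c (r + a - i) : ℝ)| ≤ 1 := by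
        rw [abs_of_nonneg (by exact_mod_cast (hc _).1)]
        exact_mod_cast (hc _).2
      have e2 : |(((r + a - i).choose a : ℕ) : ℝ)| ≤ 2 ^ (r + a) := by
        rw [abs_of_nonneg (Nat.cast_nonneg _)]
        have := (Nat.choose_le_two_pow (r + a - i) a).trans
          (Nat.pow_le_pow_right (by norm_num) (by omega : r + a - i ≤ r + a))
        exact_mod_cast this
      have e3 : |((a.choose i : ℕ) : ℝ)| ≤ 2 ^ a := by
        rw [abs_of_nonneg (Nat.cast_nonneg _)]
        exact_mod_cast Nat.choose_le_two_pow a i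
      calc |(c (r + a - i) : ℝ)| * |(((r + a - i).choose a : ℕ) : ℝ)| * |((a.choose i : ℕ) : ℝ)|
          ≤ 1 * 2 ^ (r + a) * 2 ^ a := by gcongr
        _ = _ := by ring
    · simp
  refine (Finset.sum_le_sum h1).trans ?_
  rw [Finset.sum_const, Finset.card_range, nsmul_eq_mul]
  push_cast
  exact le_rfl

/-- the condition on `K` is void for small `r` -/
theorem cf_eq (c : ℕ → ℚ) {a K r : ℕ} (h : r < K) : cf c a K r = ∑ i ∈ Finset.range (a + 1),
    if i ≤ r then c (r + a - i) * (r + a - i).choose a * ((-1) ^ i * a.choose i) else 0 := by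
  unfold cf
  apply Finset.sum_congr rfl
  intro i _
  by_cases hi : i ≤ r
  · rw [if_pos ⟨hi, by omega⟩, if_pos hi]
  · rw [if_neg (fun h => hi h.1), if_neg hi]

end Pool.Agent.Lib.MP_524521_nt.PT
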