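import Mathlib
import Pool.Agent.Lib.MP_524521_nt.PT.Sieg
import Pool.Agent.Lib.MP_524521_nt.PT.Cint
import Pool.Agent.Lib.MP_524521_nt.RA.FinalQ

section
/-!
# Least common multiples
-/
namespace Pool.Agent.Lib.MP_524521_nt.PT

theorem dvd_lcmUpto_of_le {m a : ℕ} (h1 : 1 ≤ m) (h2 : m ≤ a) : m ∣ Nat.lcmUpto a :=
  Finset.dvd_lcm (Finset.mem_Icc.2 ⟨h1, h2⟩)

theorem lcmUpto_mono_dvd {a N : ℕ} (h : a ≤ N) : Nat.lcmUpto a ∣ Nat.lcmUpto N :=
  Finset.lcm_mono (Finset.Icc_subset_Icc_right h)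

/-- the Leibniz triangle: `j * C(a, j)` divides `lcm (1, ..., a)` -/
theorem leibniz_int (j : ℕ) : ∀ a : ℕ, j + 1 ≤ a →
    ∃ z : ℤ, (Nat.lcmUpto a : ℚ) / (((j + 1) * a.choose (j + 1) : ℕ) : ℚ) = z := by
  induction j with
  | zero =>
    intro a ha
    obtain ⟨c, hc⟩ := dvd_lcmUpto_of_le (by omega : 1 ≤ a) le_rfl
    refine ⟨c, ?_⟩
    have ha0 : (a : ℚ) ≠ 0 := by exact_mod_cast (by omega : a ≠ 0)
    simp only [zero_add, Nat.choose_one_right, one_mul]
    rw [div_eq_iff ha0]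
    have : ((Nat.lcmUpto a : ℕ) : ℚ) = (a : ℚ) * c := by exact_mod_cast hc
    rw [this]
    push_cast
    ring
  | succ j ih =>
    intro a ha
    obtain ⟨b, rfl⟩ : ∃ b, a = b + 1 := ⟨a - 1, by omega⟩
    obtain ⟨z1, hz1⟩ := ih b (by omega)
    obtain ⟨z2, hz2⟩ := ih (b + 1) (by omega)
    obtain ⟨c, hc⟩ := lcmUpto_mono_dvd (Nat.le_succ b)
    refine ⟨c * z1 - z2, ?_⟩
    have hc' : ((Nat.lcmUpto (b + 1) : ℕ) : ℚ) = (Nat.lcmUpto b : ℚ) * c := by exact_mod_cast hc
    have key : (1 : ℚ) / (((j + 1 + 1) * (b + 1).choose (j + 1 + 1) : ℕ) : ℚ) =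
        1 / (((j + 1) * b.choose (j + 1) : ℕ) : ℚ) - 1 / (((j + 1) * (b + 1).choose (j + 1) : ℕ) : ℚ) := by
      have h1 : (((b + 1).choose (j + 1) : ℕ) : ℚ) * (((b + 1 : ℕ) : ℚ) - ((j + 1 : ℕ) : ℚ)) =
          ((b + 1 : ℕ) : ℚ) * ((b.choose (j + 1) : ℕ) : ℚ) := by
        have h2 : (b + 1) * b.choose (j + 1) = (b + 1).choose (j + 1) * (b + 1 - (j + 1)) := by
          rw [mul_comm]; exact Nat.choose_mul_succ_eq b (j + 1)
        have h3 : (((b + 1 - (j + 1) : ℕ)) : ℚ) = ((b + 1 : ℕ) : ℚ) - ((j + 1 : ℕ) : ℚ) :=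
          Nat.cast_sub (by omega)
        rw [← h3]
        exact_mod_cast h2.symm
      have h4 : (((j + 1 + 1) * (b + 1).choose (j + 1 + 1) : ℕ) : ℚ) =
          ((b + 1 : ℕ) : ℚ) * ((b.choose (j + 1) : ℕ) : ℚ) := by
        have := Nat.add_one_mul_choose_eq b (j + 1)
        rw [mul_comm]
        exact_mod_cast this.symm
      have hb1 : ((b.choose (j + 1) : ℕ) : ℚ) ≠ 0 := by
        exact_mod_cast (Nat.choose_pos (by omega : j + 1 ≤ b)).ne'
      have hb2 : (((b + 1).choose (j + 1) : ℕ) : ℚ) ≠ 0 := by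
        exact_mod_cast (Nat.choose_pos (by omega : j + 1 ≤ b + 1)).ne'
      have hj : ((j + 1 : ℕ) : ℚ) ≠ 0 := by exact_mod_cast (by omega : j + 1 ≠ 0)
      have hbb : ((b + 1 : ℕ) : ℚ) ≠ 0 := by exact_mod_cast (by omega : b + 1 ≠ 0)
      rw [h4]
      push_cast at h1 hj hbb ⊢
      field_simp
      linear_combination -h1
    calc ((Nat.lcmUpto (b + 1) : ℕ) : ℚ) / (((j + 1 + 1) * (b + 1).choose (j + 1 + 1) : ℕ) : ℚ)
        = (Nat.lcmUpto (b + 1) : ℚ) * (1 / (((j + 1 + 1) * (b + 1).choose (j + 1 + 1) : ℕ) : ℚ)) := by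
          rw [mul_one_div]
      _ = (Nat.lcmUpto b : ℚ) * c * (1 / (((j + 1) * b.choose (j + 1) : ℕ) : ℚ)) -
          (Nat.lcmUpto (b + 1) : ℚ) * (1 / (((j + 1) * (b + 1).choose (j + 1) : ℕ) : ℚ)) := by
          rw [key, mul_sub, hc']
      _ = c * ((Nat.lcmUpto b : ℚ) / (((j + 1) * b.choose (j + 1) : ℕ) : ℚ)) -
          (Nat.lcmUpto (b + 1) : ℚ) / (((j + 1) * (b + 1).choose (j + 1) : ℕ) : ℚ) := by ring
      _ = _ := by rw [hz1, hz2]; push_cast; ring

theorem mul_choose_dvd {a j : ℕ} (h1 : 1 ≤ j) (h2 : j ≤ a) : j * a.choose j ∣ Nat.lcmUpto a := by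
  obtain ⟨i, rfl⟩ : ∃ i, j = i + 1 := ⟨j - 1, by omega⟩
  obtain ⟨z, hz⟩ := leibniz_int i a h2
  have h0 : 0 < (i + 1) * a.choose (i + 1) := Nat.mul_pos (by omega) (Nat.choose_pos h2)
  rw [div_eq_iff (by exact_mod_cast h0.ne')] at hz
  have h3 : ((Nat.lcmUpto a : ℕ) : ℤ) = z * (((i + 1) * a.choose (i + 1) : ℕ) : ℤ) := by
    exact_mod_cast hz
  exact Int.natCast_dvd_natCast.1 ⟨z, by rw [h3]; ring⟩

theorem lcmUpto_le (n : ℕ) : (Nat.lcmUpto n : ℝ) ≤ 220 ^ n := by
  have h0 : (0 : ℝ) < Nat.lcmUpto n := by exact_mod_cast Nat.lcmUpto_pos n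
  have h1 : Real.log (Nat.lcmUpto n) ≤ (Real.log 4 + 4) * n := by
    rw [← Chebyshev.psi_eq_log_lcmUpto]
    exact Chebyshev.psi_le_const_mul_self (Nat.cast_nonneg n)
  have h2 : (Nat.lcmUpto n : ℝ) ≤ Real.exp ((Real.log 4 + 4) * n) := (Real.log_le_iff_le_exp h0).1 h1
  refine h2.trans ?_
  rw [mul_comm, Real.exp_nat_mul, Real.exp_add, Real.exp_log (by norm_num)]
  refine pow_le_pow_left₀ (by positivity) ?_ n
  have h3 : Real.exp 4 = Real.exp 1 ^ 4 := by rw [← Real.exp_nat_mul]; norm_num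
  rw [h3]
  have h4 := Real.exp_one_lt_d9
  have h5 : Real.exp 1 ^ 4 ≤ (2.7182818286 : ℝ) ^ 4 := pow_le_pow_left₀ (Real.exp_pos 1).le h4.le 4
  have h6 : (2.7182818286 : ℝ) ^ 4 ≤ 55 := by norm_num
  linarith

end Pool.Agent.Lib.MP_524521_nt.PT
end

section
/-!
# Siegel's lemma for the nested sums
-/
open Polynomial

namespace Pool.Agent.Lib.MP_524521_nt.PT

theorem dvd_lcmUpto {r R : ℕ} (h1 : 1 ≤ r) (h2 : r ≤ R) : r ∣ Nat.lcmUpto R :=
  Finset.dvd_lcm (f := id) (Finset.mem_Icc.2 ⟨h1, h2⟩)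

/-- the number of equations -/
def Mq (L N q : ℕ) : ℕ := (L - 1) * (N + 1) - (N / q + 1)

theorem Mq_facts {L N q : ℕ} (hL : 2 ≤ L) (hN : 1 ≤ N) (hq : 2 ≤ q) :
    0 < Mq L N q ∧ Mq L N q < (L - 1) * (N + 1) ∧ Mq L N q + (N / q + 1) = (L - 1) * (N + 1) ∧
      N ≤ q * (N / q + 1) ∧ Mq L N q ≤ 2 * L * N := by
  have h1 : N / q + 1 < N + 1 := by
    have := Nat.div_lt_self hN (by omega : 1 < q)
    omega
  have h2 : N + 1 ≤ (L - 1) * (N + 1) := Nat.le_mul_of_pos_left _ (by omega)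
  have h3 : N ≤ q * (N / q + 1) := by
    have h4 := Nat.div_add_mod N q
    have h5 := Nat.mod_lt N (by omega : 0 < q)
    rw [mul_add]
    omega
  have h4 : (L - 1) * (N + 1) ≤ 2 * L * N := by
    calc (L - 1) * (N + 1) ≤ L * (2 * N) := by gcongr <;> omega
      _ = 2 * L * N := by ring
  unfold Mq
  obtain ⟨X, hX⟩ : ∃ X, X = (L - 1) * (N + 1) := ⟨_, rfl⟩
  obtain ⟨Y, hY⟩ : ∃ Y, Y = 2 * L * N := ⟨_, rfl⟩
  obtain ⟨Z, hZ⟩ : ∃ Z, Z = N / q := ⟨_, rfl⟩
  rw [← hX] at h2 h4 ⊢
  rw [← hY] at h4 ⊢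
  rw [← hZ] at h1 h3 ⊢
  refine ⟨by omega, by omega, by omega, h3, by omega⟩

theorem sieg_words (W : Finset (List ℕ)) (hW : Closed W) (hL : 2 ≤ W.card) (k : ℕ)
    (hk : ∀ w ∈ W, w.sum ≤ k) (q : ℕ) (hq : 2 ≤ q) :
    ∃ C : ℕ, 1 ≤ C ∧ ∀ N : ℕ, 1 ≤ N → ∃ p : List ℕ → ℕ → ℤ,
      (∀ w, w ∉ W.erase [] → ∀ a, p w a = 0) ∧ (∃ w ∈ W.erase [], ∃ a < N + 1, p w a ≠ 0) ∧
      (∀ w a, |(p w a : ℝ)| ≤ (C : ℝ) ^ N) ∧
      ∀ r < Mq W.card N q, ∑ w ∈ W.erase [], ∑ a ∈ Finset.range (N + 1),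
        (p w a : ℚ) * cf (Cw w) a (Mq W.card N q + N - a) r = 0 := by
  classical
  set L := W.card with hLdef
  set S := W.erase [] with hS
  have hScard : S.card = L - 1 := by rw [hS, Finset.card_erase_of_mem hW.nil_mem]
  set C0 : ℕ := (2 * L * (220 ^ (3 * L * k) * 2 ^ (3 * L + 2))) with hC0
  refine ⟨C0 ^ (2 * L * q), Nat.one_le_iff_ne_zero.2 (by positivity), fun N hN => ?_⟩
  obtain ⟨hM0, hM1, hM2, hM3, hM4⟩ := Mq_facts hL hN hq
  set M := Mq L N q with hM
  set R := M + N with hR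
  have hR3 : R ≤ 3 * L * N := by nlinarith
  set D := Nat.lcmUpto R with hD
  have hDdvd : ∀ r, 1 ≤ r → r ≤ R → r ∣ D := fun r h1 h2 => dvd_lcmUpto h1 h2
  have hDpos : 1 ≤ D := Nat.lcmUpto_pos R
  -- integer values
  have hint : ∀ w ∈ S, ∀ l, l + 1 ≤ R → II ((D : ℚ) ^ k * Cw w l) := by
    intro w hw l hl
    have hwW := (Finset.mem_erase.1 hw).2
    exact Cw_II' hDdvd (hW.two_le w hwW) (hk w hwW) hl
  have hE : ∀ w ∈ S, ∀ a ≤ N, ∀ r < M, II ((D : ℚ) ^ k * cf (Cw w) a (R - a) r) := by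
    intro w hw a ha r hr
    unfold cf
    rw [Finset.mul_sum]
    refine II.sum _ fun i _ => ?_
    split_ifs with h
    · have h1 : (D : ℚ) ^ k * (Cw w (r + a - i) * (r + a - i).choose a * ((-1) ^ i * a.choose i)) =
          ((D : ℚ) ^ k * Cw w (r + a - i)) * (((r + a - i).choose a : ℕ) * ((((-1) ^ i : ℤ) : ℚ) * (a.choose i : ℕ))) := by
        push_cast; ring
      rw [h1]
      exact (hint w hw _ (by omega)).mul ((II.nat _).mul ((II.int _).mul (II.nat _)))
    · rw [mul_zero]; exact ⟨0, by simp⟩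
  choose! z hz using hE
  let β := ↥S × Fin (N + 1)
  let A : Matrix (Fin M) β ℤ := fun r p => z p.1.1 p.2.1 r.1
  have hcard : Fintype.card β = (L - 1) * (N + 1) := by
    rw [Fintype.card_prod, Fintype.card_coe, Fintype.card_fin, hScard]
  have hAq : ∀ (r : Fin M) (p : β), (A r p : ℚ) = (D : ℚ) ^ k * cf (Cw p.1.1) p.2.1 (R - p.2.1) r.1 := by
    intro r p
    exact (hz p.1.1 p.1.2 p.2.1 (by have := p.2.2; omega) r.1 r.2).symm
  set B : ℝ := (220 ^ (3 * L * N)) ^ k * (2 ^ N * (2 ^ (3 * L * N) * 2 ^ N)) with hB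
  have hB1 : 1 ≤ B := by
    rw [hB]
    have h1 : (1:ℝ) ≤ (220 ^ (3 * L * N)) ^ k := one_le_pow₀ (one_le_pow₀ (by norm_num))
    have h2 : (1:ℝ) ≤ 2 ^ N := one_le_pow₀ (by norm_num)
    have h3 : (1:ℝ) ≤ 2 ^ (3 * L * N) := one_le_pow₀ (by norm_num)
    nlinarith [mul_le_mul h1 h2 zero_le_one (by linarith), mul_le_mul h3 h2 zero_le_one (by linarith),
      one_le_mul_of_one_le_of_one_le h1 (one_le_mul_of_one_le_of_one_le h2
        (one_le_mul_of_one_le_of_one_le h3 h2))]
  have hAB : ∀ i j, |(A i j : ℝ)| ≤ B := by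
    intro i j
    have h1 : (A i j : ℝ) = (D : ℝ) ^ k * (cf (Cw j.1.1) j.2.1 (R - j.2.1) i.1 : ℝ) := by
      have := hAq i j
      have h2 : ((A i j : ℚ) : ℝ) = (((D : ℚ) ^ k * cf (Cw j.1.1) j.2.1 (R - j.2.1) i.1 : ℚ) : ℝ) := by
        rw [this]
      push_cast at h2
      exact h2
    rw [h1, abs_mul, abs_of_nonneg (by positivity : (0:ℝ) ≤ (D : ℝ) ^ k)]
    have h2 := cf_abs (Cw_bound j.1.1) j.2.1 (R - j.2.1) i.1
    have h3 : (D : ℝ) ≤ 220 ^ (3 * L * N) :=
      (lcmUpto_le R).trans (pow_le_pow_right₀ (by norm_num) hR3)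
    have hj : (j.2.1 : ℕ) ≤ N := by have := j.2.2; omega
    have hi : i.1 < M := i.2
    have h4 : ((j.2.1 : ℕ) : ℝ) + 1 ≤ 2 ^ N := by
      have h5 : j.2.1 + 1 ≤ 2 ^ N := (Nat.lt_two_pow_self (n := j.2.1)).trans_le
        (Nat.pow_le_pow_right (by norm_num) hj)
      exact_mod_cast h5
    rw [hB]
    refine mul_le_mul (pow_le_pow_left₀ (Nat.cast_nonneg D) h3 k) (h2.trans ?_) (abs_nonneg _)
      (by positivity)
    have h6 : (2:ℝ) ^ (i.1 + j.2.1) ≤ 2 ^ (3 * L * N) := pow_le_pow_right₀ (by norm_num) (by omega)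
    have h7 : (2:ℝ) ^ (j.2.1 : ℕ) ≤ 2 ^ N := pow_le_pow_right₀ (by norm_num) hj
    gcongr
  have hexp : (Fintype.card (Fin M) : ℝ) / (Fintype.card β - Fintype.card (Fin M)) ≤ ((2 * L * q : ℕ) : ℝ) := by
    rw [Fintype.card_fin, hcard]
    have h1 : ((((L - 1) * (N + 1) : ℕ) : ℝ)) - M = ((N / q + 1 : ℕ) : ℝ) := by
      rw [← hM2]; push_cast; ring
    rw [h1, div_le_iff₀ (by positivity)]
    have h2 : M ≤ 2 * L * q * (N / q + 1) := by
      calc M ≤ 2 * L * N := hM4
        _ ≤ 2 * L * (q * (N / q + 1)) := by gcongr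
        _ = 2 * L * q * (N / q + 1) := by ring
    exact_mod_cast h2
  obtain ⟨t, ht0, ht1, ht2⟩ := siegel A (by rw [Fintype.card_fin, hcard]; exact hM1)
    (by rw [Fintype.card_fin]; exact hM0) hB1 hAB (2 * L * q) hexp
  have hCpow : ((Fintype.card β : ℝ) * B) ^ (2 * L * q) ≤ ((C0 ^ (2 * L * q) : ℕ) : ℝ) ^ N := by
    have h1 : (Fintype.card β : ℝ) ≤ (2 * L : ℝ) ^ N := by
      rw [hcard]
      have h2 : (L - 1) * (N + 1) ≤ (2 * L) ^ N := by
        calc (L - 1) * (N + 1) ≤ L * 2 ^ N := by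
              gcongr
              · omega
              · exact Nat.lt_two_pow_self
          _ ≤ L ^ N * 2 ^ N := by
              gcongr
              exact Nat.le_self_pow (by omega) L
          _ = (2 * L) ^ N := by rw [mul_pow]; ring
      exact_mod_cast h2
    have h2 : B = ((220 ^ (3 * L * k) * 2 ^ (3 * L + 2) : ℕ) : ℝ) ^ N := by
      rw [hB]
      push_cast
      rw [mul_pow, ← pow_mul, ← pow_mul, ← pow_mul, ← pow_add, ← pow_add]
      congr 2 <;> ring
    have h3 : (Fintype.card β : ℝ) * B ≤ (C0 : ℝ) ^ N := by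
      calc (Fintype.card β : ℝ) * B ≤ (2 * L : ℝ) ^ N * B := by gcongr
        _ = (C0 : ℝ) ^ N := by
            rw [h2, ← mul_pow, hC0]
            push_cast
            ring
    calc ((Fintype.card β : ℝ) * B) ^ (2 * L * q) ≤ ((C0 : ℝ) ^ N) ^ (2 * L * q) :=
          pow_le_pow_left₀ (by positivity) h3 _
      _ = _ := by push_cast; rw [← pow_mul, ← pow_mul, mul_comm]
  set p : List ℕ → ℕ → ℤ := fun w a => if h : w ∈ S ∧ a < N + 1 then t (⟨w, h.1⟩, ⟨a, h.2⟩) else 0 with hp
  have hpt : ∀ (w : ↥S) (a : Fin (N + 1)), p w.1 a.1 = t (w, a) := by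
    intro w a
    rw [hp]
    simp only
    rw [dif_pos ⟨w.2, a.2⟩]
  refine ⟨p, ?_, ?_, ?_, ?_⟩
  · intro w hw a
    rw [hp]
    simp only
    rw [dif_neg (fun h => hw h.1)]
  · obtain ⟨j, hj⟩ := Function.ne_iff.1 ht0
    refine ⟨j.1.1, j.1.2, j.2.1, j.2.2, ?_⟩
    rw [hpt]
    exact hj
  · intro w a
    by_cases h : w ∈ S ∧ a < N + 1
    · have h1 : p w a = t (⟨w, h.1⟩, ⟨a, h.2⟩) := dif_pos h
      rw [h1]
      exact (ht2 _).trans hCpow
    · have h1 : p w a = 0 := dif_neg h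
      rw [h1]
      simp
  · intro r hr
    have h1 := congrFun ht1 ⟨r, hr⟩
    have h2 : ∑ j : β, A ⟨r, hr⟩ j * t j = 0 := h1
    have h3 : ∑ j : β, (A ⟨r, hr⟩ j : ℚ) * (t j : ℚ) = 0 := by exact_mod_cast h2
    have hDq : (D : ℚ) ^ k ≠ 0 := by
      have : (D : ℚ) ≠ 0 := by exact_mod_cast (by omega : D ≠ 0)
      positivity
    have h4 : (D : ℚ) ^ k * ∑ w ∈ S, ∑ a ∈ Finset.range (N + 1), (p w a : ℚ) * cf (Cw w) a (R - a) r = 0 := by
      rw [← h3, Fintype.sum_prod_type, ← Finset.sum_coe_sort S, Finset.mul_sum]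
      apply Finset.sum_congr rfl
      intro w _
      rw [← Fin.sum_univ_eq_sum_range (fun a => (p w.1 a : ℚ) * cf (Cw w.1) a (R - a) r), Finset.mul_sum]
      apply Finset.sum_congr rfl
      intro a _
      rw [hAq, hpt]
      ring
    rcases mul_eq_zero.1 h4 with h5 | h5
    · exact absurd h5 hDq
    · exact h5

end Pool.Agent.Lib.MP_524521_nt.PT
end

section
/-!
# The auxiliary forms
-/
open Polynomial

namespace Pool.Agent.Lib.MP_524521_nt.PT

/-- the polynomial `bn a * be l`, `l < a` -/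
noncomputable def piP (a l : ℕ) : ℚ[X] :=
  C ((((l + 1) * a.choose (l + 1) : ℕ) : ℚ)⁻¹) * (bP (a - (l + 1))).comp (X + C (((l + 1 : ℕ) : ℚ)))

theorem aeval_piP {a l : ℕ} (h : l < a) {x : ℝ} (hx : 0 < x) :
    aeval x (piP a l) = bn a x * be l x := by
  obtain ⟨j, rfl⟩ : ∃ j, a = l + 1 + j := ⟨a - (l + 1), by omega⟩
  rw [bn_mul_be' hx, piP, map_mul, aeval_C, Nat.add_sub_cancel_left, aeval_comp]
  have h1 : aeval x (X + C (((l + 1 : ℕ) : ℚ)) : ℚ[X]) = x + ((l + 1 : ℕ) : ℝ) := by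
    rw [map_add, aeval_X, aeval_C]; simp
  rw [h1, aeval_bP, div_eq_inv_mul]
  congr 1
  simp

theorem natDegree_piP (a l : ℕ) : (piP a l).natDegree ≤ a := by
  unfold piP
  refine (natDegree_C_mul_le _ _).trans ?_
  refine natDegree_comp_le.trans ?_
  rw [natDegree_bP, natDegree_X_add_C, mul_one]
  omega

theorem eval_piP_nat {a l : ℕ} (h : l < a) {n : ℕ} (hn : 1 ≤ n) : (piP a l).eval (n : ℚ) =
    (((l + 1) * a.choose (l + 1) : ℕ) : ℚ)⁻¹ * ((n + a - 1).choose (a - (l + 1)) : ℕ) := by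
  rw [piP, eval_mul, eval_C, eval_comp]
  congr 1
  have h1 : (X + C (((l + 1 : ℕ) : ℚ)) : ℚ[X]).eval (n : ℚ) = ((n + (l + 1) : ℕ) : ℚ) := by
    rw [eval_add, eval_X, eval_C]; push_cast; ring
  rw [h1, eval_bP_nat _ _ (by omega)]
  congr 2
  omega

theorem bP_comb_ne (p : ℕ → ℚ) (N : ℕ) (h : ∃ a < N + 1, p a ≠ 0) :
    ∑ a ∈ Finset.range (N + 1), C (p a) * bP a ≠ 0 := by
  classical
  obtain ⟨a1, ha1, hp1⟩ := h
  obtain ⟨a0, ha0, hmax⟩ := Finset.exists_max_image ((Finset.range (N + 1)).filter fun a => p a ≠ 0) id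
    ⟨a1, by simp only [Finset.mem_filter, Finset.mem_range]; exact ⟨ha1, hp1⟩⟩
  simp only [Finset.mem_filter, Finset.mem_range, id_eq, and_imp] at ha0 hmax
  intro h0
  have h1 := congrArg (fun P : ℚ[X] => P.coeff a0) h0
  simp only [finsetSum_coeff, coeff_C_mul, coeff_zero] at h1
  rw [Finset.sum_eq_single a0] at h1
  · have h2 : (bP a0).coeff a0 = (a0.factorial : ℚ)⁻¹ := by
      rw [bP, coeff_C_mul]
      have h3 : (ascPochhammer ℚ a0).coeff a0 = 1 := by
        have h4 := (monic_ascPochhammer ℚ a0).coeff_natDegree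
        rwa [ascPochhammer_natDegree] at h4
      rw [h3, mul_one]
    rw [h2] at h1
    have h3 : (a0.factorial : ℚ)⁻¹ ≠ 0 := by
      have : (a0.factorial : ℚ) ≠ 0 := by exact_mod_cast (Nat.factorial_pos a0).ne'
      exact inv_ne_zero this
    exact (mul_ne_zero ha0.2 h3) h1
  · intro b hb hne
    rw [Finset.mem_range] at hb
    rcases lt_or_gt_of_ne hne with h2 | h2
    · rw [coeff_eq_zero_of_natDegree_lt (by rw [natDegree_bP]; exact h2), mul_zero]
    · have h3 : p b = 0 := by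
        by_contra h4
        have := hmax b hb h4
        omega
      rw [h3, zero_mul]
  · intro h2
    exact absurd (Finset.mem_range.2 ha0.1) h2

theorem choose_bound {n a N j : ℕ} (ha : a ≤ N) (hj : j ≤ N) :
    (n + a - 1).choose j ≤ 4 ^ N * (n + N).choose N := by
  have h0 : (n + a - 1).choose j ≤ (n + N).choose j := Nat.choose_le_choose j (by omega)
  have hpos : 1 ≤ (n + N).choose N := Nat.choose_pos (by omega)
  refine h0.trans ?_
  rcases le_or_gt n N with h | h
  · calc (n + N).choose j ≤ 2 ^ (n + N) := Nat.choose_le_two_pow _ _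
      _ ≤ 2 ^ (N + N) := Nat.pow_le_pow_right (by norm_num) (by omega)
      _ = 4 ^ N := by rw [← two_mul, pow_mul]; norm_num
      _ ≤ _ := Nat.le_mul_of_pos_right _ hpos
  · have h1 : (n + N).choose j ≤ (n + N).choose N := by
      rcases eq_or_lt_of_le hj with rfl | hlt
      · exact le_rfl
      · have key : ∀ d, j + d ≤ N → (n + N).choose j ≤ (n + N).choose (j + d) := by
          intro d
          induction d with
          | zero => intro _; exact le_rfl
          | succ d ih =>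
            intro hd
            refine (ih (by omega)).trans ?_
            exact Nat.choose_le_succ_of_lt_half_left (by omega)
        have := key (N - j) (by omega)
        rwa [Nat.add_sub_cancel' hj] at this
    calc (n + N).choose j ≤ 1 * (n + N).choose N := by rw [one_mul]; exact h1
      _ ≤ 4 ^ N * (n + N).choose N := by
          gcongr
          exact Nat.one_le_pow _ _ (by norm_num)

theorem lcmUpto_dvd {a N : ℕ} (h : a ≤ N) : Nat.lcmUpto a ∣ Nat.lcmUpto N :=
  Finset.lcm_mono (Finset.Icc_subset_Icc_right h)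

theorem aux (W : Finset (List ℕ)) (hW : Closed W) (hL : 2 ≤ W.card) (k : ℕ)
    (hk : ∀ w ∈ W, w.sum ≤ k) (q : ℕ) (hq : 2 ≤ q) :
    ∃ C : ℕ, 1 ≤ C ∧ ∀ N : ℕ, 1 ≤ N → ∃ P : List ℕ → ℚ[X],
      (∀ w, w ∉ W → P w = 0) ∧ (∃ w, P w ≠ 0) ∧ (∀ w, (P w).natDegree ≤ N) ∧
      (∀ w, ∀ n : ℕ, 1 ≤ n → ∃ z : ℤ, (P w).eval (n : ℚ) = z ∧ |z| ≤ C ^ N * (n + N).choose N) ∧
      ∀ x : ℝ, 1 < x → |form W P x| ≤ C ^ N * rho ((W.card - 1) * (N + 1) - (N / q + 1)) x := by
  classical
  obtain ⟨C1, hC1, hsieg⟩ := sieg_words W hW hL k hk q hq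
  set L := W.card with hLdef
  set S := W.erase [] with hS
  have hScard : S.card ≤ L := by rw [hS, hLdef]; exact Finset.card_erase_le
  set Cf : ℕ := 220 ^ (k + 1) * L * C1 * 2 ^ (2 * L + 6) with hCf
  refine ⟨Cf, Nat.one_le_iff_ne_zero.2 (by positivity), fun N hN => ?_⟩
  obtain ⟨p, hp0, hpne, hpb, hpr⟩ := hsieg N hN
  obtain ⟨hM0, hM1, hM2, hM3, hM4⟩ := Mq_facts hL hN hq
  have hMq : (L - 1) * (N + 1) - (N / q + 1) = Mq L N q := rfl
  rw [hMq]
  set M := Mq L N q with hM
  set d : ℕ := (Nat.lcmUpto N) ^ (k + 1) with hd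
  set A1 : ℝ := (C1 : ℝ) ^ N with hA1
  have hA1' : 1 ≤ A1 := by
    rw [hA1]; exact one_le_pow₀ (by exact_mod_cast hC1)
  -- the polynomials
  set Pw : List ℕ → ℚ[X] := fun w =>
    C (d : ℚ) * ∑ a ∈ Finset.range (N + 1), C (p w a : ℚ) * bP a with hPw
  set P0 : ℚ[X] := -(C (d : ℚ) * ∑ w ∈ S, ∑ a ∈ Finset.range (N + 1), C (p w a : ℚ) *
    ∑ l ∈ Finset.range a, C (Cw w l) * piP a l) with hP0
  set P : List ℕ → ℚ[X] := fun w => if w = [] then P0 else Pw w with hP
  have hPnil : P [] = P0 := by rw [hP]; simp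
  have hPne : ∀ w, w ≠ [] → P w = Pw w := fun w hw => by rw [hP]; simp [hw]
  have hdpos : 0 < d := by
    rw [hd]
    exact pow_pos (Nat.lcmUpto_pos N) _
  have hdq : (d : ℚ) ≠ 0 := by exact_mod_cast hdpos.ne'
  have hdle : (d : ℝ) ≤ ((220 : ℝ) ^ (k + 1)) ^ N := by
    rw [hd]
    push_cast
    calc ((Nat.lcmUpto N : ℝ)) ^ (k + 1) ≤ (220 ^ N) ^ (k + 1) :=
          pow_le_pow_left₀ (Nat.cast_nonneg _) (lcmUpto_le N) _
      _ = _ := by rw [← pow_mul, ← pow_mul, mul_comm]
  have h2N : ((N : ℝ) + 1) ≤ 2 ^ N := by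
    exact_mod_cast (Nat.lt_two_pow_self (n := N))
  have hLr : (1:ℝ) ≤ L := by exact_mod_cast (by omega : 1 ≤ L)
  have hLN : (L : ℝ) ≤ (L : ℝ) ^ N := le_self_pow₀ hLr (by omega)
  have hSr : (S.card : ℝ) ≤ L := by exact_mod_cast hScard
  -- members of `S`
  have hSW : ∀ w ∈ S, w ∈ W ∧ w ≠ [] := fun w hw => ⟨(Finset.mem_erase.1 hw).2, (Finset.mem_erase.1 hw).1⟩
  refine ⟨P, ?_, ?_, ?_, ?_, ?_⟩
  · -- support
    intro w hw
    have hne : w ≠ [] := fun h => hw (h ▸ hW.nil_mem)
    rw [hPne w hne, hPw]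
    simp only
    have h1 : ∀ a, p w a = 0 := hp0 w (fun h => hw (hSW w h).1)
    simp [h1]
  · -- not zero
    obtain ⟨w, hw, a, ha, hpa⟩ := hpne
    refine ⟨w, ?_⟩
    rw [hPne w (hSW w hw).2, hPw]
    simp only
    refine mul_ne_zero (C_ne_zero.2 hdq) (bP_comb_ne _ N ⟨a, ha, by exact_mod_cast hpa⟩)
  · -- degrees
    intro w
    by_cases hw : w = []
    · rw [hw, hPnil, hP0, natDegree_neg]
      refine (natDegree_C_mul_le _ _).trans ?_
      refine natDegree_sum_le_of_forall_le _ _ fun w _ => ?_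
      refine natDegree_sum_le_of_forall_le _ _ fun a ha => ?_
      rw [Finset.mem_range] at ha
      refine (natDegree_C_mul_le _ _).trans ?_
      refine natDegree_sum_le_of_forall_le _ _ fun l _ => ?_
      refine (natDegree_C_mul_le _ _).trans ?_
      exact (natDegree_piP a l).trans (by omega)
    · rw [hPne w hw, hPw]
      simp only
      refine (natDegree_C_mul_le _ _).trans ?_
      refine natDegree_sum_le_of_forall_le _ _ fun a ha => ?_
      rw [Finset.mem_range] at ha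
      refine (natDegree_C_mul_le _ _).trans ?_
      rw [natDegree_bP]; omega
  · -- integer values
    intro w n hn
    set V : ℝ := (((n + N).choose N : ℕ) : ℝ) with hV
    have hV1 : 1 ≤ V := by
      rw [hV]; exact_mod_cast Nat.choose_pos (by omega : N ≤ n + N)
    have hchoose : ∀ a < N + 1, ∀ j ≤ N, (((n + a - 1).choose j : ℕ) : ℝ) ≤ 4 ^ N * V := by
      intro a ha j hj
      have := choose_bound (n := n) (by omega : a ≤ N) hj
      rw [hV]
      exact_mod_cast this
    have hfin : (220 : ℝ) ^ (k + 1) * L * C1 * 16 ≤ Cf := by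
      rw [hCf]
      push_cast
      have h1 : (16:ℝ) ≤ 2 ^ (2 * L + 6) := by
        calc (16:ℝ) = 2 ^ 4 := by norm_num
          _ ≤ 2 ^ (2 * L + 6) := pow_le_pow_right₀ (by norm_num) (by omega)
      gcongr
    have hcomb : ((220 : ℝ) ^ (k + 1)) ^ N * (L * (2 ^ N * (2 ^ N * (A1 * (4 ^ N * V))))) ≤ (Cf : ℝ) ^ N * V := by
      calc ((220 : ℝ) ^ (k + 1)) ^ N * (L * (2 ^ N * (2 ^ N * (A1 * (4 ^ N * V)))))
          ≤ ((220 : ℝ) ^ (k + 1)) ^ N * ((L : ℝ) ^ N * (2 ^ N * (2 ^ N * (A1 * (4 ^ N * V))))) := by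
            gcongr
        _ = ((220 : ℝ) ^ (k + 1) * L * C1 * 16) ^ N * V := by
            rw [hA1, show (16:ℝ) = 2 * 2 * 4 by norm_num]
            simp only [mul_pow]
            ring
        _ ≤ (Cf : ℝ) ^ N * V := by gcongr
    suffices h : II ((P w).eval (n : ℚ)) ∧ |(((P w).eval (n : ℚ) : ℚ) : ℝ)| ≤ (Cf : ℝ) ^ N * V by
      obtain ⟨⟨z, hz⟩, h2⟩ := h
      refine ⟨z, hz, ?_⟩
      rw [hz] at h2
      rw [hV] at h2
      push_cast at h2
      exact_mod_cast h2
    by_cases hw : w = []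
    · -- the polynomial part
      have hpi : ∀ a < N + 1, ∀ l < a, (piP a l).eval (n : ℚ) =
          (((l + 1) * a.choose (l + 1) : ℕ) : ℚ)⁻¹ * ((n + a - 1).choose (a - (l + 1)) : ℕ) :=
        fun a _ l hl => eval_piP_nat hl hn
      have hev : (P w).eval (n : ℚ) = -((d : ℚ) * ∑ w ∈ S, ∑ a ∈ Finset.range (N + 1), (p w a : ℚ) *
          ∑ l ∈ Finset.range a, Cw w l * (piP a l).eval (n : ℚ)) := by
        rw [hw, hPnil, hP0]
        simp only [eval_neg, eval_mul, eval_C, eval_finsetSum]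
      constructor
      · rw [hev]
        refine II.neg ?_
        rw [Finset.mul_sum]
        refine II.sum _ fun w hw => ?_
        rw [Finset.mul_sum]
        refine II.sum _ fun a ha => ?_
        rw [Finset.mem_range] at ha
        rw [Finset.mul_sum, Finset.mul_sum]
        refine II.sum _ fun l hl => ?_
        rw [Finset.mem_range] at hl
        rw [hpi a ha l hl]
        have e1 : (d : ℚ) * ((p w a : ℚ) * (Cw w l * ((((l + 1) * a.choose (l + 1) : ℕ) : ℚ)⁻¹ *
            ((n + a - 1).choose (a - (l + 1)) : ℕ)))) =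
            (p w a : ℚ) * (((Nat.lcmUpto N : ℕ) : ℚ) ^ k * Cw w l) *
              ((((Nat.lcmUpto N : ℕ) : ℚ) / (((l + 1) * a.choose (l + 1) : ℕ) : ℚ)) *
              ((n + a - 1).choose (a - (l + 1)) : ℕ)) := by
          rw [hd]
          push_cast
          rw [pow_succ]
          ring
        rw [e1]
        refine ((II.int _).mul ?_).mul ((II.div ?_).mul (II.nat _))
        · exact Cw_II' (fun r h1 h2 => dvd_lcmUpto h1 h2) (hW.two_le w (hSW w hw).1)
            (hk w (hSW w hw).1) (by omega : l + 1 ≤ N)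
        · exact (mul_choose_dvd (by omega) (by omega)).trans (lcmUpto_dvd (by omega))
      · rw [hev]
        push_cast
        rw [abs_neg, abs_mul, abs_of_nonneg (Nat.cast_nonneg d : (0:ℝ) ≤ d)]
        have hinner : |∑ w ∈ S, ∑ a ∈ Finset.range (N + 1), (p w a : ℝ) *
            ∑ l ∈ Finset.range a, (Cw w l : ℝ) * (((piP a l).eval (n : ℚ) : ℚ) : ℝ)| ≤
            L * (2 ^ N * (2 ^ N * (A1 * (4 ^ N * V)))) := by
          have h3 : ∀ w ∈ S, ∀ a ∈ Finset.range (N + 1), |(p w a : ℝ) *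
              ∑ l ∈ Finset.range a, (Cw w l : ℝ) * (((piP a l).eval (n : ℚ) : ℚ) : ℝ)| ≤
              2 ^ N * (A1 * (4 ^ N * V)) := by
            intro w _ a ha
            rw [Finset.mem_range] at ha
            rw [abs_mul]
            have h4 : |∑ l ∈ Finset.range a, (Cw w l : ℝ) * (((piP a l).eval (n : ℚ) : ℚ) : ℝ)| ≤
                2 ^ N * (4 ^ N * V) := by
              refine (Finset.abs_sum_le_sum_abs _ _).trans ?_
              have h5 : ∀ l ∈ Finset.range a, |(Cw w l : ℝ) * (((piP a l).eval (n : ℚ) : ℚ) : ℝ)| ≤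
                  4 ^ N * V := by
                intro l hl
                rw [Finset.mem_range] at hl
                rw [hpi a ha l hl, abs_mul]
                have e1 : |(Cw w l : ℝ)| ≤ 1 := by
                  rw [abs_of_nonneg (by exact_mod_cast (Cw_bound w l).1)]
                  exact_mod_cast (Cw_bound w l).2
                have e3 : |(((((((l + 1) * a.choose (l + 1) : ℕ) : ℚ)⁻¹ *
                    ((n + a - 1).choose (a - (l + 1)) : ℕ) : ℚ)) : ℝ))| ≤ 4 ^ N * V := by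
                  push_cast
                  rw [abs_mul, abs_inv, abs_of_nonneg (Nat.cast_nonneg _ : (0:ℝ) ≤ (((n + a - 1).choose (a - (l + 1)) : ℕ) : ℝ))]
                  have e4 : (1:ℝ) ≤ |((l : ℝ) + 1) * ((a.choose (l + 1) : ℕ) : ℝ)| := by
                    rw [abs_of_nonneg (by positivity)]
                    have e5 : 1 ≤ (l + 1) * a.choose (l + 1) :=
                      Nat.mul_pos (by omega) (Nat.choose_pos (by omega))
                    exact_mod_cast e5
                  have e6 := hchoose a ha (a - (l + 1)) (by omega)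
                  calc |((l : ℝ) + 1) * ((a.choose (l + 1) : ℕ) : ℝ)|⁻¹ * (((n + a - 1).choose (a - (l + 1)) : ℕ) : ℝ)
                      ≤ 1 * (4 ^ N * V) := by
                        gcongr
                        exact inv_le_one_of_one_le₀ e4
                    _ = _ := one_mul _
                calc _ ≤ 1 * (4 ^ N * V) := by gcongr
                  _ = _ := one_mul _
              refine (Finset.sum_le_sum h5).trans ?_
              rw [Finset.sum_const, Finset.card_range, nsmul_eq_mul]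
              have h6 : (a : ℝ) ≤ 2 ^ N := by
                have : (a : ℝ) ≤ N := by exact_mod_cast (by omega : a ≤ N)
                linarith
              gcongr
            calc |(p w a : ℝ)| * _ ≤ A1 * (2 ^ N * (4 ^ N * V)) := by
                  gcongr
                  exact hpb w a
              _ = 2 ^ N * (A1 * (4 ^ N * V)) := by ring
          calc _ ≤ ∑ w ∈ S, ∑ a ∈ Finset.range (N + 1), (2 ^ N * (A1 * (4 ^ N * V))) := by
                refine (Finset.abs_sum_le_sum_abs _ _).trans (Finset.sum_le_sum fun w hw => ?_)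
                exact (Finset.abs_sum_le_sum_abs _ _).trans (Finset.sum_le_sum (h3 w hw))
            _ = (S.card : ℝ) * (((N : ℝ) + 1) * (2 ^ N * (A1 * (4 ^ N * V)))) := by
                simp only [Finset.sum_const, Finset.card_range, nsmul_eq_mul]
                push_cast
                ring
            _ ≤ L * (2 ^ N * (2 ^ N * (A1 * (4 ^ N * V)))) := by gcongr
        calc (d : ℝ) * _ ≤ ((220 : ℝ) ^ (k + 1)) ^ N * (L * (2 ^ N * (2 ^ N * (A1 * (4 ^ N * V))))) := by
              gcongr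
          _ ≤ _ := hcomb
    · have hev : (P w).eval (n : ℚ) = (d : ℚ) * ∑ a ∈ Finset.range (N + 1), (p w a : ℚ) *
          ((n + a - 1).choose a : ℕ) := by
        rw [hPne w hw, hPw]
        simp only [eval_mul, eval_C, eval_finsetSum]
        congr 1
        apply Finset.sum_congr rfl
        intro a _
        rw [eval_bP_nat a n hn]
      constructor
      · rw [hev]
        exact (II.nat _).mul (II.sum _ fun a _ => (II.int _).mul (II.nat _))
      · rw [hev]
        push_cast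
        rw [abs_mul, abs_of_nonneg (Nat.cast_nonneg d : (0:ℝ) ≤ d)]
        have hinner : |∑ a ∈ Finset.range (N + 1), (p w a : ℝ) * (((n + a - 1).choose a : ℕ) : ℝ)| ≤
            L * (2 ^ N * (2 ^ N * (A1 * (4 ^ N * V)))) := by
          calc _ ≤ ∑ a ∈ Finset.range (N + 1), (A1 * (4 ^ N * V)) := by
                refine (Finset.abs_sum_le_sum_abs _ _).trans (Finset.sum_le_sum fun a ha => ?_)
                rw [Finset.mem_range] at ha
                rw [abs_mul, abs_of_nonneg (Nat.cast_nonneg _ : (0:ℝ) ≤ (((n + a - 1).choose a : ℕ) : ℝ))]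
                have := hchoose a ha a (by omega)
                gcongr
                exact hpb w a
            _ = ((N : ℝ) + 1) * (A1 * (4 ^ N * V)) := by
                simp only [Finset.sum_const, Finset.card_range, nsmul_eq_mul]
                push_cast
                ring
            _ ≤ 2 ^ N * (A1 * (4 ^ N * V)) := by gcongr
            _ ≤ L * (2 ^ N * (2 ^ N * (A1 * (4 ^ N * V)))) := by
                have h1 : (1:ℝ) ≤ 2 ^ N := one_le_pow₀ (by norm_num)
                have h2 : 0 ≤ 2 ^ N * (A1 * (4 ^ N * V)) := by positivity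
                calc 2 ^ N * (A1 * (4 ^ N * V)) = 1 * (1 * (2 ^ N * (A1 * (4 ^ N * V)))) := by ring
                  _ ≤ L * (2 ^ N * (2 ^ N * (A1 * (4 ^ N * V)))) := by gcongr
        calc (d : ℝ) * _ ≤ ((220 : ℝ) ^ (k + 1)) ^ N * (L * (2 ^ N * (2 ^ N * (A1 * (4 ^ N * V))))) := by
              gcongr
          _ ≤ _ := hcomb
  · -- the form is small
    intro x hx
    have hx0 : 0 < x := by linarith
    set R := M + N with hR
    have hrho := rho_nonneg hx M
    set rem : List ℕ → ℝ := fun w => y w x - ∑ l ∈ Finset.range R, (Cw w l : ℝ) * be l x with hrem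
    have hrem1 : ∀ w ∈ S, 0 ≤ rem w ∧ rem w ≤ rho R x := by
      intro w hw
      exact expn w (hSW w hw).2 (hW.two_le w (hSW w hw).1) R x hx
    have hform : form W P x = (d : ℝ) * ∑ w ∈ S, ∑ a ∈ Finset.range (N + 1), (p w a : ℝ) *
        (∑ r ∈ Finset.range R, (cf (Cw w) a (R - a) r : ℝ) * be r x + bn a x * rem w) := by
      have h1 : form W P x = aeval x P0 + ∑ w ∈ S, aeval x (Pw w) * y w x := by
        unfold form
        rw [← Finset.add_sum_erase W _ hW.nil_mem, hPnil]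
        congr 1
        · simp [y]
        · apply Finset.sum_congr rfl
          intro w hw
          rw [hPne w (hSW w hw).2]
      have h2 : aeval x P0 = -((d : ℝ) * ∑ w ∈ S, ∑ a ∈ Finset.range (N + 1), (p w a : ℝ) *
          ∑ l ∈ Finset.range a, (Cw w l : ℝ) * (bn a x * be l x)) := by
        rw [hP0]
        simp only [map_neg, map_mul, map_sum, aeval_C, eq_ratCast, Rat.cast_natCast, Rat.cast_intCast]
        congr 2
        apply Finset.sum_congr rfl
        intro w _
        apply Finset.sum_congr rfl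
        intro a _
        congr 1
        apply Finset.sum_congr rfl
        intro l hl
        rw [aeval_piP (Finset.mem_range.1 hl) hx0]
      have h3 : ∀ w, aeval x (Pw w) = (d : ℝ) * ∑ a ∈ Finset.range (N + 1), (p w a : ℝ) * bn a x := by
        intro w
        rw [hPw]
        simp only [map_mul, map_sum, aeval_C, aeval_bP, eq_ratCast, Rat.cast_natCast, Rat.cast_intCast]
      rw [h1, h2, Finset.mul_sum, Finset.mul_sum, ← Finset.sum_neg_distrib, ← Finset.sum_add_distrib]
      apply Finset.sum_congr rfl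
      intro w _
      rw [h3, Finset.mul_sum, Finset.mul_sum, Finset.mul_sum, Finset.sum_mul, ← Finset.sum_neg_distrib,
        ← Finset.sum_add_distrib]
      apply Finset.sum_congr rfl
      intro a ha
      rw [Finset.mem_range] at ha
      have h4 := mul_series (Cw w) a (R - a) hx0
      have h5 : a + (R - a) = R := by omega
      rw [h5] at h4
      have h6 : y w x = ∑ l ∈ Finset.range R, (Cw w l : ℝ) * be l x + rem w := by
        rw [hrem]; ring
      rw [h6, mul_add, mul_assoc (d : ℝ), mul_assoc (p w a : ℝ), h4]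
      ring
    have hzero : ∀ r ∈ Finset.range M, ∑ w ∈ S, ∑ a ∈ Finset.range (N + 1),
        (p w a : ℝ) * (cf (Cw w) a (R - a) r : ℝ) = 0 := by
      intro r hr
      have := hpr r (Finset.mem_range.1 hr)
      exact_mod_cast this
    have hform2 : form W P x = (d : ℝ) * ∑ w ∈ S, ∑ a ∈ Finset.range (N + 1), (p w a : ℝ) *
        (∑ j ∈ Finset.range N, (cf (Cw w) a (R - a) (M + j) : ℝ) * be (M + j) x + bn a x * rem w) := by
      rw [hform]
      congr 1
      have h1 : ∑ w ∈ S, ∑ a ∈ Finset.range (N + 1), (p w a : ℝ) *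
          (∑ r ∈ Finset.range R, (cf (Cw w) a (R - a) r : ℝ) * be r x + bn a x * rem w) =
          ∑ r ∈ Finset.range M, be r x * (∑ w ∈ S, ∑ a ∈ Finset.range (N + 1),
            (p w a : ℝ) * (cf (Cw w) a (R - a) r : ℝ)) +
          ∑ w ∈ S, ∑ a ∈ Finset.range (N + 1), (p w a : ℝ) *
            (∑ j ∈ Finset.range N, (cf (Cw w) a (R - a) (M + j) : ℝ) * be (M + j) x + bn a x * rem w) := by
        have h2 : ∀ r, be r x * (∑ w ∈ S, ∑ a ∈ Finset.range (N + 1),
            (p w a : ℝ) * (cf (Cw w) a (R - a) r : ℝ)) = ∑ w ∈ S, ∑ a ∈ Finset.range (N + 1),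
            (p w a : ℝ) * ((cf (Cw w) a (R - a) r : ℝ) * be r x) := by
          intro r
          rw [Finset.mul_sum]
          apply Finset.sum_congr rfl
          intro w _
          rw [Finset.mul_sum]
          apply Finset.sum_congr rfl
          intro a _
          ring
        simp only [h2]
        rw [Finset.sum_comm (s := Finset.range M), ← Finset.sum_add_distrib]
        apply Finset.sum_congr rfl
        intro w _
        rw [Finset.sum_comm (s := Finset.range M), ← Finset.sum_add_distrib]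
        apply Finset.sum_congr rfl
        intro a _
        have h7 : ∑ r ∈ Finset.range R, (cf (Cw w) a (R - a) r : ℝ) * be r x =
            ∑ r ∈ Finset.range M, (cf (Cw w) a (R - a) r : ℝ) * be r x +
            ∑ j ∈ Finset.range N, (cf (Cw w) a (R - a) (M + j) : ℝ) * be (M + j) x := by
          rw [← Finset.sum_range_add, ← hR]
        rw [h7, ← Finset.mul_sum]
        ring
      rw [h1, Finset.sum_eq_zero (fun r hr => by rw [hzero r hr, mul_zero]), zero_add]
    have hinner : ∀ w ∈ S, ∀ a ∈ Finset.range (N + 1), |(p w a : ℝ) *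
        (∑ j ∈ Finset.range N, (cf (Cw w) a (R - a) (M + j) : ℝ) * be (M + j) x + bn a x * rem w)| ≤
        A1 * (2 ^ (M + 5 * N) * rho M x) := by
      intro w hw a ha
      rw [Finset.mem_range] at ha
      rw [abs_mul]
      have h1 : |∑ j ∈ Finset.range N, (cf (Cw w) a (R - a) (M + j) : ℝ) * be (M + j) x| ≤
          N * (2 ^ (M + 4 * N) * rho M x) := by
        refine (Finset.abs_sum_le_sum_abs _ _).trans ?_
        have h2 : ∀ j ∈ Finset.range N, |(cf (Cw w) a (R - a) (M + j) : ℝ) * be (M + j) x| ≤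
            2 ^ (M + 4 * N) * rho M x := by
          intro j hj
          rw [Finset.mem_range] at hj
          rw [abs_mul, abs_of_nonneg (be_pos hx0 _).le]
          have e1 := cf_abs (Cw_bound w) a (R - a) (M + j)
          have e2 : be (M + j) x ≤ rho M x := (be_le_rho hx _).trans (rho_anti hx (by omega))
          have e3 : ((a : ℝ) + 1) * (2 ^ (M + j + a) * 2 ^ a) ≤ 2 ^ (M + 4 * N) := by
            have e4 : ((a : ℝ) + 1) ≤ 2 ^ N := by
              have : (a : ℝ) ≤ N := by exact_mod_cast (by omega : a ≤ N)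
              linarith
            calc ((a : ℝ) + 1) * (2 ^ (M + j + a) * 2 ^ a) ≤ 2 ^ N * (2 ^ (M + j + a) * 2 ^ a) := by gcongr
              _ = 2 ^ (N + (M + j + a + a)) := by rw [← pow_add, ← pow_add]
              _ ≤ 2 ^ (M + 4 * N) := pow_le_pow_right₀ (by norm_num) (by omega)
          exact mul_le_mul (e1.trans e3) e2 (be_pos hx0 _).le (by positivity)
        refine (Finset.sum_le_sum h2).trans ?_
        rw [Finset.sum_const, Finset.card_range, nsmul_eq_mul]
      have h2 : |bn a x * rem w| ≤ 2 ^ (M + 4 * N) * rho M x := by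
        obtain ⟨e1, e2⟩ := hrem1 w hw
        rw [abs_of_nonneg (mul_nonneg (bn_pos hx0 a).le e1)]
        have e3 := bn_mul_rho hx a (R - a)
        have h5 : a + (R - a) = R := by omega
        rw [h5] at e3
        have e4 : (R.choose a : ℝ) ≤ 2 ^ (M + 4 * N) := by
          have := (Nat.choose_le_two_pow R a).trans
            (Nat.pow_le_pow_right (by norm_num) (by omega : R ≤ M + 4 * N))
          exact_mod_cast this
        have e5 : rho (R - a) x ≤ rho M x := rho_anti hx (by omega)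
        calc bn a x * rem w ≤ bn a x * rho R x := by
              have := bn_pos hx0 a
              gcongr
          _ ≤ _ := e3
          _ ≤ _ := mul_le_mul e4 e5 (rho_nonneg hx _) (by positivity)
      have h3 : |∑ j ∈ Finset.range N, (cf (Cw w) a (R - a) (M + j) : ℝ) * be (M + j) x + bn a x * rem w| ≤
          2 ^ (M + 5 * N) * rho M x := by
        refine (abs_add_le _ _).trans ?_
        calc _ ≤ N * (2 ^ (M + 4 * N) * rho M x) + 2 ^ (M + 4 * N) * rho M x := add_le_add h1 h2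
          _ = ((N : ℝ) + 1) * (2 ^ (M + 4 * N) * rho M x) := by ring
          _ ≤ 2 ^ N * (2 ^ (M + 4 * N) * rho M x) := by gcongr
          _ = 2 ^ (M + 5 * N) * rho M x := by rw [← mul_assoc, ← pow_add]; congr 2; omega
      have h4 := hpb w a
      exact mul_le_mul h4 h3 (abs_nonneg _) (by positivity)
    rw [hform2, abs_mul, abs_of_nonneg (Nat.cast_nonneg d : (0:ℝ) ≤ d)]
    have hsum : |∑ w ∈ S, ∑ a ∈ Finset.range (N + 1), (p w a : ℝ) *
        (∑ j ∈ Finset.range N, (cf (Cw w) a (R - a) (M + j) : ℝ) * be (M + j) x + bn a x * rem w)| ≤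
        L ^ N * (2 ^ N * (A1 * (2 ^ (M + 5 * N) * rho M x))) := by
      calc _ ≤ ∑ w ∈ S, ∑ a ∈ Finset.range (N + 1), (A1 * (2 ^ (M + 5 * N) * rho M x)) := by
            refine (Finset.abs_sum_le_sum_abs _ _).trans (Finset.sum_le_sum fun w hw => ?_)
            exact (Finset.abs_sum_le_sum_abs _ _).trans (Finset.sum_le_sum (hinner w hw))
        _ = (S.card : ℝ) * (((N : ℝ) + 1) * (A1 * (2 ^ (M + 5 * N) * rho M x))) := by
            simp only [Finset.sum_const, Finset.card_range, nsmul_eq_mul]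
            push_cast
            ring
        _ ≤ L ^ N * (2 ^ N * (A1 * (2 ^ (M + 5 * N) * rho M x))) := by
            have := hSr.trans hLN
            gcongr
    calc (d : ℝ) * _ ≤ ((220 : ℝ) ^ (k + 1)) ^ N * (L ^ N * (2 ^ N * (A1 * (2 ^ (M + 5 * N) * rho M x)))) := by
          gcongr
      _ ≤ ((220 : ℝ) ^ (k + 1)) ^ N * (L ^ N * (2 ^ N * (A1 * (2 ^ (2 * L * N + 5 * N) * rho M x)))) := by
          gcongr
          norm_num
      _ = (Cf : ℝ) ^ N * rho M x := by
          rw [hA1, hCf]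
          push_cast
          rw [show 2 * L * N + 5 * N = (2 * L + 5) * N by ring, pow_mul, pow_succ (2:ℝ) (2 * L + 5)]
          simp only [mul_pow]
          ring

end Pool.Agent.Lib.MP_524521_nt.PT
end

section
/-!
# A common multiple of `n, ..., n + T - 1`
-/
namespace Pool.Agent.Lib.MP_524521_nt.PT

theorem choose_id (m j i : ℕ) :
    (j + 1) * (j + 1 + i).choose (j + 1) * (m + (j + 1 + i)).choose (j + 1 + i) =
      (m + 1 + j) * (m + j).choose j * (m + (j + 1 + i)).choose i := by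
  have f1 : (j + 1 + i).choose (j + 1) * (j + 1).factorial * i.factorial = (j + 1 + i).factorial := by
    have := Nat.choose_mul_factorial_mul_factorial (by omega : j + 1 ≤ j + 1 + i)
    rwa [Nat.add_sub_cancel_left] at this
  have f2 : (m + (j + 1 + i)).choose (j + 1 + i) * (j + 1 + i).factorial * m.factorial =
      (m + (j + 1 + i)).factorial := by
    have := Nat.choose_mul_factorial_mul_factorial (by omega : j + 1 + i ≤ m + (j + 1 + i))
    rwa [Nat.add_sub_cancel] at this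
  have f3 : (m + j).choose j * j.factorial * m.factorial = (m + j).factorial := by
    have := Nat.choose_mul_factorial_mul_factorial (by omega : j ≤ m + j)
    rwa [Nat.add_sub_cancel] at this
  have f4 : (m + (j + 1 + i)).choose i * i.factorial * (m + 1 + j).factorial =
      (m + (j + 1 + i)).factorial := by
    have := Nat.choose_mul_factorial_mul_factorial (by omega : i ≤ m + (j + 1 + i))
    rwa [show m + (j + 1 + i) - i = m + 1 + j by omega] at this
  have f5 : (m + 1 + j).factorial = (m + 1 + j) * (m + j).factorial := by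
    rw [show m + 1 + j = (m + j) + 1 by ring, Nat.factorial_succ]
  have f6 : (j + 1).factorial = (j + 1) * j.factorial := Nat.factorial_succ j
  have hpos : 0 < m.factorial * j.factorial * i.factorial := by positivity
  apply Nat.eq_of_mul_eq_mul_right hpos
  calc (j + 1) * (j + 1 + i).choose (j + 1) * (m + (j + 1 + i)).choose (j + 1 + i) *
        (m.factorial * j.factorial * i.factorial)
      = (m + (j + 1 + i)).choose (j + 1 + i) *
          ((j + 1 + i).choose (j + 1) * ((j + 1) * j.factorial) * i.factorial) * m.factorial := by ring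
    _ = (m + (j + 1 + i)).factorial := by rw [← f6, f1, f2]
    _ = (m + (j + 1 + i)).choose i * i.factorial * ((m + 1 + j) * (m + j).factorial) := by
        rw [← f5, f4]
    _ = _ := by rw [← f3]; ring

theorem dvd_d {n T j : ℕ} (hn : 1 ≤ n) (hj : j < T) :
    (n + j) ∣ (n + T - 1).choose T * Nat.lcmUpto T := by
  obtain ⟨m, rfl⟩ : ∃ m, n = m + 1 := ⟨n - 1, by omega⟩
  obtain ⟨i, rfl⟩ : ∃ i, T = j + 1 + i := ⟨T - (j + 1), by omega⟩
  obtain ⟨c, hc⟩ := mul_choose_dvd (by omega : 1 ≤ j + 1) (by omega : j + 1 ≤ j + 1 + i)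
  have h1 : m + 1 + (j + 1 + i) - 1 = m + (j + 1 + i) := by omega
  rw [h1, hc]
  have h2 := choose_id m j i
  refine ⟨(m + j).choose j * (m + (j + 1 + i)).choose i * c, ?_⟩
  calc (m + (j + 1 + i)).choose (j + 1 + i) * ((j + 1) * (j + 1 + i).choose (j + 1) * c)
      = ((j + 1) * (j + 1 + i).choose (j + 1) * (m + (j + 1 + i)).choose (j + 1 + i)) * c := by ring
    _ = _ := by rw [h2]; ring

end Pool.Agent.Lib.MP_524521_nt.PT
end

section
/-!
# Binomial polynomials at rational points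
-/
open Polynomial

namespace Pool.Agent.Lib.MP_524521_nt.PT

theorem factorization_factorial_le {p : ℕ} (hp : p.Prime) (a : ℕ) :
    (a.factorial).factorization p ≤ a := by
  have : Fact p.Prime := ⟨hp⟩
  have h1 := sub_one_mul_padicValNat_factorial (p := p) a
  rw [Nat.factorization_def _ hp]
  have h2 : 1 ≤ p - 1 := by have := hp.two_le; omega
  calc padicValNat p a.factorial ≤ (p - 1) * padicValNat p a.factorial :=
        Nat.le_mul_of_pos_left _ h2
    _ ≤ a := by rw [h1]; exact Nat.sub_le _ _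

theorem prog_coprime {p b : ℕ} (hpb : Nat.Coprime p b) (v a r : ℕ) (h : p ^ v ∣ a.factorial) :
    p ^ v ∣ ∏ i ∈ Finset.range a, (r + i * b) := by
  have hc : Nat.Coprime b (p ^ v) := (hpb.symm).pow_right v
  rw [← ZMod.natCast_eq_zero_iff]
  obtain ⟨u, hu⟩ := (ZMod.isUnit_iff_coprime b (p ^ v)).2 hc
  set c : ZMod (p ^ v) := ((u⁻¹ : (ZMod (p ^ v))ˣ) : ZMod (p ^ v)) with hcdef
  have hbc : (b : ZMod (p ^ v)) * c = 1 := by
    rw [← hu, hcdef]
    exact Units.mul_inv u
  have h1 : ((∏ i ∈ Finset.range a, (r + i * b) : ℕ) : ZMod (p ^ v)) =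
      (b : ZMod (p ^ v)) ^ a * ∏ i ∈ Finset.range a, ((r : ZMod (p ^ v)) * c + i) := by
    have h0 : (b : ZMod (p ^ v)) ^ a = ∏ _i ∈ Finset.range a, (b : ZMod (p ^ v)) := by simp
    push_cast
    rw [h0, ← Finset.prod_mul_distrib]
    refine Finset.prod_congr rfl fun i _ => ?_
    linear_combination -(r : ZMod (p ^ v)) * hbc
  rw [h1]
  -- the product is the cast of an ascending factorial
  have h2 : ∀ t : ZMod (p ^ v), ∏ i ∈ Finset.range a, (t + i) = 0 := by
    intro t
    rcases Nat.eq_zero_or_pos (p ^ v) with h0 | hpos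
    · exfalso
      rw [h0] at h
      exact (Nat.factorial_pos a).ne' (Nat.eq_zero_of_zero_dvd h)
    · have : NeZero (p ^ v) := ⟨hpos.ne'⟩
      have h3 : t = ((t.val : ℕ) : ZMod (p ^ v)) := (ZMod.natCast_zmod_val t).symm
      have h4 : ∏ i ∈ Finset.range a, (t + i) = ((t.val.ascFactorial a : ℕ) : ZMod (p ^ v)) := by
        rw [Nat.ascFactorial_eq_prod_range]
        push_cast
        rw [← h3]
      rw [h4, ZMod.natCast_eq_zero_iff]
      exact h.trans (Nat.factorial_dvd_ascFactorial _ _)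
  rw [h2, mul_zero]

theorem fact_dvd_prog (a r b : ℕ) (hb : 1 ≤ b) :
    a.factorial ∣ b ^ a * ∏ i ∈ Finset.range a, (r + i * b) := by
  rcases Nat.eq_zero_or_pos (∏ i ∈ Finset.range a, (r + i * b)) with h0 | hpos
  · rw [h0, mul_zero]; exact dvd_zero _
  · have hb' : b ^ a ≠ 0 := by positivity
    rw [← Nat.factorization_prime_le_iff_dvd (Nat.factorial_ne_zero a) (by positivity)]
    intro p hp
    rw [Nat.factorization_mul hb' hpos.ne', Finsupp.add_apply]
    by_cases hpb : p ∣ b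
    · have h1 : 1 ≤ b.factorization p := (hp.dvd_iff_one_le_factorization (by omega)).1 hpb
      have h2 := factorization_factorial_le hp a
      rw [Nat.factorization_pow, Finsupp.smul_apply, smul_eq_mul]
      nlinarith
    · have h1 := prog_coprime ((Nat.Prime.coprime_iff_not_dvd hp).2 hpb)
        ((a.factorial).factorization p) a r (Nat.ordProj_dvd _ _)
      have h2 := (hp.pow_dvd_iff_le_factorization hpos.ne').1 h1
      omega

theorem eval_bP (a : ℕ) (x : ℚ) : (bP a).eval x = (∏ i ∈ Finset.range a, (x + i)) / a.factorial := by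
  have h1 : (ascPochhammer ℚ a).eval x = ∏ i ∈ Finset.range a, (x + i) := by
    induction a with
    | zero => simp
    | succ a ih =>
      rw [ascPochhammer_succ_right, eval_mul, ih, Finset.prod_range_succ]
      simp
  rw [bP, eval_mul, eval_C, h1, div_eq_inv_mul]

theorem bP_II (a r b : ℕ) (hb : 1 ≤ b) : II ((b : ℚ) ^ (2 * a) * (bP a).eval ((r : ℚ) / b)) := by
  obtain ⟨c, hc⟩ := fact_dvd_prog a r b hb
  refine ⟨c, ?_⟩
  have hb0 : (b : ℚ) ≠ 0 := by exact_mod_cast (by omega : b ≠ 0)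
  have hf : (a.factorial : ℚ) ≠ 0 := by exact_mod_cast Nat.factorial_ne_zero a
  have h1 : ∏ i ∈ Finset.range a, ((r : ℚ) / b + i) = (∏ i ∈ Finset.range a, ((r : ℚ) + i * b)) / b ^ a := by
    have h0 : (b : ℚ) ^ a = ∏ _i ∈ Finset.range a, (b : ℚ) := by simp
    rw [h0, ← Finset.prod_div_distrib]
    refine Finset.prod_congr rfl fun i _ => ?_
    field_simp
  have hc' : (b : ℚ) ^ a * ∏ i ∈ Finset.range a, ((r : ℚ) + i * b) = a.factorial * c := by exact_mod_cast hc
  rw [eval_bP, h1]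
  have h2 : (b : ℚ) ^ (2 * a) = b ^ a * b ^ a := by rw [two_mul, pow_add]
  rw [h2]
  field_simp
  push_cast
  linear_combination hc'

theorem bP_II' {a N : ℕ} (r b : ℕ) (hb : 1 ≤ b) (h : a ≤ N) :
    II ((b : ℚ) ^ (2 * N) * (bP a).eval ((r : ℚ) / b)) := by
  have h1 : (b : ℚ) ^ (2 * N) = b ^ (2 * (N - a)) * b ^ (2 * a) := by
    rw [← pow_add]; congr 1; omega
  rw [h1, mul_assoc]
  exact ((II.nat b).pow _).mul (bP_II a r b hb)

end Pool.Agent.Lib.MP_524521_nt.PT
end

section
/-!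
# The auxiliary forms at rational points
-/
open Polynomial

namespace Pool.Agent.Lib.MP_524521_nt.PT

theorem eval_piP {a l : ℕ} (x : ℚ) : (piP a l).eval x =
    (((l + 1) * a.choose (l + 1) : ℕ) : ℚ)⁻¹ * (bP (a - (l + 1))).eval (x + ((l + 1 : ℕ) : ℚ)) := by
  rw [piP, eval_mul, eval_C, eval_comp, eval_add, eval_X, eval_C]

theorem bP_shift_II {j N : ℕ} (r b l : ℕ) (hb : 1 ≤ b) (h : j ≤ N) :
    II ((b : ℚ) ^ (2 * N) * (bP j).eval ((r : ℚ) / b + ((l + 1 : ℕ) : ℚ))) := by
  have hb0 : (b : ℚ) ≠ 0 := by exact_mod_cast (by omega : b ≠ 0)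
  have h1 : (r : ℚ) / b + ((l + 1 : ℕ) : ℚ) = ((r + (l + 1) * b : ℕ) : ℚ) / b := by
    push_cast
    field_simp
  rw [h1]
  exact bP_II' _ b hb h

theorem bn_le {j N : ℕ} {x y : ℝ} (hj : j ≤ N) (hN : 1 ≤ N) (hx : (N : ℝ) ≤ x) (hy0 : 0 < y)
    (hy : y + j ≤ 2 * x) : bn j y ≤ 6 ^ N * (x / N) ^ N := by
  have hN0 : (0 : ℝ) < N := by exact_mod_cast hN
  have hx0 : 0 < x := hN0.trans_le hx
  have h1 : ∏ i ∈ Finset.range j, (y + i) ≤ (2 * x) ^ j := by
    calc ∏ i ∈ Finset.range j, (y + i) ≤ ∏ _i ∈ Finset.range j, (2 * x) := by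
          refine Finset.prod_le_prod (fun i _ => by positivity) fun i hi => ?_
          have : (i : ℝ) ≤ j := by exact_mod_cast (Finset.mem_range.1 hi).le
          linarith
      _ = _ := by simp
  have h2 : ∀ t : ℕ, j + t ≤ N → (2 * x) ^ j / j.factorial ≤ (2 * x) ^ (j + t) / (j + t).factorial := by
    intro t
    induction t with
    | zero => intro _; exact le_rfl
    | succ t ih =>
      intro ht
      refine (ih (by omega)).trans ?_
      have hf : (0 : ℝ) < (j + t).factorial := by exact_mod_cast Nat.factorial_pos _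
      have h3 : ((j + (t + 1)).factorial : ℝ) = ((j + t + 1 : ℕ) : ℝ) * (j + t).factorial := by
        rw [show j + (t + 1) = j + t + 1 by ring, Nat.factorial_succ]; push_cast; ring
      have h4 : ((j + t + 1 : ℕ) : ℝ) ≤ 2 * x := by
        have : ((j + t + 1 : ℕ) : ℝ) ≤ N := by exact_mod_cast (by omega : j + t + 1 ≤ N)
        linarith
      have h5 : (0 : ℝ) < ((j + t + 1 : ℕ) : ℝ) := by positivity
      rw [h3, show j + (t + 1) = j + t + 1 by ring, pow_succ, div_le_div_iff₀ hf (by positivity)]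
      calc (2 * x) ^ (j + t) * (((j + t + 1 : ℕ) : ℝ) * (j + t).factorial)
          ≤ (2 * x) ^ (j + t) * (2 * x * (j + t).factorial) := by gcongr
        _ = _ := by ring
  have h3 := h2 (N - j) (by omega)
  rw [Nat.add_sub_cancel' hj] at h3
  have hfj : (0 : ℝ) < j.factorial := by exact_mod_cast Nat.factorial_pos _
  have hfN : (0 : ℝ) < N.factorial := by exact_mod_cast Nat.factorial_pos _
  have h4 : (N : ℝ) ^ N / N.factorial ≤ 3 ^ N := by
    refine (Real.pow_div_factorial_le_exp (N : ℝ) hN0.le N).trans ?_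
    have : Real.exp (N : ℝ) = (Real.exp 1) ^ N := by rw [← Real.exp_nat_mul, mul_one]
    rw [this]
    exact pow_le_pow_left₀ (Real.exp_pos 1).le (by linarith [Real.exp_one_lt_d9]) N
  calc bn j y ≤ (2 * x) ^ j / j.factorial := by
        unfold bn
        gcongr
    _ ≤ (2 * x) ^ N / N.factorial := h3
    _ = (2 * x / N) ^ N * ((N : ℝ) ^ N / N.factorial) := by
        rw [div_pow]; field_simp
    _ ≤ (2 * x / N) ^ N * 3 ^ N := mul_le_mul_of_nonneg_left h4 (by positivity)
    _ = _ := by rw [← mul_pow, ← mul_pow]; congr 1; ring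

theorem auxR (W : Finset (List ℕ)) (hW : Closed W) (hL : 2 ≤ W.card) (k : ℕ)
    (hk : ∀ w ∈ W, w.sum ≤ k) (q : ℕ) (hq : 2 ≤ q) :
    ∃ C : ℕ, 1 ≤ C ∧ ∀ N : ℕ, 1 ≤ N → ∃ P : List ℕ → ℚ[X],
      (∀ w, w ∉ W → P w = 0) ∧ (∃ w, P w ≠ 0) ∧ (∀ w, (P w).natDegree ≤ N) ∧
      (∀ w, ∀ r b : ℕ, 1 ≤ b → ∃ z : ℤ, (b : ℚ) ^ (2 * N) * (P w).eval ((r : ℚ) / b) = z) ∧
      (∀ w, ∀ x : ℝ, (N : ℝ) ≤ x → |aeval x (P w)| ≤ C ^ N * (x / N) ^ N) ∧
      ∀ x : ℝ, 1 < x → |form W P x| ≤ C ^ N * rho ((W.card - 1) * (N + 1) - (N / q + 1)) x := by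
  classical
  obtain ⟨C1, hC1, hsieg⟩ := sieg_words W hW hL k hk q hq
  set L := W.card with hLdef
  set S := W.erase [] with hS
  have hScard : S.card ≤ L := by rw [hS, hLdef]; exact Finset.card_erase_le
  set Cf : ℕ := 220 ^ (k + 1) * L * C1 * 2 ^ (2 * L + 6) with hCf
  refine ⟨Cf, Nat.one_le_iff_ne_zero.2 (by positivity), fun N hN => ?_⟩
  obtain ⟨p, hp0, hpne, hpb, hpr⟩ := hsieg N hN
  obtain ⟨hM0, hM1, hM2, hM3, hM4⟩ := Mq_facts hL hN hq
  have hMq : (L - 1) * (N + 1) - (N / q + 1) = Mq L N q := rfl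
  rw [hMq]
  set M := Mq L N q with hM
  set d : ℕ := (Nat.lcmUpto N) ^ (k + 1) with hd
  set A1 : ℝ := (C1 : ℝ) ^ N with hA1
  have hA1' : 1 ≤ A1 := by
    rw [hA1]; exact one_le_pow₀ (by exact_mod_cast hC1)
  -- the polynomials
  set Pw : List ℕ → ℚ[X] := fun w =>
    C (d : ℚ) * ∑ a ∈ Finset.range (N + 1), C (p w a : ℚ) * bP a with hPw
  set P0 : ℚ[X] := -(C (d : ℚ) * ∑ w ∈ S, ∑ a ∈ Finset.range (N + 1), C (p w a : ℚ) *
    ∑ l ∈ Finset.range a, C (Cw w l) * piP a l) with hP0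
  set P : List ℕ → ℚ[X] := fun w => if w = [] then P0 else Pw w with hP
  have hPnil : P [] = P0 := by rw [hP]; simp
  have hPne : ∀ w, w ≠ [] → P w = Pw w := fun w hw => by rw [hP]; simp [hw]
  have hdpos : 0 < d := by
    rw [hd]
    exact pow_pos (Nat.lcmUpto_pos N) _
  have hdq : (d : ℚ) ≠ 0 := by exact_mod_cast hdpos.ne'
  have hdle : (d : ℝ) ≤ ((220 : ℝ) ^ (k + 1)) ^ N := by
    rw [hd]
    push_cast
    calc ((Nat.lcmUpto N : ℝ)) ^ (k + 1) ≤ (220 ^ N) ^ (k + 1) :=
          pow_le_pow_left₀ (Nat.cast_nonneg _) (lcmUpto_le N) _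
      _ = _ := by rw [← pow_mul, ← pow_mul, mul_comm]
  have h2N : ((N : ℝ) + 1) ≤ 2 ^ N := by
    exact_mod_cast (Nat.lt_two_pow_self (n := N))
  have hLr : (1:ℝ) ≤ L := by exact_mod_cast (by omega : 1 ≤ L)
  have hLN : (L : ℝ) ≤ (L : ℝ) ^ N := le_self_pow₀ hLr (by omega)
  have hSr : (S.card : ℝ) ≤ L := by exact_mod_cast hScard
  -- members of `S`
  have hSW : ∀ w ∈ S, w ∈ W ∧ w ≠ [] := fun w hw => ⟨(Finset.mem_erase.1 hw).2, (Finset.mem_erase.1 hw).1⟩
  refine ⟨P, ?_, ?_, ?_, ?_, ?_, ?_⟩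
  · -- support
    intro w hw
    have hne : w ≠ [] := fun h => hw (h ▸ hW.nil_mem)
    rw [hPne w hne, hPw]
    simp only
    have h1 : ∀ a, p w a = 0 := hp0 w (fun h => hw (hSW w h).1)
    simp [h1]
  · -- not zero
    obtain ⟨w, hw, a, ha, hpa⟩ := hpne
    refine ⟨w, ?_⟩
    rw [hPne w (hSW w hw).2, hPw]
    simp only
    refine mul_ne_zero (C_ne_zero.2 hdq) (bP_comb_ne _ N ⟨a, ha, by exact_mod_cast hpa⟩)
  · -- degrees
    intro w
    by_cases hw : w = []
    · rw [hw, hPnil, hP0, natDegree_neg]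
      refine (natDegree_C_mul_le _ _).trans ?_
      refine natDegree_sum_le_of_forall_le _ _ fun w _ => ?_
      refine natDegree_sum_le_of_forall_le _ _ fun a ha => ?_
      rw [Finset.mem_range] at ha
      refine (natDegree_C_mul_le _ _).trans ?_
      refine natDegree_sum_le_of_forall_le _ _ fun l _ => ?_
      refine (natDegree_C_mul_le _ _).trans ?_
      exact (natDegree_piP a l).trans (by omega)
    · rw [hPne w hw, hPw]
      simp only
      refine (natDegree_C_mul_le _ _).trans ?_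
      refine natDegree_sum_le_of_forall_le _ _ fun a ha => ?_
      rw [Finset.mem_range] at ha
      refine (natDegree_C_mul_le _ _).trans ?_
      rw [natDegree_bP]; omega
  · -- integer values
    intro w r b hb
    suffices h : II ((b : ℚ) ^ (2 * N) * (P w).eval ((r : ℚ) / b)) from h
    by_cases hw : w = []
    · -- the polynomial part
      have hev : (b : ℚ) ^ (2 * N) * (P w).eval ((r : ℚ) / b) =
          -(∑ w ∈ S, ∑ a ∈ Finset.range (N + 1), ∑ l ∈ Finset.range a,
            (p w a : ℚ) * (((Nat.lcmUpto N : ℕ) : ℚ) ^ k * Cw w l) *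
              ((((Nat.lcmUpto N : ℕ) : ℚ) / (((l + 1) * a.choose (l + 1) : ℕ) : ℚ)) *
              ((b : ℚ) ^ (2 * N) * (bP (a - (l + 1))).eval ((r : ℚ) / b + ((l + 1 : ℕ) : ℚ))))) := by
        rw [hw, hPnil, hP0]
        simp only [eval_neg, eval_mul, eval_C, eval_finsetSum, eval_piP, mul_neg, Finset.mul_sum]
        congr 1
        refine Finset.sum_congr rfl fun w _ => Finset.sum_congr rfl fun a _ =>
          Finset.sum_congr rfl fun l _ => ?_
        rw [hd]
        push_cast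
        rw [pow_succ]
        ring
      rw [hev]
      refine II.neg (II.sum _ fun w hw => II.sum _ fun a ha => II.sum _ fun l hl => ?_)
      rw [Finset.mem_range] at ha hl
      refine ((II.int _).mul ?_).mul ((II.div ?_).mul (bP_shift_II r b l hb (by omega)))
      · exact Cw_II' (fun r h1 h2 => dvd_lcmUpto h1 h2) (hW.two_le w (hSW w hw).1)
          (hk w (hSW w hw).1) (by omega : l + 1 ≤ N)
      · exact (mul_choose_dvd (by omega) (by omega)).trans (lcmUpto_dvd (by omega))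
    · have hev : (b : ℚ) ^ (2 * N) * (P w).eval ((r : ℚ) / b) =
          (d : ℚ) * ∑ a ∈ Finset.range (N + 1), (p w a : ℚ) *
            ((b : ℚ) ^ (2 * N) * (bP a).eval ((r : ℚ) / b)) := by
        rw [hPne w hw, hPw]
        simp only [eval_mul, eval_C, eval_finsetSum, Finset.mul_sum]
        refine Finset.sum_congr rfl fun a _ => ?_
        ring
      rw [hev]
      refine (II.nat _).mul (II.sum _ fun a ha => (II.int _).mul (bP_II' r b hb ?_))
      rw [Finset.mem_range] at ha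
      omega
  · -- sizes
    intro w x hx
    have hN0 : (0 : ℝ) < N := by exact_mod_cast hN
    have hN1 : (1 : ℝ) ≤ N := by exact_mod_cast hN
    have hx0 : 0 < x := hN0.trans_le hx
    set V : ℝ := (x / N) ^ N with hV
    have hV0 : 0 < V := by positivity
    have hfin : (220 : ℝ) ^ (k + 1) * L * C1 * 24 ≤ Cf := by
      rw [hCf]
      push_cast
      have h1 : (24:ℝ) ≤ 2 ^ (2 * L + 6) := by
        calc (24:ℝ) ≤ 2 ^ 6 := by norm_num
          _ ≤ 2 ^ (2 * L + 6) := pow_le_pow_right₀ (by norm_num) (by omega)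
      gcongr
    have hcomb : ((220 : ℝ) ^ (k + 1)) ^ N * (L * (2 ^ N * (2 ^ N * (A1 * (6 ^ N * V))))) ≤ (Cf : ℝ) ^ N * V := by
      calc ((220 : ℝ) ^ (k + 1)) ^ N * (L * (2 ^ N * (2 ^ N * (A1 * (6 ^ N * V)))))
          ≤ ((220 : ℝ) ^ (k + 1)) ^ N * ((L : ℝ) ^ N * (2 ^ N * (2 ^ N * (A1 * (6 ^ N * V))))) := by
            gcongr
        _ = ((220 : ℝ) ^ (k + 1) * L * C1 * 24) ^ N * V := by
            rw [hA1, show (24:ℝ) = 2 * 2 * 6 by norm_num]
            simp only [mul_pow]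
            ring
        _ ≤ (Cf : ℝ) ^ N * V := by gcongr
    by_cases hw : w = []
    · have hev : aeval x (P w) = -((d : ℝ) * ∑ w ∈ S, ∑ a ∈ Finset.range (N + 1), (p w a : ℝ) *
          ∑ l ∈ Finset.range a, (Cw w l : ℝ) * aeval x (piP a l)) := by
        rw [hw, hPnil, hP0]
        simp only [map_neg, map_mul, map_sum, aeval_C, eq_ratCast, Rat.cast_natCast, Rat.cast_intCast]
      rw [hev, abs_neg, abs_mul, abs_of_nonneg (Nat.cast_nonneg d : (0:ℝ) ≤ d)]
      have hinner : |∑ w ∈ S, ∑ a ∈ Finset.range (N + 1), (p w a : ℝ) *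
          ∑ l ∈ Finset.range a, (Cw w l : ℝ) * aeval x (piP a l)| ≤
          L * (2 ^ N * (2 ^ N * (A1 * (6 ^ N * V)))) := by
        have h3 : ∀ w ∈ S, ∀ a ∈ Finset.range (N + 1), |(p w a : ℝ) *
            ∑ l ∈ Finset.range a, (Cw w l : ℝ) * aeval x (piP a l)| ≤
            2 ^ N * (A1 * (6 ^ N * V)) := by
          intro w _ a ha
          rw [Finset.mem_range] at ha
          rw [abs_mul]
          have h4 : |∑ l ∈ Finset.range a, (Cw w l : ℝ) * aeval x (piP a l)| ≤
              2 ^ N * (6 ^ N * V) := by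
            refine (Finset.abs_sum_le_sum_abs _ _).trans ?_
            have h5 : ∀ l ∈ Finset.range a, |(Cw w l : ℝ) * aeval x (piP a l)| ≤ 6 ^ N * V := by
              intro l hl
              rw [Finset.mem_range] at hl
              rw [abs_mul]
              have e1 : |(Cw w l : ℝ)| ≤ 1 := by
                rw [abs_of_nonneg (by exact_mod_cast (Cw_bound w l).1)]
                exact_mod_cast (Cw_bound w l).2
              have e3 : |aeval x (piP a l)| ≤ 6 ^ N * V := by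
                rw [piP, map_mul, aeval_C, aeval_comp]
                have e7 : aeval x (X + C (((l + 1 : ℕ) : ℚ)) : ℚ[X]) = x + ((l + 1 : ℕ) : ℝ) := by
                  rw [map_add, aeval_X, aeval_C]; simp
                rw [e7, aeval_bP, abs_mul]
                have e4 : |algebraMap ℚ ℝ (((l + 1) * a.choose (l + 1) : ℕ) : ℚ)⁻¹| ≤ 1 := by
                  have e5 : 1 ≤ (l + 1) * a.choose (l + 1) :=
                    Nat.mul_pos (by omega) (Nat.choose_pos (by omega))
                  have e8 : (1 : ℝ) ≤ (((l + 1) * a.choose (l + 1) : ℕ) : ℝ) := by exact_mod_cast e5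
                  have e9 : algebraMap ℚ ℝ (((l + 1) * a.choose (l + 1) : ℕ) : ℚ)⁻¹ =
                      ((((l + 1) * a.choose (l + 1) : ℕ) : ℝ))⁻¹ := by simp
                  rw [e9, abs_of_nonneg (by positivity)]
                  exact inv_le_one_of_one_le₀ e8
                have e6 : |bn (a - (l + 1)) (x + ((l + 1 : ℕ) : ℝ))| ≤ 6 ^ N * V := by
                  have hy0 : 0 < x + ((l + 1 : ℕ) : ℝ) := by positivity
                  rw [abs_of_nonneg (bn_pos hy0 _).le]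
                  refine bn_le (by omega) hN hx hy0 ?_
                  have e10 : ((l + 1 : ℕ) : ℝ) + ((a - (l + 1) : ℕ) : ℝ) ≤ N := by
                    exact_mod_cast (by omega : (l + 1) + (a - (l + 1)) ≤ N)
                  linarith
                calc _ ≤ 1 * (6 ^ N * V) := mul_le_mul e4 e6 (abs_nonneg _) zero_le_one
                  _ = _ := one_mul _
              calc _ ≤ 1 * (6 ^ N * V) := mul_le_mul e1 e3 (abs_nonneg _) zero_le_one
                _ = _ := one_mul _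
            refine (Finset.sum_le_sum h5).trans ?_
            rw [Finset.sum_const, Finset.card_range, nsmul_eq_mul]
            have h6 : (a : ℝ) ≤ 2 ^ N := by
              have : (a : ℝ) ≤ N := by exact_mod_cast (by omega : a ≤ N)
              linarith
            gcongr
          calc |(p w a : ℝ)| * _ ≤ A1 * (2 ^ N * (6 ^ N * V)) := by
                gcongr
                exact hpb w a
            _ = 2 ^ N * (A1 * (6 ^ N * V)) := by ring
        calc _ ≤ ∑ w ∈ S, ∑ a ∈ Finset.range (N + 1), (2 ^ N * (A1 * (6 ^ N * V))) := by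
              refine (Finset.abs_sum_le_sum_abs _ _).trans (Finset.sum_le_sum fun w hw => ?_)
              exact (Finset.abs_sum_le_sum_abs _ _).trans (Finset.sum_le_sum (h3 w hw))
          _ = (S.card : ℝ) * (((N : ℝ) + 1) * (2 ^ N * (A1 * (6 ^ N * V)))) := by
              simp only [Finset.sum_const, Finset.card_range, nsmul_eq_mul]
              push_cast
              ring
          _ ≤ L * (2 ^ N * (2 ^ N * (A1 * (6 ^ N * V)))) := by gcongr
      calc (d : ℝ) * _ ≤ ((220 : ℝ) ^ (k + 1)) ^ N * (L * (2 ^ N * (2 ^ N * (A1 * (6 ^ N * V))))) := by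
            gcongr
        _ ≤ _ := hcomb
    · have hev : aeval x (P w) = (d : ℝ) * ∑ a ∈ Finset.range (N + 1), (p w a : ℝ) * bn a x := by
        rw [hPne w hw, hPw]
        simp only [map_mul, map_sum, aeval_C, aeval_bP, eq_ratCast, Rat.cast_natCast, Rat.cast_intCast]
      rw [hev, abs_mul, abs_of_nonneg (Nat.cast_nonneg d : (0:ℝ) ≤ d)]
      have hinner : |∑ a ∈ Finset.range (N + 1), (p w a : ℝ) * bn a x| ≤
          L * (2 ^ N * (2 ^ N * (A1 * (6 ^ N * V)))) := by
        calc _ ≤ ∑ a ∈ Finset.range (N + 1), (A1 * (6 ^ N * V)) := by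
              refine (Finset.abs_sum_le_sum_abs _ _).trans (Finset.sum_le_sum fun a ha => ?_)
              rw [Finset.mem_range] at ha
              rw [abs_mul, abs_of_nonneg (bn_pos hx0 _).le]
              have h5 : bn a x ≤ 6 ^ N * V := by
                refine bn_le (by omega) hN hx hx0 ?_
                have : (a : ℝ) ≤ N := by exact_mod_cast (by omega : a ≤ N)
                linarith
              exact mul_le_mul (hpb w a) h5 (bn_pos hx0 _).le (by positivity)
          _ = ((N : ℝ) + 1) * (A1 * (6 ^ N * V)) := by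
              simp only [Finset.sum_const, Finset.card_range, nsmul_eq_mul]
              push_cast
              ring
          _ ≤ 2 ^ N * (A1 * (6 ^ N * V)) := by gcongr
          _ ≤ L * (2 ^ N * (2 ^ N * (A1 * (6 ^ N * V)))) := by
              have h1 : (1:ℝ) ≤ 2 ^ N := one_le_pow₀ (by norm_num)
              have h2 : 0 ≤ 2 ^ N * (A1 * (6 ^ N * V)) := by positivity
              calc 2 ^ N * (A1 * (6 ^ N * V)) = 1 * (1 * (2 ^ N * (A1 * (6 ^ N * V)))) := by ring
                _ ≤ L * (2 ^ N * (2 ^ N * (A1 * (6 ^ N * V)))) := by gcongr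
      calc (d : ℝ) * _ ≤ ((220 : ℝ) ^ (k + 1)) ^ N * (L * (2 ^ N * (2 ^ N * (A1 * (6 ^ N * V))))) := by
            gcongr
        _ ≤ _ := hcomb
  · -- the form is small
    intro x hx
    have hx0 : 0 < x := by linarith
    set R := M + N with hR
    have hrho := rho_nonneg hx M
    set rem : List ℕ → ℝ := fun w => y w x - ∑ l ∈ Finset.range R, (Cw w l : ℝ) * be l x with hrem
    have hrem1 : ∀ w ∈ S, 0 ≤ rem w ∧ rem w ≤ rho R x := by
      intro w hw
      exact expn w (hSW w hw).2 (hW.two_le w (hSW w hw).1) R x hx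
    have hform : form W P x = (d : ℝ) * ∑ w ∈ S, ∑ a ∈ Finset.range (N + 1), (p w a : ℝ) *
        (∑ r ∈ Finset.range R, (cf (Cw w) a (R - a) r : ℝ) * be r x + bn a x * rem w) := by
      have h1 : form W P x = aeval x P0 + ∑ w ∈ S, aeval x (Pw w) * y w x := by
        unfold form
        rw [← Finset.add_sum_erase W _ hW.nil_mem, hPnil]
        congr 1
        · simp [y]
        · apply Finset.sum_congr rfl
          intro w hw
          rw [hPne w (hSW w hw).2]
      have h2 : aeval x P0 = -((d : ℝ) * ∑ w ∈ S, ∑ a ∈ Finset.range (N + 1), (p w a : ℝ) *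
          ∑ l ∈ Finset.range a, (Cw w l : ℝ) * (bn a x * be l x)) := by
        rw [hP0]
        simp only [map_neg, map_mul, map_sum, aeval_C, eq_ratCast, Rat.cast_natCast, Rat.cast_intCast]
        congr 2
        apply Finset.sum_congr rfl
        intro w _
        apply Finset.sum_congr rfl
        intro a _
        congr 1
        apply Finset.sum_congr rfl
        intro l hl
        rw [aeval_piP (Finset.mem_range.1 hl) hx0]
      have h3 : ∀ w, aeval x (Pw w) = (d : ℝ) * ∑ a ∈ Finset.range (N + 1), (p w a : ℝ) * bn a x := by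
        intro w
        rw [hPw]
        simp only [map_mul, map_sum, aeval_C, aeval_bP, eq_ratCast, Rat.cast_natCast, Rat.cast_intCast]
      rw [h1, h2, Finset.mul_sum, Finset.mul_sum, ← Finset.sum_neg_distrib, ← Finset.sum_add_distrib]
      apply Finset.sum_congr rfl
      intro w _
      rw [h3, Finset.mul_sum, Finset.mul_sum, Finset.mul_sum, Finset.sum_mul, ← Finset.sum_neg_distrib,
        ← Finset.sum_add_distrib]
      apply Finset.sum_congr rfl
      intro a ha
      rw [Finset.mem_range] at ha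
      have h4 := mul_series (Cw w) a (R - a) hx0
      have h5 : a + (R - a) = R := by omega
      rw [h5] at h4
      have h6 : y w x = ∑ l ∈ Finset.range R, (Cw w l : ℝ) * be l x + rem w := by
        rw [hrem]; ring
      rw [h6, mul_add, mul_assoc (d : ℝ), mul_assoc (p w a : ℝ), h4]
      ring
    have hzero : ∀ r ∈ Finset.range M, ∑ w ∈ S, ∑ a ∈ Finset.range (N + 1),
        (p w a : ℝ) * (cf (Cw w) a (R - a) r : ℝ) = 0 := by
      intro r hr
      have := hpr r (Finset.mem_range.1 hr)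
      exact_mod_cast this
    have hform2 : form W P x = (d : ℝ) * ∑ w ∈ S, ∑ a ∈ Finset.range (N + 1), (p w a : ℝ) *
        (∑ j ∈ Finset.range N, (cf (Cw w) a (R - a) (M + j) : ℝ) * be (M + j) x + bn a x * rem w) := by
      rw [hform]
      congr 1
      have h1 : ∑ w ∈ S, ∑ a ∈ Finset.range (N + 1), (p w a : ℝ) *
          (∑ r ∈ Finset.range R, (cf (Cw w) a (R - a) r : ℝ) * be r x + bn a x * rem w) =
          ∑ r ∈ Finset.range M, be r x * (∑ w ∈ S, ∑ a ∈ Finset.range (N + 1),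
            (p w a : ℝ) * (cf (Cw w) a (R - a) r : ℝ)) +
          ∑ w ∈ S, ∑ a ∈ Finset.range (N + 1), (p w a : ℝ) *
            (∑ j ∈ Finset.range N, (cf (Cw w) a (R - a) (M + j) : ℝ) * be (M + j) x + bn a x * rem w) := by
        have h2 : ∀ r, be r x * (∑ w ∈ S, ∑ a ∈ Finset.range (N + 1),
            (p w a : ℝ) * (cf (Cw w) a (R - a) r : ℝ)) = ∑ w ∈ S, ∑ a ∈ Finset.range (N + 1),
            (p w a : ℝ) * ((cf (Cw w) a (R - a) r : ℝ) * be r x) := by
          intro r
          rw [Finset.mul_sum]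
          apply Finset.sum_congr rfl
          intro w _
          rw [Finset.mul_sum]
          apply Finset.sum_congr rfl
          intro a _
          ring
        simp only [h2]
        rw [Finset.sum_comm (s := Finset.range M), ← Finset.sum_add_distrib]
        apply Finset.sum_congr rfl
        intro w _
        rw [Finset.sum_comm (s := Finset.range M), ← Finset.sum_add_distrib]
        apply Finset.sum_congr rfl
        intro a _
        have h7 : ∑ r ∈ Finset.range R, (cf (Cw w) a (R - a) r : ℝ) * be r x =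
            ∑ r ∈ Finset.range M, (cf (Cw w) a (R - a) r : ℝ) * be r x +
            ∑ j ∈ Finset.range N, (cf (Cw w) a (R - a) (M + j) : ℝ) * be (M + j) x := by
          rw [← Finset.sum_range_add, ← hR]
        rw [h7, ← Finset.mul_sum]
        ring
      rw [h1, Finset.sum_eq_zero (fun r hr => by rw [hzero r hr, mul_zero]), zero_add]
    have hinner : ∀ w ∈ S, ∀ a ∈ Finset.range (N + 1), |(p w a : ℝ) *
        (∑ j ∈ Finset.range N, (cf (Cw w) a (R - a) (M + j) : ℝ) * be (M + j) x + bn a x * rem w)| ≤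
        A1 * (2 ^ (M + 5 * N) * rho M x) := by
      intro w hw a ha
      rw [Finset.mem_range] at ha
      rw [abs_mul]
      have h1 : |∑ j ∈ Finset.range N, (cf (Cw w) a (R - a) (M + j) : ℝ) * be (M + j) x| ≤
          N * (2 ^ (M + 4 * N) * rho M x) := by
        refine (Finset.abs_sum_le_sum_abs _ _).trans ?_
        have h2 : ∀ j ∈ Finset.range N, |(cf (Cw w) a (R - a) (M + j) : ℝ) * be (M + j) x| ≤
            2 ^ (M + 4 * N) * rho M x := by
          intro j hj
          rw [Finset.mem_range] at hj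
          rw [abs_mul, abs_of_nonneg (be_pos hx0 _).le]
          have e1 := cf_abs (Cw_bound w) a (R - a) (M + j)
          have e2 : be (M + j) x ≤ rho M x := (be_le_rho hx _).trans (rho_anti hx (by omega))
          have e3 : ((a : ℝ) + 1) * (2 ^ (M + j + a) * 2 ^ a) ≤ 2 ^ (M + 4 * N) := by
            have e4 : ((a : ℝ) + 1) ≤ 2 ^ N := by
              have : (a : ℝ) ≤ N := by exact_mod_cast (by omega : a ≤ N)
              linarith
            calc ((a : ℝ) + 1) * (2 ^ (M + j + a) * 2 ^ a) ≤ 2 ^ N * (2 ^ (M + j + a) * 2 ^ a) := by gcongr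
              _ = 2 ^ (N + (M + j + a + a)) := by rw [← pow_add, ← pow_add]
              _ ≤ 2 ^ (M + 4 * N) := pow_le_pow_right₀ (by norm_num) (by omega)
          exact mul_le_mul (e1.trans e3) e2 (be_pos hx0 _).le (by positivity)
        refine (Finset.sum_le_sum h2).trans ?_
        rw [Finset.sum_const, Finset.card_range, nsmul_eq_mul]
      have h2 : |bn a x * rem w| ≤ 2 ^ (M + 4 * N) * rho M x := by
        obtain ⟨e1, e2⟩ := hrem1 w hw
        rw [abs_of_nonneg (mul_nonneg (bn_pos hx0 a).le e1)]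
        have e3 := bn_mul_rho hx a (R - a)
        have h5 : a + (R - a) = R := by omega
        rw [h5] at e3
        have e4 : (R.choose a : ℝ) ≤ 2 ^ (M + 4 * N) := by
          have := (Nat.choose_le_two_pow R a).trans
            (Nat.pow_le_pow_right (by norm_num) (by omega : R ≤ M + 4 * N))
          exact_mod_cast this
        have e5 : rho (R - a) x ≤ rho M x := rho_anti hx (by omega)
        calc bn a x * rem w ≤ bn a x * rho R x := by
              have := bn_pos hx0 a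
              gcongr
          _ ≤ _ := e3
          _ ≤ _ := mul_le_mul e4 e5 (rho_nonneg hx _) (by positivity)
      have h3 : |∑ j ∈ Finset.range N, (cf (Cw w) a (R - a) (M + j) : ℝ) * be (M + j) x + bn a x * rem w| ≤
          2 ^ (M + 5 * N) * rho M x := by
        refine (abs_add_le _ _).trans ?_
        calc _ ≤ N * (2 ^ (M + 4 * N) * rho M x) + 2 ^ (M + 4 * N) * rho M x := add_le_add h1 h2
          _ = ((N : ℝ) + 1) * (2 ^ (M + 4 * N) * rho M x) := by ring
          _ ≤ 2 ^ N * (2 ^ (M + 4 * N) * rho M x) := by gcongr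
          _ = 2 ^ (M + 5 * N) * rho M x := by rw [← mul_assoc, ← pow_add]; congr 2; omega
      have h4 := hpb w a
      exact mul_le_mul h4 h3 (abs_nonneg _) (by positivity)
    rw [hform2, abs_mul, abs_of_nonneg (Nat.cast_nonneg d : (0:ℝ) ≤ d)]
    have hsum : |∑ w ∈ S, ∑ a ∈ Finset.range (N + 1), (p w a : ℝ) *
        (∑ j ∈ Finset.range N, (cf (Cw w) a (R - a) (M + j) : ℝ) * be (M + j) x + bn a x * rem w)| ≤
        L ^ N * (2 ^ N * (A1 * (2 ^ (M + 5 * N) * rho M x))) := by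
      calc _ ≤ ∑ w ∈ S, ∑ a ∈ Finset.range (N + 1), (A1 * (2 ^ (M + 5 * N) * rho M x)) := by
            refine (Finset.abs_sum_le_sum_abs _ _).trans (Finset.sum_le_sum fun w hw => ?_)
            exact (Finset.abs_sum_le_sum_abs _ _).trans (Finset.sum_le_sum (hinner w hw))
        _ = (S.card : ℝ) * (((N : ℝ) + 1) * (A1 * (2 ^ (M + 5 * N) * rho M x))) := by
            simp only [Finset.sum_const, Finset.card_range, nsmul_eq_mul]
            push_cast
            ring
        _ ≤ L ^ N * (2 ^ N * (A1 * (2 ^ (M + 5 * N) * rho M x))) := by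
            have := hSr.trans hLN
            gcongr
    calc (d : ℝ) * _ ≤ ((220 : ℝ) ^ (k + 1)) ^ N * (L ^ N * (2 ^ N * (A1 * (2 ^ (M + 5 * N) * rho M x)))) := by
          gcongr
      _ ≤ ((220 : ℝ) ^ (k + 1)) ^ N * (L ^ N * (2 ^ N * (A1 * (2 ^ (2 * L * N + 5 * N) * rho M x)))) := by
          gcongr
          norm_num
      _ = (Cf : ℝ) ^ N * rho M x := by
          rw [hA1, hCf]
          push_cast
          rw [show 2 * L * N + 5 * N = (2 * L + 5) * N by ring, pow_mul, pow_succ (2:ℝ) (2 * L + 5)]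
          simp only [mul_pow]
          ring

end Pool.Agent.Lib.MP_524521_nt.PT
end

section
/-!
# A common multiple of `x, ..., x + T - 1` for rational `x`
-/
open Polynomial

namespace Pool.Agent.Lib.MP_524521_nt.PT

theorem bP_split (j i : ℕ) (x : ℚ) :
    (((j + 1) * (j + 1 + i).choose (j + 1) : ℕ) : ℚ) * (bP (j + 1 + i)).eval x =
      (x + j) * (bP j).eval x * (bP i).eval (x + ((j + 1 : ℕ) : ℚ)) := by
  have h1 : (((j + 1 + i).choose (j + 1) : ℕ) : ℚ) * ((j + 1).factorial * i.factorial) =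
      (j + 1 + i).factorial := by
    have := Nat.choose_mul_factorial_mul_factorial (by omega : j + 1 ≤ j + 1 + i)
    rw [Nat.add_sub_cancel_left, mul_assoc] at this
    exact_mod_cast this
  have h2 : ((j + 1).factorial : ℚ) = (j + 1) * j.factorial := by
    rw [Nat.factorial_succ]; push_cast; ring
  have hj : (j.factorial : ℚ) ≠ 0 := by exact_mod_cast Nat.factorial_ne_zero j
  have hi : (i.factorial : ℚ) ≠ 0 := by exact_mod_cast Nat.factorial_ne_zero i
  have hji : ((j + 1 + i).factorial : ℚ) ≠ 0 := by exact_mod_cast Nat.factorial_ne_zero _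
  rw [eval_bP, eval_bP, eval_bP, Finset.prod_range_add, Finset.prod_range_succ]
  have h3 : ∏ t ∈ Finset.range i, (x + ((j + 1 + t : ℕ) : ℚ)) =
      ∏ t ∈ Finset.range i, (x + ((j + 1 : ℕ) : ℚ) + t) := by
    refine Finset.prod_congr rfl fun t _ => ?_
    push_cast
    ring
  rw [h3]
  field_simp
  rw [← h1, h2]
  push_cast
  ring

theorem d_exists (r b T : ℕ) (hb : 1 ≤ b) (hr : b ≤ r) : ∃ d : ℕ, 1 ≤ d ∧
    (∀ j < T, ∃ z : ℤ, (d : ℝ) / ((r : ℝ) / b + j) = z) ∧
    ((T : ℝ) ≤ (r : ℝ) / b → (d : ℝ) ≤ (1320 * b ^ 2) ^ T * ((r : ℝ) / b / T) ^ T) := by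
  have hb0 : (0 : ℝ) < b := by exact_mod_cast hb
  have hr0 : (0 : ℝ) < r := hb0.trans_le (by exact_mod_cast hr)
  have hx0 : (0 : ℝ) < (r : ℝ) / b := by positivity
  obtain ⟨z0, hz0⟩ := bP_II T r b hb
  have hval : ((z0 : ℤ) : ℝ) = (b : ℝ) ^ (2 * T) * bn T ((r : ℝ) / b) := by
    have h1 : ((z0 : ℚ) : ℝ) = (((b : ℚ) ^ (2 * T) * (bP T).eval ((r : ℚ) / b) : ℚ) : ℝ) := by rw [hz0]
    have h2 : (((bP T).eval ((r : ℚ) / b) : ℚ) : ℝ) = bn T ((r : ℝ) / b) := by
      rw [eval_bP, bn]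
      push_cast
      rfl
    push_cast at h1 h2
    rw [h1, h2]
  have hz0pos : 0 < z0 := by
    have h1 : (0 : ℝ) < z0 := by
      rw [hval]
      exact mul_pos (by positivity) (bn_pos hx0 T)
    exact_mod_cast h1
  obtain ⟨D0, hD0⟩ : ∃ D0 : ℕ, (D0 : ℤ) = z0 := ⟨z0.toNat, Int.toNat_of_nonneg hz0pos.le⟩
  have hD0pos : 1 ≤ D0 := by omega
  have hD0q : (D0 : ℚ) = (b : ℚ) ^ (2 * T) * (bP T).eval ((r : ℚ) / b) := by
    rw [hz0]; exact_mod_cast hD0
  have hD0r : (D0 : ℝ) = (b : ℝ) ^ (2 * T) * bn T ((r : ℝ) / b) := by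
    rw [← hval]; exact_mod_cast hD0
  refine ⟨D0 * Nat.lcmUpto T, Nat.mul_pos hD0pos (Nat.lcmUpto_pos T), ?_, ?_⟩
  · intro j hj
    obtain ⟨i, rfl⟩ : ∃ i, T = j + 1 + i := ⟨T - (j + 1), by omega⟩
    obtain ⟨c, hc⟩ := mul_choose_dvd (by omega : 1 ≤ j + 1) (by omega : j + 1 ≤ j + 1 + i)
    have hkey : II ((((D0 * Nat.lcmUpto (j + 1 + i) : ℕ) : ℚ)) / ((r : ℚ) / b + j)) := by
      have hxj : (r : ℚ) / b + j ≠ 0 := by
        have : (0 : ℚ) < (r : ℚ) / b + j := by
          have h1 : (0 : ℚ) < b := by exact_mod_cast hb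
          have h2 : (0 : ℚ) < r := h1.trans_le (by exact_mod_cast hr)
          positivity
        exact this.ne'
      have h1 : (((D0 * Nat.lcmUpto (j + 1 + i) : ℕ) : ℚ)) / ((r : ℚ) / b + j) =
          (b : ℚ) ^ 2 * ((b : ℚ) ^ (2 * j) * (bP j).eval ((r : ℚ) / b)) *
            ((b : ℚ) ^ (2 * i) * (bP i).eval ((r : ℚ) / b + ((j + 1 : ℕ) : ℚ))) * c := by
        rw [div_eq_iff hxj, hc]
        push_cast
        rw [hD0q]
        have h2 := bP_split j i ((r : ℚ) / b)
        have h3 : (b : ℚ) ^ (2 * (j + 1 + i)) = b ^ 2 * b ^ (2 * j) * b ^ (2 * i) := by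
          rw [← pow_add, ← pow_add]; congr 1; ring
        rw [h3]
        push_cast at h2
        linear_combination (b : ℚ) ^ 2 * b ^ (2 * j) * b ^ (2 * i) * c * h2
      rw [h1]
      exact ((((II.nat b).pow 2).mul (bP_II j r b hb)).mul (bP_shift_II r b j hb le_rfl)).mul (II.nat c)
    obtain ⟨z, hz⟩ := hkey
    refine ⟨z, ?_⟩
    have h1 : (((((D0 * Nat.lcmUpto (j + 1 + i) : ℕ) : ℚ)) / ((r : ℚ) / b + j) : ℚ) : ℝ) = ((z : ℚ) : ℝ) := by
      rw [hz]
    push_cast at h1 ⊢
    exact h1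
  · intro hT
    rcases Nat.eq_zero_or_pos T with rfl | hTpos
    · have h1 : D0 = 1 := by
        have : (D0 : ℝ) = 1 := by rw [hD0r]; simp [bn]
        exact_mod_cast this
      rw [h1]
      simp [Nat.lcmUpto]
    · have h1 : bn T ((r : ℝ) / b) ≤ 6 ^ T * ((r : ℝ) / b / T) ^ T :=
        bn_le le_rfl hTpos hT hx0 (by linarith)
      push_cast
      rw [hD0r]
      have h2 := lcmUpto_le T
      calc (b : ℝ) ^ (2 * T) * bn T ((r : ℝ) / b) * (Nat.lcmUpto T : ℝ)
          ≤ (b : ℝ) ^ (2 * T) * (6 ^ T * ((r : ℝ) / b / T) ^ T) * 220 ^ T := by gcongr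
        _ = (1320 * (b : ℝ) ^ 2) ^ T * ((r : ℝ) / b / T) ^ T := by
            rw [show (1320 : ℝ) = 6 * 220 by norm_num, mul_pow, mul_pow, pow_mul]
            ring

end Pool.Agent.Lib.MP_524521_nt.PT
end

section
/-!
# A relation between the zeta values gives relations of exponential height between the tails
-/
open Finset MvPolynomial

namespace Pool.Agent.Lib.MP_524521_nt.PT

section coefbd

variable {m : ℕ}

theorem bd_lin {R : MvPolynomial (Fin m) ℤ} {B : ℤ} (a z : ℤ) (j : Fin m)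
    (h : ∀ e, |R.coeff e| ≤ B) (e : Fin m →₀ ℕ) :
    |((C a * X j + C z) * R).coeff e| ≤ (|a| + |z|) * B := by
  have hB : 0 ≤ B := (abs_nonneg _).trans (h e)
  have h1 : (C a * X j + C z) * R = C a * (R * X j) + C z * R := by ring
  rw [h1, coeff_add, coeff_C_mul, coeff_C_mul, coeff_mul_X']
  refine (abs_add_le _ _).trans ?_
  rw [add_mul]
  refine add_le_add ?_ ?_
  · rw [abs_mul]
    refine mul_le_mul_of_nonneg_left ?_ (abs_nonneg _)
    split_ifs
    · exact h _
    · simpa using hB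
  · rw [abs_mul]
    exact mul_le_mul_of_nonneg_left (h e) (abs_nonneg _)

theorem bd_pow {R : MvPolynomial (Fin m) ℤ} {B A : ℤ} (a z : ℤ) (j : Fin m) (hA : |a| + |z| ≤ A)
    (h : ∀ e, |R.coeff e| ≤ B) : ∀ (k : ℕ) (e : Fin m →₀ ℕ),
    |((C a * X j + C z) ^ k * R).coeff e| ≤ A ^ k * B := by
  have hB : 0 ≤ B := (abs_nonneg _).trans (h 0)
  have hA0 : 0 ≤ A := (by positivity : 0 ≤ |a| + |z|).trans hA
  intro k
  induction k with
  | zero => intro e; simpa using h e
  | succ k ih =>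
    intro e
    rw [pow_succ', mul_assoc]
    refine (bd_lin a z j ih e).trans ?_
    calc (|a| + |z|) * (A ^ k * B) ≤ A * (A ^ k * B) :=
          mul_le_mul_of_nonneg_right hA (by positivity)
      _ = _ := by ring

theorem bd_prod {A : ℤ} (a : ℤ) (z : Fin m → ℤ) (hA : ∀ j, |a| + |z j| ≤ A) (e : Fin m → ℕ)
    (s : Finset (Fin m)) : ∀ f : Fin m →₀ ℕ,
    |(∏ j ∈ s, (C a * X j + C (z j) : MvPolynomial (Fin m) ℤ) ^ e j).coeff f| ≤ A ^ (∑ j ∈ s, e j) := by
  classical
  induction s using Finset.induction_on with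
  | empty =>
    intro f
    simp only [prod_empty, sum_empty, pow_zero, coeff_one]
    split_ifs <;> simp
  | insert j s hj ih =>
    intro f
    rw [prod_insert hj, sum_insert hj, pow_add]
    exact bd_pow a (z j) j (hA j) ih (e j) f

theorem deg_prod (a : ℤ) (z : Fin m → ℤ) (e : Fin m → ℕ) (s : Finset (Fin m)) :
    (∏ j ∈ s, (C a * X j + C (z j) : MvPolynomial (Fin m) ℤ) ^ e j).totalDegree ≤ ∑ j ∈ s, e j := by
  refine (totalDegree_finsetProd _ _).trans (sum_le_sum fun j _ => ?_)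
  refine (totalDegree_pow _ _).trans ?_
  have h1 : (C a * X j + C (z j) : MvPolynomial (Fin m) ℤ).totalDegree ≤ 1 := by
    refine (totalDegree_add _ _).trans (max_le ?_ ?_)
    · refine (totalDegree_mul _ _).trans ?_
      rw [totalDegree_C, totalDegree_X]
    · rw [totalDegree_C]; omega
  calc e j * _ ≤ e j * 1 := Nat.mul_le_mul_left _ h1
    _ = e j := mul_one _

end coefbd

/-- the polynomial `a ^ D * P (X + z / a)` -/
noncomputable def transl {m : ℕ} (P : MvPolynomial (Fin m) ℤ) (D : ℕ) (a : ℤ) (z : Fin m → ℤ) :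
    MvPolynomial (Fin m) ℤ :=
  ∑ e ∈ P.support, C (P.coeff e * a ^ (D - ∑ j, e j)) * ∏ j, (C a * X j + C (z j)) ^ e j

theorem degree_le_of_mem {m D : ℕ} {P : MvPolynomial (Fin m) ℤ} (hD : P.totalDegree ≤ D)
    {e : Fin m →₀ ℕ} (he : e ∈ P.support) : ∑ j, e j ≤ D := by
  have h1 := le_totalDegree he
  rw [Finsupp.sum_fintype _ _ (fun _ => rfl)] at h1
  exact h1.trans hD

theorem aeval_transl {m D : ℕ} {P : MvPolynomial (Fin m) ℤ} (hD : P.totalDegree ≤ D) (a : ℤ)
    (z : Fin m → ℤ) (t x : Fin m → ℝ) (h : ∀ j, (a : ℝ) * t j + z j = a * x j) :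
    aeval t (transl P D a z) = (a : ℝ) ^ D * aeval x P := by
  have hP : aeval x P = ∑ e ∈ P.support, ((P.coeff e : ℤ) : ℝ) * ∏ j, x j ^ e j := by
    rw [aeval_def, eval₂_eq']
    rfl
  rw [hP, transl, map_sum, mul_sum]
  refine sum_congr rfl fun e he => ?_
  have h1 := degree_le_of_mem hD he
  simp only [map_mul, map_prod, map_pow, map_add, aeval_X, eq_intCast]
  have h2 : ∏ j, ((a : ℝ) * t j + z j) ^ e j = a ^ (∑ j, e j) * ∏ j, x j ^ e j := by
    rw [← prod_pow_eq_pow_sum, ← prod_mul_distrib]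
    refine prod_congr rfl fun j _ => ?_
    rw [h, mul_pow]
  simp only [map_intCast] at *
  rw [h2]
  have h3 : (a : ℝ) ^ D = a ^ (D - ∑ j, e j) * a ^ (∑ j, e j) := by
    rw [← pow_add, Nat.sub_add_cancel h1]
  rw [h3]
  ring

theorem transl_ne_zero {m D : ℕ} {P : MvPolynomial (Fin m) ℤ} (hP : P ≠ 0)
    (hD : P.totalDegree ≤ D) {a : ℤ} (ha : a ≠ 0) (z : Fin m → ℤ) : transl P D a z ≠ 0 := by
  intro h0
  apply hP
  have ha' : (a : ℝ) ≠ 0 := by exact_mod_cast ha
  have h1 : ∀ x : Fin m → ℝ, aeval x P = 0 := by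
    intro x
    have h2 := aeval_transl hD a z (fun j => x j - z j / a) x (fun j => by field_simp; ring)
    rw [h0, map_zero] at h2
    rcases mul_eq_zero.1 h2.symm with h3 | h3
    · exact absurd h3 (pow_ne_zero _ ha')
    · exact h3
  have h2 : map (Int.castRingHom ℝ) P = map (Int.castRingHom ℝ) 0 := by
    rw [map_zero]
    apply MvPolynomial.funext
    intro x
    rw [eval_map, map_zero]
    exact h1 x
  exact map_injective _ Int.cast_injective h2

theorem transl_bd {m D : ℕ} {P : MvPolynomial (Fin m) ℤ} (hD : P.totalDegree ≤ D) {a A : ℤ}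
    (ha : 0 ≤ a) (hA1 : 1 ≤ A) (z : Fin m → ℤ) (hA : ∀ j, |a| + |z j| ≤ A) (haA : a ≤ A)
    (f : Fin m →₀ ℕ) :
    |(transl P D a z).coeff f| ≤ (∑ e ∈ P.support, |P.coeff e|) * A ^ D := by
  rw [transl, coeff_sum, sum_mul]
  refine (abs_sum_le_sum_abs _ _).trans (sum_le_sum fun e he => ?_)
  have h1 := degree_le_of_mem hD he
  rw [coeff_C_mul, abs_mul, abs_mul, mul_assoc]
  refine mul_le_mul_of_nonneg_left ?_ (abs_nonneg _)
  have h2 : |a ^ (D - ∑ j, e j)| ≤ A ^ (D - ∑ j, e j) := by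
    rw [abs_of_nonneg (by positivity)]
    exact pow_le_pow_left₀ ha haA _
  calc |a ^ (D - ∑ j, e j)| * |(∏ j, (C a * X j + C (z j) : MvPolynomial (Fin m) ℤ) ^ e j).coeff f|
      ≤ A ^ (D - ∑ j, e j) * A ^ (∑ j, e j) :=
        mul_le_mul h2 (bd_prod a z hA e univ f) (abs_nonneg _) (by positivity)
    _ = A ^ D := by rw [← pow_add, Nat.sub_add_cancel h1]

theorem transl_deg {m D : ℕ} {P : MvPolynomial (Fin m) ℤ} (hD : P.totalDegree ≤ D) (a : ℤ)
    (z : Fin m → ℤ) : (transl P D a z).totalDegree ≤ D := by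
  rw [transl]
  refine totalDegree_finsetSum_le fun e he => ?_
  refine (totalDegree_mul _ _).trans ?_
  rw [totalDegree_C, zero_add]
  exact (deg_prod a z e univ).trans (degree_le_of_mem hD he)

/-- `lcm(1..n)^m` times the harmonic sum is an integer of size at most `n * lcm(1..n)^m` -/
theorem harm_int (n m : ℕ) (k : ℕ) (hkm : k ≤ m) :
    ∃ z : ℤ, (z : ℝ) = (Nat.lcmUpto n : ℝ) ^ m * ∑ j ∈ range n, 1 / ((j : ℝ) + 1) ^ k ∧
      |z| ≤ n * (Nat.lcmUpto n : ℤ) ^ m := by
  have h1 : ∀ j ∈ range n, ∃ c : ℤ, (c : ℝ) = (Nat.lcmUpto n : ℝ) ^ m * (1 / ((j : ℝ) + 1) ^ k) := by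
    intro j hj
    obtain ⟨c, hc⟩ := dvd_lcmUpto_of_le (m := j + 1) (a := n) (by omega) (by
      have := mem_range.1 hj; omega)
    refine ⟨c ^ k * (Nat.lcmUpto n) ^ (m - k), ?_⟩
    have hj0 : ((j : ℝ) + 1) ≠ 0 := by positivity
    have hc' : (Nat.lcmUpto n : ℝ) = ((j : ℝ) + 1) * c := by exact_mod_cast hc
    have h2 : (Nat.lcmUpto n : ℝ) ^ m = (Nat.lcmUpto n : ℝ) ^ k * (Nat.lcmUpto n : ℝ) ^ (m - k) := by
      rw [← pow_add, Nat.add_sub_cancel' hkm]
    have h3 : (Nat.lcmUpto n : ℝ) ^ k * (1 / ((j : ℝ) + 1) ^ k) = c ^ k := by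
      rw [hc', mul_pow]
      field_simp
    push_cast
    rw [h2, ← h3]
    ring
  choose! c hc using h1
  refine ⟨∑ j ∈ range n, c j, ?_, ?_⟩
  · push_cast
    rw [mul_sum]
    exact sum_congr rfl hc
  · have h2 : ∀ j ∈ range n, |c j| ≤ (Nat.lcmUpto n : ℤ) ^ m := by
      intro j hj
      have h3 : |(c j : ℝ)| ≤ (Nat.lcmUpto n : ℝ) ^ m := by
        have h4 : 1 / ((j : ℝ) + 1) ^ k ≤ 1 := by
          rw [div_le_one (by positivity)]
          exact one_le_pow₀ (by linarith [(Nat.cast_nonneg j : (0:ℝ) ≤ j)])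
        rw [hc j hj, abs_of_nonneg (by positivity)]
        exact mul_le_of_le_one_right (by positivity) h4
      exact_mod_cast h3
    refine (abs_sum_le_sum_abs _ _).trans ((sum_le_sum h2).trans ?_)
    simp

/-- **A relation between the zeta values gives relations of exponential height between the
tails.** -/
theorem sharp (m D : ℕ) (P : MvPolynomial (Fin m) ℤ) (hP : P ≠ 0) (hD : P.totalDegree ≤ D)
    (h0 : aeval (fun j : Fin m => ∑' i : ℕ, 1 / ((i : ℝ) + 1) ^ ((j : ℕ) + 2)) P = 0) :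
    ∃ C : ℕ, ∀ n : ℕ, ∃ Q : MvPolynomial (Fin m) ℤ, Q ≠ 0 ∧ Q.totalDegree ≤ D ∧
      (∀ e, |Q.coeff e| ≤ (C : ℤ) ^ (n + 1)) ∧
      aeval (fun j : Fin m => RA.tail (j + 2) n) Q = 0 := by
  obtain ⟨S, hS⟩ : ∃ S : ℕ, (S : ℤ) = ∑ e ∈ P.support, |P.coeff e| :=
    ⟨(∑ e ∈ P.support, |P.coeff e|).toNat, Int.toNat_of_nonneg (sum_nonneg fun _ _ => abs_nonneg _)⟩
  refine ⟨(S + 1) * (2 * 220 ^ (m + 1)) ^ D, fun n => ?_⟩
  set a : ℤ := (Nat.lcmUpto n : ℤ) ^ (m + 1) with ha
  have ha1 : 1 ≤ a := by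
    rw [ha]
    exact one_le_pow₀ (by exact_mod_cast Nat.lcmUpto_pos n)
  choose z hz hzb using fun j : Fin m => harm_int n (m + 1) (j + 2) (by omega)
  refine ⟨transl P D a z, transl_ne_zero hP hD (by omega) z, transl_deg hD a z, ?_, ?_⟩
  · intro e
    have h2n : ((n : ℤ) + 1) ≤ 2 ^ n := by exact_mod_cast (Nat.lt_two_pow_self (n := n))
    have hA : ∀ j, |a| + |z j| ≤ 2 ^ n * a := by
      intro j
      rw [abs_of_nonneg (by omega)]
      calc a + |z j| ≤ a + n * a := by linarith [hzb j]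
        _ = ((n : ℤ) + 1) * a := by ring
        _ ≤ _ := mul_le_mul_of_nonneg_right h2n (by omega)
    have h21 : (1 : ℤ) ≤ 2 ^ n := one_le_pow₀ (by norm_num)
    have h1 := transl_bd hD (by omega : 0 ≤ a) (A := 2 ^ n * a) (by nlinarith) z hA (by nlinarith) e
    refine h1.trans ?_
    rw [← hS]
    have h3 : a ≤ (220 ^ (m + 1)) ^ n := by
      have h4 : (Nat.lcmUpto n : ℤ) ≤ 220 ^ n := by exact_mod_cast lcmUpto_le n
      rw [ha]
      calc (Nat.lcmUpto n : ℤ) ^ (m + 1) ≤ (220 ^ n) ^ (m + 1) :=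
            pow_le_pow_left₀ (by positivity) h4 _
        _ = _ := by rw [← pow_mul, ← pow_mul, mul_comm]
    have h5 : (2 ^ n * a) ^ D ≤ ((2 * 220 ^ (m + 1)) ^ D) ^ n := by
      rw [← pow_mul, mul_comm D n, pow_mul]
      refine pow_le_pow_left₀ (by positivity) ?_ _
      rw [mul_pow]
      exact mul_le_mul_of_nonneg_left h3 (by positivity)
    have h6 : ((2 * 220 ^ (m + 1) : ℤ) ^ D) ^ n ≤ ((2 * 220 ^ (m + 1)) ^ D) ^ (n + 1) :=
      pow_le_pow_right₀ (one_le_pow₀ (by
        have : (1:ℤ) ≤ 220 ^ (m + 1) := one_le_pow₀ (by norm_num)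
        linarith)) (by omega)
    have h7 : (S : ℤ) ≤ (S + 1) ^ (n + 1) := by
      calc (S : ℤ) ≤ S + 1 := by omega
        _ ≤ (S + 1) ^ (n + 1) := le_self_pow₀ (by omega) (by omega)
    push_cast
    rw [mul_pow ((S : ℤ) + 1)]
    exact mul_le_mul h7 (h5.trans h6) (by positivity) (by positivity)
  · rw [aeval_transl hD a z _ (fun j : Fin m => ∑' i : ℕ, 1 / ((i : ℝ) + 1) ^ ((j : ℕ) + 2)), h0,
      mul_zero]
    intro j
    rw [hz j, RA.tail, ha]
    push_cast
    ring

end Pool.Agent.Lib.MP_524521_nt.PT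
end

section
/-!
# A relation between the Hurwitz zeta values at a rational point gives relations of exponential
height at all points of its class
-/
open Finset MvPolynomial

namespace Pool.Agent.Lib.MP_524521_nt.PT

/-- the Hurwitz zeta value at `x` and at `x + n` -/
theorem hzr_shift (k n : ℕ) (hk : 2 ≤ k) {x : ℝ} (hx : 0 < x) :
    RA.hzr k x = ∑ j ∈ range n, 1 / ((j : ℝ) + x) ^ k + RA.hzr k (x + n) := by
  have hs : Summable fun j : ℕ => 1 / ((j : ℝ) + x) ^ k := by
    have h1 : Summable fun j : ℕ => 1 / ((j : ℝ) + 1) ^ k := by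
      have h2 := (summable_nat_add_iff (f := fun j : ℕ => 1 / (j : ℝ) ^ k) 1).2
        (Real.summable_one_div_nat_pow.2 (by omega))
      simpa using h2
    obtain ⟨M, hM⟩ : ∃ M : ℝ, M = min x 1 := ⟨_, rfl⟩
    have hM0 : 0 < M := by rw [hM]; exact lt_min hx one_pos
    have hMx : M ≤ x := by rw [hM]; exact min_le_left _ _
    have hM1 : M ≤ 1 := by rw [hM]; exact min_le_right _ _
    refine Summable.of_nonneg_of_le (fun j => by positivity) (fun j => ?_) (h1.mul_left (1 / M ^ k))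
    rw [one_div_mul_one_div, ← mul_pow]
    apply one_div_le_one_div_of_le (by positivity)
    apply pow_le_pow_left₀ (by positivity)
    have h3 : M * (j : ℝ) ≤ 1 * j := mul_le_mul_of_nonneg_right hM1 (Nat.cast_nonneg j)
    linarith
  rw [RA.hzr, ← hs.sum_add_tsum_nat_add n, RA.hzr]
  congr 2
  funext j
  push_cast
  ring_nf

/-- a common denominator of `∑ j < n, 1 / (j + p / b)^k` -/
theorem harm_intR (p b n m : ℕ) (hp : 1 ≤ p) (hb : 1 ≤ b) (k : ℕ) (hkm : k ≤ m) :
    ∃ z : ℤ, (z : ℝ) = (Nat.lcmUpto (p + n * b) : ℝ) ^ m *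
        ∑ j ∈ range n, 1 / ((j : ℝ) + (p : ℝ) / b) ^ k ∧
      |z| ≤ n * ((b : ℤ) ^ m * (Nat.lcmUpto (p + n * b) : ℤ) ^ m) := by
  have hbr : (1 : ℝ) ≤ b := by exact_mod_cast hb
  have hpr : (1 : ℝ) ≤ p := by exact_mod_cast hp
  have h1 : ∀ j ∈ range n, ∃ c : ℤ, (c : ℝ) = (Nat.lcmUpto (p + n * b) : ℝ) ^ m *
      (1 / ((j : ℝ) + (p : ℝ) / b) ^ k) := by
    intro j hj
    obtain ⟨c, hc⟩ := dvd_lcmUpto_of_le (m := p + j * b) (a := p + n * b) (by omega) (by
      have h2 := Nat.mul_le_mul_right b (mem_range.1 hj).le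
      omega)
    refine ⟨(b : ℤ) ^ k * (c ^ k * (Nat.lcmUpto (p + n * b)) ^ (m - k)), ?_⟩
    have hj0 : ((p : ℝ) + j * b) ≠ 0 := by positivity
    have hc' : (Nat.lcmUpto (p + n * b) : ℝ) = ((p : ℝ) + j * b) * c := by exact_mod_cast hc
    have h2 : (Nat.lcmUpto (p + n * b) : ℝ) ^ m =
        (Nat.lcmUpto (p + n * b) : ℝ) ^ k * (Nat.lcmUpto (p + n * b) : ℝ) ^ (m - k) := by
      rw [← pow_add, Nat.add_sub_cancel' hkm]
    have h4 : (j : ℝ) + (p : ℝ) / b = (p + j * b) / b := by field_simp; ring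
    have h3 : (Nat.lcmUpto (p + n * b) : ℝ) ^ k * (1 / ((j : ℝ) + (p : ℝ) / b) ^ k) =
        (b : ℝ) ^ k * c ^ k := by
      rw [hc', mul_pow, h4, div_pow]
      field_simp
    push_cast
    rw [h2, ← mul_assoc, ← h3]
    ring
  choose! c hc using h1
  refine ⟨∑ j ∈ range n, c j, ?_, ?_⟩
  · push_cast
    rw [mul_sum]
    exact sum_congr rfl hc
  · have h2 : ∀ j ∈ range n, |c j| ≤ (b : ℤ) ^ m * (Nat.lcmUpto (p + n * b) : ℤ) ^ m := by
      intro j hj
      have h3 : |(c j : ℝ)| ≤ (b : ℝ) ^ m * (Nat.lcmUpto (p + n * b) : ℝ) ^ m := by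
        have h5 : 1 / (b : ℝ) ≤ (j : ℝ) + (p : ℝ) / b := by
          have h6 : 1 / (b : ℝ) ≤ p / b := div_le_div_of_nonneg_right hpr (by linarith)
          linarith [(Nat.cast_nonneg j : (0:ℝ) ≤ j)]
        have h4 : 1 / ((j : ℝ) + (p : ℝ) / b) ^ k ≤ (b : ℝ) ^ m := by
          calc 1 / ((j : ℝ) + (p : ℝ) / b) ^ k ≤ 1 / (1 / (b : ℝ)) ^ k :=
                one_div_le_one_div_of_le (by positivity) (pow_le_pow_left₀ (by positivity) h5 _)
            _ = (b : ℝ) ^ k := by rw [one_div_pow, one_div_one_div]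
            _ ≤ (b : ℝ) ^ m := pow_le_pow_right₀ hbr hkm
        rw [hc j hj, abs_of_nonneg (by positivity), mul_comm]
        exact mul_le_mul_of_nonneg_right h4 (by positivity)
      exact_mod_cast h3
    refine (abs_sum_le_sum_abs _ _).trans ((sum_le_sum h2).trans ?_)
    simp

/-- **A relation between the Hurwitz zeta values at a rational point gives relations of exponential
height at all points of its class.** -/
theorem sharpQ (m D : ℕ) (x₀ : ℚ) (hx : 0 < x₀) (P : MvPolynomial (Fin m) ℤ) (hP : P ≠ 0)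
    (hD : P.totalDegree ≤ D) (h0 : aeval (fun j : Fin m => RA.hzr (j + 2) x₀) P = 0) :
    ∃ C : ℕ, ∀ n : ℕ, ∃ Q : MvPolynomial (Fin m) ℤ, Q ≠ 0 ∧ Q.totalDegree ≤ D ∧
      (∀ e, |Q.coeff e| ≤ (C : ℤ) ^ (n + 1)) ∧
      aeval (fun j : Fin m => RA.hzr (j + 2) ((x₀ : ℝ) + n)) Q = 0 := by
  obtain ⟨b, hbdef⟩ : ∃ b : ℕ, b = x₀.den := ⟨_, rfl⟩
  obtain ⟨p, hpdef⟩ : ∃ p : ℕ, (p : ℤ) = x₀.num :=
    ⟨x₀.num.toNat, Int.toNat_of_nonneg (Rat.num_pos.2 hx).le⟩
  have hb : 1 ≤ b := by rw [hbdef]; exact x₀.den_pos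
  have hp : 1 ≤ p := by
    have := Rat.num_pos.2 hx
    omega
  have hx₀ : (x₀ : ℝ) = (p : ℝ) / b := by
    rw [Rat.cast_def, hbdef, ← hpdef]
    push_cast
    rfl
  have hxr : (0 : ℝ) < x₀ := by exact_mod_cast hx
  obtain ⟨S, hS⟩ : ∃ S : ℕ, (S : ℤ) = ∑ e ∈ P.support, |P.coeff e| :=
    ⟨(∑ e ∈ P.support, |P.coeff e|).toNat, Int.toNat_of_nonneg (sum_nonneg fun _ _ => abs_nonneg _)⟩
  refine ⟨(S + 1) * (2 * b ^ (m + 1) * 220 ^ ((p + b) * (m + 1))) ^ D, fun n => ?_⟩
  obtain ⟨L, hL⟩ : ∃ L : ℕ, L = Nat.lcmUpto (p + n * b) := ⟨_, rfl⟩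
  obtain ⟨a, ha⟩ : ∃ a : ℤ, a = (L : ℤ) ^ (m + 1) := ⟨_, rfl⟩
  have hL1 : 1 ≤ L := by rw [hL]; exact Nat.lcmUpto_pos _
  have ha1 : 1 ≤ a := by
    rw [ha]
    exact one_le_pow₀ (by exact_mod_cast hL1)
  choose z hz hzb using fun j : Fin m => harm_intR p b n (m + 1) hp hb (j + 2) (by omega)
  refine ⟨transl P D a z, transl_ne_zero hP hD (by omega) z, transl_deg hD a z, ?_, ?_⟩
  · intro e
    have hbm : (1 : ℤ) ≤ (b : ℤ) ^ (m + 1) := one_le_pow₀ (by exact_mod_cast hb)
    have h2n : ((n : ℤ) + 1) ≤ 2 ^ n := by exact_mod_cast (Nat.lt_two_pow_self (n := n))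
    obtain ⟨A, hAdef⟩ : ∃ A : ℤ, A = 2 ^ n * ((b : ℤ) ^ (m + 1) * a) := ⟨_, rfl⟩
    have haba : a ≤ (b : ℤ) ^ (m + 1) * a := le_mul_of_one_le_left (by omega) hbm
    have h21 : (1 : ℤ) ≤ 2 ^ n := one_le_pow₀ (by norm_num)
    have haA : a ≤ A := by
      rw [hAdef]
      exact haba.trans (le_mul_of_one_le_left (by omega) h21)
    have hA : ∀ j, |a| + |z j| ≤ A := by
      intro j
      have h1 := hzb j
      rw [← hL, ← ha] at h1
      rw [abs_of_nonneg (by omega), hAdef]
      calc a + |z j| ≤ (b : ℤ) ^ (m + 1) * a + n * ((b : ℤ) ^ (m + 1) * a) := add_le_add haba h1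
        _ = ((n : ℤ) + 1) * ((b : ℤ) ^ (m + 1) * a) := by ring
        _ ≤ _ := mul_le_mul_of_nonneg_right h2n (by omega)
    have h1 := transl_bd hD (by omega : 0 ≤ a) (A := A) (by omega) z hA haA e
    refine h1.trans ?_
    rw [← hS]
    have h3 : a ≤ (220 ^ ((p + b) * (m + 1))) ^ (n + 1) := by
      have h4 : (L : ℤ) ≤ 220 ^ (p + n * b) := by
        rw [hL]
        exact_mod_cast lcmUpto_le (p + n * b)
      rw [ha]
      calc (L : ℤ) ^ (m + 1) ≤ (220 ^ (p + n * b)) ^ (m + 1) :=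
            pow_le_pow_left₀ (by positivity) h4 _
        _ = 220 ^ ((p + n * b) * (m + 1)) := by rw [← pow_mul]
        _ ≤ 220 ^ ((p + b) * (m + 1) * (n + 1)) := by
            apply pow_le_pow_right₀ (by norm_num)
            have h5 : p + n * b ≤ (p + b) * (n + 1) := by nlinarith
            calc (p + n * b) * (m + 1) ≤ ((p + b) * (n + 1)) * (m + 1) :=
                  Nat.mul_le_mul_right _ h5
              _ = _ := by ring
        _ = _ := by rw [← pow_mul]
    have h5 : A ≤ (2 * (b : ℤ) ^ (m + 1) * 220 ^ ((p + b) * (m + 1))) ^ (n + 1) := by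
      rw [hAdef, mul_pow, mul_pow, mul_assoc]
      apply mul_le_mul (pow_le_pow_right₀ (by norm_num) (by omega)) _ (by positivity)
        (by positivity)
      apply mul_le_mul _ h3 (by omega) (by positivity)
      exact le_self_pow₀ hbm (by omega)
    have h7 : (S : ℤ) ≤ (S + 1) ^ (n + 1) := by
      calc (S : ℤ) ≤ S + 1 := by omega
        _ ≤ (S + 1) ^ (n + 1) := le_self_pow₀ (by omega) (by omega)
    push_cast
    rw [mul_pow ((S : ℤ) + 1)]
    apply mul_le_mul h7 _ (by apply pow_nonneg; omega) (by positivity)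
    rw [← pow_mul, mul_comm D (n + 1), pow_mul]
    exact pow_le_pow_left₀ (by omega) h5 _
  · rw [aeval_transl hD a z _ (fun j : Fin m => RA.hzr (j + 2) x₀), h0, mul_zero]
    intro j
    rw [hz j, hzr_shift (j + 2) n (by omega) hxr, ha, hL, hx₀]
    push_cast
    ring

end Pool.Agent.Lib.MP_524521_nt.PT
end
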