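import Mathlib
import Pool.Agent.Lib.MP_524521_nt.PT.Expn

/-!
# Transfer of a linear relation between the nested sums from `n` to `n + J`
-/

open Finset

namespace Pool.Agent.Lib.MP_524521_nt.PT

namespace Tr

/-- coefficients of the expansion of `y w n` in the `y v (n + J)` -/
def A : List ℕ → List ℕ → ℕ → ℕ → ℚ
  | [], v, _, _ => if v = [] then 1 else 0
  | (s :: w), v, n, J =>
      (if v = s :: w then 1 else 0) + ∑ j ∈ Finset.range J, 1 / ((n + j : ℕ) : ℚ) ^ s * A w v (n + j) (J - j)

theorem A_of_length_le (w : List ℕ) : ∀ (v : List ℕ) (n J : ℕ), w.length ≤ v.length →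
    A w v n J = if v = w then 1 else 0 := by
  induction w with
  | nil => intro v n J _; rfl
  | cons s w ih =>
    intro v n J h
    rw [A]
    have h0 : ∑ j ∈ Finset.range J, 1 / ((n + j : ℕ) : ℚ) ^ s * A w v (n + j) (J - j) = 0 := by
      apply Finset.sum_eq_zero
      intro j _
      have h1 : w.length ≤ v.length := by
        simp only [List.length_cons] at h
        omega
      have h2 : v ≠ w := by
        rintro rfl
        simp only [List.length_cons] at h
        omega
      rw [ih v (n + j) (J - j) h1, if_neg h2, mul_zero]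
    rw [h0, add_zero]

theorem A_nonneg (w : List ℕ) : ∀ (v : List ℕ) (n J : ℕ), 0 ≤ A w v n J := by
  induction w with
  | nil => intro v n J; rw [A]; split_ifs <;> norm_num
  | cons s w ih =>
    intro v n J
    rw [A]
    apply add_nonneg
    · split_ifs <;> norm_num
    · apply Finset.sum_nonneg
      intro j _
      exact mul_nonneg (by positivity) (ih _ _ _)

theorem A_le (w : List ℕ) : ∀ (v : List ℕ) (n J : ℕ), 1 ≤ n →
    A w v n J ≤ ((J : ℚ) + 1) ^ w.length := by
  induction w with
  | nil => intro v n J _; rw [A]; split_ifs <;> norm_num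
  | cons s w ih =>
    intro v n J hn
    rw [A, List.length_cons]
    have h1 : (if v = s :: w then (1 : ℚ) else 0) ≤ 1 := by split_ifs <;> norm_num
    have h2 : ∑ j ∈ Finset.range J, 1 / ((n + j : ℕ) : ℚ) ^ s * A w v (n + j) (J - j)
        ≤ ∑ j ∈ Finset.range J, ((J : ℚ) + 1) ^ w.length := by
      apply Finset.sum_le_sum
      intro j hj
      have hj' : j < J := Finset.mem_range.1 hj
      have h3 : 1 / ((n + j : ℕ) : ℚ) ^ s ≤ 1 := by
        rw [div_le_one (by have : 0 < n + j := by omega
                           positivity)]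
        apply one_le_pow₀
        have : 1 ≤ n + j := by omega
        exact_mod_cast this
      have h4 : A w v (n + j) (J - j) ≤ (((J - j : ℕ) : ℚ) + 1) ^ w.length :=
        ih v (n + j) (J - j) (by omega)
      have h5 : (((J - j : ℕ) : ℚ) + 1) ^ w.length ≤ ((J : ℚ) + 1) ^ w.length := by
        apply pow_le_pow_left₀ (by positivity)
        have : ((J - j : ℕ) : ℚ) ≤ (J : ℚ) := by
          have : J - j ≤ J := by omega
          exact_mod_cast this
        linarith
      calc 1 / ((n + j : ℕ) : ℚ) ^ s * A w v (n + j) (J - j)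
          ≤ 1 * A w v (n + j) (J - j) :=
            mul_le_mul_of_nonneg_right h3 (A_nonneg _ _ _ _)
        _ ≤ ((J : ℚ) + 1) ^ w.length := by rw [one_mul]; exact h4.trans h5
    rw [Finset.sum_const, Finset.card_range, nsmul_eq_mul] at h2
    have h6 : (1 : ℚ) ≤ ((J : ℚ) + 1) ^ w.length := by
      apply one_le_pow₀
      have : (0 : ℚ) ≤ (J : ℚ) := by positivity
      linarith
    rw [pow_succ]
    nlinarith

theorem A_int (w : List ℕ) : ∀ (v : List ℕ) (n J d : ℕ), 1 ≤ n → (∀ j < J, (n + j) ∣ d) →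
    ∃ z : ℤ, (d : ℚ) ^ w.sum * A w v n J = z := by
  induction w with
  | nil =>
    intro v n J d _ _
    rw [A]
    split_ifs
    · exact ⟨1, by simp⟩
    · exact ⟨0, by simp⟩
  | cons s w ih =>
    intro v n J d hn hd
    rw [A, List.sum_cons, mul_add, Finset.mul_sum]
    have h1 : ∀ j ∈ Finset.range J, ∃ z : ℤ,
        (d : ℚ) ^ (s + w.sum) * (1 / ((n + j : ℕ) : ℚ) ^ s * A w v (n + j) (J - j)) = z := by
      intro j hj
      have hj' : j < J := Finset.mem_range.1 hj
      obtain ⟨z, hz⟩ := ih v (n + j) (J - j) d (by omega) (by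
        intro i hi
        have := hd (j + i) (by omega)
        rwa [← Nat.add_assoc] at this)
      obtain ⟨t, ht⟩ := hd j hj'
      have hne : ((n + j : ℕ) : ℚ) ≠ 0 := by
        have : n + j ≠ 0 := by omega
        exact_mod_cast this
      refine ⟨(t : ℤ) ^ s * z, ?_⟩
      have h2 : (d : ℚ) ^ s * (1 / ((n + j : ℕ) : ℚ) ^ s) = (t : ℚ) ^ s := by
        rw [ht]
        push_cast
        rw [mul_pow]
        have hne' : ((n : ℚ) + (j : ℚ)) ^ s ≠ 0 := by
          apply pow_ne_zero
          exact_mod_cast hne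
        field_simp
      rw [pow_add]
      push_cast
      rw [← hz, ← h2]
      push_cast
      ring
    choose! f hf using h1
    refine ⟨(if v = s :: w then (d : ℤ) ^ (s + w.sum) else 0) + ∑ j ∈ Finset.range J, f j, ?_⟩
    rw [Finset.sum_congr rfl hf]
    push_cast
    congr 1
    split_ifs <;> simp

end Tr

theorem Tr.expand (W : Finset (List ℕ)) (hW : Closed W) :
    ∀ (w : List ℕ), w ∈ W → ∀ (n J : ℕ), 1 ≤ n →
      y w (n : ℝ) = ∑ v ∈ W, ((Tr.A w v n J : ℚ) : ℝ) * y v ((n : ℝ) + J) := by
  intro w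
  induction w with
  | nil =>
    intro hw n J hn
    rw [Finset.sum_eq_single ([] : List ℕ)]
    · simp [Tr.A, y]
    · intro v _ hv
      simp [Tr.A, hv]
    · intro h
      exact absurd hw h
  | cons s w ih =>
    intro hw n J hn
    have hw' : w ∈ W := hW.tail_mem s w hw
    have htwo : ∀ t ∈ s :: w, 2 ≤ t := hW.two_le _ hw
    -- telescoping
    have htel : ∀ K : ℕ, y (s :: w) (n : ℝ) = y (s :: w) ((n : ℝ) + K)
        + ∑ j ∈ Finset.range K, 1 / ((n : ℝ) + j) ^ s * y w ((n : ℝ) + j) := by
      intro K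
      induction K with
      | zero => simp
      | succ K ihK =>
        rw [Finset.sum_range_succ, ihK]
        have hK := y_succ (s := s) (w := w) (htwo s (by simp))
          (fun t ht => htwo t (by simp [ht])) (x := (n : ℝ) + K) (by
          have : (1 : ℝ) ≤ (n : ℝ) := by exact_mod_cast hn
          have : (0 : ℝ) ≤ (K : ℝ) := by positivity
          linarith)
        push_cast
        rw [← add_assoc (n : ℝ) (K : ℝ) 1]
        linarith
    rw [htel J]
    have h1 : ∑ j ∈ Finset.range J, 1 / ((n : ℝ) + j) ^ s * y w ((n : ℝ) + j)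
        = ∑ j ∈ Finset.range J, 1 / ((n : ℝ) + j) ^ s *
            ∑ v ∈ W, ((Tr.A w v (n + j) (J - j) : ℚ) : ℝ) * y v ((n : ℝ) + J) := by
      apply Finset.sum_congr rfl
      intro j hj
      have hj' : j < J := Finset.mem_range.1 hj
      have h2 := ih hw' (n + j) (J - j) (by omega)
      have h3 : (((n + j : ℕ) : ℝ) + ((J - j : ℕ) : ℝ)) = (n : ℝ) + J := by
        rw [Nat.cast_sub hj'.le]
        push_cast
        ring
      rw [h3] at h2
      rw [← h2]
      push_cast
      rfl
    rw [h1]
    have h4 : ∀ v ∈ W, ((Tr.A (s :: w) v n J : ℚ) : ℝ) * y v ((n : ℝ) + J)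
        = (if v = s :: w then 1 else 0) * y v ((n : ℝ) + J)
          + ∑ j ∈ Finset.range J, 1 / ((n : ℝ) + j) ^ s *
            (((Tr.A w v (n + j) (J - j) : ℚ) : ℝ) * y v ((n : ℝ) + J)) := by
      intro v _
      rw [Tr.A]
      push_cast
      rw [add_mul, Finset.sum_mul]
      congr 1
      · split_ifs <;> simp
      · apply Finset.sum_congr rfl
        intro j _
        ring
    rw [Finset.sum_congr rfl h4, Finset.sum_add_distrib]
    congr 1
    · rw [Finset.sum_eq_single (s :: w)]
      · simp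
      · intro v _ hv
        simp [hv]
      · intro h
        exact absurd hw h
    · rw [Finset.sum_comm]
      apply Finset.sum_congr rfl
      intro j _
      rw [Finset.mul_sum]

theorem transfer (W : Finset (List ℕ)) (hW : Closed W) (k : ℕ)
    (hk : ∀ w ∈ W, w.sum ≤ k) (n J d H : ℕ) (hn : 1 ≤ n) (hd : ∀ j < J, (n + j) ∣ d) (hd1 : 1 ≤ d)
    (c : List ℕ → ℤ) (hc : ∀ w, w ∉ W → c w = 0) (hne : ∃ w, c w ≠ 0) (hH : ∀ w, |c w| ≤ H) :
    ∃ c' : List ℕ → ℤ, (∀ w, w ∉ W → c' w = 0) ∧ (∃ w, c' w ≠ 0) ∧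
      (∀ w, |c' w| ≤ d ^ k * #W * H * (J + 1) ^ k) ∧
      ∑ w ∈ W, (c' w : ℝ) * y w ((n : ℝ) + J) = d ^ k * ∑ w ∈ W, (c w : ℝ) * y w n := by
  classical
  have hint : ∀ w ∈ W, ∀ v : List ℕ, ∃ z : ℤ, (d : ℚ) ^ k * Tr.A w v n J = z := by
    intro w hw v
    obtain ⟨z, hz⟩ := Tr.A_int w v n J d hn hd
    refine ⟨(d : ℤ) ^ (k - w.sum) * z, ?_⟩
    have h1 : k = (k - w.sum) + w.sum := by
      have := hk w hw
      omega
    push_cast
    rw [← hz, ← mul_assoc, ← pow_add, ← h1]
  choose! f hf using hint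
  have hlen : ∀ w ∈ W, w.length ≤ k := by
    intro w hw
    have h1 : w.length ≤ w.sum := by
      have h2 : ∀ t ∈ w, 1 ≤ t := fun t ht => le_trans (by norm_num) (hW.two_le w hw t ht)
      have := List.card_nsmul_le_sum w 1 h2
      simpa using this
    exact h1.trans (hk w hw)
  refine ⟨fun v => if v ∈ W then ∑ w ∈ W, c w * f w v else 0, ?_, ?_, ?_, ?_⟩
  · intro v hv
    simp [hv]
  · -- nonzero
    obtain ⟨u, hu⟩ := hne
    have huW : u ∈ W := by
      by_contra h
      exact hu (hc u h)
    obtain ⟨v0, hv0, hmax⟩ := Finset.exists_max_image (W.filter fun w => c w ≠ 0)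
      (fun w => w.length) ⟨u, Finset.mem_filter.2 ⟨huW, hu⟩⟩
    rw [Finset.mem_filter] at hv0
    refine ⟨v0, ?_⟩
    simp only [hv0.1, if_true]
    have h1 : ∑ w ∈ W, c w * f w v0 = c v0 * (d : ℤ) ^ k := by
      rw [Finset.sum_eq_single v0]
      · congr 1
        have h2 := hf v0 hv0.1 v0
        rw [Tr.A_of_length_le v0 v0 n J le_rfl, if_pos rfl, mul_one] at h2
        exact_mod_cast h2.symm
      · intro w hw hwv
        by_cases h3 : c w = 0
        · simp [h3]
        · have h4 : w.length ≤ v0.length := hmax w (Finset.mem_filter.2 ⟨hw, h3⟩)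
          have h5 := hf w hw v0
          rw [Tr.A_of_length_le w v0 n J h4, if_neg (Ne.symm hwv), mul_zero] at h5
          have h6 : f w v0 = 0 := by exact_mod_cast h5.symm
          rw [h6, mul_zero]
      · intro h
        exact absurd hv0.1 h
    rw [h1]
    apply mul_ne_zero hv0.2
    apply pow_ne_zero
    have : d ≠ 0 := by omega
    exact_mod_cast this
  · intro v
    by_cases hv : v ∈ W
    · simp only [hv, if_true]
      have h1 : ∀ w ∈ W, |c w * f w v| ≤ (H : ℤ) * ((d : ℤ) ^ k * ((J : ℤ) + 1) ^ k) := by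
        intro w hw
        rw [abs_mul]
        apply mul_le_mul (hH w) _ (abs_nonneg _) (by positivity)
        have h2 := hf w hw v
        have h3 : ((|f w v| : ℤ) : ℚ) ≤ (d : ℚ) ^ k * ((J : ℚ) + 1) ^ k := by
          rw [Int.cast_abs, ← h2, abs_of_nonneg (mul_nonneg (by positivity) (Tr.A_nonneg _ _ _ _))]
          apply mul_le_mul_of_nonneg_left _ (by positivity)
          refine (Tr.A_le w v n J hn).trans ?_
          apply pow_le_pow_right₀ _ (hlen w hw)
          have : (0 : ℚ) ≤ (J : ℚ) := by positivity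
          linarith
        exact_mod_cast h3
      refine (Finset.abs_sum_le_sum_abs _ _).trans ((Finset.sum_le_sum h1).trans ?_)
      rw [Finset.sum_const, nsmul_eq_mul]
      apply le_of_eq
      ring
    · simp only [hv, if_false, abs_zero]
      positivity
  · have h1 : ∀ v ∈ W, (((if v ∈ W then ∑ w ∈ W, c w * f w v else 0 : ℤ)) : ℝ)
        * y v ((n : ℝ) + J)
        = ∑ w ∈ W, (d : ℝ) ^ k * ((c w : ℝ) * (((Tr.A w v n J : ℚ) : ℝ) * y v ((n : ℝ) + J))) := by
      intro v hv
      rw [if_pos hv]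
      push_cast
      rw [Finset.sum_mul]
      apply Finset.sum_congr rfl
      intro w hw
      have h2 : ((f w v : ℤ) : ℝ) = (d : ℝ) ^ k * ((Tr.A w v n J : ℚ) : ℝ) := by
        have h3 := congrArg (fun q : ℚ => (q : ℝ)) (hf w hw v)
        push_cast at h3
        exact h3.symm
      rw [h2]
      ring
    rw [Finset.sum_congr rfl h1, Finset.sum_comm, Finset.mul_sum]
    apply Finset.sum_congr rfl
    intro w hw
    rw [← Finset.mul_sum, ← Finset.mul_sum, ← Tr.expand W hW w hw n J hn]

end Pool.Agent.Lib.MP_524521_nt.PT
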