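import Mathlib
import Pool.Agent.Lib.MP_524521_nt.PT.EndA
import Pool.Agent.Lib.MP_524521_nt.PT.Rank
import Pool.Agent.Lib.MP_524521_nt.PT.Trans
import Pool.Agent.Lib.MP_524521_nt.PT.SharpQ

section
/-!
# Sizes: the numerical inequality
-/
namespace Pool.Agent.Lib.MP_524521_nt.PT

theorem sizes (l k E1 E2 E3 G1 G3 g1 g2 F : ℕ) : ∃ C : ℕ, 1 ≤ C ∧ ∀ (N Nq : ℕ) (n μ H : ℝ),
    2 * (k + 1) * Nq ≤ N → (C : ℝ) ≤ μ → μ ≤ n → 0 ≤ H →
    (C : ℝ) * n ^ C * H ≤ μ ^ ((N : ℝ) / 4) →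
    (F : ℝ) * (((l : ℝ) + 2) * (G1 * n ^ g1 * E1 ^ N * μ ^ N) ^ l *
      ((E2 ^ N * μ ^ (k * Nq) * n ^ g2) * ((l : ℝ) + 2) * H * n ^ k) *
      (G3 * n ^ g1 * E3 ^ N / μ ^ ((l + 1) * N - Nq))) ≤ 1 / 2 ∧
    2 * (F : ℝ) * (G1 * n ^ g1 * E1 ^ N * μ ^ N) ^ (l + 1) *
      (E2 ^ N * μ ^ (k * Nq) * n ^ g2) ≤ n ^ C * μ ^ (C * N) := by
  set G : ℕ := F * (l + 2) * G1 ^ l * (l + 2) * G3 with hG
  set g : ℕ := g1 * l + g2 + k + g1 with hg
  set E : ℕ := E1 ^ l * E2 * E3 with hE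
  set G' : ℕ := 2 * F * G1 ^ (l + 1) with hG'
  set g' : ℕ := 1 + g1 * (l + 1) + g2 with hg'
  set E' : ℕ := E1 ^ (l + 1) * E2 with hE'
  refine ⟨E ^ 4 + 2 * G + g + G' + g' + E' + (l + 2 + k) + 1, by omega, ?_⟩
  set C : ℕ := E ^ 4 + 2 * G + g + G' + g' + E' + (l + 2 + k) + 1 with hC
  intro N Nq n μ H hq hCμ hμn hH hcond
  have hC1 : (1 : ℝ) ≤ C := by exact_mod_cast (by omega : 1 ≤ C)
  have hμ1 : 1 ≤ μ := hC1.trans hCμ
  have hμ0 : 0 < μ := by linarith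
  have hn1 : 1 ≤ n := hμ1.trans hμn
  have hn0 : 0 < n := by linarith
  have hqN : Nq ≤ N := by nlinarith
  set u : ℝ := μ ^ ((1 : ℝ) / 4) with hu
  have hu0 : 0 < u := Real.rpow_pos_of_pos hμ0 _
  have hu4 : u ^ 4 = μ := by
    rw [hu, ← Real.rpow_natCast, ← Real.rpow_mul hμ0.le]
    norm_num
  have hu1 : 1 ≤ u := Real.one_le_rpow hμ1 (by norm_num)
  have huN : μ ^ ((N : ℝ) / 4) = u ^ N := by
    rw [hu, ← Real.rpow_natCast, ← Real.rpow_mul hμ0.le]
    congr 1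
    ring
  have hEu : (E : ℝ) ≤ u := by
    refine le_of_pow_le_pow_left₀ (n := 4) (by norm_num) hu0.le ?_
    rw [hu4]
    refine le_trans ?_ hCμ
    exact_mod_cast (by omega : E ^ 4 ≤ C)
  have hE'μ : (E' : ℝ) ≤ μ := le_trans (by exact_mod_cast (by omega : E' ≤ C)) hCμ
  have hG'n : (G' : ℝ) ≤ n := (le_trans (by exact_mod_cast (by omega : G' ≤ C)) hCμ).trans hμn
  constructor
  · obtain ⟨t, ht⟩ : ∃ t, (l + 1) * N = Nq + t := ⟨(l + 1) * N - Nq, by
      have : N ≤ (l + 1) * N := Nat.le_mul_of_pos_left N (by omega)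
      omega⟩
    have ht' : (l + 1) * N - Nq = t := by omega
    rw [ht']
    have e1 : t + (k + 1) * Nq = N * l + k * Nq + N := by
      have e1 : (l + 1) * N = N * l + N := by ring
      have e2 : (k + 1) * Nq = k * Nq + Nq := by ring
      omega
    have e2 : (F : ℝ) * (((l : ℝ) + 2) * (G1 * n ^ g1 * E1 ^ N * μ ^ N) ^ l *
        ((E2 ^ N * μ ^ (k * Nq) * n ^ g2) * ((l : ℝ) + 2) * H * n ^ k) *
        (G3 * n ^ g1 * E3 ^ N / μ ^ t)) =
        (G : ℝ) * n ^ g * H * ((E : ℝ) ^ N * (μ ^ (N * l + k * Nq) / μ ^ t)) := by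
      rw [hG, hg, hE]
      push_cast
      ring
    have e3 : μ ^ (N * l + k * Nq) / μ ^ t = μ ^ ((k + 1) * Nq) / μ ^ N := by
      rw [div_eq_div_iff (by positivity) (by positivity), ← pow_add, ← pow_add, ← e1]
      congr 1
      ring
    have e4 : (E : ℝ) ^ N * (μ ^ ((k + 1) * Nq) / μ ^ N) ≤ 1 / u ^ N := by
      have a1 : (E : ℝ) ^ N ≤ u ^ N := pow_le_pow_left₀ (by positivity) hEu N
      have a2 : μ ^ ((k + 1) * Nq) ≤ u ^ (2 * N) := by
        rw [← hu4, ← pow_mul]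
        refine pow_le_pow_right₀ hu1 ?_
        nlinarith
      have a3 : μ ^ N = u ^ (4 * N) := by rw [← hu4, ← pow_mul]
      rw [a3]
      calc (E : ℝ) ^ N * (μ ^ ((k + 1) * Nq) / u ^ (4 * N)) ≤ u ^ N * (u ^ (2 * N) / u ^ (4 * N)) := by
            gcongr
        _ = 1 / u ^ N := by
            rw [← mul_div_assoc, ← pow_add, div_eq_div_iff (by positivity) (by positivity), one_mul,
              ← pow_add]
            congr 1
            ring
    rw [e2, e3]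
    calc (G : ℝ) * n ^ g * H * ((E : ℝ) ^ N * (μ ^ ((k + 1) * Nq) / μ ^ N))
        ≤ (G : ℝ) * n ^ g * H * (1 / u ^ N) := mul_le_mul_of_nonneg_left e4 (by positivity)
      _ = (G : ℝ) * n ^ g * H / u ^ N := by ring
      _ ≤ 1 / 2 := by
          rw [div_le_div_iff₀ (by positivity) (by norm_num), ← huN]
          refine le_trans ?_ (by simpa using hcond)
          have b1 : (2 * G : ℝ) ≤ C := by exact_mod_cast (by omega : 2 * G ≤ C)
          have b2 : n ^ g ≤ n ^ C := pow_le_pow_right₀ hn1 (by omega)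
          calc (G : ℝ) * n ^ g * H * 2 = 2 * G * n ^ g * H := by ring
            _ ≤ C * n ^ C * H := by gcongr
  · have e2 : 2 * (F : ℝ) * (G1 * n ^ g1 * E1 ^ N * μ ^ N) ^ (l + 1) *
        (E2 ^ N * μ ^ (k * Nq) * n ^ g2) =
        (G' : ℝ) * n ^ (g1 * (l + 1) + g2) * (E' : ℝ) ^ N * μ ^ (N * (l + 1) + k * Nq) := by
      rw [hG', hE']
      push_cast
      ring
    rw [e2]
    calc (G' : ℝ) * n ^ (g1 * (l + 1) + g2) * (E' : ℝ) ^ N * μ ^ (N * (l + 1) + k * Nq)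
        ≤ n * n ^ (g1 * (l + 1) + g2) * μ ^ N * μ ^ (N * (l + 1) + k * N) := by
          have : μ ^ (N * (l + 1) + k * Nq) ≤ μ ^ (N * (l + 1) + k * N) :=
            pow_le_pow_right₀ hμ1 (by gcongr)
          gcongr
      _ = n ^ g' * μ ^ ((l + 2 + k) * N) := by
          rw [hg']
          ring
      _ ≤ n ^ C * μ ^ (C * N) := by
          have b1 : n ^ g' ≤ n ^ C := pow_le_pow_right₀ hn1 (by omega)
          have b2 : μ ^ ((l + 2 + k) * N) ≤ μ ^ (C * N) :=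
            pow_le_pow_right₀ hμ1 (Nat.mul_le_mul_right N (by omega))
          gcongr

end Pool.Agent.Lib.MP_524521_nt.PT
end

section
/-!
# A linear algebra estimate

If `V` is a nonsingular integer matrix with small values `V y`, then `c y` cannot be small for a
nonzero integer vector `c`.
-/
namespace Pool.Agent.Lib.MP_524521_nt.PT

open Matrix Equiv Finset

theorem exists_updateRow_det_ne_zero {L : ℕ} (V : Matrix (Fin L) (Fin L) ℤ) (hV : V.det ≠ 0)
    (c : Fin L → ℤ) (hc : c ≠ 0) : ∃ i, (V.updateRow i c).det ≠ 0 := by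
  by_contra hcon
  push Not at hcon
  apply hc
  have h0 : Matrix.cramer Vᵀ c = 0 := by
    funext i
    rw [Matrix.cramer_transpose_apply, hcon i]
    rfl
  have h1 := Matrix.mulVec_cramer Vᵀ c
  rw [h0, Matrix.mulVec_zero, Matrix.det_transpose] at h1
  have h2 : V.det • c = 0 := h1.symm
  rcases smul_eq_zero.1 h2 with h | h
  · exact absurd h hV
  · exact h

/-- a product over a permutation with one small row -/
theorem prod_le_of_rows {L : ℕ} (a : Fin L → Fin L → ℝ) (ha : ∀ i j, 0 ≤ a i j) (o i0 : Fin L)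
    (Q H S T : ℝ) (hQ : 1 ≤ Q) (hH : 0 ≤ H) (hS : 0 ≤ S) (hT : 0 ≤ T)
    (hrow : ∀ i, i ≠ i0 → ∀ j, j ≠ o → a i j ≤ Q)
    (hrow0 : ∀ j, j ≠ o → a i0 j ≤ H)
    (hcol : ∀ i, i ≠ i0 → a i o ≤ S) (hcol0 : a i0 o ≤ T) (σ : Perm (Fin L)) :
    ∏ j, a (σ j) j ≤ Q ^ (L - 1) * T + Q ^ (L - 2) * H * S := by
  have hQ0 : (0 : ℝ) ≤ Q := le_trans zero_le_one hQ
  rw [← Finset.mul_prod_erase Finset.univ (fun j => a (σ j) j) (Finset.mem_univ o)]
  by_cases h : σ o = i0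
  · have h1 : ∏ j ∈ Finset.univ.erase o, a (σ j) j ≤ ∏ j ∈ Finset.univ.erase o, Q := by
      apply Finset.prod_le_prod
      · intro j _
        exact ha _ _
      · intro j hj
        have hjo : j ≠ o := Finset.ne_of_mem_erase hj
        apply hrow _ _ _ hjo
        intro h2
        apply hjo
        apply σ.injective
        rw [h2, h]
    have h2 : ∏ j ∈ Finset.univ.erase o, Q = Q ^ (L - 1) := by
      rw [Finset.prod_const, Finset.card_erase_of_mem (Finset.mem_univ o), Finset.card_univ,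
        Fintype.card_fin]
    have h3 : a (σ o) o ≤ T := by rw [h]; exact hcol0
    have h4 : 0 ≤ ∏ j ∈ Finset.univ.erase o, a (σ j) j := Finset.prod_nonneg fun j _ => ha _ _
    have h5 : 0 ≤ Q ^ (L - 2) * H * S := by positivity
    calc a (σ o) o * ∏ j ∈ Finset.univ.erase o, a (σ j) j
        ≤ T * Q ^ (L - 1) := by
          rw [h2] at h1
          exact mul_le_mul h3 h1 h4 hT
      _ ≤ Q ^ (L - 1) * T + Q ^ (L - 2) * H * S := by linarith [mul_comm T (Q ^ (L - 1))]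
  · set j0 := σ.symm i0 with hj0
    have hσj0 : σ j0 = i0 := by rw [hj0]; simp
    have hj0o : j0 ≠ o := by
      intro h2
      apply h
      rw [← h2, hσj0]
    have hmem : j0 ∈ Finset.univ.erase o := Finset.mem_erase.2 ⟨hj0o, Finset.mem_univ _⟩
    rw [← Finset.mul_prod_erase (Finset.univ.erase o) (fun j => a (σ j) j) hmem]
    have h1 : ∏ j ∈ (Finset.univ.erase o).erase j0, a (σ j) j
        ≤ ∏ j ∈ (Finset.univ.erase o).erase j0, Q := by
      apply Finset.prod_le_prod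
      · intro j _
        exact ha _ _
      · intro j hj
        have hj1 : j ≠ j0 := Finset.ne_of_mem_erase hj
        have hj2 : j ≠ o := Finset.ne_of_mem_erase (Finset.mem_of_mem_erase hj)
        apply hrow _ _ _ hj2
        intro h2
        apply hj1
        apply σ.injective
        rw [h2, hσj0]
    have h2 : ∏ j ∈ (Finset.univ.erase o).erase j0, Q = Q ^ (L - 2) := by
      rw [Finset.prod_const, Finset.card_erase_of_mem hmem,
        Finset.card_erase_of_mem (Finset.mem_univ o), Finset.card_univ, Fintype.card_fin,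
        Nat.sub_sub]
    have h3 : a (σ o) o ≤ S := hcol _ h
    have h4 : a (σ j0) j0 ≤ H := by rw [hσj0]; exact hrow0 _ hj0o
    have h5 : 0 ≤ ∏ j ∈ (Finset.univ.erase o).erase j0, a (σ j) j :=
      Finset.prod_nonneg fun j _ => ha _ _
    have h6 : 0 ≤ Q ^ (L - 1) * T := by positivity
    rw [h2] at h1
    have h7 : a (σ j0) j0 * ∏ j ∈ (Finset.univ.erase o).erase j0, a (σ j) j ≤ H * Q ^ (L - 2) :=
      mul_le_mul h4 h1 h5 hH
    calc a (σ o) o * (a (σ j0) j0 * ∏ j ∈ (Finset.univ.erase o).erase j0, a (σ j) j)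
        ≤ S * (H * Q ^ (L - 2)) := by
          apply mul_le_mul h3 h7 _ hS
          exact mul_nonneg (ha _ _) h5
      _ ≤ Q ^ (L - 1) * T + Q ^ (L - 2) * H * S := by
          have : S * (H * Q ^ (L - 2)) = Q ^ (L - 2) * H * S := by ring
          linarith

theorem la {L : ℕ} (V : Matrix (Fin L) (Fin L) ℤ) (hV : V.det ≠ 0) (o : Fin L) (y : Fin L → ℝ)
    (ho : y o = 1) (Q S H : ℝ) (hQ : 1 ≤ Q) (hS : 0 ≤ S)
    (h1 : ∀ i j, |(V i j : ℝ)| ≤ Q) (h2 : ∀ i, |∑ j, (V i j : ℝ) * y j| ≤ S)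
    (c : Fin L → ℤ) (hc : c ≠ 0) (h3 : ∀ j, |(c j : ℝ)| ≤ H) :
    1 ≤ (L.factorial : ℝ) * (Q ^ (L - 1) * |∑ j, (c j : ℝ) * y j|
      + (L : ℝ) * Q ^ (L - 2) * H * S) := by
  obtain ⟨i0, hi0⟩ := exists_updateRow_det_ne_zero V hV c hc
  set V' : Matrix (Fin L) (Fin L) ℤ := V.updateRow i0 c with hV'
  have hL : 1 ≤ L := by
    have := o.2
    omega
  have hH : 0 ≤ H := le_trans (abs_nonneg _) (h3 o)
  have hQ0 : (0 : ℝ) ≤ Q := le_trans zero_le_one hQ
  -- real version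
  set U : Matrix (Fin L) (Fin L) ℝ := V'.map (fun z : ℤ => (z : ℝ)) with hU
  have hUdet : U.det = ((V'.det : ℤ) : ℝ) := by
    have := (Int.castRingHom ℝ).map_det V'
    rw [hU]
    exact this.symm
  have habs : 1 ≤ |U.det| := by
    rw [hUdet]
    have : 1 ≤ |V'.det| := Int.one_le_abs hi0
    exact_mod_cast this
  set z : Fin L → ℝ := U *ᵥ y with hz
  have hcr : (U.updateCol o z).det = U.det := by
    have e1 : Matrix.cramer U z = U.det • y := by
      rw [Matrix.cramer_eq_adjugate_mulVec, hz, Matrix.mulVec_mulVec, Matrix.adjugate_mul,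
        Matrix.smul_mulVec, Matrix.one_mulVec]
    have e2 := congrFun e1 o
    rw [Matrix.cramer_apply] at e2
    rw [e2, Pi.smul_apply, ho, smul_eq_mul, mul_one]
  have hzi0 : z i0 = ∑ j, (c j : ℝ) * y j := by
    rw [hz]
    simp only [Matrix.mulVec, dotProduct]
    apply Finset.sum_congr rfl
    intro j _
    simp [hU, hV', Matrix.updateRow_self]
  have hzi : ∀ i, i ≠ i0 → |z i| ≤ S := by
    intro i hi
    have : z i = ∑ j, (V i j : ℝ) * y j := by
      rw [hz]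
      simp only [Matrix.mulVec, dotProduct]
      apply Finset.sum_congr rfl
      intro j _
      simp [hU, hV', Matrix.updateRow_ne hi]
    rw [this]
    exact h2 i
  have hrow : ∀ i, i ≠ i0 → ∀ j, |U i j| ≤ Q := by
    intro i hi j
    have : U i j = (V i j : ℝ) := by simp [hU, hV', Matrix.updateRow_ne hi]
    rw [this]
    exact h1 i j
  have hrow0 : ∀ j, |U i0 j| ≤ H := by
    intro j
    have : U i0 j = (c j : ℝ) := by simp [hU, hV', Matrix.updateRow_self]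
    rw [this]
    exact h3 j
  have hdet : |(U.updateCol o z).det| ≤
      ∑ σ : Perm (Fin L), ∏ j, |(U.updateCol o z) (σ j) j| := by
    rw [Matrix.det_apply']
    refine (Finset.abs_sum_le_sum_abs _ _).trans (Finset.sum_le_sum fun σ _ => ?_)
    rw [abs_mul, Finset.abs_prod]
    have : |((Equiv.Perm.sign σ : ℤ) : ℝ)| = 1 := by
      rcases Int.units_eq_one_or (Equiv.Perm.sign σ) with h | h <;> simp [h]
    rw [this, one_mul]
  have hprod : ∀ σ : Perm (Fin L), ∏ j, |(U.updateCol o z) (σ j) j| ≤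
      Q ^ (L - 1) * |∑ j, (c j : ℝ) * y j| + Q ^ (L - 2) * H * S := by
    intro σ
    apply prod_le_of_rows (fun i j => |(U.updateCol o z) i j|) (fun i j => abs_nonneg _) o i0
      Q H S _ hQ hH hS (abs_nonneg _)
    · intro i hi j hj
      rw [Matrix.updateCol_ne hj]
      exact hrow i hi j
    · intro j hj
      rw [Matrix.updateCol_ne hj]
      exact hrow0 j
    · intro i hi
      rw [Matrix.updateCol_self]
      exact hzi i hi
    · rw [Matrix.updateCol_self, hzi0]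
  have hsum : ∑ σ : Perm (Fin L), ∏ j, |(U.updateCol o z) (σ j) j| ≤
      (L.factorial : ℝ) * (Q ^ (L - 1) * |∑ j, (c j : ℝ) * y j| + Q ^ (L - 2) * H * S) := by
    refine (Finset.sum_le_sum fun σ _ => hprod σ).trans ?_
    rw [Finset.sum_const, Finset.card_univ, Fintype.card_perm, Fintype.card_fin, nsmul_eq_mul]
  have hfin : Q ^ (L - 2) * H * S ≤ (L : ℝ) * Q ^ (L - 2) * H * S := by
    have hL' : (1 : ℝ) ≤ (L : ℝ) := by exact_mod_cast hL
    have h0 : 0 ≤ Q ^ (L - 2) * H * S := by positivity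
    nlinarith
  calc (1 : ℝ) ≤ |U.det| := habs
    _ = |(U.updateCol o z).det| := by rw [hcr]
    _ ≤ _ := hdet.trans hsum
    _ ≤ (L.factorial : ℝ) * (Q ^ (L - 1) * |∑ j, (c j : ℝ) * y j|
      + (L : ℝ) * Q ^ (L - 2) * H * S) := by
        apply mul_le_mul_of_nonneg_left _ (by positivity)
        linarith

end Pool.Agent.Lib.MP_524521_nt.PT
end

section
/-!
# The lower bound for a linear form in the nested sums, raw form
-/
open Polynomial

namespace Pool.Agent.Lib.MP_524521_nt.PT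

theorem form_iter_le {W : Finset (List ℕ)} (hW : Closed W) {k : ℕ} (hk : ∀ w ∈ W, w.sum ≤ k)
    {P : List ℕ → ℚ[X]} (hP : ∀ w, w ∉ W → P w = 0) : ∀ (i : ℕ) {x : ℝ}, 1 ≤ x →
    |form W ((nx k)^[i] P) x| ≤ (x + i) ^ (k * i) * |form W P (x + i)| := by
  intro i
  induction i with
  | zero => intro x _; simp
  | succ i ih =>
    intro x hx
    rw [Function.iterate_succ_apply', form_nx W hW k hk _ (nx_iter_supp hW hP i) x (by linarith),
      abs_mul, abs_of_nonneg (by positivity)]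
    have h1 := ih (x := x + 1) (by linarith)
    have e1 : x + 1 + (i : ℝ) = x + ((i + 1 : ℕ) : ℝ) := by push_cast; ring
    rw [e1] at h1
    have h2 : x ^ k ≤ (x + ((i + 1 : ℕ) : ℝ)) ^ k := by
      have : (0 : ℝ) ≤ ((i + 1 : ℕ) : ℝ) := Nat.cast_nonneg _
      exact pow_le_pow_left₀ (by linarith) (by linarith) k
    have h3 : (0 : ℝ) ≤ x + ((i + 1 : ℕ) : ℝ) := by positivity
    calc x ^ k * |form W ((nx k)^[i] P) (x + 1)|
        ≤ (x + ((i + 1 : ℕ) : ℝ)) ^ k *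
          ((x + ((i + 1 : ℕ) : ℝ)) ^ (k * i) * |form W P (x + ((i + 1 : ℕ) : ℝ))|) := by
          gcongr
      _ = (x + ((i + 1 : ℕ) : ℝ)) ^ (k * (i + 1)) * |form W P (x + ((i + 1 : ℕ) : ℝ))| := by
          rw [← mul_assoc, ← pow_add]
          congr 2
          ring

theorem aeval_nat (p : ℚ[X]) (n : ℕ) : aeval (n : ℝ) p = ((p.eval (n : ℚ) : ℚ) : ℝ) := by
  have h : (n : ℝ) = algebraMap ℚ ℝ (n : ℚ) := by simp
  rw [h, aeval_algebraMap_apply]
  simp

theorem sum_fin (W : Finset (List ℕ)) (f : List ℕ → ℝ) :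
    ∑ j : Fin W.card, f (W.equivFin.symm j) = ∑ w ∈ W, f w := by
  rw [← Finset.sum_coe_sort W f]
  exact Equiv.sum_comp W.equivFin.symm (fun w : W => f w)

theorem end_raw (W : Finset (List ℕ)) (hW : Closed W) (hL : 2 ≤ W.card) (k : ℕ)
    (hk : ∀ w ∈ W, w.sum ≤ k) : ∃ C : ℕ, 1 ≤ C ∧ ∀ N n H : ℕ, C ≤ N → 1 ≤ H → C * N ≤ n →
    (C : ℝ) * (n : ℝ) ^ C * H ≤ ((n : ℝ) / N) ^ ((N : ℝ) / 4) → ∀ c : List ℕ → ℤ,
    (∀ w, w ∉ W → c w = 0) → (∃ w, c w ≠ 0) → (∀ w, |c w| ≤ H) →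
    1 / ((n : ℝ) ^ C * ((n : ℝ) / N) ^ (C * N)) ≤ |∑ w ∈ W, (c w : ℝ) * y w n| := by
  obtain ⟨l, hl⟩ : ∃ l, W.card = l + 2 := ⟨W.card - 2, by omega⟩
  set q : ℕ := 2 * (k + 1) with hq
  obtain ⟨C1, hC1, haux⟩ := aux W hW hL k hk q (by omega)
  set L : ℕ := W.card with hLdef
  set c0 : ℕ := L * L * k + 1 with hc0
  obtain ⟨Cs, hCs1, hsz⟩ := sizes l k (6 * C1) ((1320 * q) ^ k) (C1 * L ^ L)
    (((k + 1) * 2 ^ k) ^ L) (2 ^ (k * L)) (k * L) (k * c0) L.factorial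
  refine ⟨Cs + 2 * c0 + L + 3, by omega, ?_⟩
  set C : ℕ := Cs + 2 * c0 + L + 3 with hC
  intro N n H hCN hH hCn hcond c hc hcne hcH
  -- elementary facts
  have hN3 : 3 ≤ N := by omega
  have hN0 : (0 : ℝ) < N := by exact_mod_cast (by omega : 0 < N)
  have hn3N : 3 * N ≤ n := le_trans (Nat.mul_le_mul_right N (by omega)) hCn
  have hn1 : 1 ≤ n := by omega
  have hn0 : (0 : ℝ) < n := by exact_mod_cast hn1
  have hn1' : (1 : ℝ) ≤ n := by exact_mod_cast hn1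
  set μ : ℝ := (n : ℝ) / N with hμ
  have hμC : (C : ℝ) ≤ μ := by
    rw [hμ, le_div_iff₀ hN0]
    exact_mod_cast hCn
  have hμ0 : 0 < μ := by positivity
  have hμ1 : 1 ≤ μ := le_trans (by exact_mod_cast (by omega : 1 ≤ C)) hμC
  have hμn : μ ≤ n := by
    rw [hμ, div_le_iff₀ hN0]
    have : (1 : ℝ) ≤ N := by exact_mod_cast (by omega : 1 ≤ N)
    nlinarith
  have hμL : (L : ℝ) ≤ μ := le_trans (by exact_mod_cast (by omega : L ≤ C)) hμC
  set Nq : ℕ := N / q with hNq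
  have hqNq : q * Nq ≤ N := Nat.mul_div_le N q
  have hNq2 : 2 * Nq ≤ N := by nlinarith
  have hNqlt : N < q * (Nq + 1) := by
    have := Nat.lt_mul_div_succ N (by omega : 0 < q)
    simpa using this
  set T0 : ℕ := Nq + c0 with hT0
  have hT0N : T0 ≤ N := by omega
  have hT01 : 1 ≤ T0 := by omega
  obtain ⟨P, hPsupp, hPne, hPdeg, hPint, hPform⟩ := haux N (by omega)
  set M : ℕ := (L - 1) * (N + 1) - (N / q + 1) with hM
  -- arithmetic of M
  have hLN : (L - 1) * (N + 1) = l * N + N + l + 1 := by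
    rw [hl]
    have : l + 2 - 1 = l + 1 := by omega
    rw [this]; ring
  have hMeq : M + (Nq + 1) = l * N + N + l + 1 := by
    rw [hM, hLN, ← hNq]
    have : Nq + 1 ≤ l * N + N + l + 1 := by nlinarith
    omega
  have hTM : (L - 1) * (N + L * k) + L * k - M ≤ T0 := by
    have e1 : (L - 1) * (N + L * k) + L * k = l * N + N + L * L * k := by
      rw [hl]
      have : l + 2 - 1 = l + 1 := by omega
      rw [this]; ring
    rw [e1]
    omega
  have hMlt : (L - 2) * (N + L * k) + L * k < M := by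
    have e1 : (L - 2) * (N + L * k) + L * k + L * k = l * N + L * L * k := by
      rw [hl]
      have : l + 2 - 2 = l := by omega
      rw [this]; ring
    have e2 : 2 * (L * L * k) < N := by omega
    omega
  obtain ⟨n', hnn', hn'T, hdet⟩ := rank W hW hL k hk N M P hPsupp hPne hPdeg
    (C1 ^ N * M.factorial) (by
      intro x hx
      refine (hPform x (by linarith)).trans ?_
      rw [mul_div_assoc]
      exact mul_le_mul_of_nonneg_left (rho_le hx _) (by positivity)) hMlt n hn1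
  have hJT : n' ≤ n + T0 := le_trans hn'T (Nat.add_le_add_left hTM n)
  have hR2n : n' + L + N ≤ 2 * n := by omega
  -- integrality
  set B : ℤ := ((C1 ^ N * (2 * n).choose N : ℕ) : ℤ) with hB
  have hB0 : 0 ≤ B := Int.natCast_nonneg _
  have hPB : ∀ w, ∀ m : ℕ, 1 ≤ m → m ≤ n' + L → ∃ z : ℤ, (P w).eval (m : ℚ) = z ∧ |z| ≤ B := by
    intro w m hm hm'
    obtain ⟨z, hz, hz'⟩ := hPint w m hm
    refine ⟨z, hz, hz'.trans ?_⟩
    rw [hB]
    push_cast
    have : ((m + N).choose N : ℤ) ≤ ((2 * n).choose N : ℤ) := by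
      exact_mod_cast Nat.choose_le_choose N (by omega : m + N ≤ 2 * n)
    exact mul_le_mul_of_nonneg_left this (by positivity)
  have hint := nx_iter (k := k) hB0 hPB
  choose z hz hz' using fun (i : Fin L) (w : List ℕ) => hint i w n' (by omega) (by omega)
  set V : Matrix (Fin L) (Fin L) ℤ := Matrix.of fun i j => z i (W.equivFin.symm j) with hV
  have hVdet : V.det ≠ 0 := by
    intro h0
    apply hdet
    have e1 : (Matrix.of fun (i j : Fin W.card) =>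
        (((nx k)^[i] P) (W.equivFin.symm j)).eval (n' : ℚ)) = V.map (Int.castRingHom ℚ) := by
      ext i j
      simp only [Matrix.of_apply, Matrix.map_apply, hV]
      exact hz i _
    rw [e1, ← RingHom.mapMatrix_apply, ← RingHom.map_det, h0, map_zero]
  -- size of the entries
  have hnn'R : (n' : ℝ) + L ≤ 2 * n := by exact_mod_cast (by omega : n' + L ≤ 2 * n)
  have hVQ : ∀ i j, |(V i j : ℝ)| ≤
      ((((k + 1) * 2 ^ k) ^ L : ℕ) : ℝ) * n ^ (k * L) * ((6 * C1 : ℕ) : ℝ) ^ N * μ ^ N := by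
    intro i j
    have h1 : |(V i j : ℝ)| ≤ ((k + 1) * ((n' : ℝ) + L) ^ k) ^ (i : ℕ) *
        (C1 ^ N * ((2 * n).choose N : ℕ)) := by
      have := hz' i (W.equivFin.symm j)
      have h2 : ((|z i (W.equivFin.symm j)| : ℤ) : ℝ) ≤
          ((((k + 1) * ((n' + L : ℕ) : ℤ) ^ k) ^ (i : ℕ) * B : ℤ) : ℝ) := by exact_mod_cast this
      rw [hB] at h2
      push_cast at h2
      simpa [hV] using h2
    have hk1 : (1 : ℝ) ≤ (k + 1) * (2 * (n : ℝ)) ^ k := by
      have a1 : (1 : ℝ) ≤ (2 * (n : ℝ)) ^ k := one_le_pow₀ (by linarith)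
      have a2 : (1 : ℝ) ≤ (k : ℝ) + 1 := by
        have : (0 : ℝ) ≤ k := Nat.cast_nonneg k
        linarith
      nlinarith
    have h3 : ((k + 1) * ((n' : ℝ) + L) ^ k) ^ (i : ℕ) ≤ ((k + 1) * (2 * (n : ℝ)) ^ k) ^ L := by
      calc ((k + 1) * ((n' : ℝ) + L) ^ k) ^ (i : ℕ) ≤ ((k + 1) * (2 * (n : ℝ)) ^ k) ^ (i : ℕ) := by
            gcongr
        _ ≤ ((k + 1) * (2 * (n : ℝ)) ^ k) ^ L := pow_le_pow_right₀ hk1 i.2.le
    have h4 : (((2 * n).choose N : ℕ) : ℝ) ≤ (6 * μ) ^ N := by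
      refine (choose_bd (by omega)).trans (le_of_eq ?_)
      congr 1
      rw [hμ]
      push_cast
      ring
    calc |(V i j : ℝ)| ≤ _ := h1
      _ ≤ ((k + 1) * (2 * (n : ℝ)) ^ k) ^ L * (C1 ^ N * (6 * μ) ^ N) := by gcongr
      _ = _ := by
        push_cast
        rw [mul_pow (2 : ℝ) (n : ℝ) k, mul_pow (6 : ℝ) μ N, mul_pow (6 : ℝ) (C1 : ℝ) N, pow_mul]
        rw [← mul_assoc ((k : ℝ) + 1), mul_pow (((k : ℝ) + 1) * 2 ^ k) ((n : ℝ) ^ k) L]
        ring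
  -- size of the forms
  set yv : Fin L → ℝ := fun j => y (W.equivFin.symm j) n' with hyv
  set o : Fin L := W.equivFin ⟨[], hW.nil_mem⟩ with ho
  have hyo : yv o = 1 := by simp [hyv, ho, y]
  have hMLN : M ≤ L * N := by
    have : L * N = l * N + 2 * N := by rw [hl]; ring
    omega
  have hM2 : (l + 1) * N - Nq ≤ M := by
    have : (l + 1) * N = l * N + N := by ring
    omega
  have hn2 : (2 : ℝ) ≤ n := by exact_mod_cast (by omega : 2 ≤ n)
  have hnn'r : (n : ℝ) ≤ n' := by exact_mod_cast hnn'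
  have hVS : ∀ i, |∑ j, (V i j : ℝ) * yv j| ≤ ((2 ^ (k * L) : ℕ) : ℝ) * n ^ (k * L) *
      ((C1 * L ^ L : ℕ) : ℝ) ^ N / μ ^ ((l + 1) * N - Nq) := by
    intro i
    have e1 : ∑ j, (V i j : ℝ) * yv j = form W ((nx k)^[i] P) n' := by
      unfold form
      rw [← sum_fin W (fun w => aeval (n' : ℝ) (((nx k)^[i] P) w) * y w n')]
      refine Finset.sum_congr rfl fun j _ => ?_
      rw [aeval_nat, hz i]
      simp [hV, hyv]
    rw [e1]
    have hi : (i : ℕ) < L := i.2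
    have hn'i : (n : ℝ) ≤ n' + (i : ℕ) := by
      have : (0 : ℝ) ≤ ((i : ℕ) : ℝ) := Nat.cast_nonneg _
      linarith
    have hn'i2 : (n' : ℝ) + (i : ℕ) ≤ 2 * n := by
      exact_mod_cast (by omega : n' + (i : ℕ) ≤ 2 * n)
    have h1 := form_iter_le hW hk hPsupp i (x := (n' : ℝ)) (by linarith)
    have h2 : |form W P (n' + (i : ℕ))| ≤ C1 ^ N * (M.factorial / ((n' : ℝ) + (i : ℕ)) ^ M) :=
      (hPform _ (by linarith)).trans
        (mul_le_mul_of_nonneg_left (rho_le (by linarith) _) (by positivity))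
    have h3 : (M.factorial : ℝ) / ((n' : ℝ) + (i : ℕ)) ^ M ≤ ((L : ℝ) / μ) ^ M := by
      have a1 : (M.factorial : ℝ) ≤ (M : ℝ) ^ M := by exact_mod_cast Nat.factorial_le_pow M
      have a2 : (M : ℝ) ≤ L * N := by exact_mod_cast hMLN
      calc (M.factorial : ℝ) / ((n' : ℝ) + (i : ℕ)) ^ M ≤ (L * N : ℝ) ^ M / (n : ℝ) ^ M := by
            gcongr
            exact a1.trans (by gcongr)
        _ = ((L : ℝ) / μ) ^ M := by
            rw [← div_pow, hμ]
            congr 1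
            field_simp
    have hL0 : (0 : ℝ) < L := by exact_mod_cast (by omega : 0 < L)
    have h4 : ((L : ℝ) / μ) ^ M ≤ ((L : ℝ) / μ) ^ ((l + 1) * N - Nq) :=
      pow_le_pow_of_le_one (by positivity) ((div_le_one hμ0).2 hμL) hM2
    have h5 : (L : ℝ) ^ ((l + 1) * N - Nq) ≤ L ^ (L * N) := by
      refine pow_le_pow_right₀ (by exact_mod_cast (by omega : 1 ≤ L)) (hM2.trans hMLN)
    have h6 : ((n' : ℝ) + (i : ℕ)) ^ (k * (i : ℕ)) ≤ (2 * (n : ℝ)) ^ (k * L) :=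
      calc ((n' : ℝ) + (i : ℕ)) ^ (k * (i : ℕ)) ≤ (2 * (n : ℝ)) ^ (k * (i : ℕ)) := by gcongr
        _ ≤ (2 * (n : ℝ)) ^ (k * L) :=
            pow_le_pow_right₀ (by linarith) (Nat.mul_le_mul_left k hi.le)
    calc |form W ((nx k)^[i] P) n'|
        ≤ ((n' : ℝ) + (i : ℕ)) ^ (k * (i : ℕ)) * |form W P (n' + (i : ℕ))| := h1
      _ ≤ (2 * (n : ℝ)) ^ (k * L) * (C1 ^ N * (((L : ℝ) / μ) ^ ((l + 1) * N - Nq))) := by
          gcongr
          exact h2.trans (mul_le_mul_of_nonneg_left (h3.trans h4) (by positivity))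
      _ ≤ (2 * (n : ℝ)) ^ (k * L) * (C1 ^ N * (L ^ (L * N) / μ ^ ((l + 1) * N - Nq))) := by
          rw [div_pow]
          gcongr
      _ = _ := by
          push_cast
          rw [mul_pow (2 : ℝ) (n : ℝ), mul_pow (C1 : ℝ), pow_mul]
          ring
  -- transfer
  obtain ⟨J, rfl⟩ : ∃ J, n' = n + J := ⟨n' - n, by omega⟩
  have hJT0 : J ≤ T0 := by omega
  set d : ℕ := (n + T0 - 1).choose T0 * Nat.lcmUpto T0 with hd
  have hd1 : 1 ≤ d := Nat.mul_pos (Nat.choose_pos (by omega)) (Nat.lcmUpto_pos _)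
  obtain ⟨c', hc', hc'ne, hc'H, hc'y⟩ := transfer W hW k hk n J d H hn1
    (fun j hj => dvd_d hn1 (hj.trans_le hJT0)) hd1 c hc hcne hcH
  have hdb : (d : ℝ) ≤ ((1320 * q : ℕ) : ℝ) ^ N * μ ^ Nq * n ^ c0 := by
    have hT0r : (0 : ℝ) < T0 := by exact_mod_cast hT01
    have a1 : (((n + T0 - 1).choose T0 : ℕ) : ℝ) ≤ (6 * q * μ) ^ T0 := by
      refine (choose_bd hT01).trans (pow_le_pow_left₀ (by positivity) ?_ _)
      have b1 : ((n + T0 - 1 : ℕ) : ℝ) ≤ 2 * n := by exact_mod_cast (by omega : n + T0 - 1 ≤ 2 * n)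
      have b2 : (N : ℝ) ≤ q * T0 := by
        have : N ≤ q * T0 := by
          have : q * (Nq + 1) ≤ q * T0 := Nat.mul_le_mul_left q (by omega)
          omega
        exact_mod_cast this
      rw [div_le_iff₀ hT0r, hμ]
      calc 3 * ((n + T0 - 1 : ℕ) : ℝ) ≤ 3 * (2 * n) := by gcongr
        _ = 6 * (n / N : ℝ) * N := by field_simp; ring
        _ ≤ 6 * (n / N : ℝ) * (q * T0) := by gcongr
        _ = 6 * q * (n / N : ℝ) * T0 := by ring
    have a2 := lcmUpto_le T0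
    have hq1 : (1 : ℝ) ≤ ((1320 * q : ℕ) : ℝ) := by exact_mod_cast (by omega : 1 ≤ 1320 * q)
    calc (d : ℝ) = (((n + T0 - 1).choose T0 : ℕ) : ℝ) * (Nat.lcmUpto T0 : ℝ) := by
          rw [hd]; push_cast; rfl
      _ ≤ (6 * q * μ) ^ T0 * 220 ^ T0 := by gcongr
      _ = ((1320 * q : ℕ) : ℝ) ^ T0 * (μ ^ Nq * μ ^ c0) := by
          rw [← mul_pow, ← pow_add, ← hT0, ← mul_pow]
          push_cast
          congr 1
          ring
      _ ≤ ((1320 * q : ℕ) : ℝ) ^ N * (μ ^ Nq * n ^ c0) := by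
          have : ((1320 * q : ℕ) : ℝ) ^ T0 ≤ ((1320 * q : ℕ) : ℝ) ^ N := pow_le_pow_right₀ hq1 hT0N
          gcongr
      _ = _ := by ring
  have hdk : (d : ℝ) ^ k ≤ ((((1320 * q) ^ k : ℕ) : ℝ)) ^ N * μ ^ (k * Nq) * n ^ (k * c0) := by
    calc (d : ℝ) ^ k ≤ (((1320 * q : ℕ) : ℝ) ^ N * μ ^ Nq * n ^ c0) ^ k := by gcongr
      _ = _ := by
          push_cast
          ring
  -- the numerical inequality
  have hnum := hsz N Nq n μ H (by rw [← hq]; exact hqNq)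
    (le_trans (by exact_mod_cast (by omega : Cs ≤ C)) hμC) hμn (Nat.cast_nonneg H) (by
      refine le_trans ?_ hcond
      have b1 : (Cs : ℝ) ≤ C := by exact_mod_cast (by omega : Cs ≤ C)
      have b2 : (n : ℝ) ^ Cs ≤ n ^ C := pow_le_pow_right₀ hn1' (by omega)
      gcongr)
  set Q : ℝ := ((((k + 1) * 2 ^ k) ^ L : ℕ) : ℝ) * n ^ (k * L) * ((6 * C1 : ℕ) : ℝ) ^ N * μ ^ N
    with hQ
  set S : ℝ := ((2 ^ (k * L) : ℕ) : ℝ) * n ^ (k * L) * ((C1 * L ^ L : ℕ) : ℝ) ^ N /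
    μ ^ ((l + 1) * N - Nq) with hS
  set dk : ℝ := ((((1320 * q) ^ k : ℕ) : ℝ)) ^ N * μ ^ (k * Nq) * n ^ (k * c0) with hdkdef
  obtain ⟨hnum1, hnum2⟩ := hnum
  have hLpos : 0 < L := by omega
  have hQ1 : 1 ≤ Q := by
    have a1 : (1 : ℝ) ≤ ((((k + 1) * 2 ^ k) ^ L : ℕ) : ℝ) := by
      exact_mod_cast Nat.one_le_pow _ _ (by positivity)
    have a2 : (1 : ℝ) ≤ (n : ℝ) ^ (k * L) := one_le_pow₀ hn1'
    have a3 : (1 : ℝ) ≤ ((6 * C1 : ℕ) : ℝ) ^ N :=
      one_le_pow₀ (by exact_mod_cast (by omega : 1 ≤ 6 * C1))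
    have a4 : (1 : ℝ) ≤ μ ^ N := one_le_pow₀ hμ1
    rw [hQ]
    exact one_le_mul_of_one_le_of_one_le (one_le_mul_of_one_le_of_one_le
      (one_le_mul_of_one_le_of_one_le a1 a2) a3) a4
  have hS0 : 0 ≤ S := by rw [hS]; positivity
  have hdk0 : 0 ≤ dk := by rw [hdkdef]; positivity
  set c'' : Fin L → ℤ := fun j => c' (W.equivFin.symm j) with hc''
  have hc''0 : c'' ≠ 0 := by
    obtain ⟨w, hw⟩ := hc'ne
    have hwW : w ∈ W := by
      by_contra h
      exact hw (hc' w h)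
    intro h0
    apply hw
    have := congrFun h0 (W.equivFin ⟨w, hwW⟩)
    simpa [hc''] using this
  have hc''H : ∀ j, |(c'' j : ℝ)| ≤ dk * ((l : ℝ) + 2) * H * n ^ k := by
    intro j
    have a1 : |(c'' j : ℝ)| ≤ (d : ℝ) ^ k * L * H * ((J : ℝ) + 1) ^ k := by
      have := hc'H (W.equivFin.symm j)
      have a2 : ((|c' (W.equivFin.symm j)| : ℤ) : ℝ) ≤
          (((d : ℤ) ^ k * (W.card : ℤ) * (H : ℤ) * ((J : ℤ) + 1) ^ k : ℤ) : ℝ) := by
        exact_mod_cast this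
      push_cast at a2
      simpa [hc''] using a2
    have a3 : (L : ℝ) = (l : ℝ) + 2 := by rw [hl]; push_cast; ring
    have a4 : (J : ℝ) + 1 ≤ n := by exact_mod_cast (by omega : J + 1 ≤ n)
    calc |(c'' j : ℝ)| ≤ (d : ℝ) ^ k * L * H * ((J : ℝ) + 1) ^ k := a1
      _ ≤ dk * ((l : ℝ) + 2) * H * n ^ k := by
          rw [a3]
          gcongr
  have hla := la V hVdet o yv hyo Q S (dk * ((l : ℝ) + 2) * H * n ^ k) hQ1 hS0 hVQ hVS c'' hc''0
    hc''H
  have e1 : ∑ j, (c'' j : ℝ) * yv j = (d : ℝ) ^ k * ∑ w ∈ W, (c w : ℝ) * y w n := by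
    rw [← hc'y, ← sum_fin W (fun w => (c' w : ℝ) * y w (n + J))]
    refine Finset.sum_congr rfl fun j _ => ?_
    simp [hc'', hyv]
  have eL1 : L - 1 = l + 1 := by omega
  have eL2 : L - 2 = l := by omega
  have eL3 : (L : ℝ) = (l : ℝ) + 2 := by rw [hl]; push_cast; ring
  rw [e1, abs_mul, abs_of_nonneg (by positivity : (0 : ℝ) ≤ (d : ℝ) ^ k), eL1, eL2, eL3] at hla
  set Λ : ℝ := |∑ w ∈ W, (c w : ℝ) * y w n| with hΛ
  have hΛ0 : 0 ≤ Λ := abs_nonneg _
  have hF0 : (0 : ℝ) ≤ (L.factorial : ℝ) := Nat.cast_nonneg _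
  have hfin : 1 ≤ 2 * (L.factorial : ℝ) * Q ^ (l + 1) * dk * Λ := by
    have b1 : (L.factorial : ℝ) * (Q ^ (l + 1) * ((d : ℝ) ^ k * Λ)) ≤
        L.factorial * (Q ^ (l + 1) * (dk * Λ)) := by gcongr
    have b2 : (L.factorial : ℝ) * (Q ^ (l + 1) * ((d : ℝ) ^ k * Λ) +
        ((l : ℝ) + 2) * Q ^ l * (dk * ((l : ℝ) + 2) * H * n ^ k) * S) =
        (L.factorial : ℝ) * (Q ^ (l + 1) * ((d : ℝ) ^ k * Λ)) + L.factorial * (((l : ℝ) + 2) * Q ^ l *
          (dk * ((l : ℝ) + 2) * H * n ^ k) * S) := by ring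
    rw [b2] at hla
    nlinarith [hnum1, b1, hla]
  have hfin2 : 1 ≤ (n : ℝ) ^ C * μ ^ (C * N) * Λ := by
    refine hfin.trans (mul_le_mul_of_nonneg_right (hnum2.trans ?_) hΛ0)
    have b1 : (n : ℝ) ^ Cs ≤ n ^ C := pow_le_pow_right₀ hn1' (by omega)
    have b2 : μ ^ (Cs * N) ≤ μ ^ (C * N) := pow_le_pow_right₀ hμ1 (Nat.mul_le_mul_right N (by omega))
    gcongr
  rw [div_le_iff₀ (by positivity)]
  linarith [mul_comm ((n : ℝ) ^ C * μ ^ (C * N)) Λ]

end Pool.Agent.Lib.MP_524521_nt.PT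
end
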