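import Mathlib
import Pool.Agent.Lib.MP_524521_nt.PT.EndA

/-!
# Sizes at rational points: iterated shifts, the numerical inequality
-/

open Polynomial

namespace Pool.Agent.Lib.MP_524521_nt.PT

theorem nxR_int {k b a : ℕ} (hb : 1 ≤ b) {Q : List ℕ → ℚ[X]}
    (h : ∀ w, ∀ r : ℕ, 1 ≤ r → ∃ z : ℤ, (b : ℚ) ^ a * (Q w).eval ((r : ℚ) / b) = z) (v : List ℕ)
    {r : ℕ} (hr : 1 ≤ r) :
    ∃ z : ℤ, (b : ℚ) ^ (a + k) * (nx k Q v).eval ((r : ℚ) / b) = z := by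
  have hb0 : (b : ℚ) ≠ 0 := by exact_mod_cast (by omega : b ≠ 0)
  choose z hz using fun w => h w (r + b) (by omega)
  have e0 : ((r : ℚ) / b + 1) = ((r + b : ℕ) : ℚ) / b := by
    push_cast
    rw [add_div, div_self hb0]
  refine ⟨r ^ k * z v - ∑ s ∈ Finset.Icc 2 k, r ^ (k - s) * b ^ s * z (s :: v), ?_⟩
  unfold nx
  simp only [eval_sub, eval_mul, eval_pow, eval_X, eval_comp, eval_add, eval_one, eval_finsetSum, e0]
  push_cast
  rw [mul_sub, Finset.mul_sum]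
  congr 1
  · rw [← hz v, div_pow, pow_add]
    push_cast
    field_simp
  · refine Finset.sum_congr rfl fun s hs => ?_
    have hsk : s ≤ k := (Finset.mem_Icc.1 hs).2
    obtain ⟨t, rfl⟩ : ∃ t, k = s + t := ⟨k - s, by omega⟩
    have e1 : s + t - s = t := by omega
    rw [← hz (s :: v), div_pow, e1, pow_add, pow_add]
    push_cast
    field_simp

theorem nxR_iter {k b a : ℕ} (hb : 1 ≤ b) {P : List ℕ → ℚ[X]}
    (h : ∀ w, ∀ r : ℕ, 1 ≤ r → ∃ z : ℤ, (b : ℚ) ^ a * (P w).eval ((r : ℚ) / b) = z) :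
    ∀ (i : ℕ) (w : List ℕ) (r : ℕ), 1 ≤ r →
      ∃ z : ℤ, (b : ℚ) ^ (a + k * i) * (((nx k)^[i] P) w).eval ((r : ℚ) / b) = z := by
  intro i
  induction i with
  | zero => simpa using h
  | succ i ih =>
    intro w r hr
    rw [Function.iterate_succ_apply']
    have := nxR_int (k := k) hb ih w hr
    rwa [add_assoc, ← Nat.mul_succ] at this

theorem nxR_size {k : ℕ} {Q : List ℕ → ℚ[X]} {x R B : ℝ} (hx : 1 ≤ x) (hB : 0 ≤ B)
    (h : ∀ w, ∀ t : ℝ, x ≤ t → t ≤ R → |aeval t (Q w)| ≤ B) (v : List ℕ) {t : ℝ} (ht : x ≤ t)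
    (htR : t + 1 ≤ R) : |aeval t (nx k Q v)| ≤ (k + 1) * R ^ k * B := by
  have hR1 : 1 ≤ R := by linarith
  have ht0 : 0 ≤ t := by linarith
  have htR' : t ≤ R := by linarith
  have hRk : 0 ≤ R ^ k := by positivity
  unfold nx
  simp only [map_sub, map_mul, map_pow, aeval_X, aeval_comp, map_add, map_one, map_sum]
  have hp : ∀ s, t ^ (k - s) ≤ R ^ k := fun s =>
    calc t ^ (k - s) ≤ R ^ (k - s) := pow_le_pow_left₀ ht0 htR' _
      _ ≤ R ^ k := pow_le_pow_right₀ hR1 (Nat.sub_le _ _)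
  have hQ : ∀ w, |aeval (t + 1) (Q w)| ≤ B := fun w => h w _ (by linarith) htR
  calc |t ^ k * aeval (t + 1) (Q v) - ∑ s ∈ Finset.Icc 2 k, t ^ (k - s) * aeval (t + 1) (Q (s :: v))|
      ≤ |t ^ k * aeval (t + 1) (Q v)| +
        |∑ s ∈ Finset.Icc 2 k, t ^ (k - s) * aeval (t + 1) (Q (s :: v))| := abs_sub _ _
    _ ≤ R ^ k * B + ∑ _s ∈ Finset.Icc 2 k, R ^ k * B := by
        refine add_le_add ?_ ((Finset.abs_sum_le_sum_abs _ _).trans (Finset.sum_le_sum ?_))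
        · rw [abs_mul, abs_of_nonneg (by positivity : (0 : ℝ) ≤ t ^ k)]
          exact mul_le_mul (by simpa using hp 0) (hQ v) (abs_nonneg _) hRk
        · intro s _
          rw [abs_mul, abs_of_nonneg (by positivity : (0 : ℝ) ≤ t ^ (k - s))]
          exact mul_le_mul (hp s) (hQ _) (abs_nonneg _) hRk
    _ ≤ (k + 1) * R ^ k * B := by
        rw [Finset.sum_const, Nat.card_Icc, nsmul_eq_mul]
        have h3 : ((k + 1 - 2 : ℕ) : ℝ) ≤ k := by exact_mod_cast (by omega : k + 1 - 2 ≤ k)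
        have h4 : 0 ≤ R ^ k * B := mul_nonneg hRk hB
        nlinarith [mul_le_mul_of_nonneg_right h3 h4]

theorem nxR_iter_size {k : ℕ} {P : List ℕ → ℚ[X]} {x R B : ℝ} (hx : 1 ≤ x) (hB : 0 ≤ B)
    (h : ∀ w, ∀ t : ℝ, x ≤ t → t ≤ R → |aeval t (P w)| ≤ B) :
    ∀ (i : ℕ) (w : List ℕ) (t : ℝ), x ≤ t → t + i ≤ R →
      |aeval t (((nx k)^[i] P) w)| ≤ ((k + 1) * R ^ k) ^ i * B := by
  intro i
  induction i generalizing R with
  | zero => intro w t ht htR; simpa using h w t ht (by simpa using htR)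
  | succ i ih =>
    intro w t ht htR
    rw [Function.iterate_succ_apply']
    have hi0 : (0 : ℝ) ≤ i := Nat.cast_nonneg i
    push_cast at htR
    have hR : 1 ≤ R := by linarith
    have hB' : (0 : ℝ) ≤ ((k + 1) * R ^ k) ^ i * B := by positivity
    have h1 : ∀ w, ∀ m : ℝ, x ≤ m → m ≤ t + 1 → |aeval m (((nx k)^[i] P) w)| ≤
        ((k + 1) * R ^ k) ^ i * B := fun w m hm hm' => ih h w m hm (by linarith)
    have h2 := nxR_size (k := k) hx hB' h1 w ht le_rfl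
    have h3 : (t + 1) ^ k ≤ R ^ k := pow_le_pow_left₀ (by linarith) (by linarith) k
    have h4 : ((k : ℝ) + 1) * (t + 1) ^ k ≤ (k + 1) * R ^ k :=
      mul_le_mul_of_nonneg_left h3 (by positivity)
    calc |aeval t (nx k ((nx k)^[i] P) w)| ≤ ((k : ℝ) + 1) * (t + 1) ^ k * (((k + 1) * R ^ k) ^ i * B) :=
          h2
      _ ≤ ((k + 1) * R ^ k) * (((k + 1) * R ^ k) ^ i * B) := mul_le_mul_of_nonneg_right h4 hB'
      _ = _ := by ring

/-- the numerical inequality with a denominator `β` -/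
theorem sizesR (l k e E1 E2 E3 G1 G3 g1 g2 F : ℕ) : ∃ C : ℕ, 1 ≤ C ∧ ∀ (N Nq : ℕ) (β n μ H : ℝ),
    2 * (k + 1) * Nq ≤ N → 1 ≤ β → (C : ℝ) * β ^ C ≤ μ → μ ≤ n → 0 ≤ H →
    (C : ℝ) * n ^ C * H ≤ μ ^ ((N : ℝ) / 4) →
    (F : ℝ) * (((l : ℝ) + 2) * (G1 * n ^ g1 * (E1 * β ^ e) ^ N * μ ^ N) ^ l *
      (((E2 * β ^ e) ^ N * μ ^ (k * Nq) * n ^ g2) * ((l : ℝ) + 2) * H * n ^ k) *
      (G3 * n ^ g1 * (E3 * β ^ e) ^ N / μ ^ ((l + 1) * N - Nq))) ≤ 1 / 2 ∧
    2 * (F : ℝ) * (G1 * n ^ g1 * (E1 * β ^ e) ^ N * μ ^ N) ^ (l + 1) *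
      ((E2 * β ^ e) ^ N * μ ^ (k * Nq) * n ^ g2) ≤ n ^ C * μ ^ (C * N) := by
  set G : ℕ := F * (l + 2) * G1 ^ l * (l + 2) * G3 with hG
  set g : ℕ := g1 * l + g2 + k + g1 with hg
  set E : ℕ := E1 ^ l * E2 * E3 with hE
  set G' : ℕ := 2 * F * G1 ^ (l + 1) with hG'
  set g' : ℕ := 1 + g1 * (l + 1) + g2 with hg'
  set E' : ℕ := E1 ^ (l + 1) * E2 with hE'
  refine ⟨E ^ 4 + 2 * G + g + G' + g' + E' + (l + 2 + k) + 4 * (e * (l + 2)) + 1, by omega, ?_⟩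
  set C : ℕ := E ^ 4 + 2 * G + g + G' + g' + E' + (l + 2 + k) + 4 * (e * (l + 2)) + 1 with hC
  intro N Nq β n μ H hq hβ hCμ hμn hH hcond
  have hC1 : (1 : ℝ) ≤ C := by exact_mod_cast (by omega : 1 ≤ C)
  have hβ0 : 0 < β := by linarith
  have hβC : 1 ≤ β ^ C := one_le_pow₀ hβ
  have hCμ' : (C : ℝ) ≤ μ := by nlinarith
  have hμ1 : 1 ≤ μ := hC1.trans hCμ'
  have hμ0 : 0 < μ := by linarith
  have hn1 : 1 ≤ n := hμ1.trans hμn
  have hn0 : 0 < n := by linarith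
  have hqN : Nq ≤ N := by nlinarith
  set u : ℝ := μ ^ ((1 : ℝ) / 4) with hu
  have hu0 : 0 < u := Real.rpow_pos_of_pos hμ0 _
  have hu4 : u ^ 4 = μ := by
    rw [hu, ← Real.rpow_natCast, ← Real.rpow_mul hμ0.le]
    norm_num
  have hu1 : 1 ≤ u := Real.one_le_rpow hμ1 (by norm_num)
  have huN : μ ^ ((N : ℝ) / 4) = u ^ N := by
    rw [hu, ← Real.rpow_natCast, ← Real.rpow_mul hμ0.le]
    congr 1
    ring
  set Er : ℝ := (E : ℝ) * β ^ (e * (l + 2)) with hEr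
  have hEu : Er ≤ u := by
    refine le_of_pow_le_pow_left₀ (n := 4) (by norm_num) hu0.le ?_
    rw [hu4, hEr, mul_pow, ← pow_mul]
    refine le_trans ?_ hCμ
    have a1 : ((E : ℝ)) ^ 4 ≤ C := by exact_mod_cast (by omega : E ^ 4 ≤ C)
    have a2 : β ^ (e * (l + 2) * 4) ≤ β ^ C := pow_le_pow_right₀ hβ (by omega)
    gcongr
  have hE'μ : (E' : ℝ) * β ^ (e * (l + 2)) ≤ μ := by
    refine le_trans ?_ hCμ
    have a1 : (E' : ℝ) ≤ C := by exact_mod_cast (by omega : E' ≤ C)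
    have a2 : β ^ (e * (l + 2)) ≤ β ^ C := pow_le_pow_right₀ hβ (by omega)
    gcongr
  have hG'n : (G' : ℝ) ≤ n := (le_trans (by exact_mod_cast (by omega : G' ≤ C)) hCμ').trans hμn
  constructor
  · obtain ⟨t, ht⟩ : ∃ t, (l + 1) * N = Nq + t := ⟨(l + 1) * N - Nq, by
      have : N ≤ (l + 1) * N := Nat.le_mul_of_pos_left N (by omega)
      omega⟩
    have ht' : (l + 1) * N - Nq = t := by omega
    rw [ht']
    have e1 : t + (k + 1) * Nq = N * l + k * Nq + N := by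
      have e1 : (l + 1) * N = N * l + N := by ring
      have e2 : (k + 1) * Nq = k * Nq + Nq := by ring
      omega
    have e2 : (F : ℝ) * (((l : ℝ) + 2) * (G1 * n ^ g1 * (E1 * β ^ e) ^ N * μ ^ N) ^ l *
        (((E2 * β ^ e) ^ N * μ ^ (k * Nq) * n ^ g2) * ((l : ℝ) + 2) * H * n ^ k) *
        (G3 * n ^ g1 * (E3 * β ^ e) ^ N / μ ^ t)) =
        (G : ℝ) * n ^ g * H * (Er ^ N * (μ ^ (N * l + k * Nq) / μ ^ t)) := by
      rw [hEr, hG, hg, hE]
      push_cast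
      ring
    have e3 : μ ^ (N * l + k * Nq) / μ ^ t = μ ^ ((k + 1) * Nq) / μ ^ N := by
      rw [div_eq_div_iff (by positivity) (by positivity), ← pow_add, ← pow_add, ← e1]
      congr 1
      ring
    have hEr0 : 0 ≤ Er := by rw [hEr]; positivity
    have e4 : Er ^ N * (μ ^ ((k + 1) * Nq) / μ ^ N) ≤ 1 / u ^ N := by
      have a1 : Er ^ N ≤ u ^ N := pow_le_pow_left₀ hEr0 hEu N
      have a2 : μ ^ ((k + 1) * Nq) ≤ u ^ (2 * N) := by
        rw [← hu4, ← pow_mul]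
        refine pow_le_pow_right₀ hu1 ?_
        nlinarith
      have a3 : μ ^ N = u ^ (4 * N) := by rw [← hu4, ← pow_mul]
      rw [a3]
      calc Er ^ N * (μ ^ ((k + 1) * Nq) / u ^ (4 * N)) ≤ u ^ N * (u ^ (2 * N) / u ^ (4 * N)) := by
            gcongr
        _ = 1 / u ^ N := by
            rw [← mul_div_assoc, ← pow_add, div_eq_div_iff (by positivity) (by positivity), one_mul,
              ← pow_add]
            congr 1
            ring
    rw [e2, e3]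
    calc (G : ℝ) * n ^ g * H * (Er ^ N * (μ ^ ((k + 1) * Nq) / μ ^ N))
        ≤ (G : ℝ) * n ^ g * H * (1 / u ^ N) := mul_le_mul_of_nonneg_left e4 (by positivity)
      _ = (G : ℝ) * n ^ g * H / u ^ N := by ring
      _ ≤ 1 / 2 := by
          rw [div_le_div_iff₀ (by positivity) (by norm_num), ← huN]
          refine le_trans ?_ (by simpa using hcond)
          have b1 : (2 * G : ℝ) ≤ C := by exact_mod_cast (by omega : 2 * G ≤ C)
          have b2 : n ^ g ≤ n ^ C := pow_le_pow_right₀ hn1 (by omega)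
          calc (G : ℝ) * n ^ g * H * 2 = 2 * G * n ^ g * H := by ring
            _ ≤ C * n ^ C * H := by gcongr
  · have e2 : 2 * (F : ℝ) * (G1 * n ^ g1 * (E1 * β ^ e) ^ N * μ ^ N) ^ (l + 1) *
        ((E2 * β ^ e) ^ N * μ ^ (k * Nq) * n ^ g2) =
        (G' : ℝ) * n ^ (g1 * (l + 1) + g2) * ((E' : ℝ) * β ^ (e * (l + 2))) ^ N *
          μ ^ (N * (l + 1) + k * Nq) := by
      rw [hG', hE']
      push_cast
      ring
    rw [e2]
    calc (G' : ℝ) * n ^ (g1 * (l + 1) + g2) * ((E' : ℝ) * β ^ (e * (l + 2))) ^ N *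
          μ ^ (N * (l + 1) + k * Nq)
        ≤ n * n ^ (g1 * (l + 1) + g2) * μ ^ N * μ ^ (N * (l + 1) + k * N) := by
          have : μ ^ (N * (l + 1) + k * Nq) ≤ μ ^ (N * (l + 1) + k * N) :=
            pow_le_pow_right₀ hμ1 (by gcongr)
          gcongr
      _ = n ^ g' * μ ^ ((l + 2 + k) * N) := by
          rw [hg']
          ring
      _ ≤ n ^ C * μ ^ (C * N) := by
          have b1 : n ^ g' ≤ n ^ C := pow_le_pow_right₀ hn1 (by omega)
          have b2 : μ ^ ((l + 2 + k) * N) ≤ μ ^ (C * N) :=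
            pow_le_pow_right₀ hμ1 (Nat.mul_le_mul_right N (by omega))
          gcongr

end Pool.Agent.Lib.MP_524521_nt.PT
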