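import Mathlib
import Pool.Agent.Lib.MP_524521_nt.PT.Expn
import Pool.Agent.Lib.MP_524521_nt.PT.EndRA
import Pool.Agent.Lib.MP_524521_nt.PT.EndC
import Pool.Agent.Lib.MP_524521_nt.PT.SharpQ

section
/-!
# Transfer of a linear relation between the nested sums from `x` to `x + J`, for real `x ≥ 1`
-/
open Finset

namespace Pool.Agent.Lib.MP_524521_nt.PT

namespace TrR

/-- coefficients of the expansion of `y w x` in the `y v (x + J)` -/
noncomputable def A : List ℕ → List ℕ → ℝ → ℕ → ℝ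
  | [], v, _, _ => if v = [] then 1 else 0
  | (s :: w), v, x, J =>
      (if v = s :: w then 1 else 0) + ∑ j ∈ Finset.range J, 1 / (x + j) ^ s * A w v (x + j) (J - j)

theorem A_of_length_le (w : List ℕ) : ∀ (v : List ℕ) (x : ℝ) (J : ℕ), w.length ≤ v.length →
    A w v x J = if v = w then 1 else 0 := by
  induction w with
  | nil => intro v x J _; rfl
  | cons s w ih =>
    intro v x J h
    rw [A]
    have h0 : ∑ j ∈ Finset.range J, 1 / (x + j) ^ s * A w v (x + j) (J - j) = 0 := by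
      apply Finset.sum_eq_zero
      intro j _
      have h1 : w.length ≤ v.length := by
        simp only [List.length_cons] at h
        omega
      have h2 : v ≠ w := by
        rintro rfl
        simp only [List.length_cons] at h
        omega
      rw [ih v (x + j) (J - j) h1, if_neg h2, mul_zero]
    rw [h0, add_zero]

theorem A_nonneg (w : List ℕ) : ∀ (v : List ℕ) (x : ℝ) (J : ℕ), 1 ≤ x → 0 ≤ A w v x J := by
  induction w with
  | nil => intro v x J _; rw [A]; split_ifs <;> norm_num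
  | cons s w ih =>
    intro v x J hx
    rw [A]
    apply add_nonneg
    · split_ifs <;> norm_num
    · apply Finset.sum_nonneg
      intro j _
      have hj : (0 : ℝ) ≤ (j : ℝ) := by positivity
      have hxj : (0 : ℝ) ≤ x + j := by linarith
      exact mul_nonneg (by positivity) (ih _ _ _ (by linarith))

theorem A_le (w : List ℕ) : ∀ (v : List ℕ) (x : ℝ) (J : ℕ), 1 ≤ x →
    A w v x J ≤ ((J : ℝ) + 1) ^ w.length := by
  induction w with
  | nil => intro v x J _; rw [A]; split_ifs <;> norm_num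
  | cons s w ih =>
    intro v x J hx
    rw [A, List.length_cons]
    have h1 : (if v = s :: w then (1 : ℝ) else 0) ≤ 1 := by split_ifs <;> norm_num
    have h2 : ∑ j ∈ Finset.range J, 1 / (x + j) ^ s * A w v (x + j) (J - j)
        ≤ ∑ j ∈ Finset.range J, ((J : ℝ) + 1) ^ w.length := by
      apply Finset.sum_le_sum
      intro j hj
      have hj' : j < J := Finset.mem_range.1 hj
      have hj0 : (0 : ℝ) ≤ (j : ℝ) := by positivity
      have hxj : (1 : ℝ) ≤ x + j := by linarith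
      have h3 : 1 / (x + j) ^ s ≤ 1 := by
        rw [div_le_one (by positivity)]
        exact one_le_pow₀ hxj
      have h4 : A w v (x + j) (J - j) ≤ (((J - j : ℕ) : ℝ) + 1) ^ w.length :=
        ih v (x + j) (J - j) hxj
      have h5 : (((J - j : ℕ) : ℝ) + 1) ^ w.length ≤ ((J : ℝ) + 1) ^ w.length := by
        apply pow_le_pow_left₀ (by positivity)
        have : ((J - j : ℕ) : ℝ) ≤ (J : ℝ) := by
          have : J - j ≤ J := by omega
          exact_mod_cast this
        linarith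
      calc 1 / (x + j) ^ s * A w v (x + j) (J - j)
          ≤ 1 * A w v (x + j) (J - j) :=
            mul_le_mul_of_nonneg_right h3 (A_nonneg _ _ _ _ hxj)
        _ ≤ ((J : ℝ) + 1) ^ w.length := by rw [one_mul]; exact h4.trans h5
    rw [Finset.sum_const, Finset.card_range, nsmul_eq_mul] at h2
    have h6 : (1 : ℝ) ≤ ((J : ℝ) + 1) ^ w.length := by
      apply one_le_pow₀
      have : (0 : ℝ) ≤ (J : ℝ) := by positivity
      linarith
    rw [pow_succ]
    nlinarith

theorem A_int (w : List ℕ) : ∀ (v : List ℕ) (x : ℝ) (J d : ℕ), 1 ≤ x →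
    (∀ j < J, ∃ z : ℤ, (d : ℝ) / (x + j) = z) →
    ∃ z : ℤ, (d : ℝ) ^ w.sum * A w v x J = z := by
  induction w with
  | nil =>
    intro v x J d _ _
    rw [A]
    split_ifs
    · exact ⟨1, by simp⟩
    · exact ⟨0, by simp⟩
  | cons s w ih =>
    intro v x J d hx hd
    rw [A, List.sum_cons, mul_add, Finset.mul_sum]
    have h1 : ∀ j ∈ Finset.range J, ∃ z : ℤ,
        (d : ℝ) ^ (s + w.sum) * (1 / (x + j) ^ s * A w v (x + j) (J - j)) = z := by
      intro j hj
      have hj' : j < J := Finset.mem_range.1 hj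
      have hj0 : (0 : ℝ) ≤ (j : ℝ) := by positivity
      obtain ⟨z, hz⟩ := ih v (x + j) (J - j) d (by linarith) (by
        intro i hi
        have := hd (j + i) (by omega)
        push_cast at this
        rwa [← add_assoc] at this)
      obtain ⟨t, ht⟩ := hd j hj'
      refine ⟨t ^ s * z, ?_⟩
      have h2 : (d : ℝ) ^ s * (1 / (x + j) ^ s) = (t : ℝ) ^ s := by
        rw [← ht, div_pow]
        ring
      rw [pow_add]
      push_cast
      rw [← hz, ← h2]
      ring
    choose! f hf using h1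
    refine ⟨(if v = s :: w then (d : ℤ) ^ (s + w.sum) else 0) + ∑ j ∈ Finset.range J, f j, ?_⟩
    rw [Finset.sum_congr rfl hf]
    push_cast
    congr 1
    split_ifs <;> simp

end TrR

theorem TrR.expand (W : Finset (List ℕ)) (hW : Closed W) :
    ∀ (w : List ℕ), w ∈ W → ∀ (x : ℝ) (J : ℕ), 1 ≤ x →
      y w x = ∑ v ∈ W, TrR.A w v x J * y v (x + J) := by
  intro w
  induction w with
  | nil =>
    intro hw x J hx
    rw [Finset.sum_eq_single ([] : List ℕ)]
    · simp [TrR.A, y]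
    · intro v _ hv
      simp [TrR.A, hv]
    · intro h
      exact absurd hw h
  | cons s w ih =>
    intro hw x J hx
    have hw' : w ∈ W := hW.tail_mem s w hw
    have htwo : ∀ t ∈ s :: w, 2 ≤ t := hW.two_le _ hw
    -- telescoping
    have htel : ∀ K : ℕ, y (s :: w) x = y (s :: w) (x + K)
        + ∑ j ∈ Finset.range K, 1 / (x + j) ^ s * y w (x + j) := by
      intro K
      induction K with
      | zero => simp
      | succ K ihK =>
        rw [Finset.sum_range_succ, ihK]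
        have hK := y_succ (s := s) (w := w) (htwo s (by simp))
          (fun t ht => htwo t (by simp [ht])) (x := x + K) (by
          have : (0 : ℝ) ≤ (K : ℝ) := by positivity
          linarith)
        push_cast
        rw [← add_assoc x (K : ℝ) 1]
        linarith
    rw [htel J]
    have h1 : ∑ j ∈ Finset.range J, 1 / (x + j) ^ s * y w (x + j)
        = ∑ j ∈ Finset.range J, 1 / (x + j) ^ s *
            ∑ v ∈ W, TrR.A w v (x + j) (J - j) * y v (x + J) := by
      apply Finset.sum_congr rfl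
      intro j hj
      have hj' : j < J := Finset.mem_range.1 hj
      have hj0 : (0 : ℝ) ≤ (j : ℝ) := by positivity
      have h2 := ih hw' (x + j) (J - j) (by linarith)
      have h3 : (x + (j : ℝ) + ((J - j : ℕ) : ℝ)) = x + J := by
        rw [Nat.cast_sub hj'.le]
        ring
      rw [h3] at h2
      rw [← h2]
    rw [h1]
    have h4 : ∀ v ∈ W, TrR.A (s :: w) v x J * y v (x + J)
        = (if v = s :: w then 1 else 0) * y v (x + J)
          + ∑ j ∈ Finset.range J, 1 / (x + j) ^ s *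
            (TrR.A w v (x + j) (J - j) * y v (x + J)) := by
      intro v _
      rw [TrR.A]
      rw [add_mul, Finset.sum_mul]
      congr 1
      apply Finset.sum_congr rfl
      intro j _
      ring
    rw [Finset.sum_congr rfl h4, Finset.sum_add_distrib]
    congr 1
    · rw [Finset.sum_eq_single (s :: w)]
      · simp
      · intro v _ hv
        simp [hv]
      · intro h
        exact absurd hw h
    · rw [Finset.sum_comm]
      apply Finset.sum_congr rfl
      intro j _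
      rw [Finset.mul_sum]

theorem transferR (W : Finset (List ℕ)) (hW : Closed W) (k : ℕ)
    (hk : ∀ w ∈ W, w.sum ≤ k) (x : ℝ) (hx : 1 ≤ x) (J d H : ℕ) (hd1 : 1 ≤ d)
    (hd : ∀ j < J, ∃ z : ℤ, (d : ℝ) / (x + j) = z)
    (c : List ℕ → ℤ) (hc : ∀ w, w ∉ W → c w = 0) (hne : ∃ w, c w ≠ 0) (hH : ∀ w, |c w| ≤ H) :
    ∃ c' : List ℕ → ℤ, (∀ w, w ∉ W → c' w = 0) ∧ (∃ w, c' w ≠ 0) ∧
      (∀ w, |c' w| ≤ d ^ k * #W * H * (J + 1) ^ k) ∧
      ∑ w ∈ W, (c' w : ℝ) * y w (x + J) = d ^ k * ∑ w ∈ W, (c w : ℝ) * y w x := by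
  classical
  have hint : ∀ w ∈ W, ∀ v : List ℕ, ∃ z : ℤ, (d : ℝ) ^ k * TrR.A w v x J = z := by
    intro w hw v
    obtain ⟨z, hz⟩ := TrR.A_int w v x J d hx hd
    refine ⟨(d : ℤ) ^ (k - w.sum) * z, ?_⟩
    have h1 : k = (k - w.sum) + w.sum := by
      have := hk w hw
      omega
    push_cast
    rw [← hz, ← mul_assoc, ← pow_add, ← h1]
  choose! f hf using hint
  have hlen : ∀ w ∈ W, w.length ≤ k := by
    intro w hw
    have h1 : w.length ≤ w.sum := by
      have h2 : ∀ t ∈ w, 1 ≤ t := fun t ht => le_trans (by norm_num) (hW.two_le w hw t ht)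
      have := List.card_nsmul_le_sum w 1 h2
      simpa using this
    exact h1.trans (hk w hw)
  refine ⟨fun v => if v ∈ W then ∑ w ∈ W, c w * f w v else 0, ?_, ?_, ?_, ?_⟩
  · intro v hv
    simp [hv]
  · -- nonzero
    obtain ⟨u, hu⟩ := hne
    have huW : u ∈ W := by
      by_contra h
      exact hu (hc u h)
    obtain ⟨v0, hv0, hmax⟩ := Finset.exists_max_image (W.filter fun w => c w ≠ 0)
      (fun w => w.length) ⟨u, Finset.mem_filter.2 ⟨huW, hu⟩⟩
    rw [Finset.mem_filter] at hv0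
    refine ⟨v0, ?_⟩
    simp only [hv0.1, if_true]
    have h1 : ∑ w ∈ W, c w * f w v0 = c v0 * (d : ℤ) ^ k := by
      rw [Finset.sum_eq_single v0]
      · congr 1
        have h2 := hf v0 hv0.1 v0
        rw [TrR.A_of_length_le v0 v0 x J le_rfl, if_pos rfl, mul_one] at h2
        exact_mod_cast h2.symm
      · intro w hw hwv
        by_cases h3 : c w = 0
        · simp [h3]
        · have h4 : w.length ≤ v0.length := hmax w (Finset.mem_filter.2 ⟨hw, h3⟩)
          have h5 := hf w hw v0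
          rw [TrR.A_of_length_le w v0 x J h4, if_neg (Ne.symm hwv), mul_zero] at h5
          have h6 : f w v0 = 0 := by exact_mod_cast h5.symm
          rw [h6, mul_zero]
      · intro h
        exact absurd hv0.1 h
    rw [h1]
    apply mul_ne_zero hv0.2
    apply pow_ne_zero
    have : d ≠ 0 := by omega
    exact_mod_cast this
  · intro v
    by_cases hv : v ∈ W
    · simp only [hv, if_true]
      have h1 : ∀ w ∈ W, |c w * f w v| ≤ (H : ℤ) * ((d : ℤ) ^ k * ((J : ℤ) + 1) ^ k) := by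
        intro w hw
        rw [abs_mul]
        apply mul_le_mul (hH w) _ (abs_nonneg _) (by positivity)
        have h2 := hf w hw v
        have h3 : ((|f w v| : ℤ) : ℝ) ≤ (d : ℝ) ^ k * ((J : ℝ) + 1) ^ k := by
          rw [Int.cast_abs, ← h2,
            abs_of_nonneg (mul_nonneg (by positivity) (TrR.A_nonneg _ _ _ _ hx))]
          apply mul_le_mul_of_nonneg_left _ (by positivity)
          refine (TrR.A_le w v x J hx).trans ?_
          apply pow_le_pow_right₀ _ (hlen w hw)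
          have : (0 : ℝ) ≤ (J : ℝ) := by positivity
          linarith
        exact_mod_cast h3
      refine (Finset.abs_sum_le_sum_abs _ _).trans ((Finset.sum_le_sum h1).trans ?_)
      rw [Finset.sum_const, nsmul_eq_mul]
      apply le_of_eq
      ring
    · simp only [hv, if_false, abs_zero]
      positivity
  · have h1 : ∀ v ∈ W, (((if v ∈ W then ∑ w ∈ W, c w * f w v else 0 : ℤ)) : ℝ)
        * y v (x + J)
        = ∑ w ∈ W, (d : ℝ) ^ k * ((c w : ℝ) * (TrR.A w v x J * y v (x + J))) := by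
      intro v hv
      rw [if_pos hv]
      push_cast
      rw [Finset.sum_mul]
      apply Finset.sum_congr rfl
      intro w hw
      rw [← hf w hw v]
      ring
    rw [Finset.sum_congr rfl h1, Finset.sum_comm, Finset.mul_sum]
    apply Finset.sum_congr rfl
    intro w hw
    rw [← Finset.mul_sum, ← Finset.mul_sum, ← TrR.expand W hW w hw x J hx]

end Pool.Agent.Lib.MP_524521_nt.PT
end

section
/-!
# The lower bound for a linear form in the nested sums at rational points, raw form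
-/
open Polynomial Finset

namespace Pool.Agent.Lib.MP_524521_nt.PT

theorem aeval_rat (p : ℚ[X]) (r : ℚ) : aeval (r : ℝ) p = ((p.eval r : ℚ) : ℝ) := by
  have h : (r : ℝ) = algebraMap ℚ ℝ r := by simp
  rw [h, aeval_algebraMap_apply]
  simp

theorem end_rawR (W : Finset (List ℕ)) (hW : Closed W) (hL : 2 ≤ #W) (k : ℕ)
    (hk : ∀ w ∈ W, w.sum ≤ k) : ∃ C : ℕ, 1 ≤ C ∧ ∀ N H r b : ℕ, C ≤ N → 1 ≤ H → 1 ≤ b →
    (C : ℝ) * b ^ C * N ≤ (r : ℝ) / b →
    (C : ℝ) * ((r : ℝ) / b) ^ C * H ≤ ((r : ℝ) / b / N) ^ ((N : ℝ) / 4) → ∀ c : List ℕ → ℤ,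
    (∀ w, w ∉ W → c w = 0) → (∃ w, c w ≠ 0) → (∀ w, |c w| ≤ H) →
    1 / (((r : ℝ) / b) ^ C * ((r : ℝ) / b / N) ^ (C * N)) ≤
      |∑ w ∈ W, (c w : ℝ) * y w ((r : ℝ) / b)| := by
  obtain ⟨l, hl⟩ : ∃ l, W.card = l + 2 := ⟨W.card - 2, by omega⟩
  set q : ℕ := 2 * (k + 1) with hq
  obtain ⟨C1, hC1, haux⟩ := auxR W hW hL k hk q (by omega)
  set L : ℕ := W.card with hLdef
  set c0 : ℕ := L * L * k + 1 with hc0
  obtain ⟨Cs, hCs1, hsz⟩ := sizesR l k (2 * k + 2) (2 * C1) ((1320 * q) ^ k) (C1 * L ^ L)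
    (((k + 1) * 2 ^ k) ^ L) (2 ^ (k * L)) (2 * (k * L)) (k * c0) L.factorial
  refine ⟨Cs + 2 * c0 + L + 3, by omega, ?_⟩
  set C : ℕ := Cs + 2 * c0 + L + 3 with hC
  intro N H r b hCN hH hb hCx hcond c hc hcne hcH
  set x : ℝ := (r : ℝ) / b with hx
  -- elementary facts
  have hb0 : (0 : ℝ) < b := by exact_mod_cast hb
  have hb1 : (1 : ℝ) ≤ b := by exact_mod_cast hb
  have hN3 : 3 ≤ N := by omega
  have hN0 : (0 : ℝ) < N := by exact_mod_cast (by omega : 0 < N)
  have hN1 : (1 : ℝ) ≤ N := by exact_mod_cast (by omega : 1 ≤ N)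
  have hCr : (3 : ℝ) ≤ C := by exact_mod_cast (by omega : 3 ≤ C)
  have hbC : (b : ℝ) ≤ b ^ C := by
    calc (b : ℝ) = b ^ 1 := (pow_one _).symm
      _ ≤ b ^ C := pow_le_pow_right₀ hb1 (by omega)
  have hbC1 : (1 : ℝ) ≤ b ^ C := hb1.trans hbC
  have hCbC : (C : ℝ) ≤ C * b ^ C := le_mul_of_one_le_right (by linarith) hbC1
  have h3Nx : 3 * (N : ℝ) ≤ x := by
    refine le_trans ?_ hCx
    have : (3 : ℝ) ≤ C * b ^ C := hCr.trans hCbC
    gcongr
  have hx1 : 1 ≤ x := by linarith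
  have hx0 : 0 < x := by linarith
  have hbx : (b : ℝ) ≤ x := by
    refine le_trans ?_ hCx
    calc (b : ℝ) ≤ b ^ C := hbC
      _ = 1 * b ^ C * 1 := by ring
      _ ≤ C * b ^ C * N := by gcongr; linarith
  have hbr : b ≤ r := by
    have : (b : ℝ) ≤ r := by
      rw [hx, le_div_iff₀ hb0] at hx1
      linarith
    exact_mod_cast this
  have hr1 : 1 ≤ r := by omega
  set μ : ℝ := x / N with hμ
  have hμC : (C : ℝ) * b ^ C ≤ μ := by
    rw [hμ, le_div_iff₀ hN0]
    exact hCx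
  have hμC' : (C : ℝ) ≤ μ := hCbC.trans hμC
  have hμ0 : 0 < μ := by positivity
  have hμ1 : 1 ≤ μ := by linarith
  have hμx : μ ≤ x := by
    rw [hμ, div_le_iff₀ hN0]
    nlinarith
  have hμL : (L : ℝ) ≤ μ := le_trans (by exact_mod_cast (by omega : L ≤ C)) hμC'
  have hμs : (Cs : ℝ) * b ^ Cs ≤ μ := by
    refine le_trans ?_ hμC
    have a1 : (Cs : ℝ) ≤ C := by exact_mod_cast (by omega : Cs ≤ C)
    have a2 : (b : ℝ) ^ Cs ≤ b ^ C := pow_le_pow_right₀ hb1 (by omega)
    gcongr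
  set Nq : ℕ := N / q with hNq
  have hqNq : q * Nq ≤ N := Nat.mul_div_le N q
  have hNq2 : 2 * Nq ≤ N := by nlinarith
  have hNqlt : N < q * (Nq + 1) := by
    have := Nat.lt_mul_div_succ N (by omega : 0 < q)
    simpa using this
  set T0 : ℕ := Nq + c0 with hT0
  have hT0N : T0 ≤ N := by omega
  have hT01 : 1 ≤ T0 := by omega
  obtain ⟨P, hPsupp, hPne, hPdeg, hPint, hPsize, hPform⟩ := haux N (by omega)
  set M : ℕ := (L - 1) * (N + 1) - (N / q + 1) with hM
  -- arithmetic of M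
  have hLN : (L - 1) * (N + 1) = l * N + N + l + 1 := by
    rw [hl]
    have : l + 2 - 1 = l + 1 := by omega
    rw [this]; ring
  have hMeq : M + (Nq + 1) = l * N + N + l + 1 := by
    rw [hM, hLN, ← hNq]
    have : Nq + 1 ≤ l * N + N + l + 1 := by nlinarith
    omega
  have hTM : (L - 1) * (N + L * k) + L * k - M ≤ T0 := by
    have e1 : (L - 1) * (N + L * k) + L * k = l * N + N + L * L * k := by
      rw [hl]
      have : l + 2 - 1 = l + 1 := by omega
      rw [this]; ring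
    rw [e1]
    omega
  have hMlt : (L - 2) * (N + L * k) + L * k < M := by
    have e1 : (L - 2) * (N + L * k) + L * k + L * k = l * N + L * L * k := by
      rw [hl]
      have : l + 2 - 2 = l := by omega
      rw [this]; ring
    have e2 : 2 * (L * L * k) < N := by omega
    omega
  obtain ⟨J, hJ, hdet⟩ := rankR W hW hL k hk N M P hPsupp hPne hPdeg
    (C1 ^ N * M.factorial) (by
      intro t ht
      refine (hPform t (by linarith)).trans ?_
      rw [mul_div_assoc]
      exact mul_le_mul_of_nonneg_left (rho_le ht _) (by positivity)) hMlt ((r : ℚ) / b)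
    (by
      have : (0 : ℚ) < r := by exact_mod_cast (by omega : 0 < r)
      have : (0 : ℚ) < b := by exact_mod_cast (by omega : 0 < b)
      positivity)
  have hJT : J ≤ T0 := le_trans hJ hTM
  -- the point x + J
  set r' : ℕ := r + J * b with hr'
  have hxq : (r : ℚ) / b + J = (r' : ℚ) / b := by
    have : (b : ℚ) ≠ 0 := by exact_mod_cast (by omega : b ≠ 0)
    rw [hr']
    push_cast
    field_simp
  have hxr : x + J = (((r' : ℚ) / b : ℚ) : ℝ) := by
    rw [← hxq, hx]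
    push_cast
    rfl
  have hxJL : x + J + L ≤ 2 * x := by
    have a1 : (J : ℝ) ≤ N := by exact_mod_cast hJT.trans hT0N
    have a2 : (L : ℝ) ≤ N := by exact_mod_cast (by omega : L ≤ N)
    linarith
  -- integrality
  have hint := nxR_iter (k := k) (a := 2 * N) hb (fun w s _ => hPint w s b hb)
  have hint' : ∀ (i : Fin L) (w : List ℕ), ∃ z : ℤ,
      (b : ℚ) ^ (2 * N + k * L) * (((nx k)^[i] P) w).eval ((r' : ℚ) / b) = z := by
    intro i w
    obtain ⟨z, hz⟩ := hint i w r' (by omega)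
    refine ⟨b ^ (k * (L - i)) * z, ?_⟩
    have e1 : 2 * N + k * L = k * (L - (i : ℕ)) + (2 * N + k * (i : ℕ)) := by
      have : k * (L - (i : ℕ)) + k * (i : ℕ) = k * L := by
        rw [← Nat.mul_add]
        congr 1
        have := i.2
        omega
      omega
    rw [e1, pow_add, mul_assoc, hz]
    push_cast
    rfl
  choose z hz using hint'
  set V : Matrix (Fin L) (Fin L) ℤ := Matrix.of fun i j => z i (W.equivFin.symm j) with hV
  have hbq : (b : ℚ) ≠ 0 := by exact_mod_cast (by omega : b ≠ 0)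
  have hVdet : V.det ≠ 0 := by
    intro h0
    apply hdet
    have e1 : V.map (Int.castRingHom ℚ) = ((b : ℚ) ^ (2 * N + k * L)) •
        (Matrix.of fun (i j : Fin W.card) =>
        (((nx k)^[i] P) (W.equivFin.symm j)).eval ((r : ℚ) / b + J)) := by
      ext i j
      simp only [Matrix.of_apply, Matrix.map_apply, hV, Matrix.smul_apply, smul_eq_mul, hxq]
      exact (hz i _).symm
    have e2 : (V.map (Int.castRingHom ℚ)).det = 0 := by
      rw [← RingHom.mapMatrix_apply, ← RingHom.map_det, h0, map_zero]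
    rw [e1, Matrix.det_smul] at e2
    rcases mul_eq_zero.1 e2 with h | h
    · exact absurd h (by positivity)
    · exact h
  have hVr : ∀ i j, (V i j : ℝ) =
      (b : ℝ) ^ (2 * N + k * L) * aeval (x + J) (((nx k)^[i] P) (W.equivFin.symm j)) := by
    intro i j
    rw [hxr, aeval_rat]
    have := congrArg (fun t : ℚ => (t : ℝ)) (hz i (W.equivFin.symm j))
    push_cast at this
    simp only [hV, Matrix.of_apply]
    push_cast
    rw [this]
  have hbk : (b : ℝ) ^ (2 * N + k * L) ≤ (b ^ (2 * k + 2)) ^ N * x ^ (k * L) := by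
    rw [pow_add, ← pow_mul]
    have a1 : (b : ℝ) ^ (2 * N) ≤ b ^ ((2 * k + 2) * N) :=
      pow_le_pow_right₀ hb1 (Nat.mul_le_mul_right N (by omega))
    have a2 : (b : ℝ) ^ (k * L) ≤ x ^ (k * L) := pow_le_pow_left₀ hb0.le hbx _
    gcongr
  have hx2 : 1 ≤ 2 * x := by linarith
  -- size of the entries
  have hVQ : ∀ i j, |(V i j : ℝ)| ≤
      ((((k + 1) * 2 ^ k) ^ L : ℕ) : ℝ) * x ^ (2 * (k * L)) *
        (((2 * C1 : ℕ) : ℝ) * b ^ (2 * k + 2)) ^ N * μ ^ N := by
    intro i j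
    have hi : (i : ℕ) < L := i.2
    have h1 := nxR_iter_size (k := k) (P := P) (x := x) (R := 2 * x) (B := C1 ^ N * (2 * x / N) ^ N)
      hx1 (by positivity) (fun w t ht htR => by
        refine (hPsize w t (by linarith)).trans ?_
        have : (0 : ℝ) ≤ t := by linarith
        gcongr) i (W.equivFin.symm j) (x + J) (by
          have : (0 : ℝ) ≤ J := Nat.cast_nonneg _
          linarith) (by
          have : ((i : ℕ) : ℝ) ≤ L := by exact_mod_cast hi.le
          linarith)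
    have hk1 : (1 : ℝ) ≤ (k + 1) * (2 * x) ^ k := by
      have a1 : (1 : ℝ) ≤ (2 * x) ^ k := one_le_pow₀ hx2
      have a2 : (1 : ℝ) ≤ (k : ℝ) + 1 := by
        have : (0 : ℝ) ≤ k := Nat.cast_nonneg k
        linarith
      nlinarith
    have h3 : ((k + 1) * (2 * x) ^ k) ^ (i : ℕ) ≤ ((k + 1) * (2 * x) ^ k) ^ L :=
      pow_le_pow_right₀ hk1 hi.le
    rw [hVr, abs_mul, abs_of_nonneg (by positivity)]
    calc (b : ℝ) ^ (2 * N + k * L) * |aeval (x + J) (((nx k)^[i] P) (W.equivFin.symm j))|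
        ≤ ((b ^ (2 * k + 2)) ^ N * x ^ (k * L)) *
          (((k + 1) * (2 * x) ^ k) ^ L * (C1 ^ N * (2 * x / N) ^ N)) := by
          gcongr
          exact h1.trans (mul_le_mul_of_nonneg_right h3 (by positivity))
      _ = _ := by
        have e1 : 2 * x / N = 2 * μ := by rw [hμ]; ring
        rw [e1]
        push_cast
        rw [mul_pow (2 : ℝ) x k, mul_pow (2 : ℝ) μ N, mul_pow ((2 : ℝ) * C1), mul_pow (2 : ℝ) (C1 : ℝ) N]
        rw [← mul_assoc ((k : ℝ) + 1), mul_pow (((k : ℝ) + 1) * 2 ^ k) (x ^ k) L]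
        ring
  -- size of the forms
  set yv : Fin L → ℝ := fun j => y (W.equivFin.symm j) (x + J) with hyv
  set o : Fin L := W.equivFin ⟨[], hW.nil_mem⟩ with ho
  have hyo : yv o = 1 := by simp [hyv, ho, y]
  have hMLN : M ≤ L * N := by
    have : L * N = l * N + 2 * N := by rw [hl]; ring
    omega
  have hM2 : (l + 1) * N - Nq ≤ M := by
    have : (l + 1) * N = l * N + N := by ring
    omega
  have hVS : ∀ i, |∑ j, (V i j : ℝ) * yv j| ≤ ((2 ^ (k * L) : ℕ) : ℝ) * x ^ (2 * (k * L)) *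
      (((C1 * L ^ L : ℕ) : ℝ) * b ^ (2 * k + 2)) ^ N / μ ^ ((l + 1) * N - Nq) := by
    intro i
    have e1 : ∑ j, (V i j : ℝ) * yv j =
        (b : ℝ) ^ (2 * N + k * L) * form W ((nx k)^[i] P) (x + J) := by
      unfold form
      rw [← sum_fin W (fun w => aeval (x + J) (((nx k)^[i] P) w) * y w (x + J)), Finset.mul_sum]
      refine Finset.sum_congr rfl fun j _ => ?_
      rw [hVr]
      simp only [hyv]
      ring
    rw [e1]
    have hi : (i : ℕ) < L := i.2
    have hi0 : (0 : ℝ) ≤ ((i : ℕ) : ℝ) := Nat.cast_nonneg _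
    have hJ0 : (0 : ℝ) ≤ (J : ℝ) := Nat.cast_nonneg _
    have hxi : x ≤ x + J + (i : ℕ) := by linarith
    have hxi2 : x + J + (i : ℕ) ≤ 2 * x := by
      have : ((i : ℕ) : ℝ) ≤ L := by exact_mod_cast hi.le
      linarith
    have h1 := form_iter_le hW hk hPsupp i (x := x + J) (by linarith)
    have h2 : |form W P (x + J + (i : ℕ))| ≤ C1 ^ N * (M.factorial / (x + J + (i : ℕ)) ^ M) :=
      (hPform _ (by linarith)).trans
        (mul_le_mul_of_nonneg_left (rho_le (by linarith) _) (by positivity))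
    have h3 : (M.factorial : ℝ) / (x + J + (i : ℕ)) ^ M ≤ ((L : ℝ) / μ) ^ M := by
      have a1 : (M.factorial : ℝ) ≤ (M : ℝ) ^ M := by exact_mod_cast Nat.factorial_le_pow M
      have a2 : (M : ℝ) ≤ L * N := by exact_mod_cast hMLN
      calc (M.factorial : ℝ) / (x + J + (i : ℕ)) ^ M ≤ (L * N : ℝ) ^ M / x ^ M := by
            gcongr
            exact a1.trans (by gcongr)
        _ = ((L : ℝ) / μ) ^ M := by
            rw [← div_pow, hμ]
            congr 1
            field_simp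
    have hL0 : (0 : ℝ) < L := by exact_mod_cast (by omega : 0 < L)
    have h4 : ((L : ℝ) / μ) ^ M ≤ ((L : ℝ) / μ) ^ ((l + 1) * N - Nq) :=
      pow_le_pow_of_le_one (by positivity) ((div_le_one hμ0).2 hμL) hM2
    have h5 : (L : ℝ) ^ ((l + 1) * N - Nq) ≤ L ^ (L * N) := by
      refine pow_le_pow_right₀ (by exact_mod_cast (by omega : 1 ≤ L)) (hM2.trans hMLN)
    have h6 : (x + J + (i : ℕ)) ^ (k * (i : ℕ)) ≤ (2 * x) ^ (k * L) :=
      calc (x + J + (i : ℕ)) ^ (k * (i : ℕ)) ≤ (2 * x) ^ (k * (i : ℕ)) := by gcongr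
        _ ≤ (2 * x) ^ (k * L) := pow_le_pow_right₀ hx2 (Nat.mul_le_mul_left k hi.le)
    have h7 : ((L : ℝ) / μ) ^ ((l + 1) * N - Nq) ≤ L ^ (L * N) / μ ^ ((l + 1) * N - Nq) := by
      rw [div_pow]
      gcongr
    rw [abs_mul, abs_of_nonneg (by positivity : (0 : ℝ) ≤ (b : ℝ) ^ (2 * N + k * L))]
    calc (b : ℝ) ^ (2 * N + k * L) * |form W ((nx k)^[i] P) (x + J)|
        ≤ (b : ℝ) ^ (2 * N + k * L) *
          ((x + J + (i : ℕ)) ^ (k * (i : ℕ)) * |form W P (x + J + (i : ℕ))|) := by gcongr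
      _ ≤ ((b ^ (2 * k + 2)) ^ N * x ^ (k * L)) *
          ((2 * x) ^ (k * L) * (C1 ^ N * (((L : ℝ) / μ) ^ ((l + 1) * N - Nq)))) := by
          gcongr
          exact h2.trans (mul_le_mul_of_nonneg_left (h3.trans h4) (by positivity))
      _ ≤ ((b ^ (2 * k + 2)) ^ N * x ^ (k * L)) *
          ((2 * x) ^ (k * L) * (C1 ^ N * (L ^ (L * N) / μ ^ ((l + 1) * N - Nq)))) := by
          gcongr
      _ = _ := by
          push_cast
          rw [mul_pow (2 : ℝ) x, mul_pow ((C1 : ℝ) * (L : ℝ) ^ L), mul_pow (C1 : ℝ), pow_mul (L : ℝ)]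
          ring
  -- transfer
  obtain ⟨d, hd1, hdint, hdsize⟩ := d_exists r b T0 hb hbr
  rw [← hx] at hdint hdsize
  obtain ⟨c', hc', hc'ne, hc'H, hc'y⟩ := transferR W hW k hk x hx1 J d H hd1
    (fun j hj => hdint j (hj.trans_le hJT)) c hc hcne hcH
  have hT0r : (0 : ℝ) < T0 := by exact_mod_cast hT01
  have hdb : (d : ℝ) ≤ (((1320 * q : ℕ) : ℝ) * b ^ 2) ^ N * μ ^ Nq * x ^ c0 := by
    have a0 : (T0 : ℝ) ≤ x := by
      have : (T0 : ℝ) ≤ N := by exact_mod_cast hT0N
      linarith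
    have a1 : x / T0 ≤ q * μ := by
      have b2 : (N : ℝ) ≤ q * T0 := by
        have : N ≤ q * T0 := by
          have : q * (Nq + 1) ≤ q * T0 := Nat.mul_le_mul_left q (by omega)
          omega
        exact_mod_cast this
      rw [div_le_iff₀ hT0r, hμ]
      calc x = (x / N : ℝ) * N := by field_simp
        _ ≤ (x / N : ℝ) * (q * T0) := by gcongr
        _ = q * (x / N : ℝ) * T0 := by ring
    have hq1 : (1 : ℝ) ≤ ((1320 * q : ℕ) : ℝ) * b ^ 2 := by
      have c1 : (1 : ℝ) ≤ ((1320 * q : ℕ) : ℝ) := by exact_mod_cast (by omega : 1 ≤ 1320 * q)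
      have c2 : (1 : ℝ) ≤ (b : ℝ) ^ 2 := one_le_pow₀ hb1
      exact one_le_mul_of_one_le_of_one_le c1 c2
    calc (d : ℝ) ≤ (1320 * (b : ℝ) ^ 2) ^ T0 * (x / T0) ^ T0 := hdsize a0
      _ ≤ (1320 * (b : ℝ) ^ 2) ^ T0 * (q * μ) ^ T0 := by gcongr
      _ = (((1320 * q : ℕ) : ℝ) * b ^ 2) ^ T0 * (μ ^ Nq * μ ^ c0) := by
          rw [← mul_pow, ← pow_add, ← hT0, ← mul_pow]
          push_cast
          congr 1
          ring
      _ ≤ (((1320 * q : ℕ) : ℝ) * b ^ 2) ^ N * (μ ^ Nq * x ^ c0) := by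
          have : (((1320 * q : ℕ) : ℝ) * b ^ 2) ^ T0 ≤ (((1320 * q : ℕ) : ℝ) * b ^ 2) ^ N :=
            pow_le_pow_right₀ hq1 hT0N
          gcongr
      _ = _ := by ring
  have hdk : (d : ℝ) ^ k ≤
      ((((1320 * q) ^ k : ℕ) : ℝ) * b ^ (2 * k + 2)) ^ N * μ ^ (k * Nq) * x ^ (k * c0) := by
    have a1 : ((b : ℝ) ^ 2) ^ k ≤ b ^ (2 * k + 2) := by
      rw [← pow_mul]
      exact pow_le_pow_right₀ hb1 (by omega)
    calc (d : ℝ) ^ k ≤ ((((1320 * q : ℕ) : ℝ) * b ^ 2) ^ N * μ ^ Nq * x ^ c0) ^ k := by gcongr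
      _ = ((((1320 * q : ℕ) : ℝ)) ^ k * ((b : ℝ) ^ 2) ^ k) ^ N * μ ^ (k * Nq) * x ^ (k * c0) := by
          rw [mul_pow _ (x ^ c0) k, mul_pow _ (μ ^ Nq) k, ← pow_mul, ← pow_mul, ← pow_mul,
            mul_comm N k, pow_mul _ k N, mul_pow _ _ k, mul_comm Nq k, mul_comm c0 k]
      _ ≤ ((((1320 * q : ℕ) : ℝ)) ^ k * b ^ (2 * k + 2)) ^ N * μ ^ (k * Nq) * x ^ (k * c0) := by
          gcongr
      _ = _ := by push_cast; ring
  -- the numerical inequality
  have hnum := hsz N Nq b x μ H (by rw [← hq]; exact hqNq) hb1 hμs hμx (Nat.cast_nonneg H) (by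
      refine le_trans ?_ hcond
      have b1 : (Cs : ℝ) ≤ C := by exact_mod_cast (by omega : Cs ≤ C)
      have b2 : x ^ Cs ≤ x ^ C := pow_le_pow_right₀ hx1 (by omega)
      gcongr)
  set Q : ℝ := ((((k + 1) * 2 ^ k) ^ L : ℕ) : ℝ) * x ^ (2 * (k * L)) *
        (((2 * C1 : ℕ) : ℝ) * b ^ (2 * k + 2)) ^ N * μ ^ N with hQ
  set S : ℝ := ((2 ^ (k * L) : ℕ) : ℝ) * x ^ (2 * (k * L)) *
      (((C1 * L ^ L : ℕ) : ℝ) * b ^ (2 * k + 2)) ^ N / μ ^ ((l + 1) * N - Nq) with hS
  set dk : ℝ := ((((1320 * q) ^ k : ℕ) : ℝ) * b ^ (2 * k + 2)) ^ N * μ ^ (k * Nq) * x ^ (k * c0)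
    with hdkdef
  obtain ⟨hnum1, hnum2⟩ := hnum
  have hLpos : 0 < L := by omega
  have hbe : (1 : ℝ) ≤ (b : ℝ) ^ (2 * k + 2) := one_le_pow₀ hb1
  have hQ1 : 1 ≤ Q := by
    have a1 : (1 : ℝ) ≤ ((((k + 1) * 2 ^ k) ^ L : ℕ) : ℝ) := by
      exact_mod_cast Nat.one_le_pow _ _ (by positivity)
    have a2 : (1 : ℝ) ≤ x ^ (2 * (k * L)) := one_le_pow₀ hx1
    have a3 : (1 : ℝ) ≤ (((2 * C1 : ℕ) : ℝ) * b ^ (2 * k + 2)) ^ N :=
      one_le_pow₀ (one_le_mul_of_one_le_of_one_le
        (by exact_mod_cast (by omega : 1 ≤ 2 * C1)) hbe)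
    have a4 : (1 : ℝ) ≤ μ ^ N := one_le_pow₀ hμ1
    rw [hQ]
    exact one_le_mul_of_one_le_of_one_le (one_le_mul_of_one_le_of_one_le
      (one_le_mul_of_one_le_of_one_le a1 a2) a3) a4
  have hS0 : 0 ≤ S := by rw [hS]; positivity
  have hdk0 : 0 ≤ dk := by rw [hdkdef]; positivity
  set c'' : Fin L → ℤ := fun j => c' (W.equivFin.symm j) with hc''
  have hc''0 : c'' ≠ 0 := by
    obtain ⟨w, hw⟩ := hc'ne
    have hwW : w ∈ W := by
      by_contra h
      exact hw (hc' w h)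
    intro h0
    apply hw
    have := congrFun h0 (W.equivFin ⟨w, hwW⟩)
    simpa [hc''] using this
  have hc''H : ∀ j, |(c'' j : ℝ)| ≤ dk * ((l : ℝ) + 2) * H * x ^ k := by
    intro j
    have a1 : |(c'' j : ℝ)| ≤ (d : ℝ) ^ k * L * H * ((J : ℝ) + 1) ^ k := by
      have := hc'H (W.equivFin.symm j)
      have a2 : ((|c' (W.equivFin.symm j)| : ℤ) : ℝ) ≤
          (((d : ℤ) ^ k * (W.card : ℤ) * (H : ℤ) * ((J : ℤ) + 1) ^ k : ℤ) : ℝ) := by
        exact_mod_cast this
      push_cast at a2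
      simpa [hc''] using a2
    have a3 : (L : ℝ) = (l : ℝ) + 2 := by rw [hl]; push_cast; ring
    have a4 : (J : ℝ) + 1 ≤ x := by
      have : (J : ℝ) ≤ N := by exact_mod_cast hJT.trans hT0N
      linarith
    calc |(c'' j : ℝ)| ≤ (d : ℝ) ^ k * L * H * ((J : ℝ) + 1) ^ k := a1
      _ ≤ dk * ((l : ℝ) + 2) * H * x ^ k := by
          rw [a3]
          gcongr
  have hla := la V hVdet o yv hyo Q S (dk * ((l : ℝ) + 2) * H * x ^ k) hQ1 hS0 hVQ hVS c'' hc''0
    hc''H
  have e1 : ∑ j, (c'' j : ℝ) * yv j = (d : ℝ) ^ k * ∑ w ∈ W, (c w : ℝ) * y w x := by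
    rw [← hc'y, ← sum_fin W (fun w => (c' w : ℝ) * y w (x + J))]
  have eL1 : L - 1 = l + 1 := by omega
  have eL2 : L - 2 = l := by omega
  have eL3 : (L : ℝ) = (l : ℝ) + 2 := by rw [hl]; push_cast; ring
  rw [e1, abs_mul, abs_of_nonneg (by positivity : (0 : ℝ) ≤ (d : ℝ) ^ k), eL1, eL2, eL3] at hla
  set Λ : ℝ := |∑ w ∈ W, (c w : ℝ) * y w x| with hΛ
  have hΛ0 : 0 ≤ Λ := abs_nonneg _
  have hF0 : (0 : ℝ) ≤ (L.factorial : ℝ) := Nat.cast_nonneg _
  have hfin : 1 ≤ 2 * (L.factorial : ℝ) * Q ^ (l + 1) * dk * Λ := by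
    have b1 : (L.factorial : ℝ) * (Q ^ (l + 1) * ((d : ℝ) ^ k * Λ)) ≤
        L.factorial * (Q ^ (l + 1) * (dk * Λ)) := by gcongr
    have b2 : (L.factorial : ℝ) * (Q ^ (l + 1) * ((d : ℝ) ^ k * Λ) +
        ((l : ℝ) + 2) * Q ^ l * (dk * ((l : ℝ) + 2) * H * x ^ k) * S) =
        (L.factorial : ℝ) * (Q ^ (l + 1) * ((d : ℝ) ^ k * Λ)) + L.factorial * (((l : ℝ) + 2) * Q ^ l *
          (dk * ((l : ℝ) + 2) * H * x ^ k) * S) := by ring
    rw [b2] at hla
    nlinarith [hnum1, b1, hla]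
  have hfin2 : 1 ≤ x ^ C * μ ^ (C * N) * Λ := by
    refine hfin.trans (mul_le_mul_of_nonneg_right (hnum2.trans ?_) hΛ0)
    have b1 : x ^ Cs ≤ x ^ C := pow_le_pow_right₀ hx1 (by omega)
    have b2 : μ ^ (Cs * N) ≤ μ ^ (C * N) := pow_le_pow_right₀ hμ1 (Nat.mul_le_mul_right N (by omega))
    gcongr
  rw [div_le_iff₀ (by positivity)]
  linarith [mul_comm (x ^ C * μ ^ (C * N)) Λ]

end Pool.Agent.Lib.MP_524521_nt.PT
end
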