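import Mathlib

section
/-!
# Choice of the parameter `N`
-/
namespace Pool.Agent.Lib.MP_524521_nt.PT

/-- the function `N log (n / N)` at least doubles slowly -/
theorem opt_step {n N : ℕ} (hN : 2 ≤ N) (hn : N ≤ n) :
    (N : ℝ) * Real.log ((n : ℝ) / N) ≤ 2 * (((N - 1 : ℕ) : ℝ) * Real.log ((n : ℝ) / ((N - 1 : ℕ) : ℝ))) := by
  have hN1 : (1 : ℝ) ≤ ((N - 1 : ℕ) : ℝ) := by
    have : 1 ≤ N - 1 := by omega
    exact_mod_cast this
  have hcast : (N : ℝ) = ((N - 1 : ℕ) : ℝ) + 1 := by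
    have : N = (N - 1) + 1 := by omega
    exact_mod_cast this
  have hn0 : (0 : ℝ) < (n : ℝ) := by
    have : 0 < n := by omega
    exact_mod_cast this
  have hNn : (N : ℝ) ≤ (n : ℝ) := by exact_mod_cast hn
  have h1 : Real.log ((n : ℝ) / N) ≤ Real.log ((n : ℝ) / ((N - 1 : ℕ) : ℝ)) := by
    apply Real.log_le_log
    · apply div_pos hn0
      linarith
    · apply div_le_div_of_nonneg_left hn0.le (by linarith)
      linarith
  have h0 : 0 ≤ Real.log ((n : ℝ) / N) := by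
    apply Real.log_nonneg
    rw [le_div_iff₀ (by linarith)]
    linarith
  have h2 : (N : ℝ) ≤ 2 * ((N - 1 : ℕ) : ℝ) := by linarith
  calc (N : ℝ) * Real.log ((n : ℝ) / N)
      ≤ (2 * ((N - 1 : ℕ) : ℝ)) * Real.log ((n : ℝ) / ((N - 1 : ℕ) : ℝ)) :=
        mul_le_mul h2 h1 h0 (by linarith)
    _ = _ := by ring

/-- `n` is at least a large multiple of `log n + log H` -/
theorem opt_large (A x h : ℝ) (hA : 192 ≤ A) (hh : 1 / 2 ≤ h) (hx : 2 * A ^ 2 * h ≤ x) :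
    A ^ 2 ≤ x ∧ 1 ≤ Real.log x ∧ A / 4 * (Real.log x + h) ≤ x := by
  have hA0 : 0 < A := by linarith
  have hA2 : 0 ≤ 2 * A ^ 2 := by positivity
  have hn1 : A ^ 2 ≤ x := by
    have := mul_le_mul_of_nonneg_left hh hA2
    linarith
  have hAA : 192 * A ≤ A ^ 2 := by
    rw [pow_two]
    exact mul_le_mul_of_nonneg_right hA hA0.le
  have hnpos : 0 < x := by linarith
  have hsqrt : A ≤ Real.sqrt x := Real.le_sqrt_of_sq_le hn1
  have hlogn : Real.log x ≤ 2 * Real.sqrt x := by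
    have h1 : Real.log (Real.sqrt x) ≤ Real.sqrt x - 1 :=
      Real.log_le_sub_one_of_pos (Real.sqrt_pos.2 hnpos)
    rw [Real.log_sqrt hnpos.le] at h1
    linarith
  have hsn : Real.sqrt x * Real.sqrt x = x := Real.mul_self_sqrt hnpos.le
  refine ⟨hn1, ?_, ?_⟩
  · rw [Real.le_log_iff_exp_le hnpos]
    have := Real.exp_one_lt_d9
    linarith
  · have h1 : A / 4 * Real.log x ≤ x / 2 := by
      have h2 : A / 4 * Real.log x ≤ A / 4 * (2 * Real.sqrt x) :=
        mul_le_mul_of_nonneg_left hlogn (by linarith)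
      have h3 : A * Real.sqrt x ≤ Real.sqrt x * Real.sqrt x :=
        mul_le_mul_of_nonneg_right hsqrt (Real.sqrt_nonneg _)
      linarith
    have h5 : A / 4 * h ≤ x / 2 := by
      have h6 : A / 2 ≤ 2 * A ^ 2 := by linarith
      have h7 : A / 2 * h ≤ 2 * A ^ 2 * h := mul_le_mul_of_nonneg_right h6 (by linarith)
      linarith
    rw [mul_add]
    linarith

theorem opt (C : ℕ) : ∃ C' : ℕ, ∀ H n : ℕ, 2 ≤ H → (C' : ℝ) * Real.log H ≤ n →
    ∃ N : ℕ, C ≤ N ∧ C * N ≤ n ∧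
      (C : ℝ) * (n : ℝ) ^ C * H ≤ ((n : ℝ) / N) ^ ((N : ℝ) / 4) ∧
      (n : ℝ) ^ C * ((n : ℝ) / N) ^ (C * N) ≤ ((n : ℝ) * H) ^ C' := by
  classical
  obtain ⟨K, hK⟩ : ∃ K : ℕ, K = C + 1 := ⟨_, rfl⟩
  obtain ⟨E, hE⟩ : ∃ E : ℕ, E = 2 * (192 * K ^ 2) ^ 2 := ⟨_, rfl⟩
  obtain ⟨A, hAdef⟩ : ∃ A : ℝ, A = 192 * (K : ℝ) ^ 2 := ⟨_, rfl⟩
  have hE' : (E : ℝ) = 2 * A ^ 2 := by rw [hE, hAdef]; push_cast; ring
  clear hE
  refine ⟨E, ?_⟩
  intro H n hH hn
  rw [hE'] at hn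
  have hK1 : (1 : ℝ) ≤ (K : ℝ) := by
    have : 1 ≤ K := by omega
    exact_mod_cast this
  have hKpos : (0 : ℝ) < (K : ℝ) := by linarith
  have hK2 : (1 : ℝ) ≤ (K : ℝ) ^ 2 := one_le_pow₀ hK1
  have hKK : (K : ℝ) ≤ (K : ℝ) ^ 2 := by
    rw [pow_two]
    exact le_mul_of_one_le_left hKpos.le hK1
  have hA192 : 192 ≤ A := by rw [hAdef]; linarith
  have hCK : (C : ℝ) ≤ (K : ℝ) := by
    have : C ≤ K := by omega
    exact_mod_cast this
  have hHpos : (0 : ℝ) < (H : ℝ) := by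
    have : 0 < H := by omega
    exact_mod_cast this
  have hlogH : (1 / 2 : ℝ) ≤ Real.log H := by
    have h1 : Real.log 2 ≤ Real.log H := by
      apply Real.log_le_log (by norm_num)
      exact_mod_cast hH
    have h2 := Real.log_two_gt_d9
    linarith
  obtain ⟨hn1, hlogn1, hnl⟩ := opt_large A n (Real.log H) hA192 hlogH hn
  have hAA : 192 * A ≤ A ^ 2 := by
    rw [pow_two]
    exact mul_le_mul_of_nonneg_right hA192 (by linarith)
  have hnA : 192 * A ≤ n := hAA.trans hn1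
  have hnpos : (0 : ℝ) < n := by linarith
  have hn1' : (1 : ℝ) ≤ n := by linarith
  obtain ⟨ell, hell⟩ : ∃ ell : ℝ, ell = Real.log n + Real.log H := ⟨_, rfl⟩
  rw [← hell] at hnl
  have hell1 : 1 ≤ ell := by linarith
  have hKl : 0 ≤ (K : ℝ) * ell := mul_nonneg hKpos.le (by linarith)
  obtain ⟨N1, hN1⟩ : ∃ N1 : ℕ, N1 = n / (3 * K) := ⟨_, rfl⟩
  have hN1lt : (n : ℝ) < ((N1 : ℝ) + 1) * (3 * K) := by
    have h0 := Nat.lt_mul_div_succ n (show 0 < 3 * K by omega)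
    rw [← hN1] at h0
    have h1 : (n : ℝ) < ((3 * K * (N1 + 1) : ℕ) : ℝ) := by exact_mod_cast h0
    push_cast at h1
    linarith
  have hN1leN : N1 * (3 * K) ≤ n := by rw [hN1]; exact Nat.div_mul_le_self _ _
  have hN1le : (N1 : ℝ) * (3 * K) ≤ n := by exact_mod_cast hN1leN
  have hN1half : (n : ℝ) ≤ N1 * (6 * K) := by
    have h1 : 6 * (K : ℝ) ≤ n := by linarith
    linarith
  have hKN1r : (K : ℝ) ≤ N1 := by
    have h1 : (K : ℝ) * (6 * K) ≤ N1 * (6 * K) := by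
      have h2 : (K : ℝ) * (6 * K) = 6 * (K : ℝ) ^ 2 := by ring
      rw [h2]
      linarith
    exact le_of_mul_le_mul_right h1 (by linarith)
  have hKN1 : K ≤ N1 := by exact_mod_cast hKN1r
  have hN1n : N1 ≤ n := by rw [hN1]; exact Nat.div_le_self _ _
  -- the predicate
  let p : ℕ → Prop := fun N => K ≤ N ∧ 8 * (K : ℝ) * ell ≤ (N : ℝ) * Real.log ((n : ℝ) / N)
  have hpN1 : p N1 := by
    refine ⟨hKN1, ?_⟩
    have hN1pos : (0 : ℝ) < N1 := by linarith
    have h1 : 1 ≤ Real.log ((n : ℝ) / N1) := by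
      rw [Real.le_log_iff_exp_le (div_pos hnpos hN1pos), le_div_iff₀ hN1pos]
      have h3 := Real.exp_one_lt_d9
      have h4 : Real.exp 1 * N1 ≤ 3 * N1 := mul_le_mul_of_nonneg_right (by linarith) hN1pos.le
      have h5 : (N1 : ℝ) ≤ N1 * K := le_mul_of_one_le_right hN1pos.le hK1
      linarith
    have h2 : 8 * (K : ℝ) * ell ≤ N1 := by
      have h3 : (8 * (K : ℝ) * ell) * (6 * K) ≤ N1 * (6 * K) := by
        have h4 : (8 * (K : ℝ) * ell) * (6 * K) = A / 4 * ell := by rw [hAdef]; ring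
        rw [h4]
        linarith
      exact le_of_mul_le_mul_right h3 (by linarith)
    have h6 : (N1 : ℝ) * 1 ≤ N1 * Real.log ((n : ℝ) / N1) := mul_le_mul_of_nonneg_left h1 hN1pos.le
    linarith
  have hp : ∃ N, p N := ⟨N1, hpN1⟩
  obtain ⟨N, hNp, hmin, hNle⟩ : ∃ N, p N ∧ (∀ M < N, ¬ p M) ∧ N ≤ N1 :=
    ⟨Nat.find hp, Nat.find_spec hp, fun M hM => Nat.find_min hp hM, Nat.find_min' hp hpN1⟩
  have hKN : K ≤ N := hNp.1
  have hNpos : (0 : ℝ) < N := by
    have : 0 < N := by omega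
    exact_mod_cast this
  have hNn : N ≤ n := hNle.trans hN1n
  have hratio : (0 : ℝ) < (n : ℝ) / N := div_pos hnpos hNpos
  have hratio1 : (1 : ℝ) ≤ (n : ℝ) / N := by
    rw [le_div_iff₀ hNpos, one_mul]
    exact_mod_cast hNn
  -- upper bound
  have hup : (N : ℝ) * Real.log ((n : ℝ) / N) ≤ 16 * ((K : ℝ) * ell) := by
    rcases hKN.eq_or_lt with h | h
    · have h1 : Real.log ((n : ℝ) / N) ≤ Real.log n := by
        apply Real.log_le_log hratio
        apply div_le_self hnpos.le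
        have : 1 ≤ N := by omega
        exact_mod_cast this
      have h2 : Real.log n ≤ ell := by linarith
      have h3 : (N : ℝ) = K := by exact_mod_cast h.symm
      have h4 : (N : ℝ) * Real.log ((n : ℝ) / N) ≤ N * ell :=
        mul_le_mul_of_nonneg_left (h1.trans h2) hNpos.le
      have h6 : (N : ℝ) * ell = K * ell := by rw [h3]
      linarith
    · have h1 : ¬ p (N - 1) := hmin (N - 1) (by omega)
      have h2 : ¬ (8 * (K : ℝ) * ell ≤ ((N - 1 : ℕ) : ℝ) * Real.log ((n : ℝ) / ((N - 1 : ℕ) : ℝ))) := by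
        intro h3
        exact h1 ⟨by omega, h3⟩
      push Not at h2
      have h4 := opt_step (n := n) (N := N) (by omega) hNn
      linarith
  refine ⟨N, by omega, ?_, ?_, ?_⟩
  · calc C * N ≤ K * N1 := Nat.mul_le_mul (by omega) hNle
      _ ≤ N1 * (3 * K) := by
        rw [Nat.mul_comm K N1]
        exact Nat.mul_le_mul_left _ (by omega)
      _ ≤ n := hN1leN
  · have hnK : (0 : ℝ) < (n : ℝ) ^ K := pow_pos hnpos K
    have hpos : (0 : ℝ) < (K : ℝ) * (n : ℝ) ^ K * H := mul_pos (mul_pos hKpos hnK) hHpos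
    have h1 : (C : ℝ) * (n : ℝ) ^ C * H ≤ (K : ℝ) * (n : ℝ) ^ K * H := by
      apply mul_le_mul_of_nonneg_right _ hHpos.le
      apply mul_le_mul hCK _ (pow_pos hnpos C).le hKpos.le
      exact pow_le_pow_right₀ hn1' (by omega)
    refine h1.trans ?_
    have hrp : (0 : ℝ) < ((n : ℝ) / N) ^ ((N : ℝ) / 4) := Real.rpow_pos_of_pos hratio _
    have hlhs : Real.log ((K : ℝ) * (n : ℝ) ^ K * H) = Real.log K + K * Real.log n + Real.log H := by
      rw [Real.log_mul (mul_pos hKpos hnK).ne' hHpos.ne', Real.log_mul hKpos.ne' hnK.ne',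
        Real.log_pow]
    have hrhs : Real.log (((n : ℝ) / N) ^ ((N : ℝ) / 4)) = (N : ℝ) / 4 * Real.log ((n : ℝ) / N) :=
      Real.log_rpow hratio _
    have h2 : Real.log K ≤ K - 1 := Real.log_le_sub_one_of_pos hKpos
    have h3 := hNp.2
    have h4 : Real.log K + K * Real.log n + Real.log H ≤ 2 * (K * ell) := by
      have h5 : Real.log H ≤ K * Real.log H := le_mul_of_one_le_left (by linarith) hK1
      have h6 : (K : ℝ) ≤ K * ell := le_mul_of_one_le_right hKpos.le hell1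
      have h7 : (K : ℝ) * ell = K * Real.log n + K * Real.log H := by rw [hell, mul_add]
      linarith
    have h8 : (N : ℝ) / 4 * Real.log ((n : ℝ) / N) = (N : ℝ) * Real.log ((n : ℝ) / N) / 4 := by
      ring
    apply (Real.log_le_log_iff hpos hrp).1
    rw [hlhs, hrhs, h8]
    linarith
  · have hl : (0 : ℝ) < (n : ℝ) ^ C * ((n : ℝ) / N) ^ (C * N) :=
      mul_pos (pow_pos hnpos _) (pow_pos hratio _)
    have hr : (0 : ℝ) < ((n : ℝ) * H) ^ E := pow_pos (mul_pos hnpos hHpos) _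
    have hll : Real.log ((n : ℝ) ^ C * ((n : ℝ) / N) ^ (C * N))
        = C * Real.log n + ((C * N : ℕ) : ℝ) * Real.log ((n : ℝ) / N) := by
      rw [Real.log_mul (pow_pos hnpos _).ne' (pow_pos hratio _).ne', Real.log_pow, Real.log_pow]
    have hrr : Real.log (((n : ℝ) * H) ^ E) = (E : ℝ) * ell := by
      rw [Real.log_pow, Real.log_mul hnpos.ne' hHpos.ne', hell]
    apply (Real.log_le_log_iff hl hr).1
    rw [hll, hrr, hE']
    push_cast
    have h1 : (C : ℝ) * Real.log n ≤ K * ell := by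
      have h2 : Real.log n ≤ ell := by linarith
      have h3 : 0 ≤ Real.log n := by linarith
      exact mul_le_mul hCK h2 h3 hKpos.le
    have h4 : (C : ℝ) * N * Real.log ((n : ℝ) / N) ≤ K * (16 * (K * ell)) := by
      rw [mul_assoc]
      apply mul_le_mul hCK hup _ hKpos.le
      apply mul_nonneg hNpos.le
      exact Real.log_nonneg hratio1
    have h8 : (K : ℝ) + 16 * (K : ℝ) ^ 2 ≤ 2 * A ^ 2 := by
      have h9 : A = 192 * (K : ℝ) ^ 2 := hAdef
      linarith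
    have h9 : (K : ℝ) * ell + K * (16 * (K * ell)) = ((K : ℝ) + 16 * (K : ℝ) ^ 2) * ell := by ring
    have h10 : ((K : ℝ) + 16 * (K : ℝ) ^ 2) * ell ≤ 2 * A ^ 2 * ell :=
      mul_le_mul_of_nonneg_right h8 (by linarith)
    linarith

end Pool.Agent.Lib.MP_524521_nt.PT
end

section
/-!
# Choice of the parameter `N`, at rational points
-/
namespace Pool.Agent.Lib.MP_524521_nt.PT

theorem opt_stepR {x : ℝ} {N : ℕ} (hN : 2 ≤ N) (hx : (N : ℝ) ≤ x) :
    (N : ℝ) * Real.log (x / N) ≤ 2 * (((N - 1 : ℕ) : ℝ) * Real.log (x / ((N - 1 : ℕ) : ℝ))) := by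
  have hN1 : (1 : ℝ) ≤ ((N - 1 : ℕ) : ℝ) := by
    have : 1 ≤ N - 1 := by omega
    exact_mod_cast this
  have hcast : (N : ℝ) = ((N - 1 : ℕ) : ℝ) + 1 := by
    have : N = (N - 1) + 1 := by omega
    exact_mod_cast this
  have hx0 : (0 : ℝ) < x := by linarith
  have h1 : Real.log (x / N) ≤ Real.log (x / ((N - 1 : ℕ) : ℝ)) := by
    apply Real.log_le_log
    · apply div_pos hx0
      linarith
    · apply div_le_div_of_nonneg_left hx0.le (by linarith)
      linarith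
  have h0 : 0 ≤ Real.log (x / N) := by
    apply Real.log_nonneg
    rw [le_div_iff₀ (by linarith)]
    linarith
  have h2 : (N : ℝ) ≤ 2 * ((N - 1 : ℕ) : ℝ) := by linarith
  calc (N : ℝ) * Real.log (x / N)
      ≤ (2 * ((N - 1 : ℕ) : ℝ)) * Real.log (x / ((N - 1 : ℕ) : ℝ)) :=
        mul_le_mul h2 h1 h0 (by linarith)
    _ = _ := by ring

/-- the choice of `N` for a real number `x` and a parameter `B ≥ 1` -/
theorem opt_core (K : ℕ) (hK : 1 ≤ K) (B x : ℝ) (hB : 1 ≤ B) (H : ℕ) (hH : 2 ≤ H)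
    (hx : 2 * (192 * (K : ℝ) ^ 2 * B) ^ 2 * Real.log H ≤ x) :
    ∃ N : ℕ, K ≤ N ∧ (K : ℝ) * B * N ≤ x ∧ 1 ≤ x ∧
      (K : ℝ) * x ^ K * H ≤ (x / N) ^ ((N : ℝ) / 4) ∧
      x ^ K * (x / N) ^ (K * N) ≤ (x * H) ^ (2 * (192 * K ^ 2) ^ 2) := by
  classical
  obtain ⟨A, hAdef⟩ : ∃ A : ℝ, A = 192 * (K : ℝ) ^ 2 * B := ⟨_, rfl⟩
  rw [← hAdef] at hx
  have hK1 : (1 : ℝ) ≤ (K : ℝ) := by exact_mod_cast hK
  have hKpos : (0 : ℝ) < (K : ℝ) := by linarith
  have hK2 : (1 : ℝ) ≤ (K : ℝ) ^ 2 := one_le_pow₀ hK1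
  have hKK : (K : ℝ) ≤ (K : ℝ) ^ 2 := by
    rw [pow_two]
    exact le_mul_of_one_le_left hKpos.le hK1
  have hBpos : (0 : ℝ) < B := by linarith
  have hK2B : (K : ℝ) ^ 2 ≤ (K : ℝ) ^ 2 * B := le_mul_of_one_le_right (by positivity) hB
  have hKB1 : (K : ℝ) ≤ (K : ℝ) * B := le_mul_of_one_le_right hKpos.le hB
  have hKBpos : 0 < (K : ℝ) * B := mul_pos hKpos hBpos
  have hKBK2B : (K : ℝ) * B ≤ (K : ℝ) ^ 2 * B := mul_le_mul_of_nonneg_right hKK hBpos.le
  have hA192' : 192 * ((K : ℝ) ^ 2 * B) = A := by rw [hAdef]; ring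
  have hA192 : 192 ≤ A := by linarith
  have hHpos : (0 : ℝ) < (H : ℝ) := by
    have : 0 < H := by omega
    exact_mod_cast this
  have hlogH : (1 / 2 : ℝ) ≤ Real.log H := by
    have h1 : Real.log 2 ≤ Real.log H := by
      apply Real.log_le_log (by norm_num)
      exact_mod_cast hH
    have h2 := Real.log_two_gt_d9
    linarith
  obtain ⟨hn1, hlogn1, hnl⟩ := opt_large A x (Real.log H) hA192 hlogH hx
  have hAA : 192 * A ≤ A ^ 2 := by
    rw [pow_two]
    exact mul_le_mul_of_nonneg_right hA192 (by linarith)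
  have hnA : 192 * A ≤ x := hAA.trans hn1
  have hxpos : (0 : ℝ) < x := by linarith
  have hx1 : (1 : ℝ) ≤ x := by linarith
  obtain ⟨ell, hell⟩ : ∃ ell : ℝ, ell = Real.log x + Real.log H := ⟨_, rfl⟩
  rw [← hell] at hnl
  have hell1 : 1 ≤ ell := by linarith
  have hKl : 0 ≤ (K : ℝ) * ell := mul_nonneg hKpos.le (by linarith)
  have hxKB : 6 * ((K : ℝ) * B) ≤ x := by linarith
  have hxKB3 : 0 ≤ x / (3 * ((K : ℝ) * B)) := by positivity
  obtain ⟨N1, hN1⟩ : ∃ N1 : ℕ, N1 = ⌊x / (3 * ((K : ℝ) * B))⌋₊ := ⟨_, rfl⟩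
  have hN1le : (N1 : ℝ) * (3 * ((K : ℝ) * B)) ≤ x := by
    have h0 := Nat.floor_le hxKB3
    rw [← hN1, le_div_iff₀ (by positivity)] at h0
    exact h0
  have hN1lt : x < ((N1 : ℝ) + 1) * (3 * ((K : ℝ) * B)) := by
    have h0 := Nat.lt_floor_add_one (x / (3 * ((K : ℝ) * B)))
    rw [← hN1, div_lt_iff₀ (by positivity)] at h0
    exact h0
  have hN1half : x ≤ N1 * (6 * ((K : ℝ) * B)) := by linarith
  have h6pos : 0 < 6 * ((K : ℝ) * B) := by positivity
  have hKN1r : (K : ℝ) ≤ N1 := by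
    have h1 : (K : ℝ) * (6 * ((K : ℝ) * B)) ≤ N1 * (6 * ((K : ℝ) * B)) := by
      have h2 : (K : ℝ) * (6 * ((K : ℝ) * B)) = 6 * ((K : ℝ) ^ 2 * B) := by ring
      rw [h2]
      linarith
    exact le_of_mul_le_mul_right h1 h6pos
  have hKN1 : K ≤ N1 := by exact_mod_cast hKN1r
  have hN1pos : (0 : ℝ) < N1 := by linarith
  have hN1x : (N1 : ℝ) ≤ x := by
    have h1 : (N1 : ℝ) * 1 ≤ N1 * (3 * ((K : ℝ) * B)) :=
      mul_le_mul_of_nonneg_left (by linarith) hN1pos.le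
    linarith
  -- the predicate
  let p : ℕ → Prop := fun N => K ≤ N ∧ 8 * (K : ℝ) * ell ≤ (N : ℝ) * Real.log (x / N)
  have hpN1 : p N1 := by
    refine ⟨hKN1, ?_⟩
    have h1 : 1 ≤ Real.log (x / N1) := by
      rw [Real.le_log_iff_exp_le (div_pos hxpos hN1pos), le_div_iff₀ hN1pos]
      have h3 := Real.exp_one_lt_d9
      have h4 : Real.exp 1 * N1 ≤ 3 * N1 := mul_le_mul_of_nonneg_right (by linarith) hN1pos.le
      have h5 : (N1 : ℝ) ≤ N1 * ((K : ℝ) * B) := le_mul_of_one_le_right hN1pos.le (by linarith)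
      linarith
    have h2 : 8 * (K : ℝ) * ell ≤ N1 := by
      have h3 : (8 * (K : ℝ) * ell) * (6 * ((K : ℝ) * B)) ≤ N1 * (6 * ((K : ℝ) * B)) := by
        have h4 : (8 * (K : ℝ) * ell) * (6 * ((K : ℝ) * B)) = A / 4 * ell := by rw [hAdef]; ring
        rw [h4]
        linarith
      exact le_of_mul_le_mul_right h3 h6pos
    have h6 : (N1 : ℝ) * 1 ≤ N1 * Real.log (x / N1) := mul_le_mul_of_nonneg_left h1 hN1pos.le
    linarith
  have hp : ∃ N, p N := ⟨N1, hpN1⟩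
  obtain ⟨N, hNp, hmin, hNle⟩ : ∃ N, p N ∧ (∀ M < N, ¬ p M) ∧ N ≤ N1 :=
    ⟨Nat.find hp, Nat.find_spec hp, fun M hM => Nat.find_min hp hM, Nat.find_min' hp hpN1⟩
  have hKN : K ≤ N := hNp.1
  have hNpos : (0 : ℝ) < N := by
    have : 0 < N := by omega
    exact_mod_cast this
  have hNleR : (N : ℝ) ≤ N1 := by exact_mod_cast hNle
  have hNx : (N : ℝ) ≤ x := hNleR.trans hN1x
  have hratio : (0 : ℝ) < x / N := div_pos hxpos hNpos
  have hratio1 : (1 : ℝ) ≤ x / N := by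
    rw [le_div_iff₀ hNpos, one_mul]
    exact hNx
  -- upper bound
  have hup : (N : ℝ) * Real.log (x / N) ≤ 16 * ((K : ℝ) * ell) := by
    rcases hKN.eq_or_lt with h | h
    · have h1 : Real.log (x / N) ≤ Real.log x := by
        apply Real.log_le_log hratio
        apply div_le_self hxpos.le
        have : 1 ≤ N := by omega
        exact_mod_cast this
      have h2 : Real.log x ≤ ell := by linarith
      have h3 : (N : ℝ) = K := by exact_mod_cast h.symm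
      have h4 : (N : ℝ) * Real.log (x / N) ≤ N * ell :=
        mul_le_mul_of_nonneg_left (h1.trans h2) hNpos.le
      have h6 : (N : ℝ) * ell = K * ell := by rw [h3]
      linarith
    · have h1 : ¬ p (N - 1) := hmin (N - 1) (by omega)
      have h2 : ¬ (8 * (K : ℝ) * ell ≤ ((N - 1 : ℕ) : ℝ) * Real.log (x / ((N - 1 : ℕ) : ℝ))) := by
        intro h3
        exact h1 ⟨by omega, h3⟩
      push Not at h2
      have h4 := opt_stepR (x := x) (N := N) (by omega) hNx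
      linarith
  refine ⟨N, hKN, ?_, hx1, ?_, ?_⟩
  · have h1 : (N : ℝ) * (3 * ((K : ℝ) * B)) ≤ N1 * (3 * ((K : ℝ) * B)) :=
      mul_le_mul_of_nonneg_right hNleR (by positivity)
    have h2 : 0 ≤ (N : ℝ) * ((K : ℝ) * B) := by positivity
    have h3 : (K : ℝ) * B * N = N * ((K : ℝ) * B) := by ring
    rw [h3]
    linarith
  · have hnK : (0 : ℝ) < x ^ K := pow_pos hxpos K
    have hpos : (0 : ℝ) < (K : ℝ) * x ^ K * H := mul_pos (mul_pos hKpos hnK) hHpos
    have hrp : (0 : ℝ) < (x / N) ^ ((N : ℝ) / 4) := Real.rpow_pos_of_pos hratio _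
    have hlhs : Real.log ((K : ℝ) * x ^ K * H) = Real.log K + K * Real.log x + Real.log H := by
      rw [Real.log_mul (mul_pos hKpos hnK).ne' hHpos.ne', Real.log_mul hKpos.ne' hnK.ne',
        Real.log_pow]
    have hrhs : Real.log ((x / N) ^ ((N : ℝ) / 4)) = (N : ℝ) / 4 * Real.log (x / N) :=
      Real.log_rpow hratio _
    have h2 : Real.log K ≤ K - 1 := Real.log_le_sub_one_of_pos hKpos
    have h3 := hNp.2
    have h4 : Real.log K + K * Real.log x + Real.log H ≤ 2 * (K * ell) := by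
      have h5 : Real.log H ≤ K * Real.log H := le_mul_of_one_le_left (by linarith) hK1
      have h6 : (K : ℝ) ≤ K * ell := le_mul_of_one_le_right hKpos.le hell1
      have h7 : (K : ℝ) * ell = K * Real.log x + K * Real.log H := by rw [hell, mul_add]
      linarith
    have h8 : (N : ℝ) / 4 * Real.log (x / N) = (N : ℝ) * Real.log (x / N) / 4 := by
      ring
    apply (Real.log_le_log_iff hpos hrp).1
    rw [hlhs, hrhs, h8]
    linarith
  · have hl : (0 : ℝ) < x ^ K * (x / N) ^ (K * N) :=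
      mul_pos (pow_pos hxpos _) (pow_pos hratio _)
    have hr : (0 : ℝ) < (x * H) ^ (2 * (192 * K ^ 2) ^ 2) := pow_pos (mul_pos hxpos hHpos) _
    have hll : Real.log (x ^ K * (x / N) ^ (K * N))
        = K * Real.log x + ((K * N : ℕ) : ℝ) * Real.log (x / N) := by
      rw [Real.log_mul (pow_pos hxpos _).ne' (pow_pos hratio _).ne', Real.log_pow, Real.log_pow]
    have hrr : Real.log ((x * H) ^ (2 * (192 * K ^ 2) ^ 2)) = 2 * (192 * (K : ℝ) ^ 2) ^ 2 * ell := by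
      rw [Real.log_pow, Real.log_mul hxpos.ne' hHpos.ne', hell]
      push_cast
      ring
    apply (Real.log_le_log_iff hl hr).1
    rw [hll, hrr]
    push_cast
    have h1 : (K : ℝ) * Real.log x ≤ K * ell := by
      have h2 : Real.log x ≤ ell := by linarith
      exact mul_le_mul_of_nonneg_left h2 hKpos.le
    have h4 : (K : ℝ) * N * Real.log (x / N) ≤ K * (16 * (K * ell)) := by
      rw [mul_assoc]
      exact mul_le_mul_of_nonneg_left hup hKpos.le
    have h8 : (K : ℝ) + 16 * (K : ℝ) ^ 2 ≤ 2 * (192 * (K : ℝ) ^ 2) ^ 2 := by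
      have h9 : (192 * (K : ℝ) ^ 2) ^ 2 = 36864 * ((K : ℝ) ^ 2 * (K : ℝ) ^ 2) := by ring
      have h10 : (K : ℝ) ^ 2 ≤ (K : ℝ) ^ 2 * (K : ℝ) ^ 2 := le_mul_of_one_le_left (by positivity) hK2
      rw [h9]
      linarith
    have h9 : (K : ℝ) * ell + K * (16 * (K * ell)) = ((K : ℝ) + 16 * (K : ℝ) ^ 2) * ell := by ring
    have h10 : ((K : ℝ) + 16 * (K : ℝ) ^ 2) * ell ≤ 2 * (192 * (K : ℝ) ^ 2) ^ 2 * ell :=
      mul_le_mul_of_nonneg_right h8 (by linarith)
    linarith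

theorem optR (C : ℕ) : ∃ C' : ℕ, ∀ H r b : ℕ, 2 ≤ H → 1 ≤ b →
    (C' : ℝ) * b ^ C' * Real.log H ≤ r / b → ∃ N : ℕ, C ≤ N ∧
      (C : ℝ) * b ^ C * N ≤ (r : ℝ) / b ∧
      (C : ℝ) * ((r : ℝ) / b) ^ C * H ≤ ((r : ℝ) / b / N) ^ ((N : ℝ) / 4) ∧
      ((r : ℝ) / b) ^ C * ((r : ℝ) / b / N) ^ (C * N) ≤ ((r : ℝ) / b * H) ^ C' := by
  refine ⟨2 * (192 * (C + 1) ^ 2) ^ 2, ?_⟩
  intro H r b hH hb hx
  obtain ⟨x, hxdef⟩ : ∃ x : ℝ, x = (r : ℝ) / b := ⟨_, rfl⟩
  rw [← hxdef] at hx ⊢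
  have hb1 : (1 : ℝ) ≤ (b : ℝ) := by exact_mod_cast hb
  have hB : (1 : ℝ) ≤ (b : ℝ) ^ C := one_le_pow₀ hb1
  have hlogH : 0 ≤ Real.log H := by
    apply Real.log_nonneg
    have : 1 ≤ H := by omega
    exact_mod_cast this
  have hx' : 2 * (192 * ((C + 1 : ℕ) : ℝ) ^ 2 * (b : ℝ) ^ C) ^ 2 * Real.log H ≤ x := by
    refine le_trans ?_ hx
    apply mul_le_mul_of_nonneg_right _ hlogH
    push_cast
    have h1 : ((b : ℝ) ^ C) ^ 2 ≤ (b : ℝ) ^ (2 * (192 * (C + 1) ^ 2) ^ 2) := by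
      rw [← pow_mul]
      apply pow_le_pow_right₀ hb1
      nlinarith [Nat.zero_le C, Nat.zero_le (C ^ 2), Nat.zero_le (C ^ 3), Nat.zero_le (C ^ 4)]
    have h2 : 2 * (192 * ((C : ℝ) + 1) ^ 2 * (b : ℝ) ^ C) ^ 2
        = 2 * (192 * ((C : ℝ) + 1) ^ 2) ^ 2 * ((b : ℝ) ^ C) ^ 2 := by ring
    rw [h2]
    exact mul_le_mul_of_nonneg_left h1 (by positivity)
  obtain ⟨N, hN1, hN2, hx1, hN3, hN4⟩ := opt_core (C + 1) (by omega) ((b : ℝ) ^ C) x hB H hH hx'
  have hx0 : 0 < x := by linarith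
  have hNpos : (0 : ℝ) < N := by
    have : 0 < N := by omega
    exact_mod_cast this
  have hNx : (N : ℝ) ≤ x := by
    refine le_trans ?_ hN2
    apply le_mul_of_one_le_left hNpos.le
    have : (1 : ℝ) ≤ ((C + 1 : ℕ) : ℝ) := by
      have : 1 ≤ C + 1 := by omega
      exact_mod_cast this
    exact one_le_mul_of_one_le_of_one_le this hB
  have hratio1 : (1 : ℝ) ≤ x / N := by
    rw [le_div_iff₀ hNpos, one_mul]
    exact hNx
  have hCK : (C : ℝ) ≤ ((C + 1 : ℕ) : ℝ) := by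
    have : C ≤ C + 1 := by omega
    exact_mod_cast this
  refine ⟨N, by omega, ?_, ?_, ?_⟩
  · refine le_trans ?_ hN2
    apply mul_le_mul_of_nonneg_right _ hNpos.le
    exact mul_le_mul_of_nonneg_right hCK (by linarith)
  · refine le_trans ?_ hN3
    apply mul_le_mul_of_nonneg_right _ (by positivity)
    apply mul_le_mul hCK _ (pow_pos hx0 C).le (by positivity)
    exact pow_le_pow_right₀ hx1 (by omega)
  · refine le_trans ?_ hN4
    apply mul_le_mul
    · exact pow_le_pow_right₀ hx1 (by omega)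
    · apply pow_le_pow_right₀ hratio1
      exact Nat.mul_le_mul_right _ (by omega)
    · positivity
    · positivity

end Pool.Agent.Lib.MP_524521_nt.PT
end
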